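import Pool.Agent.VJ26.Defs

/-!
# [VJ-CMA] The class of mixtures of exponentials: closure properties

This file: `CM.measurable`, `CM.const`, `CM.mul`, `CM.pow`, `CM.mono`

`CM U f`: `f β = ∫ exp(-∑_{i∈U} l_i β_i) dm(l)` for all `β`, `m` s-finite, `l_i ≥ 0` (`i ∈ U`)
`m`-a.e. Products: `m = (m₁.prod m₂).map (fun p => p.1 + p.2)`; countable sums: `Measure.sum`;
constants: `c • dirac 0`; `1/(2β_i)`: `m` = image of Lebesgue measure on `Ioi 0` under
`t ↦ Pi.single i (2 t)`, `∫_0^∞ exp(-2 β_i t) dt = 1/(2β_i)` for `β_i > 0`. `CM.mono`: map `m` by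
`l ↦ (fun i => if i ∈ U then l i else 0)`.
-/

open MeasureTheory Real
open scoped ENNReal

namespace VJ26

variable {α : Type*} [DecidableEq α]
variable {U V : Finset α} {f g : (α → ℝ) → ℝ≥0∞} {i : α}

omit [DecidableEq α] in
theorem CM.measurable_ker (U : Finset α) (β : α → ℝ) :
    Measurable (fun l : α → ℝ => ENNReal.ofReal (exp (-∑ i ∈ U, l i * β i))) := by
  apply ENNReal.measurable_ofReal.comp
  apply Real.measurable_exp.comp
  apply Measurable.neg
  exact Finset.measurable_sum _ (fun i _ => (measurable_pi_apply i).mul_const _)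

omit [DecidableEq α] in
theorem CM.measurable_ker2 (U : Finset α) :
    Measurable (fun p : (α → ℝ) × (α → ℝ) =>
      ENNReal.ofReal (exp (-∑ i ∈ U, p.2 i * p.1 i))) := by
  apply ENNReal.measurable_ofReal.comp
  apply Real.measurable_exp.comp
  apply Measurable.neg
  exact Finset.measurable_sum _ (fun i _ =>
    ((measurable_pi_apply i).comp measurable_snd).mul
      ((measurable_pi_apply i).comp measurable_fst))

omit [DecidableEq α] in
theorem CM.measurable (hf : CM U f) : Measurable f := by
  obtain ⟨m, hm, _, hfe⟩ := hf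
  have : f = fun β => ∫⁻ l, ENNReal.ofReal (exp (-∑ i ∈ U, l i * β i)) ∂m := funext hfe
  rw [this]
  exact Measurable.lintegral_prod_right' (CM.measurable_ker2 U)

omit [DecidableEq α] in
theorem CM.const (c : NNReal) : CM U (fun _ => (c : ℝ≥0∞)) := by
  refine ⟨(c : ℝ≥0∞) • Measure.dirac 0, inferInstance, ?_, ?_⟩
  · intro i _
    apply Measure.ae_smul_measure
    rw [ae_dirac_iff (measurableSet_le measurable_const (measurable_pi_apply i))]
    simp
  · intro β
    rw [lintegral_smul_measure, lintegral_dirac' _ (CM.measurable_ker U β)]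
    simp

omit [DecidableEq α] in
theorem CM.mul (hf : CM U f) (hg : CM U g) : CM U (fun β => f β * g β) := by
  obtain ⟨m, hm, hmp, hfe⟩ := hf
  obtain ⟨k, hk, hkp, hge⟩ := hg
  have hadd : Measurable (fun p : (α → ℝ) × (α → ℝ) => p.1 + p.2) := by
    rw [measurable_pi_iff]
    intro i
    exact ((measurable_pi_apply i).comp measurable_fst).add
      ((measurable_pi_apply i).comp measurable_snd)
  refine ⟨(m.prod k).map (fun p => p.1 + p.2), inferInstance, ?_, ?_⟩
  · intro i hi
    rw [ae_map_iff hadd.aemeasurable (measurableSet_le measurable_const (measurable_pi_apply i))]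
    have h1 := (Measure.quasiMeasurePreserving_fst (μ := m) (ν := k)).ae (hmp i hi)
    have h2 := (Measure.quasiMeasurePreserving_snd (μ := m) (ν := k)).ae (hkp i hi)
    filter_upwards [h1, h2] with p hp1 hp2
    exact add_nonneg hp1 hp2
  · intro β
    rw [lintegral_map (CM.measurable_ker U β) hadd]
    change f β * g β = _
    rw [hfe β, hge β, ← lintegral_prod_mul (CM.measurable_ker U β).aemeasurable
      (CM.measurable_ker U β).aemeasurable]
    apply lintegral_congr
    intro p
    rw [← ENNReal.ofReal_mul (exp_nonneg _), ← Real.exp_add]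
    congr 2
    rw [← neg_add, ← Finset.sum_add_distrib]
    congr 1
    apply Finset.sum_congr rfl
    intro i _
    simp only [Pi.add_apply]
    ring

omit [DecidableEq α] in
theorem CM.pow (hf : CM U f) (n : ℕ) : CM U (fun β => f β ^ n) := by
  induction n with
  | zero => simpa using (CM.const (U := U) 1)
  | succ n ih =>
    have := CM.mul ih hf
    simpa only [pow_succ] using this

theorem CM.mono (hUV : U ⊆ V) (hf : CM U f) : CM V f := by
  obtain ⟨m, hm, hmp, hfe⟩ := hf
  have hr : Measurable (fun (l : α → ℝ) (i : α) => if i ∈ U then l i else (0 : ℝ)) := by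
    rw [measurable_pi_iff]
    intro i
    by_cases h : i ∈ U
    · simpa [h] using measurable_pi_apply i
    · simp [h]
  refine ⟨m.map (fun (l : α → ℝ) (i : α) => if i ∈ U then l i else (0 : ℝ)), inferInstance,
    ?_, ?_⟩
  · intro i _
    rw [ae_map_iff hr.aemeasurable (measurableSet_le measurable_const (measurable_pi_apply i))]
    by_cases h : i ∈ U
    · simpa [h] using hmp i h
    · simp [h]
  · intro β
    rw [lintegral_map (CM.measurable_ker V β) hr, hfe β]
    apply lintegral_congr
    intro l
    congr 3
    rw [← Finset.sum_subset hUV]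
    · apply Finset.sum_congr rfl
      intro i hi
      simp [hi]
    · intro i _ hi
      simp [hi]

end VJ26
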