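import Pool.Agent.VJ26.Green2

/-!
# [VJ-GREEN2B] Adding one vertex (Schur complement)

This file: `bil_insert`, `psi_insert`, `psi_insert_self`, `cap_insert`

`schur_good`: let `G = gr W U β` be good, `w = W m`, `q = ⟨w, G w⟩`, `2 β_m = 1/t + q`,
`κ_i = (G w)_i` on `U`, `κ_m = 1` (`κ_i = 0` elsewhere, automatically, since `psi` is zero
off `U`). Then `G⁺_ij = G_ij + t κ_i κ_j` is the Green function of `insert m U`.
 * equation, row `i ∈ U`: `2β_i G⁺_ij - ∑_{k∈U} W_ik G⁺_kj - W_im G⁺_mj`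
   `= [2β_i G_ij - ∑_{k∈U} W_ik G_kj] + t κ_j [2β_i κ_i - ∑_{k∈U} W_ik κ_k - W_im]` and the last
   bracket is `0` since `H_U (G w) = w` on `U`; (for `j = m`: `G_im = 0`, `G_km = 0`.)
   (`G_mj = 0` since `m ∉ U`.)
 * row `m`: `2β_m t κ_j - ∑_{k∈U} w_k (G_kj + t κ_k κ_j) - W_mm G⁺_mj`
   `= κ_j t (2β_m - q) - (G w)_j = κ_j - (G w)_j` (`(G w)_j = 0` for `j = m`), which is
   `0` for `j ∈ U` and `1` for `j = m`.
 * symmetric, nonnegative (`t > 0`, `κ ≥ 0`), `⟨x, G⁺ x⟩ = ⟨x, G x⟩_U + t (∑ κ_i x_i)^2 ≥ 0`,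
   positive diagonal.

`schur_T`: from the equations for `G⁺ = gr W (insert m U) β`, `T = G⁺_mm > 0`: for `i ∈ U`,
`∑_k H_U(i,k) G⁺_km = w_i T`, hence `G⁺_km = T (G w)_k` (multiply by `G`); row `m`:
`2 β_m T - ∑_{k∈U} w_k G⁺_km = 1`, i.e. `2β_m = 1/T + ⟨w, G w⟩`.

`gr_insert` = `schur_T` + `schur_good` + `IsGreen.eq_gr`. The rest is algebra.
-/

open MeasureTheory Real
open scoped ENNReal

namespace VJ26

variable {α : Type*} [DecidableEq α]
variable {W : α → α → ℝ} {U : Finset α} {β θ x y : α → ℝ} {m i j p q : α} {t : ℝ}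

private theorem grn2b_sum_kap (hm : m ∉ U) (x : α → ℝ) :
    ∑ i ∈ insert m U, x i * kap W U β m i = x m + bil W U β x (W m) := by
  rw [Finset.sum_insert hm, bil_eq_sum_psi]
  have h1 : kap W U β m m = 1 := by simp [kap]
  rw [h1, mul_one]
  congr 1
  apply Finset.sum_congr rfl
  intro i hi
  have him : i ≠ m := fun h => hm (h ▸ hi)
  simp [kap, him]

theorem bil_insert (hW : Wt W) (hG : Good W U β) (hG' : Good W (insert m U) β) (hm : m ∉ U)
    (x y : α → ℝ) :
    bil W (insert m U) β x y =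
      bil W U β x y + gr W (insert m U) β m m * (x m + bil W U β x (W m)) *
        (y m + bil W U β (W m) y) := by
  have h2 : ∑ i ∈ insert m U, ∑ j ∈ insert m U, x i * gr W U β i j * y j =
      bil W U β x y := by
    unfold bil
    rw [Finset.sum_insert hm, Finset.sum_eq_zero, zero_add]
    · apply Finset.sum_congr rfl
      intro i _
      rw [Finset.sum_insert hm, gr_zero_right hm]
      ring
    · intro j _
      rw [gr_zero_left hm]
      ring
  rw [bil_symm hG (W m) y, ← grn2b_sum_kap hm x, ← grn2b_sum_kap hm y, ← h2, mul_assoc,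
    Finset.sum_mul_sum, Finset.mul_sum, ← Finset.sum_add_distrib]
  unfold bil
  apply Finset.sum_congr rfl
  intro i _
  rw [Finset.mul_sum, ← Finset.sum_add_distrib]
  apply Finset.sum_congr rfl
  intro j _
  rw [gr_insert hW hG hG' hm i j]
  ring

theorem psi_insert (hW : Wt W) (hG : Good W U β) (hG' : Good W (insert m U) β) (hm : m ∉ U)
    (θ : α → ℝ) (i : α) :
    psi W (insert m U) β θ i =
      psi W U β θ i + gr W (insert m U) β m m * kap W U β m i * sfn W U θ m β := by
  have h2 : ∑ j ∈ insert m U, gr W U β i j * θ j = psi W U β θ i := by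
    unfold psi
    rw [Finset.sum_insert hm, gr_zero_right hm]
    ring
  unfold sfn
  rw [bil_symm hG (W m) θ, ← grn2b_sum_kap hm θ, ← h2, Finset.mul_sum,
    ← Finset.sum_add_distrib]
  unfold psi
  apply Finset.sum_congr rfl
  intro j _
  rw [gr_insert hW hG hG' hm i j]
  ring

theorem psi_insert_self (hW : Wt W) (hG : Good W U β) (hG' : Good W (insert m U) β)
    (hm : m ∉ U) (θ : α → ℝ) :
    psi W (insert m U) β θ m = sfn W U θ m β * gr W (insert m U) β m m := by
  rw [psi_insert hW hG hG' hm, psi_zero_off hm]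
  have h1 : kap W U β m m = 1 := by simp [kap]
  rw [h1]
  ring

theorem cap_insert (hW : Wt W) (hG : Good W U β) (hG' : Good W (insert m U) β) (hm : m ∉ U)
    (p q : α) :
    cap W (insert m U) β p q =
      cap W U β p q + cap W U β p m * cap W U β m q * gr W (insert m U) β m m := by
  unfold cap
  rw [bil_insert hW hG hG' hm, hW.symm q m]
  ring

end VJ26
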