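import Pool.Agent.VJ26.CMs
import Pool.Agent.VJ26.Green2b

/-!
# [VJ-CMB] Green function entries are mixtures of exponentials

This file: `AllGood.mono`, `cm_gr`

`cm_gr`: induction on `U` (`Finset.induction`): `gr W ∅ = 0`. For `insert m U` use `gr_insert`:
`G⁺_ij = G_ij + T κ_i κ_j`, with `κ` a finite sum of `G` entries times `W ≥ 0` and, by `schur_T`,
`T = 1/(2β_m - q)`, `q = bil W U β (W m) (W m) ∈ [0, 2β_m)`, so
`T = ∑_n q^n (1/(2β_m))^(n+1)` (geometric series with ratio `q/(2β_m) < 1`; in `ENNReal`: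
`ENNReal.ofReal` of the real `tsum`, `ENNReal.ofReal_tsum_of_nonneg`). `AllGood` restricts to
subsets.
`cm_bil`: finite sum. `cm_expBil`: `exp z = ∑ z^n/n!` (`Real.exp_eq_tsum`, `NormedSpace`).
-/

open MeasureTheory Real
open scoped ENNReal

namespace VJ26

variable {α : Type*} [DecidableEq α]
variable {W : α → α → ℝ} {U V : Finset α} {x y : α → ℝ}

theorem AllGood.mono {β : α → ℝ} (hUV : U ⊆ V) (h : AllGood W V β) : AllGood W U β :=
  ⟨fun U' hU' => h.1 U' (hU'.trans hUV), fun i hi => h.2 i (hUV hi)⟩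

omit [DecidableEq α] in
private theorem cmb_smul {f : (α → ℝ) → ℝ≥0∞} {c : ℝ} (hf : CM U f) :
    CM U (fun β => ENNReal.ofReal c * f β) := by
  have h := CM.mul (CM.const (U := U) c.toNNReal) hf
  exact h

/-- The geometric series for the last Green entry. -/
private theorem cmb_geom {a q T : ℝ} (ha : 0 < a) (hq : 0 ≤ q) (hT : 0 < T)
    (h : a = 1 / T + q) :
    ENNReal.ofReal T = ∑' n : ℕ, ENNReal.ofReal q ^ n * ENNReal.ofReal (1 / a) ^ (n + 1) := by
  have hqa : q < a := by
    have : 0 < 1 / T := by positivity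
    linarith
  have hr0 : 0 ≤ q * (1 / a) := by positivity
  have hr1 : q * (1 / a) < 1 := by
    rw [mul_one_div, div_lt_one ha]; exact hqa
  have hs := hasSum_geometric_of_lt_one hr0 hr1
  have hs2 := hs.mul_left (1 / a)
  have hT' : T = 1 / a * (1 - q * (1 / a))⁻¹ := by
    have h1 : (1 : ℝ) / T = a - q := by linarith
    have h2 : T = 1 / (a - q) := by
      rw [← h1]; simp
    rw [h2]
    have h3 : a - q ≠ 0 := by linarith
    field_simp
  rw [hT', ← hs2.tsum_eq, ENNReal.ofReal_tsum_of_nonneg]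
  · refine tsum_congr fun n => ?_
    rw [← ENNReal.ofReal_pow hq, ← ENNReal.ofReal_pow (by positivity), ← ENNReal.ofReal_mul (by positivity)]
    congr 1
    rw [mul_pow, pow_succ]
    ring
  · intro n
    positivity
  · exact hs2.summable

theorem cm_gr (hW : Wt W) (U : Finset α) (i j : α) :
    ∃ f : (α → ℝ) → ℝ≥0∞, CM U f ∧
      ∀ β, AllGood W U β → f β = ENNReal.ofReal (gr W U β i j) := by
  induction U using Finset.induction_on generalizing i j with
  | empty =>
    refine ⟨fun _ => ((0 : NNReal) : ℝ≥0∞), CM.const 0, fun β _ => ?_⟩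
    rw [gr_zero_left (Finset.notMem_empty i)]
    simp
  | insert m U hm ih =>
    choose F hF hFe using ih
    -- kappa
    have hκ : ∀ i : α, ∃ f : (α → ℝ) → ℝ≥0∞, CM U f ∧
        ∀ β, AllGood W U β → f β = ENNReal.ofReal (kap W U β m i) := by
      intro i
      by_cases h : i = m
      · refine ⟨fun _ => ((1 : NNReal) : ℝ≥0∞), CM.const 1, fun β _ => ?_⟩
        simp [kap, h]
      · refine ⟨fun β => ∑ k ∈ U, ENNReal.ofReal (W m k) * F i k β,
          CM.sum U fun k _ => cmb_smul (hF i k), fun β hβ => ?_⟩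
        have hG : Good W U β := hβ.1 U (Finset.Subset.refl U)
        simp only [kap, h, if_false, psi]
        rw [ENNReal.ofReal_sum_of_nonneg]
        · refine Finset.sum_congr rfl fun k _ => ?_
          rw [hFe i k β hβ, ENNReal.ofReal_mul' (hW.nonneg m k), mul_comm]
        · intro k _
          exact mul_nonneg (hG.nonneg i k) (hW.nonneg m k)
    choose K hK hKe using hκ
    -- q
    obtain ⟨Q, hQ, hQe⟩ : ∃ f : (α → ℝ) → ℝ≥0∞, CM U f ∧
        ∀ β, AllGood W U β → f β = ENNReal.ofReal (bil W U β (W m) (W m)) := by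
      refine ⟨fun β => ∑ a ∈ U, ∑ b ∈ U,
        ENNReal.ofReal (W m a * W m b) * F a b β,
        CM.sum U fun a _ => CM.sum U fun b _ => cmb_smul (hF a b), fun β hβ => ?_⟩
      have hG : Good W U β := hβ.1 U (Finset.Subset.refl U)
      unfold bil
      rw [ENNReal.ofReal_sum_of_nonneg]
      · refine Finset.sum_congr rfl fun a _ => ?_
        rw [ENNReal.ofReal_sum_of_nonneg]
        · refine Finset.sum_congr rfl fun b _ => ?_
          rw [hFe a b β hβ, ← ENNReal.ofReal_mul (mul_nonneg (hW.nonneg m a) (hW.nonneg m b))]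
          congr 1
          ring
        · intro b _
          exact mul_nonneg (mul_nonneg (hW.nonneg m a) (hG.nonneg a b)) (hW.nonneg m b)
      · intro a _
        refine Finset.sum_nonneg fun b _ => ?_
        exact mul_nonneg (mul_nonneg (hW.nonneg m a) (hG.nonneg a b)) (hW.nonneg m b)
    obtain ⟨B, hB, hBe⟩ := CM.invBeta (Finset.mem_insert_self m U)
    have hsub : U ⊆ insert m U := Finset.subset_insert m U
    have hTT : CM (insert m U) (fun β => ∑' n : ℕ, Q β ^ n * B β ^ (n + 1)) :=
      CM.tsum fun n => CM.mul (CM.pow (CM.mono hsub hQ) n) (CM.pow hB (n + 1))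
    refine ⟨fun β => F i j β + (∑' n : ℕ, Q β ^ n * B β ^ (n + 1)) * K i β * K j β, ?_, ?_⟩
    · exact CM.add (CM.mono hsub (hF i j))
        (CM.mul (CM.mul hTT (CM.mono hsub (hK i))) (CM.mono hsub (hK j)))
    · intro β hβ
      have hβU : AllGood W U β := hβ.mono hsub
      have hG : Good W U β := hβU.1 U (Finset.Subset.refl U)
      have hG' : Good W (insert m U) β := hβ.1 _ (Finset.Subset.refl _)
      have hβm : 0 < β m := hβ.2 m (Finset.mem_insert_self m U)
      have hT : 0 < gr W (insert m U) β m m := hG'.pos m (Finset.mem_insert_self _ _)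
      have hq : 0 ≤ bil W U β (W m) (W m) := bil_self_nonneg hG (W m)
      have hgeo := cmb_geom (a := 2 * β m) (by positivity) hq hT (schur_T hW hG hG' hm)
      have hTe : (∑' n : ℕ, Q β ^ n * B β ^ (n + 1)) =
          ENNReal.ofReal (gr W (insert m U) β m m) := by
        rw [hgeo, hQe β hβU, hBe β hβm]
      show F i j β + (∑' n : ℕ, Q β ^ n * B β ^ (n + 1)) * K i β * K j β = _
      rw [hTe, hFe i j β hβU, hKe i β hβU, hKe j β hβU, gr_insert hW hG hG' hm i j,
        ← ENNReal.ofReal_mul hT.le,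
        ← ENNReal.ofReal_mul (mul_nonneg hT.le (kap_nonneg hW hG m i)),
        ← ENNReal.ofReal_add (hG.nonneg i j)
          (mul_nonneg (mul_nonneg hT.le (kap_nonneg hW hG m i)) (kap_nonneg hW hG m j))]

end VJ26
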