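import Pool.Agent.VJ26.CMb

/-!
# [VJ-CMC] Green function entries are mixtures of exponentials

This file: `cm_bil`, `cm_expBil`

`cm_gr`: induction on `U` (`Finset.induction`): `gr W ∅ = 0`. For `insert m U` use `gr_insert`:
`G⁺_ij = G_ij + T κ_i κ_j`, with `κ` a finite sum of `G` entries times `W ≥ 0` and, by `schur_T`,
`T = 1/(2β_m - q)`, `q = bil W U β (W m) (W m) ∈ [0, 2β_m)`, so
`T = ∑_n q^n (1/(2β_m))^(n+1)` (geometric series with ratio `q/(2β_m) < 1`; in `ENNReal`: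
`ENNReal.ofReal` of the real `tsum`, `ENNReal.ofReal_tsum_of_nonneg`). `AllGood` restricts to
subsets.
`cm_bil`: finite sum. `cm_expBil`: `exp z = ∑ z^n/n!` (`Real.exp_eq_tsum`, `NormedSpace`).
-/

open MeasureTheory Real
open scoped ENNReal

namespace VJ26

variable {α : Type*} [DecidableEq α]
variable {W : α → α → ℝ} {U V : Finset α} {x y : α → ℝ}

theorem cm_bil (hW : Wt W) (hx : ∀ i, 0 ≤ x i) (hy : ∀ i, 0 ≤ y i) :
    ∃ f : (α → ℝ) → ℝ≥0∞, CM U f ∧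
      ∀ β, AllGood W U β → f β = ENNReal.ofReal (bil W U β x y) := by
  choose f hf hfe using fun i j => cm_gr hW U i j
  refine ⟨fun β => ∑ i ∈ U, ∑ j ∈ U,
    ((x i).toNNReal : ℝ≥0∞) * f i j β * ((y j).toNNReal : ℝ≥0∞), ?_, ?_⟩
  · refine CM.sum U (F := fun i β => ∑ j ∈ U,
      ((x i).toNNReal : ℝ≥0∞) * f i j β * ((y j).toNNReal : ℝ≥0∞)) fun i _ => ?_
    refine CM.sum U (F := fun j β =>
      ((x i).toNNReal : ℝ≥0∞) * f i j β * ((y j).toNNReal : ℝ≥0∞)) fun j _ => ?_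
    exact CM.mul (CM.mul (CM.const _) (hf i j)) (CM.const _)
  · intro β hβ
    have hG : Good W U β := hβ.1 U (Finset.Subset.refl U)
    have hterm : ∀ i ∈ U, ∀ j ∈ U, 0 ≤ x i * gr W U β i j * y j := fun i _ j _ =>
      mul_nonneg (mul_nonneg (hx i) (hG.nonneg i j)) (hy j)
    unfold bil
    rw [ENNReal.ofReal_sum_of_nonneg fun i hi => Finset.sum_nonneg (hterm i hi)]
    refine Finset.sum_congr rfl fun i hi => ?_
    rw [ENNReal.ofReal_sum_of_nonneg (hterm i hi)]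
    refine Finset.sum_congr rfl fun j hj => ?_
    rw [hfe i j β hβ, ENNReal.ofReal_mul (mul_nonneg (hx i) (hG.nonneg i j)),
      ENNReal.ofReal_mul (hx i)]
    rfl

theorem cm_expBil (hW : Wt W) (hx : ∀ i, 0 ≤ x i) {c : ℝ} (hc : 0 ≤ c) :
    ∃ f : (α → ℝ) → ℝ≥0∞, CM U f ∧
      ∀ β, AllGood W U β → f β = ENNReal.ofReal (exp (c * bil W U β x x)) := by
  obtain ⟨f, hf, hfe⟩ := cm_bil (U := U) hW hx hx
  refine ⟨fun β => ∑' n : ℕ, ((c ^ n / (n.factorial : ℝ)).toNNReal : ℝ≥0∞) * f β ^ n, ?_, ?_⟩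
  · exact CM.tsum (F := fun n β => ((c ^ n / (n.factorial : ℝ)).toNNReal : ℝ≥0∞) * f β ^ n)
      fun n => CM.mul (CM.const _) (CM.pow hf n)
  · intro β hβ
    have hG : Good W U β := hβ.1 U (Finset.Subset.refl U)
    have hb : 0 ≤ bil W U β x x := bil_nonneg hG (fun i _ => hx i) (fun i _ => hx i)
    obtain ⟨z, hz⟩ : ∃ z, z = bil W U β x x := ⟨_, rfl⟩
    rw [← hz] at hb
    show ∑' n : ℕ, ((c ^ n / (n.factorial : ℝ)).toNNReal : ℝ≥0∞) * f β ^ n = _
    rw [hfe β hβ, ← hz]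
    have hs : HasSum (fun n : ℕ => (c * z) ^ n / (n.factorial : ℝ)) (exp (c * z)) := by
      have h := NormedSpace.expSeries_div_hasSum_exp (𝔸 := ℝ) (c * z)
      rwa [← Real.exp_eq_exp_ℝ] at h
    have hn : ∀ n : ℕ, 0 ≤ (c * z) ^ n / (n.factorial : ℝ) := fun n => by positivity
    rw [← hs.tsum_eq, ENNReal.ofReal_tsum_of_nonneg hn hs.summable]
    refine tsum_congr fun n => ?_
    have e : (c * z) ^ n / (n.factorial : ℝ) = c ^ n / (n.factorial : ℝ) * z ^ n := by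
      rw [mul_pow]
      ring
    rw [e, ENNReal.ofReal_mul (by positivity), ENNReal.ofReal_pow hb]
    rfl

end VJ26
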