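import Pool.Agent.VJ26.CMa

/-!
# [VJ-CMS] The class of mixtures of exponentials: closure properties

This file: `CM.tsum`, `CM.add`, `CM.sum`, `CM.invBeta`

`CM U f`: `f β = ∫ exp(-∑_{i∈U} l_i β_i) dm(l)` for all `β`, `m` s-finite, `l_i ≥ 0` (`i ∈ U`)
`m`-a.e. Products: `m = (m₁.prod m₂).map (fun p => p.1 + p.2)`; countable sums: `Measure.sum`;
constants: `c • dirac 0`; `1/(2β_i)`: `m` = image of Lebesgue measure on `Ioi 0` under
`t ↦ Pi.single i (2 t)`, `∫_0^∞ exp(-2 β_i t) dt = 1/(2β_i)` for `β_i > 0`. `CM.mono`: map `m` by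
`l ↦ (fun i => if i ∈ U then l i else 0)`.
-/

open MeasureTheory Real
open scoped ENNReal

namespace VJ26

variable {α : Type*} [DecidableEq α]
variable {U V : Finset α} {f g : (α → ℝ) → ℝ≥0∞} {i : α}

theorem CM.tsum {F : ℕ → (α → ℝ) → ℝ≥0∞} (hF : ∀ n, CM U (F n)) :
    CM U (fun β => ∑' n, F n β) := by
  choose m hs hm hf using hF
  refine ⟨Measure.sum m, ?_, ?_, ?_⟩
  · have := hs
    infer_instance
  · intro i hi
    rw [Measure.ae_sum_iff]
    exact fun n => hm n i hi
  · intro β
    rw [lintegral_sum_measure]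
    exact tsum_congr fun n => hf n β

theorem CM.add (hf : CM U f) (hg : CM U g) : CM U (fun β => f β + g β) := by
  obtain ⟨m, hs, hm, hf⟩ := hf
  obtain ⟨m', hs', hm', hg⟩ := hg
  refine ⟨m + m', ?_, ?_, ?_⟩
  · infer_instance
  · intro i hi
    rw [ae_add_measure_iff]
    exact ⟨hm i hi, hm' i hi⟩
  · intro β
    show f β + g β = _
    rw [lintegral_add_measure, hf β, hg β]

theorem CM.sum {ι : Type*} (s : Finset ι) {F : ι → (α → ℝ) → ℝ≥0∞} (hF : ∀ n ∈ s, CM U (F n)) :
    CM U (fun β => ∑ n ∈ s, F n β) := by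
  classical
  induction s using Finset.induction_on with
  | empty =>
    refine ⟨0, inferInstance, ?_, ?_⟩
    · intro i _
      simp
    · intro β
      simp
  | insert a s ha ih =>
    have h1 := hF a (Finset.mem_insert_self a s)
    have h2 := ih fun n hn => hF n (Finset.mem_insert_of_mem hn)
    have h3 := CM.add h1 h2
    have e : (fun β => ∑ n ∈ insert a s, F n β) = fun β => F a β + ∑ n ∈ s, F n β := by
      funext β
      exact Finset.sum_insert ha
    rw [e]
    exact h3

theorem CM.invBeta (hi : i ∈ U) :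
    ∃ f : (α → ℝ) → ℝ≥0∞, CM U f ∧ ∀ β, 0 < β i → f β = ENNReal.ofReal (1 / (2 * β i)) := by
  have hmeas : Measurable (fun t : ℝ => (Pi.single i (2 * t) : α → ℝ)) := by
    rw [measurable_pi_iff]
    intro j
    by_cases h : j = i
    · subst h
      simp only [Pi.single_eq_same]
      fun_prop
    · simp only [Pi.single_eq_of_ne h]
      fun_prop
  set m : Measure (α → ℝ) :=
    Measure.map (fun t : ℝ => (Pi.single i (2 * t) : α → ℝ)) (volume.restrict (Set.Ioi 0)) with hm
  refine ⟨fun β => ∫⁻ l, ENNReal.ofReal (exp (-∑ i ∈ U, l i * β i)) ∂m, ⟨m, ?_, ?_, ?_⟩, ?_⟩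
  · infer_instance
  · intro j _
    rw [hm, ae_map_iff hmeas.aemeasurable (measurableSet_le measurable_const (measurable_pi_apply j))]
    rw [ae_restrict_iff' measurableSet_Ioi]
    refine Filter.Eventually.of_forall fun t ht => ?_
    by_cases h : j = i
    · subst h
      simp only [Pi.single_eq_same]
      have : (0 : ℝ) < t := ht
      positivity
    · simp only [Pi.single_eq_of_ne h]
      exact le_refl 0
  · intro β
    rfl
  · intro β hβ
    show ∫⁻ l, ENNReal.ofReal (exp (-∑ i ∈ U, l i * β i)) ∂m = _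
    have hme : Measurable (fun l : α → ℝ => ENNReal.ofReal (exp (-∑ i ∈ U, l i * β i))) := by
      refine ENNReal.measurable_ofReal.comp (Real.measurable_exp.comp (Measurable.neg ?_))
      exact Finset.measurable_sum U fun j _ => (measurable_pi_apply j).mul_const _
    rw [hm, lintegral_map hme hmeas]
    have e1 : ∀ t : ℝ, (∑ j ∈ U, (Pi.single i (2 * t) : α → ℝ) j * β j) = 2 * β i * t := by
      intro t
      rw [Finset.sum_eq_single i]
      · rw [Pi.single_eq_same]; ring
      · intro j _ hj
        rw [Pi.single_eq_of_ne hj, zero_mul]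
      · intro h
        exact absurd hi h
    simp only [e1]
    have hpos : 0 < 2 * β i := by positivity
    have hint : IntegrableOn (fun t : ℝ => exp (-(2 * β i * t))) (Set.Ioi 0) := by
      have := exp_neg_integrableOn_Ioi 0 hpos
      simpa [neg_mul] using this
    rw [← ofReal_integral_eq_lintegral_ofReal hint (Filter.Eventually.of_forall fun t => (exp_pos _).le)]
    congr 1
    have h2 := integral_exp_mul_Ioi (a := -(2 * β i)) (by linarith) 0
    simp only [neg_mul] at h2
    rw [h2]
    simp

end VJ26
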