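import Mathlib

/-!
# VJ26: L2-boundedness of the VRJP martingale (MP_ad3a45_pr) - definitions

`alpha` is the vertex type, `W` a symmetric nonnegative weight function with zero
diagonal (`Wt W`), `U` a finite vertex set, `b : alpha -> R` the random potential (beta).
`gr W U b` is the Green function (inverse of `2 b - W` on `U`, extended by zero).
`VR mu U W th`: under `mu` the restriction of the potential to `U` has the law of the
finite random Schroedinger potential of Sabot-Tarres-Zeng / Letac with weights `W` on `U`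
and killing `th`.
-/

open MeasureTheory Real
open scoped ENNReal

namespace VJ26

variable {α : Type*} [DecidableEq α]

/-- The matrix `2 β - W` on the finite set `U`. -/
noncomputable def Hm (W : α → α → ℝ) (U : Finset α) (β : α → ℝ) : Matrix U U ℝ :=
  Matrix.of fun i j => (if i = j then 2 * β i else 0) - W i j

/-- The Green function of `U` (inverse matrix extended by zero). -/
noncomputable def gr (W : α → α → ℝ) (U : Finset α) (β : α → ℝ) (i j : α) : ℝ :=
  if h : i ∈ U ∧ j ∈ U then (Hm W U β)⁻¹ ⟨i, h.1⟩ ⟨j, h.2⟩ else 0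

/-- Weights: symmetric, nonnegative, zero diagonal. -/
structure Wt (W : α → α → ℝ) : Prop where
  symm : ∀ i j, W i j = W j i
  nonneg : ∀ i j, 0 ≤ W i j
  diag : ∀ i, W i i = 0

/-- `G` is the (extended) Green function of `U` and it is symmetric, nonnegative,
positive semidefinite with positive diagonal. -/
structure IsGreen (W : α → α → ℝ) (U : Finset α) (β : α → ℝ) (G : α → α → ℝ) : Prop where
  zero : ∀ i j, i ∉ U → G i j = 0
  symm : ∀ i j, G i j = G j i
  eq : ∀ i ∈ U, ∀ j ∈ U,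
    2 * β i * G i j - ∑ k ∈ U, W i k * G k j = if i = j then 1 else 0
  nonneg : ∀ i j, 0 ≤ G i j
  psd : ∀ x : α → ℝ, 0 ≤ ∑ i ∈ U, ∑ j ∈ U, x i * G i j * x j
  pos : ∀ i ∈ U, 0 < G i i

/-- The potential is good on `U`. -/
def Good (W : α → α → ℝ) (U : Finset α) (β : α → ℝ) : Prop := IsGreen W U β (gr W U β)

/-- The potential is good on all subsets of `U`, and positive on `U`. -/
def AllGood (W : α → α → ℝ) (U : Finset α) (β : α → ℝ) : Prop :=
  (∀ U' ⊆ U, Good W U' β) ∧ ∀ i ∈ U, 0 < β i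

/-- `⟨x, G_U y⟩`. -/
noncomputable def bil (W : α → α → ℝ) (U : Finset α) (β x y : α → ℝ) : ℝ :=
  ∑ i ∈ U, ∑ j ∈ U, x i * gr W U β i j * y j

/-- `(G_U θ)(i)`. -/
noncomputable def psi (W : α → α → ℝ) (U : Finset α) (β θ : α → ℝ) (i : α) : ℝ :=
  ∑ j ∈ U, gr W U β i j * θ j

/-- Effective conductance between `p` and `q` through `U`. -/
noncomputable def cap (W : α → α → ℝ) (U : Finset α) (β : α → ℝ) (p q : α) : ℝ :=
  W p q + bil W U β (W p) (W q)

/-- The Laplace functional `E exp(-∑_{i∈U} (L_i^2-1) β_i)`. -/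
noncomputable def Lam (U : Finset α) (W : α → α → ℝ) (θ L : α → ℝ) : ℝ :=
  exp (-(1 / 2) * ∑ i ∈ U, ∑ j ∈ U, W i j * (L i * L j - 1) - ∑ i ∈ U, θ i * (L i - 1)) *
    ∏ i ∈ U, (L i)⁻¹

/-- Under `μ` the restriction of `β` to `U` has the random potential law with weights `W`
and killing `θ`. -/
structure VR (μ : Measure (α → ℝ)) (U : Finset α) (W : α → α → ℝ) (θ : α → ℝ) : Prop where
  prob : IsProbabilityMeasure μ
  pos : ∀ i ∈ U, ∀ᵐ β ∂μ, 0 < β i
  lap : ∀ L : α → ℝ, (∀ i, 1 ≤ L i) →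
    ∫⁻ β, ENNReal.ofReal (exp (-∑ i ∈ U, ((L i) ^ 2 - 1) * β i)) ∂μ =
      ENNReal.ofReal (Lam U W θ L)

/-- Rescaled weights `L_i W_ij L_j`. -/
def WL (W : α → α → ℝ) (L : α → ℝ) (i j : α) : ℝ := L i * W i j * L j

/-- The vector `(G_U W_m, 1)` of the Schur complement. -/
noncomputable def kap (W : α → α → ℝ) (U : Finset α) (β : α → ℝ) (m i : α) : ℝ :=
  if i = m then 1 else psi W U β (W m) i

/-- Total conductance from `m` to the outside through `U`. -/
noncomputable def sfn (W : α → α → ℝ) (U : Finset α) (θ : α → ℝ) (m : α) (β : α → ℝ) : ℝ :=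
  θ m + bil W U β (W m) θ

/-- Inverse Gaussian density with parameter `s ≥ 0` (for `s = 0` the one-sided stable law of
index 1/2). -/
noncomputable def ig (s t : ℝ) : ℝ :=
  (Real.sqrt (2 * π * t ^ 3))⁻¹ * exp (-(1 - s * t) ^ 2 / (2 * t))

/-- The vertex `m` is added to `U`: `β_m = (1/t + ⟨W_m, G_U W_m⟩)/2`. -/
noncomputable def addv (W : α → α → ℝ) (U : Finset α) (m : α) (p : (α → ℝ) × ℝ) : α → ℝ :=
  Function.update p.1 m ((1 / p.2 + bil W U p.1 (W m) (W m)) / 2)

/-- The one-vertex extension of a law of `β_U` (with killing `θ + W_m`). -/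
noncomputable def stepM (μ : Measure (α → ℝ)) (W : α → α → ℝ) (U : Finset α) (θ : α → ℝ)
    (m : α) : Measure (α → ℝ) :=
  Measure.map (addv W U m)
    ((μ.prod (volume.restrict (Set.Ioi 0))).withDensity
      (fun p => ENNReal.ofReal (ig (sfn W U θ m p.1) p.2)))

/-- Mixtures of exponentials. -/
def CM (U : Finset α) (f : (α → ℝ) → ℝ≥0∞) : Prop :=
  ∃ m : Measure (α → ℝ), SFinite m ∧ (∀ i ∈ U, ∀ᵐ l ∂m, 0 ≤ l i) ∧
    ∀ β, f β = ∫⁻ l, ENNReal.ofReal (exp (-∑ i ∈ U, l i * β i)) ∂m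

/-- Weights from a set `B`. -/
def WB (W : α → α → ℝ) (B : Finset α) (k : α) : ℝ := ∑ i ∈ B, W i k

/-- Effective conductance from the glued set `B ⊆ V` to the outside through `V \ B`. -/
noncomputable def hB (W : α → α → ℝ) (V B : Finset α) (η : α → ℝ) (β : α → ℝ) : ℝ :=
  ∑ j ∈ B, η j + bil W (V \ B) β (WB W B) η

end VJ26
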