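import Pool.Agent.VJ26.Exist

/-!
# [VJ-DISINT] Disintegration at the last vertex

Let `VR μ (insert m U) W θ`, `T = gr W (insert m U) β m m`. Given `β_U` the variable `T` has
density `ig(s, ·)`, `s = sfn W U θ m β = θ_m + ⟨W_m, G_U θ⟩`:
 `∫ F(β, T) dμ = ∫ ∫ ig(s(β), t) F(β, t) dt dμ` for measurable `F` depending on `β_U` only.
PROOF. The function `β ↦ F(β, T(β))` is measurable and depends on `insert m U`, so by
`VR.lintegral_eq` the left side is the same for `stepM μ W U θ m` (`stepM_VR` with the marginal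
`VR.marg` of `μ` as base). There `lintegral_stepM` gives
 `∫ ∫ ig(s(β),t) F(addv β t, T(addv β t)) dt dμ`, and for `t > 0`, `Good W U β` (a.s.):
 `T(addv β t) = t` (`good_addv`), `F (addv β t) t = F β t` (`m ∉ U`).
`disint'` : the right side depends on `β_U` only, so any law `μ₀` with
`VR μ₀ U W (θ + W m)` may be used (`VR.lintegral_eq` again; measurability of
`β ↦ ∫ ... dt`: `Measurable.lintegral_prod_right'`).
-/

open MeasureTheory Real
open scoped ENNReal

namespace VJ26

variable {α : Type*} [DecidableEq α]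
variable {W : α → α → ℝ} {U : Finset α} {θ : α → ℝ} {μ μ₀ : Measure (α → ℝ)} {m : α}

theorem VR.disint (hW : Wt W) (hθ : ∀ i, 0 ≤ θ i) (hm : m ∉ U) (h : VR μ (insert m U) W θ)
    {F : (α → ℝ) → ℝ → ℝ≥0∞} (hF : Measurable (fun p : (α → ℝ) × ℝ => F p.1 p.2))
    (hd : ∀ t, DependsOn (fun β => F β t) (U : Set α)) :
    ∫⁻ β, F β (gr W (insert m U) β m m) ∂μ =
      ∫⁻ β, (∫⁻ t in Set.Ioi (0 : ℝ), ENNReal.ofReal (ig (sfn W U θ m β) t) * F β t) ∂μ := by
  have hprob := h.prob
  have hmarg : VR μ U W (θ + W m) := VR.marg hW hm h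
  have hg : ∀ᵐ β ∂μ, Good W U β :=
    VR.good hW (fun i => add_nonneg (hθ i) (hW.nonneg m i)) hmarg
  have hstep : VR (stepM μ W U θ m) (insert m U) W θ :=
    stepM_VR hW hθ hm hmarg (P4_AG U).1 (P4_AG U).2
  have hΦm : Measurable (fun β : α → ℝ => F β (gr W (insert m U) β m m)) :=
    hF.comp (measurable_id.prodMk (measurable_gr W (insert m U) m m))
  have hΦd : DependsOn (fun β : α → ℝ => F β (gr W (insert m U) β m m))
      ((insert m U : Finset α) : Set α) := by
    intro β β' hββ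
    have e1 : gr W (insert m U) β m m = gr W (insert m U) β' m m :=
      dependsOn_gr W (insert m U) m m hββ
    have e2 : ∀ t, F β t = F β' t := fun t => hd t (fun i hi => hββ i (by
      simp only [Finset.coe_insert, Set.mem_insert_iff]
      exact Or.inr hi))
    change F β (gr W (insert m U) β m m) = F β' (gr W (insert m U) β' m m)
    rw [e1, e2]
  rw [h.lintegral_eq hstep hΦm hΦd, lintegral_stepM hΦm]
  refine lintegral_congr_ae ?_
  filter_upwards [hg] with β hβ
  refine setLIntegral_congr_fun measurableSet_Ioi fun t ht => ?_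
  have e3 : F (addv W U m (β, t)) t = F β t := hd t (fun i hi => by
    have hne : i ≠ m := fun h' => hm (h' ▸ hi)
    simp only [addv, Function.update_of_ne hne])
  change _ * F (addv W U m (β, t)) (gr W (insert m U) (addv W U m (β, t)) m m) = _
  rw [(good_addv hW hm hβ ht).2, e3]

theorem VR.disint' (hW : Wt W) (hθ : ∀ i, 0 ≤ θ i) (hm : m ∉ U) (h : VR μ (insert m U) W θ)
    (h₀ : VR μ₀ U W (θ + W m))
    {F : (α → ℝ) → ℝ → ℝ≥0∞} (hF : Measurable (fun p : (α → ℝ) × ℝ => F p.1 p.2))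
    (hd : ∀ t, DependsOn (fun β => F β t) (U : Set α)) :
    ∫⁻ β, F β (gr W (insert m U) β m m) ∂μ =
      ∫⁻ β, (∫⁻ t in Set.Ioi (0 : ℝ), ENNReal.ofReal (ig (sfn W U θ m β) t) * F β t) ∂μ₀ := by
  rw [VR.disint hW hθ hm h hF hd]
  have hmarg : VR μ U W (θ + W m) := VR.marg hW hm h
  refine hmarg.lintegral_eq h₀ ?_ ?_
  · have hig : Measurable (fun p : (α → ℝ) × ℝ => ig (sfn W U θ m p.1) p.2) := by
      have h1 : Measurable (fun p : (α → ℝ) × ℝ => sfn W U θ m p.1) :=
        (measurable_sfn W U θ m).comp measurable_fst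
      unfold ig
      fun_prop
    have h2 : Measurable (fun p : (α → ℝ) × ℝ =>
        ENNReal.ofReal (ig (sfn W U θ m p.1) p.2) * F p.1 p.2) :=
      hig.ennreal_ofReal.mul hF
    exact h2.lintegral_prod_right'
  · intro β β' hββ
    have e1 : sfn W U θ m β = sfn W U θ m β' := dependsOn_sfn W U θ m hββ
    have e2 : ∀ t, F β t = F β' t := fun t => hd t hββ
    change (∫⁻ t in Set.Ioi (0 : ℝ), ENNReal.ofReal (ig (sfn W U θ m β) t) * F β t) =
      ∫⁻ t in Set.Ioi (0 : ℝ), ENNReal.ofReal (ig (sfn W U θ m β') t) * F β' t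
    rw [e1]
    simp only [e2]

end VJ26
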