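import Pool.Agent.VJ26.IG2

/-!
# [VJ-IG3] Monotonicity in the parameter of the inverse Gaussian law

This file: `exp_sub_sqrt_anti`, `ig_mono_one`, `ig_mono_two`

(M0) `λ ↦ exp(λ - sqrt(λ^2 + 2 c λ))` is antitone on `[0,∞)` for `c ≥ 0`
(`λ' - λ ≤ sqrt(λ'^2+2cλ') - sqrt(λ^2+2cλ)`: multiply by the conjugate; it is enough that
`sqrt(λ^2+2cλ) ≤ λ + c` for both, since `λ'^2+2cλ' - λ^2-2cλ = (λ'-λ)(λ'+λ+2c)`).

(M1) for `g > 0`, `h ≥ 0`, `0 ≤ λ ≤ λ'`:
`∫ ig(λ',t)/(g + h λ' t) dt ≤ ∫ ig(λ,t)/(g + h λ t) dt`.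
PROOF: for `t > 0`, `1/(g+hλt) = ∫_0^∞ exp(-c g) exp(-(c h λ) t) dc`; Tonelli and (I1) give
`∫ ig(λ,t)/(g+hλt) dt = ∫_0^∞ exp(-c g) exp(λ - sqrt(λ^2 + 2 c h λ)) dc`; now (M0).

(M1') the version needed for two conductances: `a, c, c' ≥ 0`, `c ≤ c'`, `g > 0`:
`∫ ig(a+c',t)/(g + a c' t) dt ≤ ∫ ig(a+c,t)/(g + a c t) dt`. With `λ = a+c`, `λ' = a+c'`,
`h = ac/(a+c)`, `h' = ac'/(a+c')`: `h ≤ h'` and `a c' = h' λ'`, so the left side is at most the
one with `h` in place of `h'` (pointwise), then (M1). (If `a + c = 0` then `h = 0` in Lean and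
`a c = 0 = h λ`, fine; if `a + c' = 0` both sides agree.)

(M2) for `A, B ≥ 0`, `C, D > 0`, `0 < λ ≤ λ'`:
`∫ ig(λ',t) (A+Bλ't)^2/(C+Dλ't) dt ≤ ∫ ig(λ,t) (A+Bλt)^2/(C+Dλt) dt`.
PROOF: division: with `Y = λ t`, `(A+BY)^2/(C+DY) = α Y + β₀ + γ/(C+DY)`, `α = B^2/D`,
`β₀ = (2AB - αC)/D`, `γ = (A - BC/D)^2 ≥ 0`. As `∫ ig(λ,t) λt dt = 1 = ∫ ig(λ,t) dt`, the
integral is `α + β₀ + γ ∫ ig(λ,t)/(C+Dλt) dt` (all real integrals are finite:
`1/(C+DY) ≤ 1/C`; to stay in lintegral add `|β₀|` to both sides), then (M1).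

(TAIL) for `s > 0`, `K > 0`: `∫ ig(s,t) (st) 1{st > K} dt ≤ e * exp(s - sqrt(s^2+2Ks))`.
PROOF: (I5) with `F(y) = 1{1/y > K}`: the left side is `∫ ig(s,t) 1{1/(st) > K} dt`
and `1{1/(st) > K} = 1{K s t < 1} ≤ e * exp(-K s t)`; then (I1) with `c = K s`.
-/

open MeasureTheory Real
open scoped ENNReal

namespace VJ26

/-- (M0) -/
theorem exp_sub_sqrt_anti {c l l' : ℝ} (hc : 0 ≤ c) (hl : 0 ≤ l) (hll : l ≤ l') :
    exp (l' - Real.sqrt (l' ^ 2 + 2 * (c * l'))) ≤ exp (l - Real.sqrt (l ^ 2 + 2 * (c * l))) := by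
  rw [Real.exp_le_exp]
  have hA : 0 ≤ l ^ 2 + 2 * (c * l) := by positivity
  have h1 : Real.sqrt (l ^ 2 + 2 * (c * l)) ≤ l + c := by
    rw [Real.sqrt_le_left (by positivity)]
    nlinarith [sq_nonneg c]
  have h2 : Real.sqrt (l ^ 2 + 2 * (c * l)) + (l' - l) ≤ Real.sqrt (l' ^ 2 + 2 * (c * l')) := by
    apply Real.le_sqrt_of_sq_le
    have h3 := Real.sq_sqrt hA
    have h4 : 0 ≤ (l' - l) * (l + c - Real.sqrt (l ^ 2 + 2 * (c * l))) :=
      mul_nonneg (by linarith) (by linarith)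
    nlinarith
  linarith

/-- `1/a` as a Laplace integral. -/
theorem lintegral_exp_neg_mul_Ioi {a : ℝ} (ha : 0 < a) :
    ∫⁻ c in Set.Ioi (0 : ℝ), ENNReal.ofReal (exp (-(a * c))) = ENNReal.ofReal (1 / a) := by
  have h1 : IntegrableOn (fun c : ℝ => exp (-a * c)) (Set.Ioi 0) :=
    exp_neg_integrableOn_Ioi 0 ha
  have h2 : ∫ c in Set.Ioi (0 : ℝ), exp (-a * c) = 1 / a := by
    have := integral_exp_mul_Ioi (a := -a) (by linarith) 0
    rw [this]
    simp
  have h3 : (fun c : ℝ => ENNReal.ofReal (exp (-(a * c)))) =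
      fun c : ℝ => ENNReal.ofReal (exp (-a * c)) := by
    funext c
    rw [neg_mul]
  rw [h3, ← ofReal_integral_eq_lintegral_ofReal h1
    (Filter.Eventually.of_forall fun y => (exp_pos _).le), h2]

/-- The Laplace representation used in (M1). -/
theorem ig_one_eq {g h l : ℝ} (hg : 0 < g) (hh : 0 ≤ h) (hl : 0 ≤ l) :
    ∫⁻ t in Set.Ioi (0 : ℝ), ENNReal.ofReal (ig l t) * ENNReal.ofReal (1 / (g + h * (l * t))) =
    ∫⁻ c in Set.Ioi (0 : ℝ), ENNReal.ofReal (exp (-(g * c))) *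
      ENNReal.ofReal (exp (l - Real.sqrt (l ^ 2 + 2 * ((c * h) * l)))) := by
  have hmeas : Measurable (fun p : ℝ × ℝ => ENNReal.ofReal (exp (-(g * p.2))) *
      ENNReal.ofReal (ig l p.1 * exp (-(((p.2 * h) * l) * p.1)))) := by
    have hm := measurable_ig
    have : Measurable (fun p : ℝ × ℝ => ig l p.1) := hm.comp (by fun_prop : Measurable
      (fun p : ℝ × ℝ => ((l, p.1) : ℝ × ℝ)))
    fun_prop
  have e1 : ∀ t ∈ Set.Ioi (0 : ℝ),
      ENNReal.ofReal (ig l t) * ENNReal.ofReal (1 / (g + h * (l * t))) =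
      ∫⁻ c in Set.Ioi (0 : ℝ), ENNReal.ofReal (exp (-(g * c))) *
        ENNReal.ofReal (ig l t * exp (-(((c * h) * l) * t))) := by
    intro t ht
    have ht' : 0 < t := ht
    have hpos : 0 < g + h * (l * t) := by positivity
    rw [← lintegral_exp_neg_mul_Ioi hpos, ← lintegral_const_mul _ (by fun_prop)]
    refine lintegral_congr fun c => ?_
    rw [← ENNReal.ofReal_mul (ig_nonneg _ _), ← ENNReal.ofReal_mul (exp_pos _).le]
    congr 1
    have h5 : exp (-(g * c)) * exp (-(c * h * l * t)) = exp (-((g + h * (l * t)) * c)) := by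
      rw [← Real.exp_add]
      congr 1
      ring
    rw [← h5]
    ring
  rw [setLIntegral_congr_fun measurableSet_Ioi e1, lintegral_lintegral_swap hmeas.aemeasurable]
  refine setLIntegral_congr_fun measurableSet_Ioi fun c hc => ?_
  have hc' : 0 < c := hc
  have hm : Measurable (fun t : ℝ => ig l t) := measurable_ig.comp (by fun_prop : Measurable
      (fun t : ℝ => ((l, t) : ℝ × ℝ)))
  rw [lintegral_const_mul _ (by fun_prop), ig_laplace hl (by positivity)]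

/-- (M1) -/
theorem ig_mono_one {g h l l' : ℝ} (hg : 0 < g) (hh : 0 ≤ h) (hl : 0 ≤ l) (hll : l ≤ l') :
    ∫⁻ t in Set.Ioi (0 : ℝ), ENNReal.ofReal (ig l' t) * ENNReal.ofReal (1 / (g + h * (l' * t))) ≤
    ∫⁻ t in Set.Ioi (0 : ℝ), ENNReal.ofReal (ig l t) * ENNReal.ofReal (1 / (g + h * (l * t))) := by
  rw [ig_one_eq hg hh hl, ig_one_eq hg hh (hl.trans hll)]
  refine setLIntegral_mono' measurableSet_Ioi fun c hc => ?_
  have hc' : 0 < c := hc
  refine mul_le_mul_right (ENNReal.ofReal_le_ofReal ?_) _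
  exact exp_sub_sqrt_anti (by positivity) hl hll

/-- (M1') -/
theorem ig_mono_two {g a c c' : ℝ} (hg : 0 < g) (ha : 0 ≤ a) (hc : 0 ≤ c) (hcc : c ≤ c') :
    ∫⁻ t in Set.Ioi (0 : ℝ), ENNReal.ofReal (ig (a + c') t) *
      ENNReal.ofReal (1 / (g + a * c' * t)) ≤
    ∫⁻ t in Set.Ioi (0 : ℝ), ENNReal.ofReal (ig (a + c) t) *
      ENNReal.ofReal (1 / (g + a * c * t)) := by
  rcases (add_nonneg ha hc).eq_or_lt with h0 | h0
  · -- a = 0 and c = 0
    have ha0 : a = 0 := by linarith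
    subst ha0
    have h := ig_mono_one (g := g) (h := 0) hg le_rfl hc hcc
    simpa using h
  · have h0' : 0 < a + c' := by linarith
    have hh : 0 ≤ a * c / (a + c) := by positivity
    have h := ig_mono_one (g := g) (h := a * c / (a + c)) (l := a + c) (l' := a + c') hg hh
      h0.le (by linarith)
    have e1 : ∀ t : ℝ, a * c / (a + c) * ((a + c) * t) = a * c * t := by
      intro t
      field_simp
    simp only [e1] at h
    refine le_trans ?_ h
    refine setLIntegral_mono' measurableSet_Ioi fun t ht => ?_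
    have ht' : 0 < t := ht
    refine mul_le_mul_right (ENNReal.ofReal_le_ofReal ?_) _
    have h3 : 0 ≤ a * a * (c' - c) := mul_nonneg (mul_nonneg ha ha) (by linarith)
    have h4 : a * c / (a + c) * (a + c') ≤ a * c' := by
      rw [div_mul_eq_mul_div, div_le_iff₀ h0]
      nlinarith
    have h5 : a * c / (a + c) * ((a + c') * t) ≤ a * c' * t := by
      rw [← mul_assoc]
      exact mul_le_mul_of_nonneg_right h4 ht'.le
    have h6 : 0 ≤ a * c / (a + c) * ((a + c') * t) := by positivity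
    exact one_div_le_one_div_of_le (by linarith) (by linarith)

end VJ26
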