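import Pool.Agent.VJ26.Mean2
import Pool.Agent.VJ26.IG3

/-!
# [VJ-EDGEXQ] Monotonicity of `Φ(W) = E[1/cap_U(p,q)]` in an edge touching `p` or `q`

`Φ(W) = ∫ 1/cap W U β p q dμ`, `VR μ U W (W p + W q)`. `SameOff W W' a b`: `W'` differs from `W`
only at the pair `{a,b}`.

`edge_pq`: the law is the same (`VR.congr`, `VR.lintegral_eq`) and
`cap W' = cap W + (W'_pq - W_pq)`.

`edge_xq`, `x ∈ U`: let `U' = U.erase x`, `U = insert x U'`. Disintegrate at `x`
(`VR.disint'`, common base law `VR μ₀ U' W (W p + W q + W x)`, which is also the base law for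
`W'` by `VR.congr`; existence `exists_VR`). With `a = cap W U' β p x`, `c = cap W U' β x q`,
`g = cap W U' β p q ≥ W_pq > 0`:
 `s = sfn W U' (W p + W q) x β = a + c`, `cap W U β p q = g + a c T` (`cap_insert`),
and for `W'` the same with `c' = cap W' U' β x q = c + (W'_xq - W_xq) ≥ c` (all `G_{U'}` terms
agree by `bil_congr`). Now `ig_mono_two`.

`edge_xp`: exchange `p` and `q` in `edge_xq` (`cap_symm`, `add_comm`).
-/

open MeasureTheory Real
open scoped ENNReal

namespace VJ26

variable {α : Type*} [DecidableEq α]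

/-- `W'` differs from `W` only at the pair `{a,b}`. -/
def SameOff (W W' : α → α → ℝ) (a b : α) : Prop :=
  ∀ c d, ¬(c = a ∧ d = b) → ¬(c = b ∧ d = a) → W' c d = W c d

variable {W W' : α → α → ℝ} {U : Finset α} {μ μ' μ₀ : Measure (α → ℝ)} {p q x : α}

private theorem SameOff.of_ne (hs : SameOff W W' p q) {c d : α} (hc : c ≠ p) (hc' : c ≠ q) :
    W' c d = W c d := hs c d (fun h => hc h.1) (fun h => hc' h.1)

private theorem exq_nn (hW : Wt W) (p q : α) (i : α) : 0 ≤ (W p + W q) i :=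
  add_nonneg (hW.nonneg p i) (hW.nonneg q i)

private theorem exq_sfn (hW : Wt W) {β : α → ℝ} (hG : Good W U β) (p q x : α) :
    sfn W U (W p + W q) x β = cap W U β p x + cap W U β x q := by
  unfold sfn cap
  rw [bil_add_right, Pi.add_apply, hW.symm q x, bil_symm hG (W x) (W p)]
  ring

/-- disintegration of `Φ` at `x ∈ U` -/
private theorem phi_disint (hW : Wt W) (hx : x ∈ U) (h : VR μ U W (W p + W q))
    (h₀ : VR μ₀ (U.erase x) W (W p + W q + W x)) :
    ∫⁻ β, ENNReal.ofReal (1 / cap W U β p q) ∂μ =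
      ∫⁻ β, (∫⁻ t in Set.Ioi (0 : ℝ),
        ENNReal.ofReal (ig (cap W (U.erase x) β p x + cap W (U.erase x) β x q) t) *
        ENNReal.ofReal (1 / (cap W (U.erase x) β p q +
          cap W (U.erase x) β p x * cap W (U.erase x) β x q * t))) ∂μ₀ := by
  have hxU : x ∉ U.erase x := Finset.notMem_erase x U
  have hU : insert x (U.erase x) = U := Finset.insert_erase hx
  have h1 : VR μ (insert x (U.erase x)) W (W p + W q) := by rw [hU]; exact h
  have h2 := VR.allGood hW (exq_nn hW p q) h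
  have h3 := VR.good hW (fun i => add_nonneg (exq_nn hW p q i) (hW.nonneg x i)) h₀
  have h4 : ∫⁻ β, ENNReal.ofReal (1 / cap W U β p q) ∂μ =
      ∫⁻ β, (fun (β : α → ℝ) (t : ℝ) => ENNReal.ofReal (1 / (cap W (U.erase x) β p q +
          cap W (U.erase x) β p x * cap W (U.erase x) β x q * t))) β
          (gr W (insert x (U.erase x)) β x x) ∂μ := by
    refine lintegral_congr_ae ?_
    filter_upwards [h2] with β hβ
    have g1 : Good W (U.erase x) β := hβ.1 _ (Finset.erase_subset x U)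
    have g2 : Good W (insert x (U.erase x)) β := by
      rw [hU]
      exact hβ.1 U (Finset.Subset.refl U)
    have h5 := cap_insert hW g1 g2 hxU p q
    rw [← h5, hU]
  have hm : Measurable (fun r : (α → ℝ) × ℝ => ENNReal.ofReal (1 / (cap W (U.erase x) r.1 p q +
          cap W (U.erase x) r.1 p x * cap W (U.erase x) r.1 x q * r.2))) := by
    refine ENNReal.measurable_ofReal.comp ?_
    refine Measurable.div measurable_const ?_
    exact ((measurable_cap W _ p q).comp measurable_fst).add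
      ((((measurable_cap W _ p x).comp measurable_fst).mul
        ((measurable_cap W _ x q).comp measurable_fst)).mul measurable_snd)
  have h6 := VR.disint' (F := fun (β : α → ℝ) (t : ℝ) =>
      ENNReal.ofReal (1 / (cap W (U.erase x) β p q +
          cap W (U.erase x) β p x * cap W (U.erase x) β x q * t))) hW (exq_nn hW p q) hxU h1 h₀ hm
    (by
      intro t β β' hb
      have e1 := dependsOn_cap W (U.erase x) p q hb
      have e2 := dependsOn_cap W (U.erase x) p x hb
      have e3 := dependsOn_cap W (U.erase x) x q hb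
      simp only at e1 e2 e3
      change ENNReal.ofReal _ = ENNReal.ofReal _
      rw [e1, e2, e3])
  refine h4.trans (h6.trans ?_)
  refine lintegral_congr_ae ?_
  filter_upwards [h3] with β hβ
  rw [exq_sfn hW hβ]

theorem edge_pq (hW : Wt W) (hW' : Wt W') (hp : p ∉ U) (hq : q ∉ U) (hpq : p ≠ q)
    (h0 : 0 < W p q) (hs : SameOff W W' p q) (hle : W p q ≤ W' p q)
    (h : VR μ U W (W p + W q)) (h' : VR μ' U W' (W' p + W' q)) :
    ∫⁻ β, ENNReal.ofReal (1 / cap W' U β p q) ∂μ' ≤
      ∫⁻ β, ENNReal.ofReal (1 / cap W U β p q) ∂μ := by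
  have e1 : ∀ i ∈ U, ∀ j, W' i j = W i j := by
    intro i hi j
    exact hs.of_ne (fun h => hp (h ▸ hi)) (fun h => hq (h ▸ hi))
  have e2 : ∀ i ∈ U, ∀ c, W' c i = W c i := by
    intro i hi c
    rw [hW'.symm c i, hW.symm c i, e1 i hi c]
  have h1 : VR μ U W' (W' p + W' q) := by
    refine h.congr (fun i hi j _ => (e1 i hi j).symm) (fun i hi => ?_)
    rw [Pi.add_apply, Pi.add_apply, e2 i hi, e2 i hi]
  have h2 : ∫⁻ β, ENNReal.ofReal (1 / cap W' U β p q) ∂μ' =
      ∫⁻ β, ENNReal.ofReal (1 / cap W' U β p q) ∂μ := by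
    refine VR.lintegral_eq h' h1 ?_ ?_
    · exact ENNReal.measurable_ofReal.comp (measurable_const.div (measurable_cap W' U p q))
    · intro β β' hb
      have e3 := dependsOn_cap W' U p q hb
      simp only at e3
      change ENNReal.ofReal _ = ENNReal.ofReal _
      rw [e3]
  rw [h2]
  refine lintegral_mono_ae ?_
  filter_upwards [VR.good hW (exq_nn hW p q) h] with β hβ
  refine ENNReal.ofReal_le_ofReal ?_
  have h3 : cap W U β p q ≤ cap W' U β p q := by
    unfold cap
    have h4 : bil W' U β (W' p) (W' q) = bil W U β (W p) (W q) :=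
      bil_congr (fun i hi j _ => e1 i hi j) (fun _ _ => rfl) (fun i hi => e2 i hi p)
        (fun i hi => e2 i hi q)
    rw [h4]
    linarith
  have h5 : 0 < cap W U β p q := lt_of_lt_of_le h0 (cap_ge hW hβ p q)
  exact one_div_le_one_div_of_le h5 h3

theorem edge_xq (hW : Wt W) (hW' : Wt W') (hp : p ∉ U) (hq : q ∉ U) (hpq : p ≠ q)
    (h0 : 0 < W p q) (hx : x ∈ U) (hs : SameOff W W' x q) (hle : W x q ≤ W' x q)
    (h : VR μ U W (W p + W q)) (h' : VR μ' U W' (W' p + W' q)) :
    ∫⁻ β, ENNReal.ofReal (1 / cap W' U β p q) ∂μ' ≤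
      ∫⁻ β, ENNReal.ofReal (1 / cap W U β p q) ∂μ := by
  have hpx : p ≠ x := fun h => hp (h ▸ hx)
  have hqx : q ≠ x := fun h => hq (h ▸ hx)
  -- entries with an index in `U.erase x` are unchanged
  have e1 : ∀ i ∈ U.erase x, ∀ j, W' i j = W i j := by
    intro i hi j
    exact hs.of_ne (Finset.ne_of_mem_erase hi)
      (fun h => hq (h ▸ Finset.mem_of_mem_erase hi))
  have e2 : ∀ i ∈ U.erase x, ∀ c, W' c i = W c i := by
    intro i hi c
    rw [hW'.symm c i, hW.symm c i, e1 i hi c]
  have e3 : ∀ j, W' p j = W p j := fun j => hs.of_ne hpx hpq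
  obtain ⟨μ₀, h₀⟩ := exists_VR hW (U.erase x) (W p + W q + W x)
    (fun i => add_nonneg (exq_nn hW p q i) (hW.nonneg x i))
  have h₀' : VR μ₀ (U.erase x) W' (W' p + W' q + W' x) := by
    refine h₀.congr (fun i hi j _ => (e1 i hi j).symm) (fun i hi => ?_)
    simp only [Pi.add_apply]
    rw [e2 i hi, e2 i hi, e2 i hi]
  rw [phi_disint hW hx h h₀, phi_disint hW' hx h' h₀']
  refine lintegral_mono_ae ?_
  filter_upwards [VR.good hW (fun i => add_nonneg (exq_nn hW p q i) (hW.nonneg x i)) h₀]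
    with β hβ
  have b : ∀ c d, bil W' (U.erase x) β (W' c) (W' d) = bil W (U.erase x) β (W c) (W d) :=
    fun c d => bil_congr (fun i hi j _ => e1 i hi j) (fun _ _ => rfl) (fun i hi => e2 i hi c)
        (fun i hi => e2 i hi d)
  have c1 : cap W' (U.erase x) β p q = cap W (U.erase x) β p q := by
    unfold cap
    rw [b, e3]
  have c2 : cap W' (U.erase x) β p x = cap W (U.erase x) β p x := by
    unfold cap
    rw [b, e3]
  have c3 : cap W (U.erase x) β x q ≤ cap W' (U.erase x) β x q := by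
    unfold cap
    rw [b]
    linarith
  rw [c1, c2]
  exact ig_mono_two (lt_of_lt_of_le h0 (cap_ge hW hβ p q)) (cap_nonneg hW hβ p x)
    (cap_nonneg hW hβ x q) c3

theorem edge_xp (hW : Wt W) (hW' : Wt W') (hp : p ∉ U) (hq : q ∉ U) (hpq : p ≠ q)
    (h0 : 0 < W p q) (hx : x ∈ U) (hs : SameOff W W' x p) (hle : W x p ≤ W' x p)
    (h : VR μ U W (W p + W q)) (h' : VR μ' U W' (W' p + W' q)) :
    ∫⁻ β, ENNReal.ofReal (1 / cap W' U β p q) ∂μ' ≤
      ∫⁻ β, ENNReal.ofReal (1 / cap W U β p q) ∂μ := by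
  have k1 : ∫⁻ β, ENNReal.ofReal (1 / cap W' U β p q) ∂μ' =
      ∫⁻ β, ENNReal.ofReal (1 / cap W' U β q p) ∂μ' := by
    refine lintegral_congr_ae ?_
    filter_upwards [VR.good hW' (exq_nn hW' p q) h'] with β hβ
    rw [cap_symm hW' hβ p q]
  have k2 : ∫⁻ β, ENNReal.ofReal (1 / cap W U β p q) ∂μ =
      ∫⁻ β, ENNReal.ofReal (1 / cap W U β q p) ∂μ := by
    refine lintegral_congr_ae ?_
    filter_upwards [VR.good hW (exq_nn hW p q) h] with β hβ
    rw [cap_symm hW hβ p q]
  rw [k1, k2]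
  refine edge_xq hW hW' hq hp hpq.symm ?_ hx hs hle ?_ ?_
  · rw [hW.symm q p]
    exact h0
  · rw [add_comm]
    exact h
  · rw [add_comm]
    exact h'

end VJ26
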