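import Pool.Agent.VJ26.Mean2

/-!
# [VJ-ROOT2] Change of root

This file: `root_change`

`phi_root`: `p, q ∉ U`, `p ≠ q`, `W_pq > 0`. Apply `VR.mean_inv` with `m := p`, `θ := W q`:
`sfn W U (W q) p β = W q p + ⟨W_p, G W_q⟩ = cap W U β p q ≥ W_pq > 0`; the marginal of `μq` on
`U` is `VR .. U W (W q + W p)`, so the last integral may be taken under `μ`
(`VR.lintegral_eq`, `measurable_cap`, `dependsOn_cap`).

`root_change`: `q, j ∉ C`, `q ≠ j`, `p ∈ C`, `W_pq, W_pj > 0`. Base law on `C`: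
`VR μ₀ C W (W q + W j)` (both marginals; order of the sum: `add_comm`). Let
`u = psi W C β (W q) p`, `v = psi W C β (W j) p`, `s = W q j + ⟨W_j, G_C W_q⟩`; these are `> 0` on
good `β` (`psi_ge_term`, `bil_ge_term` with the vertex `p`). By `psi_insert`
 left: `ψ_p = u + v s T_j`; right: `ψ_q = s T_q`, `ψ_p = v + u s T_q` (`psi_insert_self`).
By `VR.disint'` for both sides: left `= ∫∫ ig(s,t) /(u + v s t)`,
right `= ∫∫ ig(s,t) (st)^2/(v + u s t)`, equal by `ig_swap` with `F(y) = 1/(u+vy)`: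
`y · 1/(u + v/y) = y^2/(u y + v)`.
-/

open MeasureTheory Real
open scoped ENNReal

namespace VJ26

variable {α : Type*} [DecidableEq α]
variable {W : α → α → ℝ} {U C : Finset α} {θ : α → ℝ} {μ μq μj : Measure (α → ℝ)}
variable {p q j : α}

theorem h84_sfn_pos (hW : Wt W) (hp : p ∈ C) (hpq : 0 < W p q) (hpj : 0 < W p j)
    {β : α → ℝ} (hG : Good W C β) : 0 < sfn W C (W q) j β := by
  have h1 := bil_ge_term (x := W j) (y := W q) hG (fun i _ => hW.nonneg j i)
    (fun i _ => hW.nonneg q i) hp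
  have h2 : 0 < W j p * gr W C β p p * W q p := by
    have h3 : 0 < gr W C β p p := hG.pos p hp
    have h4 : 0 < W j p := by rw [hW.symm]; exact hpj
    have h5 : 0 < W q p := by rw [hW.symm]; exact hpq
    positivity
  have h6 := hW.nonneg q j
  unfold sfn
  linarith

theorem h84_sfn_symm (hW : Wt W) {β : α → ℝ} (hG : Good W C β) :
    sfn W C (W j) q β = sfn W C (W q) j β := by
  unfold sfn
  rw [hW.symm j q, bil_symm hG (W q) (W j)]

theorem h84_inner {u v s : ℝ} (hs : 0 < s) :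
    ∫⁻ t in Set.Ioi (0 : ℝ), ENNReal.ofReal (ig s t) * ENNReal.ofReal (1 / (u + t * v * s)) =
      ∫⁻ t in Set.Ioi (0 : ℝ), ENNReal.ofReal (ig s t) *
        ENNReal.ofReal ((s * t) ^ 2 / (v + t * u * s)) := by
  have hF : Measurable (fun y : ℝ => ENNReal.ofReal (1 / (u + v * y))) :=
    (measurable_const.div (measurable_const.add (measurable_id.const_mul v))).ennreal_ofReal
  have h := ig_swap hs (fun y : ℝ => ENNReal.ofReal (1 / (u + v * y))) hF
  have e1 : ∀ t ∈ Set.Ioi (0 : ℝ), ENNReal.ofReal (ig s t) *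
      ENNReal.ofReal (1 / (u + t * v * s)) =
      ENNReal.ofReal (ig s t) * ENNReal.ofReal (1 / (u + v * (s * t))) := by
    intro t _
    rw [show t * v * s = v * (s * t) by ring]
  have e2 : ∀ t ∈ Set.Ioi (0 : ℝ), ENNReal.ofReal (ig s t) *
        ENNReal.ofReal ((s * t) ^ 2 / (v + t * u * s)) =
      ENNReal.ofReal (ig s t * (s * t)) * ENNReal.ofReal (1 / (u + v * (1 / (s * t)))) := by
    intro t ht
    have ht0 : 0 < t := ht
    have hy : 0 < s * t := mul_pos hs ht0
    have h1 : 1 / (u + v * (1 / (s * t))) = (s * t) / (v + t * u * s) := by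
      have h2 : u + v * (1 / (s * t)) = (v + t * u * s) / (s * t) := by
        field_simp
        ring
      rw [h2, one_div_div]
    rw [h1, ENNReal.ofReal_mul (ig_nonneg s t), mul_assoc (ENNReal.ofReal (ig s t)),
      ← ENNReal.ofReal_mul hy.le]
    congr 2
    ring
  rw [setLIntegral_congr_fun measurableSet_Ioi e1, setLIntegral_congr_fun measurableSet_Ioi e2]
  exact h

theorem root_change (hW : Wt W) (hq : q ∉ C) (hj : j ∉ C) (hqj : q ≠ j) (hp : p ∈ C)
    (hpq : 0 < W p q) (hpj : 0 < W p j)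
    (hμq : VR μq (insert j C) W (W q)) (hμj : VR μj (insert q C) W (W j)) :
    ∫⁻ β, ENNReal.ofReal (1 / psi W (insert j C) β (W q) p) ∂μq =
      ∫⁻ β, ENNReal.ofReal (psi W (insert q C) β (W j) q ^ 2 /
        psi W (insert q C) β (W j) p) ∂μj := by
  have hθq : ∀ i, 0 ≤ W q i := hW.nonneg q
  have hθj : ∀ i, 0 ≤ W j i := hW.nonneg j
  have hpj' : p ≠ j := fun e => hj (e ▸ hp)
  have hpq' : p ≠ q := fun e => hq (e ▸ hp)
  have h₀ : VR μq C W (W j + W q) := by
    have := VR.marg hW hj hμq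
    rwa [add_comm] at this
  -- left side
  set Φ : (α → ℝ) → ℝ → ℝ≥0∞ := fun β t =>
    ENNReal.ofReal (1 / (psi W C β (W q) p + t * psi W C β (W j) p * sfn W C (W q) j β)) with hΦ
  have mu : Measurable (fun x : (α → ℝ) × ℝ => psi W C x.1 (W q) p) :=
    (measurable_psi W C (W q) p).comp measurable_fst
  have mv : Measurable (fun x : (α → ℝ) × ℝ => psi W C x.1 (W j) p) :=
    (measurable_psi W C (W j) p).comp measurable_fst
  have ms : Measurable (fun x : (α → ℝ) × ℝ => sfn W C (W q) j x.1) :=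
    (measurable_sfn W C (W q) j).comp measurable_fst
  have ms' : Measurable (fun x : (α → ℝ) × ℝ => sfn W C (W j) q x.1) :=
    (measurable_sfn W C (W j) q).comp measurable_fst
  have hΦm : Measurable (fun x : (α → ℝ) × ℝ => Φ x.1 x.2) :=
    (measurable_const.div (mu.add ((measurable_snd.mul mv).mul ms))).ennreal_ofReal
  have hΦd : ∀ t, DependsOn (fun β => Φ β t) (C : Set α) := by
    intro t β β' hb
    have d1 : psi W C β (W q) p = psi W C β' (W q) p := dependsOn_psi W C (W q) p hb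
    have d2 : psi W C β (W j) p = psi W C β' (W j) p := dependsOn_psi W C (W j) p hb
    have d3 : sfn W C (W q) j β = sfn W C (W q) j β' := dependsOn_sfn W C (W q) j hb
    simp only [hΦ]
    rw [d1, d2, d3]
  have hL : ∫⁻ β, ENNReal.ofReal (1 / psi W (insert j C) β (W q) p) ∂μq =
      ∫⁻ β, Φ β (gr W (insert j C) β j j) ∂μq := by
    refine lintegral_congr_ae ?_
    filter_upwards [h38_good hW hθq hj hμq] with β hβ
    simp only [hΦ]
    rw [psi_insert hW hβ.1 hβ.2 hj (W q) p]
    unfold kap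
    rw [if_neg hpj']
  -- right side
  set Ψ : (α → ℝ) → ℝ → ℝ≥0∞ := fun β t =>
    ENNReal.ofReal ((sfn W C (W j) q β * t) ^ 2 /
      (psi W C β (W j) p + t * psi W C β (W q) p * sfn W C (W j) q β)) with hΨ
  have hΨm : Measurable (fun x : (α → ℝ) × ℝ => Ψ x.1 x.2) :=
    (((ms'.mul measurable_snd).pow_const 2).div
      (mv.add ((measurable_snd.mul mu).mul ms'))).ennreal_ofReal
  have hΨd : ∀ t, DependsOn (fun β => Ψ β t) (C : Set α) := by
    intro t β β' hb
    have d1 : psi W C β (W q) p = psi W C β' (W q) p := dependsOn_psi W C (W q) p hb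
    have d2 : psi W C β (W j) p = psi W C β' (W j) p := dependsOn_psi W C (W j) p hb
    have d3 : sfn W C (W j) q β = sfn W C (W j) q β' := dependsOn_sfn W C (W j) q hb
    simp only [hΨ]
    rw [d1, d2, d3]
  have hR : ∫⁻ β, ENNReal.ofReal (psi W (insert q C) β (W j) q ^ 2 /
        psi W (insert q C) β (W j) p) ∂μj =
      ∫⁻ β, Ψ β (gr W (insert q C) β q q) ∂μj := by
    refine lintegral_congr_ae ?_
    filter_upwards [h38_good hW hθj hq hμj] with β hβ
    simp only [hΨ]
    rw [psi_insert_self hW hβ.1 hβ.2 hq (W j), psi_insert hW hβ.1 hβ.2 hq (W j) p]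
    unfold kap
    rw [if_neg hpq']
  rw [hL, hR, VR.disint hW hθq hj hμq hΦm hΦd, VR.disint' hW hθj hq hμj h₀ hΨm hΨd]
  refine lintegral_congr_ae ?_
  filter_upwards [h38_good hW hθq hj hμq] with β hβ
  have hs : 0 < sfn W C (W q) j β := h84_sfn_pos hW hp hpq hpj hβ.1
  simp only [hΦ, hΨ]
  rw [h84_sfn_symm (q := q) (j := j) hW hβ.1]
  exact h84_inner hs

end VJ26
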