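import Pool.Agent.VJ26.Root1
import Pool.Agent.VJ26.Root2
import Pool.Agent.VJ26.EdgeXQ

/-!
# [VJ-EDGEF] Monotonicity of `Φ` in an edge `{i,j}` inside `U`

This file: `phi_formula`

PROOF. Let `C = insert p (U.erase j)`, so `insert j C = insert p U`; by `phi_root` and
`root_change` (existence of the laws `μq`, `μj`: `exists_VR`)
 `1 + Φ(W) = ∫ ψ_q^2/ψ_p dμj`, `VR μj (insert q C) W (W j)`, `ψ = psi W (insert q C) β (W j)`.
Let `D = insert q (insert p ((U.erase j).erase i))`, `insert q C = insert i D`. Disintegrate at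
`i` (`VR.disint'`, base law `VR μD D W (W j + W i)`), `psi_insert` for `x = q` and `x = p`:
 `ψ_q = A + B λ T`, `ψ_p = C' + D' λ T`, `λ = sfn W D (W j) i β = W_ji + ⟨W_i, G_D W_j⟩`,
 `A = psi W D β (W j) q`, `B = psi W D β (W i) q`, `C' = psi W D β (W j) p`,
 `D' = psi W D β (W i) p`; `C' ≥ G_D(p,p) W_jp > 0`, `D' > 0`, `λ > 0` (`psi_ge_term`,
`bil_ge_term` with the vertex `p ∈ D`). So `1 + Φ(W) = ∫∫ ig(λ,t)(A+Bλt)^2/(C'+D'λt) dt dμD`.
For `W'` everything is the same (`i, j ∉ D`: `gr_congr`, `bil_congr`, `psi_congr`, base law by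
`VR.congr`) except `λ' = λ + (W'_ij - W_ij) ≥ λ`. Now `ig_mono_sq`, and cancel the `1`.
-/

open MeasureTheory Real
open scoped ENNReal

namespace VJ26

variable {α : Type*} [DecidableEq α]
variable {W W' : α → α → ℝ} {U : Finset α} {μ μ' : Measure (α → ℝ)} {p q i j : α}

/-- the expression of `1 + Φ(W)` as an integral over the base law on `D`. -/
theorem phi_formula (hW : Wt W) (hp : p ∉ U) (hq : q ∉ U) (hpq : p ≠ q) (h0 : 0 < W p q)
    (hpU : ∀ k ∈ U, 0 < W k p) (hi : i ∈ U) (hj : j ∈ U) (hij : i ≠ j)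
    (h : VR μ U W (W p + W q)) {μD : Measure (α → ℝ)}
    (hD : VR μD (insert q (insert p ((U.erase j).erase i))) W (W j + W i)) :
    1 + ∫⁻ β, ENNReal.ofReal (1 / cap W U β p q) ∂μ =
      ∫⁻ β, (∫⁻ t in Set.Ioi (0 : ℝ),
        ENNReal.ofReal (ig (sfn W (insert q (insert p ((U.erase j).erase i))) (W j) i β) t) *
        ENNReal.ofReal
          ((psi W (insert q (insert p ((U.erase j).erase i))) β (W j) q +
            psi W (insert q (insert p ((U.erase j).erase i))) β (W i) q *
            (sfn W (insert q (insert p ((U.erase j).erase i))) (W j) i β * t)) ^ 2 /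
          (psi W (insert q (insert p ((U.erase j).erase i))) β (W j) p +
            psi W (insert q (insert p ((U.erase j).erase i))) β (W i) p *
            (sfn W (insert q (insert p ((U.erase j).erase i))) (W j) i β * t)))) ∂μD := by
  obtain ⟨μq, hμq⟩ := exists_VR hW (insert p U) (W q) (hW.nonneg q)
  have hpj' : p ≠ j := fun e => hp (e ▸ hj)
  have hqj : q ≠ j := fun e => hq (e ▸ hj)
  have hqi : q ≠ i := fun e => hq (e ▸ hi)
  have hpi : p ≠ i := fun e => hp (e ▸ hi)
  have hpjW : 0 < W p j := by rw [hW.symm]; exact hpU j hj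
  set C : Finset α := insert p (U.erase j) with hC
  set D : Finset α := insert q (insert p ((U.erase j).erase i)) with hDdef
  have hCj : insert j C = insert p U := by
    rw [hC, Finset.insert_comm, Finset.insert_erase hj]
  have hiE : i ∈ U.erase j := Finset.mem_erase.mpr ⟨hij, hi⟩
  have hCq : insert q C = insert i D := by
    rw [hC, hDdef, Finset.insert_comm i q, Finset.insert_comm i p, Finset.insert_erase hiE]
  have hiD : i ∉ D := by
    rw [hDdef]
    simp only [Finset.mem_insert, Finset.mem_erase, not_or]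
    exact ⟨hqi.symm, hpi.symm, fun hh => hh.1 rfl⟩
  have hqC : q ∉ C := by
    rw [hC]
    simp only [Finset.mem_insert, Finset.mem_erase, not_or]
    exact ⟨hpq.symm, fun hh => hq hh.2⟩
  have hjC : j ∉ C := by
    rw [hC]
    simp only [Finset.mem_insert, Finset.mem_erase, not_or]
    exact ⟨hpj'.symm, fun hh => hh.1 rfl⟩
  have hpC : p ∈ C := by rw [hC]; exact Finset.mem_insert_self _ _
  obtain ⟨μj, hμj⟩ := exists_VR hW (insert q C) (W j) (hW.nonneg j)
  have hμq' : VR μq (insert j C) W (W q) := by rw [hCj]; exact hμq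
  have hμj' : VR μj (insert i D) W (W j) := by rw [← hCq]; exact hμj
  have h1 := phi_root hW hp hq hpq h0 hμq h
  have h2 := root_change hW hqC hjC hqj hpC h0 hpjW hμq' hμj
  rw [← h1, ← hCj, h2, hCq]
  have hθj : ∀ k, 0 ≤ W j k := hW.nonneg j
  set F : (α → ℝ) → ℝ → ℝ≥0∞ := fun β t =>
    ENNReal.ofReal ((psi W D β (W j) q + t * psi W D β (W i) q * sfn W D (W j) i β) ^ 2 /
      (psi W D β (W j) p + t * psi W D β (W i) p * sfn W D (W j) i β)) with hF
  have mA : Measurable (fun x : (α → ℝ) × ℝ => psi W D x.1 (W j) q) :=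
    (measurable_psi W D (W j) q).comp measurable_fst
  have mB : Measurable (fun x : (α → ℝ) × ℝ => psi W D x.1 (W i) q) :=
    (measurable_psi W D (W i) q).comp measurable_fst
  have mC : Measurable (fun x : (α → ℝ) × ℝ => psi W D x.1 (W j) p) :=
    (measurable_psi W D (W j) p).comp measurable_fst
  have mD : Measurable (fun x : (α → ℝ) × ℝ => psi W D x.1 (W i) p) :=
    (measurable_psi W D (W i) p).comp measurable_fst
  have ms : Measurable (fun x : (α → ℝ) × ℝ => sfn W D (W j) i x.1) :=
    (measurable_sfn W D (W j) i).comp measurable_fst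
  have hFm : Measurable (fun x : (α → ℝ) × ℝ => F x.1 x.2) :=
    (((mA.add ((measurable_snd.mul mB).mul ms)).pow_const 2).div
      (mC.add ((measurable_snd.mul mD).mul ms))).ennreal_ofReal
  have hFd : ∀ t, DependsOn (fun β => F β t) (D : Set α) := by
    intro t β β' hb
    have d1 : psi W D β (W j) q = psi W D β' (W j) q := dependsOn_psi W D (W j) q hb
    have d2 : psi W D β (W i) q = psi W D β' (W i) q := dependsOn_psi W D (W i) q hb
    have d3 : psi W D β (W j) p = psi W D β' (W j) p := dependsOn_psi W D (W j) p hb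
    have d4 : psi W D β (W i) p = psi W D β' (W i) p := dependsOn_psi W D (W i) p hb
    have d5 : sfn W D (W j) i β = sfn W D (W j) i β' := dependsOn_sfn W D (W j) i hb
    simp only [hF]
    rw [d1, d2, d3, d4, d5]
  have hR : ∫⁻ β, ENNReal.ofReal (psi W (insert i D) β (W j) q ^ 2 /
        psi W (insert i D) β (W j) p) ∂μj =
      ∫⁻ β, F β (gr W (insert i D) β i i) ∂μj := by
    refine lintegral_congr_ae ?_
    filter_upwards [h38_good hW hθj hiD hμj'] with β hβ
    simp only [hF]
    rw [psi_insert hW hβ.1 hβ.2 hiD (W j) q, psi_insert hW hβ.1 hβ.2 hiD (W j) p]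
    unfold kap
    rw [if_neg hqi, if_neg hpi]
  rw [hR, VR.disint' hW hθj hiD hμj' hD hFm hFd]
  refine lintegral_congr fun β => ?_
  refine lintegral_congr fun t => ?_
  simp only [hF]
  rw [show t * psi W D β (W i) q * sfn W D (W j) i β =
      psi W D β (W i) q * (sfn W D (W j) i β * t) by ring,
    show t * psi W D β (W i) p * sfn W D (W j) i β =
      psi W D β (W i) p * (sfn W D (W j) i β * t) by ring]


end VJ26
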