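import Pool.Agent.VJ26.IG3

/-!
# [VJ-IG4] Monotonicity in the parameter of the inverse Gaussian law

This file: `ig_mono_sq`

(M0) `λ ↦ exp(λ - sqrt(λ^2 + 2 c λ))` is antitone on `[0,∞)` for `c ≥ 0`
(`λ' - λ ≤ sqrt(λ'^2+2cλ') - sqrt(λ^2+2cλ)`: multiply by the conjugate; it is enough that
`sqrt(λ^2+2cλ) ≤ λ + c` for both, since `λ'^2+2cλ' - λ^2-2cλ = (λ'-λ)(λ'+λ+2c)`).

(M1) for `g > 0`, `h ≥ 0`, `0 ≤ λ ≤ λ'`:
`∫ ig(λ',t)/(g + h λ' t) dt ≤ ∫ ig(λ,t)/(g + h λ t) dt`.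
PROOF: for `t > 0`, `1/(g+hλt) = ∫_0^∞ exp(-c g) exp(-(c h λ) t) dc`; Tonelli and (I1) give
`∫ ig(λ,t)/(g+hλt) dt = ∫_0^∞ exp(-c g) exp(λ - sqrt(λ^2 + 2 c h λ)) dc`; now (M0).

(M1') the version needed for two conductances: `a, c, c' ≥ 0`, `c ≤ c'`, `g > 0`:
`∫ ig(a+c',t)/(g + a c' t) dt ≤ ∫ ig(a+c,t)/(g + a c t) dt`. With `λ = a+c`, `λ' = a+c'`,
`h = ac/(a+c)`, `h' = ac'/(a+c')`: `h ≤ h'` and `a c' = h' λ'`, so the left side is at most the
one with `h` in place of `h'` (pointwise), then (M1). (If `a + c = 0` then `h = 0` in Lean and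
`a c = 0 = h λ`, fine; if `a + c' = 0` both sides agree.)

(M2) for `A, B ≥ 0`, `C, D > 0`, `0 < λ ≤ λ'`:
`∫ ig(λ',t) (A+Bλ't)^2/(C+Dλ't) dt ≤ ∫ ig(λ,t) (A+Bλt)^2/(C+Dλt) dt`.
PROOF: division: with `Y = λ t`, `(A+BY)^2/(C+DY) = α Y + β₀ + γ/(C+DY)`, `α = B^2/D`,
`β₀ = (2AB - αC)/D`, `γ = (A - BC/D)^2 ≥ 0`. As `∫ ig(λ,t) λt dt = 1 = ∫ ig(λ,t) dt`, the
integral is `α + β₀ + γ ∫ ig(λ,t)/(C+Dλt) dt` (all real integrals are finite:
`1/(C+DY) ≤ 1/C`; to stay in lintegral add `|β₀|` to both sides), then (M1).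

(TAIL) for `s > 0`, `K > 0`: `∫ ig(s,t) (st) 1{st > K} dt ≤ e * exp(s - sqrt(s^2+2Ks))`.
PROOF: (I5) with `F(y) = 1{1/y > K}`: the left side is `∫ ig(s,t) 1{1/(st) > K} dt`
and `1{1/(st) > K} = 1{K s t < 1} ≤ e * exp(-K s t)`; then (I1) with `c = K s`.
-/

open MeasureTheory Real
open scoped ENNReal

namespace VJ26

/-- The division used in (M2). -/
theorem ig_sq_eq {A B C D l : ℝ} (hA : 0 ≤ A) (hB : 0 ≤ B) (hC : 0 < C) (hD : 0 < D)
    (hl : 0 < l) {α β γ : ℝ} (hα : α = B ^ 2 / D) (hβ : β = (2 * A * B - α * C) / D)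
    (hγ : γ = (A - B * C / D) ^ 2) :
    (∫⁻ t in Set.Ioi (0 : ℝ), ENNReal.ofReal (ig l t) *
      ENNReal.ofReal ((A + B * (l * t)) ^ 2 / (C + D * (l * t)))) + ENNReal.ofReal |β| =
    ENNReal.ofReal α + ENNReal.ofReal (β + |β|) + ENNReal.ofReal γ *
      ∫⁻ t in Set.Ioi (0 : ℝ), ENNReal.ofReal (ig l t) *
        ENNReal.ofReal (1 / (C + D * (l * t))) := by
  have hm : Measurable (fun t : ℝ => ig l t) := measurable_ig.comp (by fun_prop : Measurable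
      (fun t : ℝ => ((l, t) : ℝ × ℝ)))
  have hα0 : 0 ≤ α := by rw [hα]; positivity
  have hγ0 : 0 ≤ γ := by rw [hγ]; positivity
  have hβ0 : 0 ≤ β + |β| := by
    have := neg_abs_le β
    linarith
  have h1 : ENNReal.ofReal |β| =
      ∫⁻ t in Set.Ioi (0 : ℝ), ENNReal.ofReal (ig l t) * ENNReal.ofReal |β| := by
    rw [lintegral_mul_const _ (by fun_prop), ig_mass hl.le, one_mul]
  have h2 : ENNReal.ofReal α =
      ∫⁻ t in Set.Ioi (0 : ℝ), ENNReal.ofReal α * ENNReal.ofReal (ig l t * (l * t)) := by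
    rw [lintegral_const_mul _ (by fun_prop), ig_mean hl, mul_one]
  have h3 : ENNReal.ofReal (β + |β|) =
      ∫⁻ t in Set.Ioi (0 : ℝ), ENNReal.ofReal (ig l t) * ENNReal.ofReal (β + |β|) := by
    rw [lintegral_mul_const _ (by fun_prop), ig_mass hl.le, one_mul]
  rw [h2, h3, ← lintegral_const_mul _ (by fun_prop), ← lintegral_add_left (by fun_prop),
    ← lintegral_add_left (by fun_prop)]
  conv_lhs => rw [h1]
  rw [← lintegral_add_left (by fun_prop)]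
  refine setLIntegral_congr_fun measurableSet_Ioi fun t ht => ?_
  have ht' : 0 < t := ht
  have hig := ig_nonneg l t
  have hY : 0 < l * t := mul_pos hl ht'
  have hpos : 0 < C + D * (l * t) := by positivity
  rw [← ENNReal.ofReal_mul hig, ← ENNReal.ofReal_mul hig, ← ENNReal.ofReal_mul hα0,
    ← ENNReal.ofReal_mul hig, ← ENNReal.ofReal_mul hig, ← ENNReal.ofReal_mul hγ0,
    ← ENNReal.ofReal_add (by positivity) (by positivity),
    ← ENNReal.ofReal_add (by positivity) (mul_nonneg hig hβ0),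
    ← ENNReal.ofReal_add (add_nonneg (by positivity) (mul_nonneg hig hβ0)) (by positivity)]
  congr 1
  have key : (A + B * (l * t)) ^ 2 / (C + D * (l * t)) =
      α * (l * t) + β + γ * (1 / (C + D * (l * t))) := by
    rw [hβ, hγ, hα]
    field_simp
    ring
  rw [key]
  ring

/-- (M2) -/
theorem ig_mono_sq {A B C D l l' : ℝ} (hA : 0 ≤ A) (hB : 0 ≤ B) (hC : 0 < C) (hD : 0 < D)
    (hl : 0 < l) (hll : l ≤ l') :
    ∫⁻ t in Set.Ioi (0 : ℝ), ENNReal.ofReal (ig l' t) *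
      ENNReal.ofReal ((A + B * (l' * t)) ^ 2 / (C + D * (l' * t))) ≤
    ∫⁻ t in Set.Ioi (0 : ℝ), ENNReal.ofReal (ig l t) *
      ENNReal.ofReal ((A + B * (l * t)) ^ 2 / (C + D * (l * t))) := by
  have e1 := ig_sq_eq hA hB hC hD hl rfl rfl rfl
  have e2 := ig_sq_eq hA hB hC hD (hl.trans_le hll) rfl rfl rfl
  have h := ig_mono_one (g := C) (h := D) hC hD.le hl.le hll
  refine (ENNReal.add_le_add_iff_right (ENNReal.ofReal_ne_top
    (r := |(2 * A * B - B ^ 2 / D * C) / D|))).1 ?_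
  rw [e1, e2]
  gcongr

end VJ26
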