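import Pool.Agent.VJ26.EdgeF
import Pool.Agent.VJ26.IG4

/-!
# [VJ-EDGEIJ] Monotonicity of `Φ` in an edge `{i,j}` inside `U`

This file: `edge_ij`

PROOF. Let `C = insert p (U.erase j)`, so `insert j C = insert p U`; by `phi_root` and
`root_change` (existence of the laws `μq`, `μj`: `exists_VR`)
 `1 + Φ(W) = ∫ ψ_q^2/ψ_p dμj`, `VR μj (insert q C) W (W j)`, `ψ = psi W (insert q C) β (W j)`.
Let `D = insert q (insert p ((U.erase j).erase i))`, `insert q C = insert i D`. Disintegrate at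
`i` (`VR.disint'`, base law `VR μD D W (W j + W i)`), `psi_insert` for `x = q` and `x = p`:
 `ψ_q = A + B λ T`, `ψ_p = C' + D' λ T`, `λ = sfn W D (W j) i β = W_ji + ⟨W_i, G_D W_j⟩`,
 `A = psi W D β (W j) q`, `B = psi W D β (W i) q`, `C' = psi W D β (W j) p`,
 `D' = psi W D β (W i) p`; `C' ≥ G_D(p,p) W_jp > 0`, `D' > 0`, `λ > 0` (`psi_ge_term`,
`bil_ge_term` with the vertex `p ∈ D`). So `1 + Φ(W) = ∫∫ ig(λ,t)(A+Bλt)^2/(C'+D'λt) dt dμD`.
For `W'` everything is the same (`i, j ∉ D`: `gr_congr`, `bil_congr`, `psi_congr`, base law by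
`VR.congr`) except `λ' = λ + (W'_ij - W_ij) ≥ λ`. Now `ig_mono_sq`, and cancel the `1`.
-/

open MeasureTheory Real
open scoped ENNReal

namespace VJ26

variable {α : Type*} [DecidableEq α]
variable {W W' : α → α → ℝ} {U : Finset α} {μ μ' : Measure (α → ℝ)} {p q i j : α}

theorem edge_ij (hW : Wt W) (hW' : Wt W') (hp : p ∉ U) (hq : q ∉ U) (hpq : p ≠ q)
    (h0 : 0 < W p q) (hpU : ∀ k ∈ U, 0 < W k p) (hi : i ∈ U) (hj : j ∈ U) (hij : i ≠ j)
    (hs : SameOff W W' i j) (hle : W i j ≤ W' i j)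
    (h : VR μ U W (W p + W q)) (h' : VR μ' U W' (W' p + W' q)) :
    ∫⁻ β, ENNReal.ofReal (1 / cap W' U β p q) ∂μ' ≤
      ∫⁻ β, ENNReal.ofReal (1 / cap W U β p q) ∂μ := by
  have hpi : p ≠ i := fun e => hp (e ▸ hi)
  have hpj : p ≠ j := fun e => hp (e ▸ hj)
  have hqi : q ≠ i := fun e => hq (e ▸ hi)
  have hqj : q ≠ j := fun e => hq (e ▸ hj)
  have e0 : ∀ a, a ≠ i → a ≠ j → ∀ b, W' a b = W a b := fun a ha ha' b =>
    hs a b (fun t => ha t.1) (fun t => ha' t.1)
  have hDi : ∀ a ∈ insert q (insert p ((U.erase j).erase i)), a ≠ i ∧ a ≠ j := by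
    intro a ha
    rcases Finset.mem_insert.1 ha with rfl | ha
    · exact ⟨hqi, hqj⟩
    rcases Finset.mem_insert.1 ha with rfl | ha
    · exact ⟨hpi, hpj⟩
    · exact ⟨Finset.ne_of_mem_erase ha, Finset.ne_of_mem_erase (Finset.mem_of_mem_erase ha)⟩
  obtain ⟨μD, hD⟩ := exists_VR hW (insert q (insert p ((U.erase j).erase i))) (W j + W i)
    (fun a => add_nonneg (hW.nonneg j a) (hW.nonneg i a))
  have f1 := phi_formula hW hp hq hpq h0 hpU hi hj hij h hD
  have h0' : 0 < W' p q := by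
    rw [e0 p hpi hpj q]
    exact h0
  have hpU' : ∀ k ∈ U, 0 < W' k p := by
    intro k hk
    rw [hW'.symm k p, e0 p hpi hpj k, hW.symm p k]
    exact hpU k hk
  have e1 : ∀ a ∈ insert q (insert p ((U.erase j).erase i)), ∀ b, W' a b = W a b :=
    fun a ha b => e0 a (hDi a ha).1 (hDi a ha).2 b
  have e2 : ∀ a ∈ insert q (insert p ((U.erase j).erase i)), ∀ b, W' b a = W b a := by
    intro a ha b
    rw [hW'.symm b a, e1 a ha b, hW.symm a b]
  have hD' : VR μD (insert q (insert p ((U.erase j).erase i))) W' (W' j + W' i) := by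
    refine hD.congr (fun a ha b _ => (e1 a ha b).symm) (fun a ha => ?_)
    simp only [Pi.add_apply]
    rw [e2 a ha, e2 a ha]
  have f2 := phi_formula hW' hp hq hpq h0' hpU' hi hj hij h' hD'
  have key : 1 + ∫⁻ β, ENNReal.ofReal (1 / cap W' U β p q) ∂μ' ≤
      1 + ∫⁻ β, ENNReal.ofReal (1 / cap W U β p q) ∂μ := by
    rw [f1, f2]
    clear f1 f2
    have hpD : p ∈ insert q (insert p ((U.erase j).erase i)) :=
      Finset.mem_insert_of_mem (Finset.mem_insert_self p _)
    generalize insert q (insert p ((U.erase j).erase i)) = D at hD hD' hDi e1 e2 hpD ⊢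
    refine lintegral_mono_ae ?_
    filter_upwards [VR.good hW (fun a => add_nonneg (hW.nonneg j a) (hW.nonneg i a)) hD]
      with β hβ
    have hc : ∀ a : α, psi W' D β (W' a) = psi W D β (W a) := fun a =>
      psi_congr (fun c hc b _ => e1 c hc b) (fun _ _ => rfl) (fun c hc => e2 c hc a)
    have hb : bil W' D β (W' i) (W' j) = bil W D β (W i) (W j) :=
      bil_congr (fun c hc b _ => e1 c hc b) (fun _ _ => rfl) (fun c hc => e2 c hc i)
        (fun c hc => e2 c hc j)
    rw [hc j, hc i]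
    have hGp : 0 < gr W D β p p := hβ.pos p hpD
    have hjp : 0 < W j p := hpU j hj
    have hip : 0 < W i p := hpU i hi
    have k1 : 0 < psi W D β (W j) p :=
      lt_of_lt_of_le (mul_pos hGp hjp) (psi_ge_term hβ (fun a _ => hW.nonneg j a) hpD)
    have k2 : 0 < psi W D β (W i) p :=
      lt_of_lt_of_le (mul_pos hGp hip) (psi_ge_term hβ (fun a _ => hW.nonneg i a) hpD)
    have k3 : 0 < sfn W D (W j) i β := by
      have h1 := bil_ge_term (x := W i) (y := W j) hβ (fun a _ => hW.nonneg i a)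
        (fun a _ => hW.nonneg j a) hpD
      have h2 : 0 < W i p * gr W D β p p * W j p := by positivity
      have h3 := hW.nonneg j i
      unfold sfn
      linarith
    have k4 : sfn W D (W j) i β ≤ sfn W' D (W' j) i β := by
      have h4 : W j i ≤ W' j i := by
        rw [hW.symm j i, hW'.symm j i]
        exact hle
      unfold sfn
      rw [hb]
      linarith
    exact ig_mono_sq (psi_nonneg hβ (fun a _ => hW.nonneg j a) q)
      (psi_nonneg hβ (fun a _ => hW.nonneg i a) q) k1 k2 k3 k4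
  exact (ENNReal.add_le_add_iff_left ENNReal.one_ne_top).1 key

end VJ26
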