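import Pool.Agent.VJ26.Final

/-!
# [VJ-EXPOT] Existence of the random potential on `Z^d` (non-vacuity of `IsPotential`)

Ionescu-Tulcea: enumerate `Z^d` by `e : ℕ ≃ Zd d` (`Denumerable`/`Encodable`; `d ≥ 1`), let
`S n = {e 0, ..., e n}` (Finset.image). State space `ℝ` at every time (the value of `β` at `e n`).
Kernel from the history `h = (h 0, ..., h n)` (extended to `βh : Zd d → ℝ` by `0` off `S n`) to the
value at `e (n+1)`: the image of the measure `ig (s h) t dt` on `Ioi 0` under
`t ↦ (1/t + bil (Wd w) (S n) βh (Wd w (e (n+1))) (Wd w (e (n+1)))) / 2`,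
`s h = max 0 (sfn (Wd w) (S n) (etaV w (S (n+1))) (e (n+1)) βh)` (the `max` makes it a Markov
kernel for every `h` by `ig_mass`; a.s. it is not needed, `sfn_nonneg`). Under
`Kernel.trajMeasure` the law of `(β_{e 0}, ..., β_{e n})` is `VR .. (S n) (Wd w) (etaV w (S n))` by
induction: it is the `stepM` of the previous one (`stepM_VR`, `etaV_insert`,
`Kernel.map_frestrictLe_trajMeasure_compProd_eq_map_trajMeasure`). Every finite `U` is contained
in some `S n`; use `VR.marg_sdiff` and `etaV_sdiff`. Finally `IsPotential.lap` from `VR.lap` with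
`L_i = sqrt (1 + l_i)`.
(Any other construction is fine, e.g. Kolmogorov extension if Mathlib has it: only the statement
matters.)
-/

open MeasureTheory Real ProbabilityTheory
open scoped ENNReal

namespace VJ26

section general

variable {α : Type*} [DecidableEq α]

/-- the first `n` vertices -/
noncomputable def xpS (e : ℕ ≃ α) (n : ℕ) : Finset α := (Finset.range n).map e.toEmbedding

/-- extension of a history: the value at the vertex `e k` is the coordinate `k + 1` -/
noncomputable def xpE (e : ℕ ≃ α) (n : ℕ) (h : (i : Finset.Iic n) → ℝ) (i : α) : ℝ :=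
  if hk : e.symm i + 1 ≤ n then h ⟨e.symm i + 1, Finset.mem_Iic.2 hk⟩ else 0

/-- the history of a trajectory -/
def xpR (n : ℕ) (x : ℕ → ℝ) : (i : Finset.Iic n) → ℝ := fun i => x i.1

/-- the field of a trajectory -/
noncomputable def xpF (e : ℕ ≃ α) (x : ℕ → ℝ) (i : α) : ℝ := x (e.symm i + 1)

omit [DecidableEq α] in
theorem mem_xpS {e : ℕ ≃ α} {n : ℕ} {i : α} : i ∈ xpS e n ↔ e.symm i < n := by
  unfold xpS
  rw [Finset.mem_map]
  constructor
  · rintro ⟨k, hk, rfl⟩
    rw [Finset.mem_range] at hk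
    simpa using hk
  · intro h
    exact ⟨e.symm i, Finset.mem_range.2 h, by simp⟩

theorem xpS_succ (e : ℕ ≃ α) (n : ℕ) : xpS e (n + 1) = insert (e n) (xpS e n) := by
  ext i
  rw [Finset.mem_insert, mem_xpS, mem_xpS, Nat.lt_succ_iff_lt_or_eq, or_comm]
  refine or_congr ⟨fun h => ?_, fun h => ?_⟩ Iff.rfl
  · rw [← h, Equiv.apply_symm_apply]
  · rw [h, Equiv.symm_apply_apply]

omit [DecidableEq α] in
theorem xp_notMem (e : ℕ ≃ α) (n : ℕ) : e n ∉ xpS e n := by
  rw [mem_xpS, Equiv.symm_apply_apply]
  exact lt_irrefl n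

omit [DecidableEq α] in
theorem measurable_xpE (e : ℕ ≃ α) (n : ℕ) : Measurable (xpE e n) := by
  rw [measurable_pi_iff]
  intro i
  unfold xpE
  by_cases hk : e.symm i + 1 ≤ n
  · simp only [dif_pos hk]
    exact measurable_pi_apply _
  · simp only [dif_neg hk]
    exact measurable_const

omit [DecidableEq α] in
theorem measurable_xpF (e : ℕ ≃ α) : Measurable (xpF e) := by
  rw [measurable_pi_iff]
  intro i
  exact measurable_pi_apply _

variable (e : ℕ ≃ α) (W : α → α → ℝ) (θ : α → ℝ)

/-- the parameter of the inverse Gaussian law -/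
noncomputable def xps (n : ℕ) (h : (i : Finset.Iic n) → ℝ) : ℝ :=
  max 0 (sfn W (xpS e n) θ (e n) (xpE e n h))

/-- the quadratic form -/
noncomputable def xpq (n : ℕ) (h : (i : Finset.Iic n) → ℝ) : ℝ :=
  bil W (xpS e n) (xpE e n h) (W (e n)) (W (e n))

/-- the law of the next value -/
noncomputable def xpK (n : ℕ) (h : (i : Finset.Iic n) → ℝ) : Measure ℝ :=
  Measure.map (fun t => (1 / t + xpq e W n h) / 2)
    ((volume.restrict (Set.Ioi 0)).withDensity (fun t => ENNReal.ofReal (ig (xps e W θ n h) t)))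

theorem measurable_xps (n : ℕ) : Measurable (xps e W θ n) :=
  measurable_const.max ((measurable_sfn W _ θ _).comp (measurable_xpE e n))

theorem measurable_xpq (n : ℕ) : Measurable (xpq e W n) :=
  (measurable_bil W _ _ _).comp (measurable_xpE e n)

theorem lintegral_xpK (n : ℕ) (h : (i : Finset.Iic n) → ℝ) {G : ℝ → ℝ≥0∞} (hG : Measurable G) :
    ∫⁻ y, G y ∂(xpK e W θ n h) =
      ∫⁻ t in Set.Ioi (0 : ℝ), ENNReal.ofReal (ig (xps e W θ n h) t) *
        G ((1 / t + xpq e W n h) / 2) := by
  have hm : Measurable (fun t : ℝ => (1 / t + xpq e W n h) / 2) := by fun_prop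
  have hd : Measurable (fun t : ℝ => ENNReal.ofReal (ig (xps e W θ n h) t)) :=
    (measurable_ig.comp (measurable_const.prodMk measurable_id)).ennreal_ofReal
  have h1 := lintegral_withDensity_eq_lintegral_mul (volume.restrict (Set.Ioi (0 : ℝ))) hd
    (hG.comp hm)
  rw [xpK, lintegral_map hG hm]
  exact h1

theorem measurable_xpK (n : ℕ) : Measurable (xpK e W θ n) := by
  refine Measure.measurable_of_measurable_coe _ fun s hs => ?_
  have h1 : (fun h => xpK e W θ n h s) = fun h => ∫⁻ t in Set.Ioi (0 : ℝ),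
      ENNReal.ofReal (ig (xps e W θ n h) t) * s.indicator 1 ((1 / t + xpq e W n h) / 2) := by
    funext h
    rw [← lintegral_indicator_one hs, lintegral_xpK e W θ n h (measurable_one.indicator hs)]
  rw [h1]
  have hd : Measurable (fun p : ((i : Finset.Iic n) → ℝ) × ℝ =>
      ENNReal.ofReal (ig (xps e W θ n p.1) p.2)) :=
    (measurable_ig.comp
      (((measurable_xps e W θ n).comp measurable_fst).prodMk measurable_snd)).ennreal_ofReal
  have hm : Measurable (fun p : ((i : Finset.Iic n) → ℝ) × ℝ => (1 / p.2 + xpq e W n p.1) / 2) :=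
    ((measurable_const.div measurable_snd).add
      ((measurable_xpq e W n).comp measurable_fst)).div_const 2
  have hi : Measurable (s.indicator (1 : ℝ → ℝ≥0∞)) := measurable_one.indicator hs
  exact (hd.mul (hi.comp hm)).lintegral_prod_right'

/-- the kernel -/
noncomputable def xpKer (n : ℕ) : Kernel ((i : Finset.Iic n) → ℝ) ℝ where
  toFun := xpK e W θ n
  measurable' := measurable_xpK e W θ n

theorem xpKer_apply (n : ℕ) (h : (i : Finset.Iic n) → ℝ) : xpKer e W θ n h = xpK e W θ n h := rfl

instance xpKer_markov (n : ℕ) : IsMarkovKernel (xpKer e W θ n) := by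
  refine ⟨fun h => ⟨?_⟩⟩
  rw [xpKer_apply, ← lintegral_one, lintegral_xpK e W θ n h measurable_const]
  simp only [mul_one]
  exact ig_mass (le_max_left _ _)

end general

section law

variable {α : Type*} [DecidableEq α] (e : ℕ ≃ α) (W : α → α → ℝ) (θ : Finset α → α → ℝ)

/-- the trajectory measure -/
noncomputable def xpT : Measure (ℕ → ℝ) :=
  Kernel.traj (X := fun _ => ℝ) (fun n => xpKer e W (θ (xpS e (n + 1))) n) 0 (fun _ => 0)

/-- the law of the field -/
noncomputable def xpM : Measure (α → ℝ) := (xpT e W θ).map (xpF e)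

instance : IsProbabilityMeasure (xpT e W θ) := by
  unfold xpT
  infer_instance

instance : IsProbabilityMeasure (xpM e W θ) :=
  Measure.isProbabilityMeasure_map (measurable_xpF e).aemeasurable

omit [DecidableEq α] in
theorem xp_agree {n : ℕ} (x : ℕ → ℝ) {i : α} (hi : i ∈ xpS e n) :
    xpE e n (xpR n x) i = xpF e x i := by
  rw [mem_xpS] at hi
  unfold xpE xpF
  rw [dif_pos (by omega)]
  rfl

theorem lintegral_xpT (n : ℕ) {G : (((i : Finset.Iic n) → ℝ) × ℝ) → ℝ≥0∞} (hG : Measurable G) :
    ∫⁻ x, G (xpR n x, x (n + 1)) ∂(xpT e W θ) =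
      ∫⁻ x, (∫⁻ t in Set.Ioi (0 : ℝ),
        ENNReal.ofReal (ig (xps e W (θ (xpS e (n + 1))) n
          (xpR n x)) t) *
        G (xpR n x,
          (1 / t + xpq e W n (xpR n x)) / 2)) ∂(xpT e W θ) := by
  have hr : Measurable (xpR n) :=
    measurable_pi_iff.2 fun i => measurable_pi_apply _
  have hp : Measurable (fun x : ℕ → ℝ => (xpR n x, x (n + 1))) :=
    hr.prodMk (measurable_pi_apply _)
  rw [← lintegral_map hG hp]
  have h1 := Kernel.partialTraj_compProd_eq_map_traj (X := fun _ => ℝ)
    (κ := fun n => xpKer e W (θ (xpS e (n + 1))) n) (Nat.zero_le n) (x₀ := fun _ => 0)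
  have h2 := Kernel.traj_map_frestrictLe_apply (X := fun _ => ℝ)
    (κ := fun n => xpKer e W (θ (xpS e (n + 1))) n) 0 n (fun _ => 0)
  change Measure.map (xpR n) (xpT e W θ) = _ at h2
  change _ = Measure.map (fun x => (xpR n x, x (n + 1))) (xpT e W θ) at h1
  have hm : Measurable (fun h : (i : Finset.Iic n) → ℝ =>
      ∫⁻ y, G (h, y) ∂(xpKer e W (θ (xpS e (n + 1))) n h)) := hG.lintegral_kernel_prod_right'
  rw [← h1, Measure.lintegral_compProd hG, ← h2, lintegral_map hm hr]
  refine lintegral_congr fun x => ?_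
  exact lintegral_xpK e W (θ (xpS e (n + 1))) n (xpR n x) (hG.comp measurable_prodMk_left)

theorem lintegral_xpM (n : ℕ)
    (hs : ∀ᵐ β ∂(xpM e W θ), 0 ≤ sfn W (xpS e n) (θ (xpS e (n + 1))) (e n) β)
    {F : (α → ℝ) → ℝ≥0∞} (hF : Measurable F) (hd : DependsOn F (xpS e (n + 1) : Set α)) :
    ∫⁻ β, F β ∂(xpM e W θ) =
      ∫⁻ β, F β ∂(stepM (xpM e W θ) W (xpS e n) (θ (xpS e (n + 1))) (e n)) := by
  rw [lintegral_stepM hF]
  have hsfn := measurable_sfn W (xpS e n) (θ (xpS e (n + 1))) (e n)
  have hm2 : Measurable (fun β : α → ℝ => ∫⁻ t in Set.Ioi (0 : ℝ),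
      ENNReal.ofReal (ig (sfn W (xpS e n) (θ (xpS e (n + 1))) (e n) β) t) *
        F (addv W (xpS e n) (e n) (β, t))) := by
    have h1 : Measurable (fun p : (α → ℝ) × ℝ =>
        ENNReal.ofReal (ig (sfn W (xpS e n) (θ (xpS e (n + 1))) (e n) p.1) p.2) *
          F (addv W (xpS e n) (e n) p)) :=
      (measurable_ig.comp ((hsfn.comp measurable_fst).prodMk measurable_snd)).ennreal_ofReal.mul
        (hF.comp (measurable_addv W _ _))
    exact h1.lintegral_prod_right'
  have hs' : ∀ᵐ x ∂(xpT e W θ), 0 ≤ sfn W (xpS e n) (θ (xpS e (n + 1))) (e n) (xpF e x) := by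
    have hset : MeasurableSet
        {β : α → ℝ | 0 ≤ sfn W (xpS e n) (θ (xpS e (n + 1))) (e n) β} :=
      measurableSet_le measurable_const hsfn
    exact (ae_map_iff (measurable_xpF e).aemeasurable hset).1 hs
  conv_lhs => rw [xpM]
  rw [lintegral_map hF (measurable_xpF e)]
  conv_rhs =>
    arg 1
    rw [xpM]
  rw [lintegral_map hm2 (measurable_xpF e)]
  -- the function of the history and the next value
  have hG : Measurable (fun p : ((i : Finset.Iic n) → ℝ) × ℝ =>
      F (Function.update (xpE e n p.1) (e n) p.2)) := by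
    refine hF.comp ?_
    rw [measurable_pi_iff]
    intro i
    by_cases hi : i = e n
    · subst hi
      simp only [Function.update_self]
      exact measurable_snd
    · simp only [Function.update_of_ne hi]
      exact (measurable_pi_apply i).comp ((measurable_xpE e n).comp measurable_fst)
  have h1 : ∀ x : ℕ → ℝ, F (xpF e x) = (fun p : ((i : Finset.Iic n) → ℝ) × ℝ =>
      F (Function.update (xpE e n p.1) (e n) p.2))
        (xpR n x, x (n + 1)) := by
    intro x
    refine hd fun i hi => ?_
    rw [Finset.mem_coe, xpS_succ, Finset.mem_insert] at hi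
    rcases hi with rfl | hi
    · simp only [Function.update_self, xpF, Equiv.symm_apply_apply]
    · have hne : i ≠ e n := fun h => xp_notMem e n (h ▸ hi)
      simp only [Function.update_of_ne hne]
      exact (xp_agree e x hi).symm
  rw [lintegral_congr h1, lintegral_xpT e W θ n hG]
  refine lintegral_congr_ae ?_
  filter_upwards [hs'] with x hx
  have e1 : sfn W (xpS e n) (θ (xpS e (n + 1))) (e n)
      (xpE e n (xpR n x)) =
      sfn W (xpS e n) (θ (xpS e (n + 1))) (e n) (xpF e x) :=
    dependsOn_sfn W (xpS e n) _ _ fun i hi => xp_agree e x (Finset.mem_coe.1 hi)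
  have e2 : xpq e W n (xpR n x) =
      bil W (xpS e n) (xpF e x) (W (e n)) (W (e n)) :=
    dependsOn_bil W (xpS e n) _ _ fun i hi => xp_agree e x (Finset.mem_coe.1 hi)
  have e3 : xps e W (θ (xpS e (n + 1))) n (xpR n x) =
      sfn W (xpS e n) (θ (xpS e (n + 1))) (e n) (xpF e x) := by
    rw [xps, e1, max_eq_right hx]
  refine lintegral_congr fun t => ?_
  rw [e3, e2]
  congr 1
  refine hd fun i hi => ?_
  rw [Finset.mem_coe, xpS_succ, Finset.mem_insert] at hi
  rcases hi with rfl | hi
  · simp only [addv, Function.update_self]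
  · have hne : i ≠ e n := fun h => xp_notMem e n (h ▸ hi)
    simp only [addv, Function.update_of_ne hne]
    exact xp_agree e x hi

/-- the field has the right law on the first `n` vertices -/
theorem xpM_VR (hW : Wt W) (hθ : ∀ U i, 0 ≤ θ U i)
    (hins : ∀ U m i, m ∉ U → i ∈ U → θ U i = θ (insert m U) i + W m i) (n : ℕ) :
    VR (xpM e W θ) (xpS e n) W (θ (xpS e n)) := by
  induction n with
  | zero =>
    refine ⟨inferInstance, ?_, ?_⟩
    · intro i hi
      rw [mem_xpS] at hi
      omega
    · intro L hL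
      have h0 : xpS e 0 = ∅ := by simp [xpS]
      rw [h0]
      simp [Lam]
  | succ n ih =>
    have hm := xp_notMem e n
    have h1 : VR (xpM e W θ) (xpS e n) W (θ (xpS e (n + 1)) + W (e n)) := by
      refine ih.congr (fun _ _ _ _ => rfl) fun i hi => ?_
      rw [Pi.add_apply, xpS_succ, hins _ _ _ hm hi]
    have hs : ∀ᵐ β ∂(xpM e W θ), 0 ≤ sfn W (xpS e n) (θ (xpS e (n + 1))) (e n) β := by
      filter_upwards [ae_sfn_nonneg hW (hθ _) h1 (P4_AG _).2] with β hβ
      exact hβ.2.1
    have h2 := stepM_VR hW (hθ _) hm h1 (P4_AG _).1 (P4_AG _).2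
    rw [← xpS_succ] at h2
    refine ⟨inferInstance, fun i hi => ?_, fun L hL => ?_⟩
    · have h3 := h2.pos i hi
      have hset : MeasurableSet {β : α → ℝ | ¬ 0 < β i} :=
        (measurableSet_lt measurable_const (measurable_pi_apply i)).compl
      rw [ae_iff] at h3 ⊢
      rw [← lintegral_indicator_one hset] at h3 ⊢
      rw [lintegral_xpM e W θ n hs (measurable_one.indicator hset)]
      · exact h3
      · intro β β' hββ
        have h4 := hββ i (Finset.mem_coe.2 hi)
        by_cases h5 : 0 < β i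
        · rw [Set.indicator_of_notMem (by simpa using h5),
            Set.indicator_of_notMem (by simpa [← h4] using h5)]
        · rw [Set.indicator_of_mem (by simpa using h5),
            Set.indicator_of_mem (by simpa [← h4] using h5)]
          rfl
    · rw [← h2.lap L hL]
      refine lintegral_xpM e W θ n hs ?_ ?_
      · refine Measurable.ennreal_ofReal (Real.measurable_exp.comp (Measurable.neg ?_))
        exact Finset.measurable_sum _ fun i _ => (measurable_pi_apply i).const_mul _
      · intro β β' hββ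
        simp only
        congr 3
        exact Finset.sum_congr rfl fun i hi => by rw [hββ i (Finset.mem_coe.2 hi)]

end law

theorem exists_RF (d : ℕ) [NeZero d] {w : ℝ} (hw : 0 ≤ w) :
    ∃ μ : Measure (Zd d → ℝ), RF w μ := by
  classical
  have : Nonempty (Fin d) := ⟨⟨0, Nat.pos_of_ne_zero (NeZero.ne d)⟩⟩
  obtain ⟨hden⟩ := nonempty_denumerable (Zd d)
  let e : ℕ ≃ Zd d := (Denumerable.eqv (Zd d)).symm
  have hW := wt_Wd (d := d) hw
  have hall := xpM_VR e (Wd w) (etaV w) hW (fun U i => etaV_nonneg hw U i)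
    (fun U m i hm hi => etaV_insert hm hi)
  refine ⟨xpM e (Wd w) (etaV w), ⟨fun U => ?_⟩⟩
  -- a large initial set
  set n := (U.sup fun i => e.symm i) + 1 with hn
  have hU : U ⊆ xpS e n := by
    intro i hi
    rw [mem_xpS, hn]
    exact Nat.lt_succ_of_le (Finset.le_sup (f := fun i => e.symm i) hi)
  have h1 := VR.marg_sdiff hW (Finset.sdiff_subset (s := xpS e n) (t := U)) (hall n)
  have h2 : xpS e n \ (xpS e n \ U) = U := Finset.sdiff_sdiff_eq_self hU
  rw [h2] at h1
  refine h1.congr (fun _ _ _ _ => rfl) fun i hi => ?_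
  have h3 := etaV_sdiff (w := w) (Finset.sdiff_subset (s := xpS e n) (t := U)) (i := i)
    (by rw [h2]; exact hi)
  rw [h2] at h3
  rw [h3, Pi.add_apply]

theorem exists_isPotential (d : ℕ) [NeZero d] {w : ℝ} (hw : 0 < w) :
    ∃ (Ω : Type) (_ : MeasurableSpace Ω) (P : Measure Ω) (β : Zd d → Ω → ℝ),
      IsPotential w P β := by
  classical
  obtain ⟨μ, hμ⟩ := exists_RF d hw.le
  have hprob := (hμ.vr ∅).prob
  have hpos : ∀ i, ∀ᵐ β ∂μ, 0 < β i := fun i => (hμ.vr {i}).pos i (Finset.mem_singleton_self i)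
  refine ⟨Zd d → ℝ, inferInstance, μ, fun i β => β i,
    ⟨hprob, fun i => measurable_pi_apply i, hpos, fun U l hl => ?_⟩⟩
  have hL1 : ∀ i, 1 ≤ Real.sqrt (1 + l i) := by
    intro i
    rw [Real.one_le_sqrt]
    linarith [hl i]
  have hlap := (hμ.vr U).lap (fun i => Real.sqrt (1 + l i)) hL1
  have hsq : ∀ i, Real.sqrt (1 + l i) ^ 2 - 1 = l i := by
    intro i
    rw [Real.sq_sqrt (by linarith [hl i])]
    ring
  simp only [hsq] at hlap
  have hm : Measurable (fun β : Zd d → ℝ => exp (-∑ i ∈ U, l i * β i)) := by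
    refine measurable_exp.comp (Measurable.neg ?_)
    exact Finset.measurable_sum _ fun i _ => (measurable_pi_apply i).const_mul _
  rw [integral_eq_lintegral_of_nonneg_ae (Filter.Eventually.of_forall fun β => (exp_pos _).le)
    hm.aestronglyMeasurable, hlap, ENNReal.toReal_ofReal, Lam]
  · congr 2
    congr 1
    · rw [neg_mul]
      congr 2
      refine Finset.sum_congr rfl fun i _ => Finset.sum_congr rfl fun j _ => ?_
      rw [Real.sqrt_mul (by linarith [hl i])]
      unfold Wd
      split_ifs <;> ring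
    · refine Finset.sum_congr rfl fun i _ => ?_
      rw [etaV, Finset.sum_mul]
      refine Finset.sum_congr rfl fun j _ => ?_
      split_ifs <;> ring
  · unfold Lam
    refine mul_nonneg (exp_pos _).le (Finset.prod_nonneg fun i _ => ?_)
    exact inv_nonneg.2 (Real.sqrt_nonneg _)

end VJ26
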