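import Pool.Agent.VJ26.ProcT

/-!
# [VJ-EXVRJP] Existence of the VRJP (non-vacuity of `IsVRJP`)

Ionescu-Tulcea. State space `E = Z^d × ℝ` (vertex, holding time); `sL s n j` is the local time
functional with the holding times replaced by `max t 0`. The kernel from the history
`h = (h 0, ..., h n)` to the next state has density
`(j, t) ↦ 1{j ∼ x} p_j(h) r_j(h) exp(-r_j(h) t)` with respect to
`count.prod (volume.restrict (Ioi 0))`, `p_j(h) = w L_j / (w ∑_{k ∼ x} L_k)` (`L` before the
holding time at `x`), `r_j(h) = w ∑_{k ∼ j} L'_k` (`L'` after it). It is a Markov kernel for every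
`h` because of the `max` (all `L ≥ 1`).
`P = Kernel.trajMeasure μ₀ κ` with `μ₀ = dirac 0 × Exp(w |nb 0|)`; the needed identity is
`Kernel.map_frestrictLe_trajMeasure_compProd_eq_map_trajMeasure`. All holding times are `> 0`
a.s., so `max` disappears. `X n ω = (ω n).1`, `T n ω = (ω n).2`.
-/

open MeasureTheory Real
open scoped ENNReal

namespace VJ26
namespace ExV

variable {d : ℕ}

/-- the state space -/
abbrev E (d : ℕ) := Zd d × ℝ

/-- the local time functional -/
@[irreducible] noncomputable def sL (s : ℕ → E d) (n : ℕ) (j : Zd d) : ℝ :=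
  locT (fun i => (s i).1) (fun i => max (s i).2 0) n j

/-- jump probabilities -/
@[irreducible] noncomputable def pr (w : ℝ) (s : ℕ → E d) (n : ℕ) (j : Zd d) : ℝ≥0∞ :=
  ENNReal.ofReal (w * sL s n j / (w * ∑ k ∈ nb (s n).1, sL s n k))

/-- holding rates -/
@[irreducible] noncomputable def rt (w : ℝ) (s : ℕ → E d) (n : ℕ) (j : Zd d) : ℝ := w * ∑ k ∈ nb j, sL s n k

/-- exponential density -/
@[irreducible] noncomputable def ed (r t : ℝ) : ℝ≥0∞ := ENNReal.ofReal (r * exp (-(r * t)))

/-- the density of the kernel -/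
@[irreducible] noncomputable def dens (w : ℝ) (n : ℕ) (s : ℕ → E d) (e : E d) : ℝ≥0∞ :=
  if e.1 ∈ nb (s n).1 then pr w s n e.1 * ed (rt w s (n + 1) e.1) e.2 else 0

/-- the reference measure -/
@[irreducible] noncomputable def nu (d : ℕ) : Measure (E d) :=
  (Measure.count : Measure (Zd d)).prod (volume.restrict (Set.Ioi 0))

/-- truncation of a sequence -/
def tr (n : ℕ) (s : ℕ → E d) : ℕ → E d := fun i => if i ≤ n then s i else (0, 0)

/-- extension of a finite history -/
def ext (n : ℕ) (h : (i : Finset.Iic n) → E d) : ℕ → E d :=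
  fun i => if hi : i ≤ n then h ⟨i, Finset.mem_Iic.2 hi⟩ else (0, 0)

theorem ext_restr (n : ℕ) (s : ℕ → E d) : ext n (Preorder.frestrictLe n s) = tr n s := by
  funext i
  unfold ext tr
  by_cases hi : i ≤ n
  · rw [dif_pos hi, if_pos hi]
    rfl
  · rw [dif_neg hi, if_neg hi]

theorem measurable_ext (n : ℕ) : Measurable (ext (d := d) n) := by
  refine measurable_pi_lambda _ fun i => ?_
  unfold ext
  by_cases hi : i ≤ n
  · simp only [dif_pos hi]
    exact measurable_pi_apply _
  · simp only [dif_neg hi]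
    exact measurable_const

theorem measurable_sL (n : ℕ) (j : Zd d) : Measurable fun s : ℕ → E d => sL s n j := by
  unfold sL locT
  refine measurable_const.add (Finset.measurable_sum _ fun m _ => ?_)
  refine Measurable.ite ?_ ?_ measurable_const
  · exact (measurable_fst.comp (measurable_pi_apply m)) (MeasurableSet.of_discrete (s := {j}))
  · exact (measurable_snd.comp (measurable_pi_apply m)).max measurable_const

theorem one_le_sL (s : ℕ → E d) (n : ℕ) (j : Zd d) : 1 ≤ sL s n j := by
  unfold sL locT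
  have h : 0 ≤ ∑ m ∈ Finset.range n, if (s m).1 = j then max (s m).2 0 else 0 := by
    refine Finset.sum_nonneg fun m _ => ?_
    split_ifs
    · exact le_max_right _ _
    · exact le_rfl
  linarith

theorem nb_nonempty [NeZero d] (x : Zd d) : (nb x).Nonempty := by
  refine ⟨x + Pi.single 0 1, ?_⟩
  unfold nb
  rw [Finset.mem_filter, Finset.mem_Icc]
  refine ⟨⟨fun k => ?_, fun k => ?_⟩, ?_⟩
  · by_cases hk : k = 0
    · subst hk
      simp only [Pi.sub_apply, Pi.one_apply, Pi.add_apply, Pi.single_eq_same]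
      omega
    · simp [Pi.single_eq_of_ne hk]
  · by_cases hk : k = 0
    · subst hk; simp
    · simp [Pi.single_eq_of_ne hk]
  · unfold Adj
    rw [Finset.sum_eq_single (0 : Fin d)]
    · simp
    · intro k _ hk
      simp [Pi.single_eq_of_ne hk]
    · intro h
      exact absurd (Finset.mem_univ _) h

theorem sum_pos [NeZero d] (s : ℕ → E d) (n : ℕ) (x : Zd d) : 0 < ∑ k ∈ nb x, sL s n k :=
  Finset.sum_pos (fun k _ => lt_of_lt_of_le zero_lt_one (one_le_sL s n k)) (nb_nonempty x)

theorem measurable_ed {β : Type*} [MeasurableSpace β] {f g : β → ℝ} (hf : Measurable f)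
    (hg : Measurable g) : Measurable fun x => ed (f x) (g x) := by
  unfold ed
  exact ENNReal.measurable_ofReal.comp (hf.mul (measurable_exp.comp (hf.mul hg).neg))

theorem measurable_pr (w : ℝ) (n : ℕ) (j : Zd d) :
    Measurable fun s : ℕ → E d => pr w s n j := by
  have h1 : Measurable fun q : Zd d × (ℕ → E d) =>
      ENNReal.ofReal (w * sL q.2 n j / (w * ∑ k ∈ nb q.1, sL q.2 n k)) := by
    refine measurable_from_prod_countable_right fun a => ?_
    refine ENNReal.measurable_ofReal.comp (Measurable.div ((measurable_sL n j).const_mul w) ?_)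
    exact (Finset.measurable_sum (nb a) fun k _ => measurable_sL n k).const_mul w
  have h2 : Measurable fun s : ℕ → E d => ((s n).1, s) :=
    (measurable_fst.comp (measurable_pi_apply n)).prodMk measurable_id
  have h3 : (fun s : ℕ → E d => pr w s n j) = fun s => (fun q : Zd d × (ℕ → E d) =>
      ENNReal.ofReal (w * sL q.2 n j / (w * ∑ k ∈ nb q.1, sL q.2 n k))) ((s n).1, s) := by
    funext s
    unfold pr
    rfl
  rw [h3]
  exact h1.comp h2

theorem measurable_rt (w : ℝ) (n : ℕ) (j : Zd d) :
    Measurable fun s : ℕ → E d => rt w s n j := by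
  unfold rt
  exact (Finset.measurable_sum _ fun k _ => measurable_sL n k).const_mul w

theorem measurable_dens (w : ℝ) (n : ℕ) :
    Measurable fun p : (ℕ → E d) × E d => dens w n p.1 p.2 := by
  have h1 : Measurable fun q : (Zd d × Zd d) × ((ℕ → E d) × ℝ) =>
      (if q.1.2 ∈ nb q.1.1 then pr w q.2.1 n q.1.2 * ed (rt w q.2.1 (n + 1) q.1.2) q.2.2
        else 0) := by
    refine measurable_from_prod_countable_right fun a => ?_
    by_cases ha : a.2 ∈ nb a.1
    · simp only [if_pos ha]
      exact ((measurable_pr w n a.2).comp measurable_fst).mul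
        (measurable_ed ((measurable_rt w (n + 1) a.2).comp measurable_fst) measurable_snd)
    · simp only [if_neg ha]
      exact measurable_const
  have h2 : Measurable fun p : (ℕ → E d) × E d => (((p.1 n).1, p.2.1), (p.1, p.2.2)) := by
    refine Measurable.prodMk (Measurable.prodMk ?_ ?_) (Measurable.prodMk measurable_fst ?_)
    · exact measurable_fst.comp ((measurable_pi_apply n).comp measurable_fst)
    · exact measurable_fst.comp measurable_snd
    · exact measurable_snd.comp measurable_snd
  have h3 : (fun p : (ℕ → E d) × E d => dens w n p.1 p.2) = fun p =>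
      (fun q : (Zd d × Zd d) × ((ℕ → E d) × ℝ) =>
      (if q.1.2 ∈ nb q.1.1 then pr w q.2.1 n q.1.2 * ed (rt w q.2.1 (n + 1) q.1.2) q.2.2
        else 0)) (((p.1 n).1, p.2.1), (p.1, p.2.2)) := by
    funext p
    unfold dens
    rfl
  rw [h3]
  exact h1.comp h2

theorem lintegral_ed {r : ℝ} (hr : 0 < r) : ∫⁻ t in Set.Ioi (0 : ℝ), ed r t = 1 := by
  have h1 := ProbabilityTheory.lintegral_exponentialPDF_eq_one hr
  rw [← lintegral_add_compl _ (measurableSet_Ioi (a := (0 : ℝ)))] at h1
  have h2 : ∫⁻ t in (Set.Ioi (0 : ℝ))ᶜ, ProbabilityTheory.exponentialPDF r t = 0 := by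
    rw [Set.compl_Ioi, setLIntegral_congr Iio_ae_eq_Iic.symm]
    exact ProbabilityTheory.lintegral_exponentialPDF_of_nonpos le_rfl
  rw [h2, add_zero] at h1
  rw [← h1]
  refine setLIntegral_congr_fun measurableSet_Ioi fun t ht => ?_
  unfold ed
  exact (ProbabilityTheory.exponentialPDF_of_nonneg (le_of_lt ht)).symm

theorem lintegral_nu {f : E d → ℝ≥0∞} (hf : Measurable f) :
    ∫⁻ e, f e ∂(nu d) = ∑' j : Zd d, ∫⁻ t in Set.Ioi (0 : ℝ), f (j, t) := by
  unfold nu
  rw [lintegral_prod _ hf.aemeasurable, lintegral_count]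

theorem lintegral_dens (w : ℝ) (n : ℕ) (s : ℕ → E d) {g : E d → ℝ≥0∞} (hg : Measurable g) :
    ∫⁻ e, dens w n s e * g e ∂(nu d) =
      ∑ j ∈ nb (s n).1, pr w s n j *
        ∫⁻ t in Set.Ioi (0 : ℝ), ed (rt w s (n + 1) j) t * g (j, t) := by
  have hd : Measurable fun e : E d => dens w n s e :=
    (measurable_dens w n).comp (measurable_const.prodMk measurable_id)
  have h0 : Measurable fun e : E d => dens w n s e * g e := hd.mul hg
  rw [lintegral_nu h0, tsum_eq_sum (s := nb (s n).1)]
  · refine Finset.sum_congr rfl fun j hj => ?_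
    have hm : Measurable fun t : ℝ => ed (rt w s (n + 1) j) t * g (j, t) :=
      (measurable_ed measurable_const measurable_id).mul
        (hg.comp (measurable_const.prodMk measurable_id))
    rw [← lintegral_const_mul _ hm]
    refine lintegral_congr fun t => ?_
    have h1 : dens w n s (j, t) = pr w s n j * ed (rt w s (n + 1) j) t := by
      unfold dens
      exact if_pos hj
    rw [h1, mul_assoc]
  · intro j hj
    have h1 : ∀ t, dens w n s (j, t) = 0 := by
      intro t
      unfold dens
      exact if_neg hj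
    simp only [h1, zero_mul, lintegral_zero]

theorem pr_sum [NeZero d] {w : ℝ} (hw : 0 < w) (s : ℕ → E d) (n : ℕ) :
    ∑ j ∈ nb (s n).1, pr w s n j = 1 := by
  unfold pr
  rw [← ENNReal.ofReal_sum_of_nonneg]
  · rw [← Finset.sum_div, ← Finset.mul_sum, div_self, ENNReal.ofReal_one]
    exact (mul_pos hw (sum_pos s n _)).ne'
  · intro j _
    have h1 := one_le_sL s n j
    have h2 := sum_pos s n (s n).1
    positivity

theorem lintegral_dens_one [NeZero d] {w : ℝ} (hw : 0 < w) (n : ℕ) (s : ℕ → E d) :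
    ∫⁻ e, dens w n s e ∂(nu d) = 1 := by
  have h := lintegral_dens w n s (g := fun _ => 1) measurable_const
  simp only [mul_one] at h
  rw [h, ← pr_sum hw s n]
  refine Finset.sum_congr rfl fun j _ => ?_
  have h2 : 0 < rt w s (n + 1) j := by
    unfold rt
    exact mul_pos hw (sum_pos s (n + 1) j)
  rw [lintegral_ed h2, mul_one]

/-- the kernel -/
noncomputable def kap (w : ℝ) (n : ℕ) : ProbabilityTheory.Kernel ((i : Finset.Iic n) → E d) (E d) where
  toFun h := (nu d).withDensity (dens w n (ext n h))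
  measurable' := by
    refine Measure.measurable_of_measurable_coe _ fun s hs => ?_
    have h1 : Measurable fun p : ((i : Finset.Iic n) → E d) × E d => dens w n (ext n p.1) p.2 :=
      (measurable_dens w n).comp (((measurable_ext n).comp measurable_fst).prodMk measurable_snd)
    have : SFinite (nu d) := by unfold nu; infer_instance
    have h2 := h1.lintegral_prod_right' (ν := (nu d).restrict s)
    have h3 : (fun h : (i : Finset.Iic n) → E d =>
        ((nu d).withDensity (dens w n (ext n h))) s) =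
        fun h => ∫⁻ e, dens w n (ext n h) e ∂((nu d).restrict s) := by
      funext h
      exact withDensity_apply _ hs
    rw [h3]
    exact h2

theorem lintegral_kap (w : ℝ) (n : ℕ) (h : (i : Finset.Iic n) → E d) {g : E d → ℝ≥0∞}
    (hg : Measurable g) :
    ∫⁻ e, g e ∂(kap w n h) = ∫⁻ e, dens w n (ext n h) e * g e ∂(nu d) := by
  have hd : Measurable fun e : E d => dens w n (ext n h) e :=
    (measurable_dens w n).comp (measurable_const.prodMk measurable_id)
  show ∫⁻ e, g e ∂((nu d).withDensity (dens w n (ext n h))) = _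
  exact lintegral_withDensity_eq_lintegral_mul _ hd hg

theorem kap_markov [NeZero d] {w : ℝ} (hw : 0 < w) (n : ℕ) :
    ProbabilityTheory.IsMarkovKernel (kap (d := d) w n) := by
  refine ⟨fun h => ⟨?_⟩⟩
  have h1 := lintegral_kap w n h (g := fun _ => 1) measurable_const
  simp only [mul_one, lintegral_const, one_mul] at h1
  rw [h1]
  exact lintegral_dens_one hw n _

/-- the initial law -/
noncomputable def mu0 (d : ℕ) (w : ℝ) : Measure (E d) :=
  (Measure.dirac (0 : Zd d)).prod ((volume.restrict (Set.Ioi 0)).withDensity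
    (ed (w * ∑ _k ∈ nb (0 : Zd d), 1)))

theorem lintegral_mu0 (w : ℝ) {g : E d → ℝ≥0∞} (hg : Measurable g) :
    ∫⁻ e, g e ∂(mu0 d w) =
      ∫⁻ t in Set.Ioi (0 : ℝ), ed (w * ∑ _k ∈ nb (0 : Zd d), 1) t * g (0, t) := by
  have hed : Measurable (ed (w * ∑ _k ∈ nb (0 : Zd d), 1)) :=
    measurable_ed measurable_const measurable_id
  have hg0 : Measurable fun t : ℝ => g (0, t) := hg.comp (measurable_const.prodMk measurable_id)
  unfold mu0
  rw [lintegral_prod _ hg.aemeasurable, lintegral_dirac' _ hg.lintegral_prod_right']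
  exact lintegral_withDensity_eq_lintegral_mul _ hed hg0

theorem mu0_prob [NeZero d] {w : ℝ} (hw : 0 < w) : IsProbabilityMeasure (mu0 d w) := by
  refine ⟨?_⟩
  have h1 := lintegral_mu0 (d := d) w (g := fun _ => 1) measurable_const
  simp only [mul_one, lintegral_const, one_mul] at h1
  rw [h1]
  refine lintegral_ed (mul_pos hw (Finset.sum_pos (fun _ _ => zero_lt_one) (nb_nonempty _)))

section law

variable [NeZero d] {w : ℝ}

/-- the law of the process -/
noncomputable def PP (d : ℕ) [NeZero d] {w : ℝ} (hw : 0 < w) : Measure (ℕ → E d) :=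
  haveI := fun n => kap_markov (d := d) hw n
  ProbabilityTheory.Kernel.trajMeasure (X := fun _ => E d) (mu0 d w) (kap w)

theorem PP_prob (hw : 0 < w) : IsProbabilityMeasure (PP d hw) := by
  have := fun n => kap_markov (d := d) hw n
  have := mu0_prob (d := d) hw
  unfold PP
  infer_instance

theorem PP_zero (hw : 0 < w) {g : E d → ℝ≥0∞} (hg : Measurable g) :
    ∫⁻ s, g (s 0) ∂(PP d hw) = ∫⁻ e, g e ∂(mu0 d w) := by
  have := fun n => kap_markov (d := d) hw n
  have := mu0_prob (d := d) hw
  have hg0 : Measurable fun s : ℕ → E d => g (s 0) := hg.comp (measurable_pi_apply 0)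
  unfold PP ProbabilityTheory.Kernel.trajMeasure
  rw [Measure.lintegral_bind (ProbabilityTheory.Kernel.measurable _).aemeasurable
    hg0.aemeasurable]
  have h1 : ∀ x₀ : (i : Finset.Iic 0) → E d,
      ∫⁻ s, g (s 0) ∂(ProbabilityTheory.Kernel.traj (X := fun _ => E d) (kap w) 0 x₀) =
        g (x₀ ⟨0, Finset.mem_Iic.2 le_rfl⟩) := by
    intro x₀
    rw [ProbabilityTheory.Kernel.lintegral_traj x₀ hg0]
    have h2 : ∀ s : ℕ → E d, Function.updateFinset s (Finset.Iic 0) x₀ 0 =
        x₀ ⟨0, Finset.mem_Iic.2 le_rfl⟩ := by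
      intro s
      unfold Function.updateFinset
      rw [dif_pos (Finset.mem_Iic.2 le_rfl)]
    simp only [h2, lintegral_const, measure_univ, mul_one]
  simp only [h1]
  rw [lintegral_map]
  · rfl
  · exact hg.comp (measurable_pi_apply _)
  · exact MeasurableEquiv.measurable _

/-- restriction to the history -/
abbrev fr (n : ℕ) (s : ℕ → E d) : (i : Finset.Iic n) → E d := Preorder.frestrictLe n s

omit [NeZero d] in
theorem tr_self (n : ℕ) (s : ℕ → E d) {i : ℕ} (hi : i ≤ n) : tr n s i = s i := if_pos hi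

omit [NeZero d] in
theorem sL_tr (n m : ℕ) (s : ℕ → E d) (hm : m ≤ n + 1) (j : Zd d) :
    sL (tr n s) m j = sL s m j := by
  unfold sL locT
  congr 1
  refine Finset.sum_congr rfl fun i hi => ?_
  rw [Finset.mem_range] at hi
  have h1 : tr n s i = s i := tr_self n s (by omega)
  simp only [h1]

omit [NeZero d] in
theorem pr_tr (n : ℕ) (s : ℕ → E d) (j : Zd d) : pr w (tr n s) n j = pr w s n j := by
  unfold pr
  rw [tr_self n s le_rfl, sL_tr n n s (by omega)]
  simp only [sL_tr n n s (by omega)]

omit [NeZero d] in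
theorem rt_tr (n : ℕ) (s : ℕ → E d) (j : Zd d) : rt w (tr n s) (n + 1) j = rt w s (n + 1) j := by
  unfold rt
  simp only [sL_tr n (n + 1) s le_rfl]

theorem PP_step (hw : 0 < w) (n : ℕ) {G : (ℕ → E d) → E d → ℝ≥0∞}
    (hG : Measurable fun p : (ℕ → E d) × E d => G p.1 p.2) :
    ∫⁻ s, G (tr n s) (s (n + 1)) ∂(PP d hw) =
      ∫⁻ s, (∑ j ∈ nb (s n).1, pr w s n j *
        ∫⁻ t in Set.Ioi (0 : ℝ), ed (rt w s (n + 1) j) t * G (tr n s) (j, t)) ∂(PP d hw) := by
  have := fun n => kap_markov (d := d) hw n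
  have := mu0_prob (d := d) hw
  have := PP_prob (d := d) hw
  have h1 : Measurable fun p : ((i : Finset.Iic n) → E d) × E d => G (ext n p.1) p.2 :=
    hG.comp (((measurable_ext n).comp measurable_fst).prodMk measurable_snd)
  have hfr : Measurable (fr (d := d) n) := by
    unfold fr
    fun_prop
  have h2 : ((PP d hw).map (fr n)).compProd (kap w n) =
      (PP d hw).map (fun x => (fr n x, x (n + 1))) :=
    ProbabilityTheory.Kernel.map_frestrictLe_trajMeasure_compProd_eq_map_trajMeasure
    (X := fun _ => E d) (μ₀ := mu0 d w) (κ := kap w) (a := n)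
  have h3 : ∫⁻ p, G (ext n p.1) p.2 ∂((PP d hw).map (fun x => (fr n x, x (n + 1)))) =
      ∫⁻ s, G (tr n s) (s (n + 1)) ∂(PP d hw) := by
    rw [lintegral_map h1 (hfr.prodMk (measurable_pi_apply _))]
    refine lintegral_congr fun s => ?_
    rw [ext_restr]
  have h4 : ∫⁻ p, G (ext n p.1) p.2 ∂(((PP d hw).map (fr n)).compProd (kap w n)) =
      ∫⁻ s, (∑ j ∈ nb (s n).1, pr w s n j *
        ∫⁻ t in Set.Ioi (0 : ℝ), ed (rt w s (n + 1) j) t * G (tr n s) (j, t)) ∂(PP d hw) := by
    rw [Measure.lintegral_compProd h1, lintegral_map h1.lintegral_kernel_prod_right' hfr]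
    refine lintegral_congr fun s => ?_
    have h5 : Measurable fun e : E d => G (ext n (fr n s)) e :=
      hG.comp (measurable_const.prodMk measurable_id)
    rw [lintegral_kap w n _ h5, lintegral_dens w n _ h5]
    have h6 : ext n (fr n s) = tr n s := ext_restr n s
    rw [h6, tr_self n s le_rfl]
    simp only [pr_tr, rt_tr]
  rw [← h3, ← h4, h2]

/-- the holding times are positive -/
theorem PP_pos (hw : 0 < w) : ∀ᵐ s ∂(PP d hw), ∀ n, 0 < (s n).2 := by
  rw [ae_all_iff]
  intro n
  have hset : ∀ n : ℕ, MeasurableSet {s : ℕ → E d | 0 < (s n).2} := fun n =>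
    measurableSet_lt measurable_const (measurable_snd.comp (measurable_pi_apply n))
  have hset' : MeasurableSet {e : E d | ¬ 0 < e.2} :=
    (measurableSet_lt measurable_const measurable_snd).compl
  have hg : Measurable ({e : E d | ¬ 0 < e.2}.indicator (fun _ => (1 : ℝ≥0∞))) :=
    measurable_const.indicator hset'
  have h1 : (PP d hw) {s | ¬ 0 < (s n).2} =
      ∫⁻ s, {e : E d | ¬ 0 < e.2}.indicator (fun _ => 1) (s n) ∂(PP d hw) := by
    exact (lintegral_indicator_one (hset n).compl).symm
  have h0 : ∀ (t : ℝ) (j : Zd d), 0 < t →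
      {e : E d | ¬ 0 < e.2}.indicator (fun _ => (1 : ℝ≥0∞)) (j, t) = 0 := by
    intro t j ht
    refine Set.indicator_of_notMem ?_ _
    simpa using ht
  have h2 : ∀ (r : ℝ) (j : Zd d), ∫⁻ t in Set.Ioi (0 : ℝ),
      ed r t * {e : E d | ¬ 0 < e.2}.indicator (fun _ => (1 : ℝ≥0∞)) (j, t) = 0 := by
    intro r j
    rw [← lintegral_zero (μ := volume.restrict (Set.Ioi (0 : ℝ)))]
    refine setLIntegral_congr_fun measurableSet_Ioi fun t ht => ?_
    show _ * _ = _
    rw [h0 t j ht, mul_zero]
  rw [ae_iff, h1]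
  cases n with
  | zero =>
    rw [PP_zero hw hg, lintegral_mu0 w hg]
    exact h2 _ _
  | succ n =>
    have h3 := PP_step (d := d) hw n
      (G := fun _ e => {e : E d | ¬ 0 < e.2}.indicator (fun _ => (1 : ℝ≥0∞)) e)
      (hg.comp measurable_snd)
    rw [h3]
    simp only [h2, mul_zero, Finset.sum_const_zero, lintegral_zero]

omit [NeZero d] in
theorem sL_pos {s : ℕ → E d} (hs : ∀ n, 0 < (s n).2) (n : ℕ) (j : Zd d) :
    sL s n j = locT (fun i => (s i).1) (fun i => (s i).2) n j := by
  unfold sL
  congr 1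
  funext i
  exact max_eq_left (hs i).le

omit [NeZero d] in
theorem pr_pos {s : ℕ → E d} (hs : ∀ n, 0 < (s n).2) (n : ℕ) (j : Zd d) :
    pr w s n j = ENNReal.ofReal (w * locT (fun i => (s i).1) (fun i => (s i).2) n j /
      (w * ∑ k ∈ nb (s n).1, locT (fun i => (s i).1) (fun i => (s i).2) n k)) := by
  unfold pr
  simp only [sL_pos hs]

theorem rt_gt (hw : 0 < w) (s : ℕ → E d) (n : ℕ) (j : Zd d) : 0 < rt w s n j := by
  unfold rt
  exact mul_pos hw (sum_pos s n j)

theorem PP_start (hw : 0 < w) : ∀ᵐ s ∂(PP d hw), (s 0).1 = 0 := by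
  have hset : MeasurableSet {e : E d | ¬ e.1 = 0} :=
    (measurable_fst (MeasurableSet.of_discrete (s := {(0 : Zd d)}))).compl
  have hm0 : Measurable fun s : ℕ → E d => s 0 := measurable_pi_apply 0
  have hset' : MeasurableSet {s : ℕ → E d | ¬ (s 0).1 = 0} := hm0 hset
  have hg : Measurable ({e : E d | ¬ e.1 = 0}.indicator (fun _ => (1 : ℝ≥0∞))) :=
    measurable_const.indicator hset
  have h1 : (PP d hw) {s | ¬ (s 0).1 = 0} =
      ∫⁻ s, {e : E d | ¬ e.1 = 0}.indicator (fun _ => 1) (s 0) ∂(PP d hw) :=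
    (lintegral_indicator_one hset').symm
  rw [ae_iff, h1, PP_zero hw hg, lintegral_mu0 w hg]
  have h2 : ∀ t : ℝ, {e : E d | ¬ e.1 = 0}.indicator (fun _ => (1 : ℝ≥0∞)) (0, t) = 0 := by
    intro t
    refine Set.indicator_of_notMem ?_ _
    simp
  simp only [h2, mul_zero, lintegral_zero]

theorem PP_jump (hw : 0 < w) (n : ℕ)
    (f : (Fin (n + 1) → Zd d) × (Fin (n + 1) → ℝ) × Zd d → ℝ≥0∞) (hf : Measurable f) :
    ∫⁻ s, f (fun k => (s k).1, fun k => (s k).2, (s (n + 1)).1) ∂(PP d hw) =
      ∫⁻ s, (∑ j ∈ nb (s n).1,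
        ENNReal.ofReal (w * locT (fun i => (s i).1) (fun i => (s i).2) n j /
          (w * ∑ k ∈ nb (s n).1, locT (fun i => (s i).1) (fun i => (s i).2) n k)) *
        f (fun k => (s k).1, fun k => (s k).2, j)) ∂(PP d hw) := by
  have hG : Measurable fun p : (ℕ → E d) × E d =>
      f (fun k : Fin (n + 1) => (p.1 k).1, fun k => (p.1 k).2, p.2.1) := by
    refine hf.comp (Measurable.prodMk ?_ (Measurable.prodMk ?_ ?_))
    · exact measurable_pi_lambda _ fun k =>
        measurable_fst.comp ((measurable_pi_apply _).comp measurable_fst)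
    · exact measurable_pi_lambda _ fun k =>
        measurable_snd.comp ((measurable_pi_apply _).comp measurable_fst)
    · exact measurable_fst.comp measurable_snd
  have htr : ∀ (s : ℕ → E d) (k : Fin (n + 1)), tr n s k = s k := fun s k =>
    tr_self n s (by omega)
  have h1 := PP_step (d := d) hw n
    (G := fun s e => f (fun k : Fin (n + 1) => (s k).1, fun k => (s k).2, e.1)) hG
  simp only [htr] at h1
  rw [h1]
  refine lintegral_congr_ae ?_
  filter_upwards [PP_pos hw] with s hs
  refine Finset.sum_congr rfl fun j _ => ?_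
  have hm : Measurable fun t : ℝ => ed (rt w s (n + 1) j) t :=
    measurable_ed measurable_const measurable_id
  rw [lintegral_mul_const _ hm, lintegral_ed (rt_gt hw s (n + 1) j), one_mul, pr_pos hs]

theorem PP_hold_zero (hw : 0 < w)
    (f : (Fin 1 → Zd d) × (Fin 0 → ℝ) × ℝ → ℝ≥0∞) (hf : Measurable f) :
    ∫⁻ s, f (fun k => (s k).1, fun k => (s k).2, (s 0).2) ∂(PP d hw) =
      ∫⁻ s, (∫⁻ t in Set.Ioi (0 : ℝ),
        ENNReal.ofReal ((w * ∑ j ∈ nb (s 0).1,
            locT (fun i => (s i).1) (fun i => (s i).2) 0 j) *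
          exp (-((w * ∑ j ∈ nb (s 0).1,
            locT (fun i => (s i).1) (fun i => (s i).2) 0 j) * t))) *
        f (fun k => (s k).1, fun k => (s k).2, t)) ∂(PP d hw) := by
  have := PP_prob (d := d) hw
  have hg : Measurable fun e : E d => f (fun _ => e.1, Fin.elim0, e.2) := by
    refine hf.comp (Measurable.prodMk ?_ (Measurable.prodMk measurable_const measurable_snd))
    exact measurable_pi_lambda _ fun _ => measurable_fst
  have h1 : ∀ (s : ℕ → E d) (t : ℝ), f (fun k : Fin 1 => (s k).1, fun k : Fin 0 => (s k).2, t) =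
      f (fun _ => (s 0).1, Fin.elim0, t) := by
    intro s t
    congr 2
    · funext k
      rw [Fin.val_eq_zero k]
    · congr 1
      exact Subsingleton.elim _ _
  simp only [h1]
  rw [PP_zero hw hg, lintegral_mu0 w hg]
  have h2 : ∀ᵐ s ∂(PP d hw), (∫⁻ t in Set.Ioi (0 : ℝ),
        ENNReal.ofReal ((w * ∑ j ∈ nb (s 0).1,
            locT (fun i => (s i).1) (fun i => (s i).2) 0 j) *
          exp (-((w * ∑ j ∈ nb (s 0).1,
            locT (fun i => (s i).1) (fun i => (s i).2) 0 j) * t))) *
        f (fun _ => (s 0).1, Fin.elim0, t)) =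
        ∫⁻ t in Set.Ioi (0 : ℝ), ed (w * ∑ _k ∈ nb (0 : Zd d), 1) t *
          f (fun _ => (0 : Zd d), Fin.elim0, t) := by
    filter_upwards [PP_start hw] with s hs
    unfold locT ed
    simp only [hs, Finset.range_zero, Finset.sum_empty, add_zero]
  rw [lintegral_congr_ae h2, lintegral_const, measure_univ, mul_one]

theorem PP_hold_succ (hw : 0 < w) (n : ℕ)
    (f : (Fin (n + 1 + 1) → Zd d) × (Fin (n + 1) → ℝ) × ℝ → ℝ≥0∞) (hf : Measurable f) :
    ∫⁻ s, f (fun k => (s k).1, fun k => (s k).2, (s (n + 1)).2) ∂(PP d hw) =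
      ∫⁻ s, (∫⁻ t in Set.Ioi (0 : ℝ),
        ENNReal.ofReal ((w * ∑ j ∈ nb (s (n + 1)).1,
            locT (fun i => (s i).1) (fun i => (s i).2) (n + 1) j) *
          exp (-((w * ∑ j ∈ nb (s (n + 1)).1,
            locT (fun i => (s i).1) (fun i => (s i).2) (n + 1) j) * t))) *
        f (fun k => (s k).1, fun k => (s k).2, t)) ∂(PP d hw) := by
  -- the history completed by the new state
  let up : (ℕ → E d) → E d → Fin (n + 1 + 1) → Zd d := fun s e k =>
    if (k : ℕ) ≤ n then (s k).1 else e.1
  have hup : Measurable fun p : (ℕ → E d) × E d => up p.1 p.2 := by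
    refine measurable_pi_lambda _ fun k => ?_
    by_cases hk : (k : ℕ) ≤ n
    · have h1 : (fun p : (ℕ → E d) × E d => up p.1 p.2 k) = fun p => (p.1 k).1 := by
        funext p
        exact if_pos hk
      rw [h1]
      exact measurable_fst.comp ((measurable_pi_apply _).comp measurable_fst)
    · have h1 : (fun p : (ℕ → E d) × E d => up p.1 p.2 k) = fun p => p.2.1 := by
        funext p
        exact if_neg hk
      rw [h1]
      exact measurable_fst.comp measurable_snd
  have hT : Measurable fun s : ℕ → E d => fun k : Fin (n + 1) => (s k).2 :=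
    measurable_pi_lambda _ fun k => measurable_snd.comp (measurable_pi_apply _)
  have hup' : ∀ s : ℕ → E d,
      up (tr n s) (s (n + 1)) = fun k : Fin (n + 1 + 1) => (s k).1 := by
    intro s
    funext k
    by_cases hk : (k : ℕ) ≤ n
    · have h1 : up (tr n s) (s (n + 1)) k = (tr n s k).1 := if_pos hk
      rw [h1, tr_self n s hk]
    · have h1 : up (tr n s) (s (n + 1)) k = (s (n + 1)).1 := if_neg hk
      have h2 : (k : ℕ) = n + 1 := by omega
      rw [h1, h2]
  have htr : ∀ s : ℕ → E d,
      (fun k : Fin (n + 1) => (tr n s k).2) = fun k : Fin (n + 1) => (s k).2 := by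
    intro s
    funext k
    rw [tr_self n s (by omega)]
  have hG : Measurable fun p : (ℕ → E d) × E d =>
      f (up p.1 p.2, fun k => (p.1 k).2, p.2.2) :=
    hf.comp (hup.prodMk ((hT.comp measurable_fst).prodMk (measurable_snd.comp measurable_snd)))
  have hrt : Measurable fun p : (ℕ → E d) × E d => rt w p.1 (n + 1) p.2.1 := by
    have h1 : Measurable fun q : (ℕ → E d) × Zd d => rt w q.1 (n + 1) q.2 :=
      measurable_from_prod_countable_left fun j => measurable_rt w (n + 1) j
    exact h1.comp (measurable_fst.prodMk (measurable_fst.comp measurable_snd))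
  have hH : Measurable fun p : (ℕ → E d) × E d =>
      ∫⁻ t in Set.Ioi (0 : ℝ), ed (rt w p.1 (n + 1) p.2.1) t *
        f (up p.1 p.2, fun k => (p.1 k).2, t) := by
    have h1 : Measurable fun q : ((ℕ → E d) × E d) × ℝ =>
        ed (rt w q.1.1 (n + 1) q.1.2.1) q.2 * f (up q.1.1 q.1.2, fun k => (q.1.1 k).2, q.2) := by
      refine Measurable.mul (measurable_ed (hrt.comp measurable_fst) measurable_snd) ?_
      exact hf.comp ((hup.comp measurable_fst).prodMk
        ((hT.comp (measurable_fst.comp measurable_fst)).prodMk measurable_snd))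
    exact h1.lintegral_prod_right'
  have h1 := PP_step (d := d) hw n (G := fun s e => f (up s e, fun k => (s k).2, e.2)) hG
  have h2 := PP_step (d := d) hw n (G := fun s e =>
      ∫⁻ t in Set.Ioi (0 : ℝ), ed (rt w s (n + 1) e.1) t * f (up s e, fun k => (s k).2, t)) hH
  simp only [hup', htr] at h1
  simp only [hup', htr, rt_tr] at h2
  rw [h1]
  have h3 : ∫⁻ s, (∫⁻ t in Set.Ioi (0 : ℝ),
        ENNReal.ofReal ((w * ∑ j ∈ nb (s (n + 1)).1,
            locT (fun i => (s i).1) (fun i => (s i).2) (n + 1) j) *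
          exp (-((w * ∑ j ∈ nb (s (n + 1)).1,
            locT (fun i => (s i).1) (fun i => (s i).2) (n + 1) j) * t))) *
        f (fun k => (s k).1, fun k => (s k).2, t)) ∂(PP d hw) =
      ∫⁻ s, (∫⁻ t in Set.Ioi (0 : ℝ), ed (rt w s (n + 1) (s (n + 1)).1) t *
        f (fun k => (s k).1, fun k => (s k).2, t)) ∂(PP d hw) := by
    refine lintegral_congr_ae ?_
    filter_upwards [PP_pos hw] with s hs
    unfold ed rt
    simp only [sL_pos hs]
  rw [h3, h2]
  refine lintegral_congr fun s => ?_
  refine Finset.sum_congr rfl fun j _ => ?_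
  congr 1
  have h4 : ∀ t : ℝ, up (tr n s) (j, t) = up (tr n s) (j, 0) := fun t => rfl
  have hm : Measurable fun t : ℝ => ed (rt w s (n + 1) j) t :=
    measurable_ed measurable_const measurable_id
  simp only [h4]
  rw [lintegral_mul_const _ hm, lintegral_ed (rt_gt hw s (n + 1) j), one_mul]

end law

end ExV

open ExV in
theorem exists_isVRJP (d : ℕ) [NeZero d] {w : ℝ} (hw : 0 < w) :
    ∃ (Ω : Type) (_ : MeasurableSpace Ω) (P : Measure Ω) (X : ℕ → Ω → Zd d) (T : ℕ → Ω → ℝ),
      IsVRJP w P X T := by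
  refine ⟨ℕ → E d, inferInstance, PP d hw, fun n s => (s n).1, fun n s => (s n).2, ?_⟩
  refine ⟨PP_prob hw, fun n => measurable_fst.comp (measurable_pi_apply n),
    fun n => measurable_snd.comp (measurable_pi_apply n), PP_start hw, ?_, ?_⟩
  · intro n f hf
    cases n with
    | zero => exact PP_hold_zero hw f hf
    | succ n => exact PP_hold_succ hw n f hf
  · intro n f hf
    exact PP_jump hw n f hf

end VJ26
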