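import Pool.Agent.VJ26.StepC

/-!
# [VJ-EXIST] Existence of the law, goodness and (P4) for every finite set

Main induction: `Finset.induction` on `U` with `P4 U ∧ AG U`, then existence. For `U = ∅`:
`bil = 0`, both sides of (P4) are `1` (probability measure), `good_empty`; the law on the empty
set: any Dirac mass (`Lam ∅ = 1`).
-/

open MeasureTheory Real
open scoped ENNReal

namespace VJ26

variable {α : Type*} [DecidableEq α]
variable {W : α → α → ℝ} {U : Finset α} {θ y : α → ℝ} {μ : Measure (α → ℝ)} {m : α}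

theorem P4_AG (U : Finset α) : P4 U ∧ AG U := by
  induction U using Finset.induction_on with
  | empty =>
    constructor
    · intro μ W θ hW hθ h y hy
      have := h.prob
      simp [bil]
    · intro μ W θ hW hθ h
      exact Filter.Eventually.of_forall fun β => good_empty
  | insert m U hm ih => exact ⟨P4_insert hm ih.1 ih.2, AG_insert hm ih.1 ih.2⟩

theorem exists_VR (hW : Wt W) (U : Finset α) (θ : α → ℝ) (hθ : ∀ i, 0 ≤ θ i) :
    ∃ μ : Measure (α → ℝ), VR μ U W θ := by
  induction U using Finset.induction_on generalizing θ with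
  | empty =>
    refine ⟨Measure.dirac 0, ⟨inferInstance, by simp, ?_⟩⟩
    intro L hL
    simp [Lam]
  | insert m U hm ih =>
    obtain ⟨μ, hμ⟩ := ih (θ + W m) (fun i => add_nonneg (hθ i) (hW.nonneg m i))
    exact ⟨_, stepM_VR hW hθ hm hμ (P4_AG U).1 (P4_AG U).2⟩

theorem VR.good (hW : Wt W) (hθ : ∀ i, 0 ≤ θ i) (h : VR μ U W θ) :
    ∀ᵐ β ∂μ, Good W U β := (P4_AG U).2 μ W θ hW hθ h

/-- all subsets of `U` are good: `VR.marg_sdiff` and the finiteness of the power set. -/
theorem VR.allGood (hW : Wt W) (hθ : ∀ i, 0 ≤ θ i) (h : VR μ U W θ) :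
    ∀ᵐ β ∂μ, AllGood W U β := by
  have h1 : ∀ᵐ β ∂μ, ∀ U' ∈ U.powerset, Good W U' β := by
    rw [Filter.eventually_all_finset]
    intro U' hU'
    rw [Finset.mem_powerset] at hU'
    have h2 : VR μ (U \ (U \ U')) W (θ + WB W (U \ U')) :=
      VR.marg_sdiff hW Finset.sdiff_subset h
    rw [Finset.sdiff_sdiff_eq_self hU'] at h2
    refine VR.good hW ?_ h2
    intro i
    exact add_nonneg (hθ i) (Finset.sum_nonneg fun j _ => hW.nonneg j i)
  have h3 : ∀ᵐ β ∂μ, ∀ i ∈ U, 0 < β i := by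
    rw [Filter.eventually_all_finset]
    exact fun i hi => h.pos i hi
  filter_upwards [h1, h3] with β hβ hβ'
  exact ⟨fun U' hU' => hβ U' (Finset.mem_powerset.mpr hU'), hβ'⟩

theorem VR.p4 (hW : Wt W) (hθ : ∀ i, 0 ≤ θ i) (h : VR μ U W θ) (hy : ∀ i, 0 ≤ y i) :
    ∫⁻ β, ENNReal.ofReal (exp (-(1 / 2 * bil W U β y y) - bil W U β y θ)) ∂μ =
      ENNReal.ofReal (exp (-∑ i ∈ U, y i)) := (P4_AG U).1 μ W θ hW hθ h y hy

end VJ26
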