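import Pool.Agent.VJ26.ProcStep

/-!
# [VJ-PROCB] The process side: an abstract hitting estimate for the VRJP

This file: `IsVRJP.proc_bound`

Notation: `L^n_j(ω) = locT (X · ω) (T · ω) n j`, `r = w ∑_{k∈nb i} L_k`.
A measurable functional `g i L` (`i ∈ V`, `L ≥ 1`, `L = 1` off `V`) satisfies the one-step
identities `hstep` (for `i ≠ 0`) and `hroot` (for `i = 0`, `L_0 < z`), is `≤ 1` for `L_0 ≤ z` and
`= 1` for `i = 0`, `L_0 = z`.
Let `A_n = {X_0,...,X_n ∈ V, L^n_0 < z}` and `a_n = E[g(X_n, L^n) 1_{A_n}]`.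
STEP: `a_n ≤ P(A_n, z ≤ L^{n+1}_0) + a_{n+1}`. Conditionally on `(X_0,T_0,...,X_n)` use
`hold` for `T_n` and `jump` for `X_{n+1}` (`L^{n+1} = update L^n X_n (L^n_{X_n} + T_n)`; the
neighbours `j` of `X_n` have `L^n_j` unaffected; off `V` all `L^n_j = 1` on `A_n`):
 `E[g(X_{n+1},L^{n+1}) 1{X_{n+1} ∈ V}| ..] = ∫_0^∞ r e^{-rt} ∑_{j∈V} (w 1{j∼X_n} L_j/r) g(j, L'_t) dt`,
 which for `X_n ≠ 0` is `g(X_n, L^n)` by `hstep`; for `X_n = 0` restrict to `T_n < z - L_0`
 (`P(T_n ≥ z - L_0 | ..) = e^{-r(z-L_0)}`) and use `hroot` with `g 0 (update L 0 z) = 1`.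
So `a_0 ≤ ∑_{k<n} P(A_k, L^k_0 < z ≤ L^{k+1}_0) + a_n ≤ P(∃ k, z ≤ L^k_0) + P(X_0..X_n ∈ V)`
(the events are disjoint as `L^k_0` is nondecreasing a.s.: `T ≥ 0` a.s. by `hold`), and
`a_0 = g 0 1` since `X_0 = 0`, `L^0 = 1`, `z > 1`. Finally `P(X_k ∈ V for all k ≤ n) → 0`: the
intersection of these events is null by transience (some vertex of the finite set `V` would be
visited infinitely often): `tendsto_measure_iInter_atTop` (antitone).

SUGGESTION: `proc_step` (the displayed step) is the main work: apply `hold` to the function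
`f(x, t', t)` = the `jump`-sum with `L' `, etc. History as `Fin`-tuples: `locT` for `n` only uses
the first `n` values of `X` and `T`; write `locT` of the extended sequences.
-/

open MeasureTheory Real
open scoped ENNReal

namespace VJ26

variable {d : ℕ} {w : ℝ} {Ω : Type*} [MeasurableSpace Ω] {P : Measure Ω}
  {X : ℕ → Ω → Zd d} {T : ℕ → Ω → ℝ}

/-- transience: the process leaves every finite set -/
theorem pb_leave (h : IsVRJP w P X T) (htr : IsTransient P X) (V : Finset (Zd d)) :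
    Filter.Tendsto (fun n : ℕ => P {ω | ∀ k ≤ n, X k ω ∈ V}) Filter.atTop (nhds 0) := by
  have hprob := h.prob
  have h1 : P (⋂ n : ℕ, {ω | ∀ k ≤ n, X k ω ∈ V}) = 0 := by
    have h2 : ∀ᵐ ω ∂P, ω ∉ ⋂ n : ℕ, {ω | ∀ k ≤ n, X k ω ∈ V} := by
      filter_upwards [htr] with ω hω hmem
      rw [Set.mem_iInter] at hmem
      have h3 : (Set.univ : Set ℕ) ⊆ ⋃ v ∈ V, {n | X n ω = v} := by
        intro n _
        rw [Set.mem_iUnion₂]
        exact ⟨X n ω, hmem n n le_rfl, rfl⟩
      have h4 : (⋃ v ∈ V, {n | X n ω = v}).Finite :=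
        Set.Finite.biUnion V.finite_toSet fun v _ => hω v
      exact Set.infinite_univ (h4.subset h3)
    rw [measure_eq_zero_iff_ae_notMem]
    exact h2
  rw [← h1]
  refine tendsto_measure_iInter_atTop (fun n => ?_) ?_ ⟨0, measure_ne_top _ _⟩
  · have h2 : {ω | ∀ k ≤ n, X k ω ∈ V} =
        ⋂ k ∈ Finset.range (n + 1), X k ⁻¹' (V : Set (Zd d)) := by
      ext ω
      simp [Nat.lt_succ_iff]
    rw [h2]
    exact (Finset.measurableSet_biInter _
      fun k _ => h.measX k (Set.to_countable _).measurableSet).nullMeasurableSet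
  · intro m n hmn ω hω k hk
    exact hω k (hk.trans hmn)

/-- local times are monotone when the holding times are positive -/
theorem pb_mono {x : ℕ → Zd d} {t : ℕ → ℝ} (ht : ∀ n, 0 < t n) {m n : ℕ} (hmn : m ≤ n)
    (j : Zd d) : locT x t m j ≤ locT x t n j := by
  unfold locT
  have h1 : ∑ k ∈ Finset.range m, (if x k = j then t k else 0) ≤
      ∑ k ∈ Finset.range n, (if x k = j then t k else 0) := by
    refine Finset.sum_le_sum_of_subset_of_nonneg ?_ ?_
    · intro k hk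
      exact Finset.mem_range.2 (lt_of_lt_of_le (Finset.mem_range.1 hk) hmn)
    · intro k _ _
      split_ifs
      · exact (ht k).le
      · exact le_rfl
  linarith

theorem pb_one_le {x : ℕ → Zd d} {t : ℕ → ℝ} (ht : ∀ n, 0 < t n) (n : ℕ)
    (j : Zd d) : 1 ≤ locT x t n j := by
  have h1 := pb_mono (x := x) ht (Nat.zero_le n) j
  have h2 : locT x t 0 j = 1 := by unfold locT; simp
  linarith

theorem IsVRJP.proc_bound (hw : 0 < w) (h : IsVRJP w P X T) (htr : IsTransient P X)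
    {V : Finset (Zd d)} (h0 : 0 ∈ V)
    {z : ℝ} (hz : 1 < z) {g : Zd d → (Zd d → ℝ) → ℝ≥0∞} (hgm : ∀ i, Measurable (g i))
    (hg1 : ∀ i ∈ V, ∀ L : Zd d → ℝ, (∀ j, 1 ≤ L j) → L 0 ≤ z → g i L ≤ 1)
    (hbd : ∀ L : Zd d → ℝ, (∀ j, 1 ≤ L j) → L 0 = z → g 0 L = 1)
    (hstep : ∀ i ∈ V, i ≠ 0 → ∀ L : Zd d → ℝ, (∀ j, 1 ≤ L j) → (∀ j, j ∉ V → L j = 1) →
      g i L = ∫⁻ t in Set.Ioi (0 : ℝ), ENNReal.ofReal (exp (-(w * (∑ k ∈ nb i, L k) * t))) *
        ∑ j ∈ V, ENNReal.ofReal (Wd w i j * L j) * g j (Function.update L i (L i + t)))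
    (hroot : ∀ L : Zd d → ℝ, (∀ j, 1 ≤ L j) → (∀ j, j ∉ V → L j = 1) → L 0 < z →
      g 0 L = ENNReal.ofReal (exp (-(w * (∑ k ∈ nb 0, L k) * (z - L 0)))) *
          g 0 (Function.update L 0 z) +
        ∫⁻ t in Set.Ioc (0 : ℝ) (z - L 0), ENNReal.ofReal (exp (-(w * (∑ k ∈ nb 0, L k) * t))) *
          ∑ j ∈ V, ENNReal.ofReal (Wd w 0 j * L j) * g j (Function.update L 0 (L 0 + t))) :
    g 0 (fun _ => 1) ≤ P {ω | ∃ n, z ≤ locT (X · ω) (T · ω) n 0} := by
  classical
  have hprob := h.prob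
  have hT := h.T_pos hw
  have hA : ∀ m, MeasurableSet (alive X T V z m) := fun m => h.alive_meas V z m
  have hS : ∀ n, ∫⁻ ω in alive X T V z n, g (X n ω) (locT (X · ω) (T · ω) n) ∂P ≤
      P (alive X T V z n ∩ {ω | z ≤ locT (X · ω) (T · ω) (n + 1) 0}) +
      ∫⁻ ω in alive X T V z (n + 1), g (X (n + 1) ω) (locT (X · ω) (T · ω) (n + 1)) ∂P :=
    fun n => h.proc_step hw h0 hz hgm hbd hstep hroot n
  -- the start
  have ha0 : ∫⁻ ω in alive X T V z 0, g (X 0 ω) (locT (X · ω) (T · ω) 0) ∂P =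
      g 0 (fun _ => 1) := by
    rw [← lintegral_indicator (hA 0)]
    have h1 : ∫⁻ ω, (alive X T V z 0).indicator
        (fun ω => g (X 0 ω) (locT (X · ω) (T · ω) 0)) ω ∂P = ∫⁻ _, g 0 (fun _ => 1) ∂P := by
      apply lintegral_congr_ae
      filter_upwards [h.start] with ω hω
      have h2 : locT (X · ω) (T · ω) 0 = fun _ => 1 := by
        funext j
        unfold locT
        simp
      rw [Set.indicator_of_mem, hω, h2]
      refine ⟨fun k hk => ?_, ?_⟩
      · rw [Nat.le_zero.1 hk, hω]; exact h0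
      · rw [h2]; exact hz
    rw [h1, lintegral_const, measure_univ, mul_one]
  -- iterate
  have hit : ∀ n, g 0 (fun _ => 1) ≤
      ∑ k ∈ Finset.range n, P (alive X T V z k ∩ {ω | z ≤ locT (X · ω) (T · ω) (k + 1) 0}) +
      ∫⁻ ω in alive X T V z n, g (X n ω) (locT (X · ω) (T · ω) n) ∂P := by
    intro n
    induction n with
    | zero => rw [Finset.sum_range_zero, zero_add, ha0]
    | succ n ih =>
      refine ih.trans ?_
      rw [Finset.sum_range_succ, add_assoc]
      exact add_le_add le_rfl (hS n)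
  -- the hitting events
  have hB : ∀ n, ∑ k ∈ Finset.range n,
      P (alive X T V z k ∩ {ω | z ≤ locT (X · ω) (T · ω) (k + 1) 0}) ≤
      P {ω | ∃ n, z ≤ locT (X · ω) (T · ω) n 0} := by
    intro n
    have hloc : ∀ m, Measurable (fun ω => locT (X · ω) (T · ω) m 0) := by
      intro m
      unfold locT
      refine measurable_const.add (Finset.measurable_sum _ fun m _ => ?_)
      refine Measurable.ite ?_ (h.measT m) measurable_const
      exact h.measX m (measurableSet_singleton (0 : Zd d))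
    rw [← measure_biUnion_finset₀]
    · apply measure_mono
      intro ω hω
      rw [Set.mem_iUnion₂] at hω
      obtain ⟨k, _, hk⟩ := hω
      exact ⟨k + 1, hk.2⟩
    · have key : ∀ k l, k < l → AEDisjoint P
          (alive X T V z k ∩ {ω | z ≤ locT (X · ω) (T · ω) (k + 1) 0})
          (alive X T V z l ∩ {ω | z ≤ locT (X · ω) (T · ω) (l + 1) 0}) := by
        intro k l hkl
        unfold AEDisjoint
        rw [measure_eq_zero_iff_ae_notMem]
        filter_upwards [hT] with ω hω hmem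
        have h1 : z ≤ locT (X · ω) (T · ω) (k + 1) 0 := hmem.1.2
        have h2 : locT (X · ω) (T · ω) l 0 < z := hmem.2.1.2
        have h3 := pb_mono (x := (X · ω)) hω (Nat.succ_le_of_lt hkl) 0
        exact absurd (lt_of_le_of_lt (h1.trans h3) h2) (lt_irrefl _)
      intro k _ l _ hkl
      rcases lt_or_gt_of_ne hkl with h1 | h1
      · exact key k l h1
      · exact (key l k h1).symm
    · intro k _
      exact ((hA k).inter (measurableSet_le measurable_const (hloc _))).nullMeasurableSet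
  -- the remainder
  have hR : ∀ n, ∫⁻ ω in alive X T V z n, g (X n ω) (locT (X · ω) (T · ω) n) ∂P ≤
      P {ω | ∀ k ≤ n, X k ω ∈ V} := by
    intro n
    calc ∫⁻ ω in alive X T V z n, g (X n ω) (locT (X · ω) (T · ω) n) ∂P
        ≤ ∫⁻ _ in alive X T V z n, 1 ∂P := by
          apply lintegral_mono_ae
          filter_upwards [ae_restrict_mem (hA n), ae_restrict_of_ae hT] with ω hω hω2
          exact hg1 _ (hω.1 n le_rfl) _ (fun j => pb_one_le hω2 n j) hω.2.le
      _ = P (alive X T V z n) := by rw [setLIntegral_one]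
      _ ≤ _ := measure_mono fun ω hω => hω.1
  have hfin : ∀ n, g 0 (fun _ => 1) ≤ P {ω | ∃ n, z ≤ locT (X · ω) (T · ω) n 0} +
      P {ω | ∀ k ≤ n, X k ω ∈ V} := fun n => (hit n).trans (add_le_add (hB n) (hR n))
  have hlim : Filter.Tendsto (fun n : ℕ => P {ω | ∃ n, z ≤ locT (X · ω) (T · ω) n 0} +
      P {ω | ∀ k ≤ n, X k ω ∈ V}) Filter.atTop
      (nhds (P {ω | ∃ n, z ≤ locT (X · ω) (T · ω) n 0} + 0)) :=
    Filter.Tendsto.add tendsto_const_nhds (pb_leave h htr V)
  rw [add_zero] at hlim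
  exact ge_of_tendsto' hlim hfin

end VJ26
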