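import Pool.Agent.VJ26.Remove

/-!
# [VJ-REMOVEC] Removing a vertex from the glued set

This file: `remove_chain`

`VR μ V W η`, `B' ⊆ V`, `j ∈ V \ B'`, `O = V \ insert j B'`, `V \ B' = insert j O`,
`W₀ ≤ WB W B' j` (total weight between `j` and `B'`), `W₀ > 0`. Under `μ` the law on
`V \ B' = insert j O` is `VR μ (insert j O) W (η + WB W B')` (`VR.marg_sdiff`). With
 `x = ∑_{B'} η + ⟨WB B', G_O η⟩ ≥ 0`, `u = WB B' j + ⟨WB B', G_O W_j⟩ ≥ W₀`,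
 `v = η_j + ⟨W_j, G_O η⟩ ≥ 0`, `T = gr W (insert j O) β j j`:
 `hB V B' = x + u v T` (`bil_insert`), `hB V (insert j B') = x + v`,
 `sfn W O (η + WB B') j = u + v`.
`VR.disint` at `j`: `∫ (hB V B')⁻¹ dμ = ∫∫ ig(u+v,t) (x+uvt)⁻¹ dt dμ`. If `x + v > 0`, convexity of
`1/·`: `1/(x+uvt) ≤ (1/(x+v)) (x/(x+v) + (v/(x+v)) · 1/(ut))`, and `∫ ig(s,t)/t dt = s+1`
(`ig_inv_mean`):
 `∫ ig(u+v,t)/(x+uvt) dt ≤ (1/(x+v)) (x/(x+v) + (v/(x+v)) (u+v+1)/u)`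
 `≤ (1/(x+v)) (1 + 1/u) + 1/u ≤ (1 + 1/W₀)/(x+v) + 1/W₀`.
If `x + v = 0` the right side of the claim is infinite (for that `β`).

`remove_chain`: induction on `Grow`: `∫(hB V B')⁻¹ + 1 ≤ (1+1/W₀) (∫(hB V (insert j B'))⁻¹ + 1)`.
-/

open MeasureTheory Real
open scoped ENNReal

namespace VJ26

variable {α : Type*} [DecidableEq α]
variable {W : α → α → ℝ} {V B B' : Finset α} {η : α → ℝ} {μ : Measure (α → ℝ)} {j o : α}
  {W₀ : ℝ}

theorem remove_chain (hW : Wt W) (hη : ∀ i, 0 ≤ η i) (h : VR μ V W η) (hW₀ : 0 < W₀)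
    (hB : Grow W W₀ o B) (hBV : B ⊆ V) :
    ∫⁻ β, (ENNReal.ofReal (VJ26.hB W V {o} η β))⁻¹ ∂μ + 1 ≤
      ENNReal.ofReal ((1 + 1 / W₀) ^ B.card) *
        (∫⁻ β, (ENNReal.ofReal (VJ26.hB W V B η β))⁻¹ ∂μ + 1) := by
  have hc : (0 : ℝ) ≤ 1 / W₀ := by positivity
  have hc1 : (1 : ℝ) ≤ 1 + 1 / W₀ := by linarith
  induction hB with
  | base =>
    rw [Finset.card_singleton, pow_one]
    calc _ = 1 * (∫⁻ β, (ENNReal.ofReal (VJ26.hB W V {o} η β))⁻¹ ∂μ + 1) := (one_mul _).symm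
      _ ≤ _ := mul_le_mul_left (ENNReal.one_le_ofReal.2 hc1) _
  | step B j _ hj hle ih =>
    have hBV' : B ⊆ V := fun x hx => hBV (Finset.mem_insert_of_mem hx)
    have hjV : j ∈ V := hBV (Finset.mem_insert_self j B)
    refine (ih hBV').trans ?_
    rw [Finset.card_insert_of_notMem hj, pow_succ, ENNReal.ofReal_mul (by positivity), mul_assoc]
    refine mul_le_mul_right ?_ _
    calc _ ≤ ENNReal.ofReal (1 + 1 / W₀) *
          (∫⁻ β, (ENNReal.ofReal (VJ26.hB W V (insert j B) η β))⁻¹ ∂μ) +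
            ENNReal.ofReal (1 / W₀) + 1 :=
          add_le_add_left (remove_vertex hW hη h hBV' hjV hj hW₀ hle) 1
      _ = _ := by
          rw [mul_add, mul_one, add_assoc]
          congr 1
          rw [← ENNReal.ofReal_one, ← ENNReal.ofReal_add hc zero_le_one, add_comm]

end VJ26
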