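import Pool.Agent.VJ26.Mean2

/-!
# [VJ-REMOVE] Removing a vertex from the glued set

This file: `Grow`, `measurable_hB`, `dependsOn_hB`, `remove_vertex`

`VR μ V W η`, `B' ⊆ V`, `j ∈ V \ B'`, `O = V \ insert j B'`, `V \ B' = insert j O`,
`W₀ ≤ WB W B' j` (total weight between `j` and `B'`), `W₀ > 0`. Under `μ` the law on
`V \ B' = insert j O` is `VR μ (insert j O) W (η + WB W B')` (`VR.marg_sdiff`). With
 `x = ∑_{B'} η + ⟨WB B', G_O η⟩ ≥ 0`, `u = WB B' j + ⟨WB B', G_O W_j⟩ ≥ W₀`,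
 `v = η_j + ⟨W_j, G_O η⟩ ≥ 0`, `T = gr W (insert j O) β j j`:
 `hB V B' = x + u v T` (`bil_insert`), `hB V (insert j B') = x + v`,
 `sfn W O (η + WB B') j = u + v`.
`VR.disint` at `j`: `∫ (hB V B')⁻¹ dμ = ∫∫ ig(u+v,t) (x+uvt)⁻¹ dt dμ`. If `x + v > 0`, convexity of
`1/·`: `1/(x+uvt) ≤ (1/(x+v)) (x/(x+v) + (v/(x+v)) · 1/(ut))`, and `∫ ig(s,t)/t dt = s+1`
(`ig_inv_mean`):
 `∫ ig(u+v,t)/(x+uvt) dt ≤ (1/(x+v)) (x/(x+v) + (v/(x+v)) (u+v+1)/u)`
 `≤ (1/(x+v)) (1 + 1/u) + 1/u ≤ (1 + 1/W₀)/(x+v) + 1/W₀`.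
If `x + v = 0` the right side of the claim is infinite (for that `β`).

`remove_chain`: induction on `Grow`: `∫(hB V B')⁻¹ + 1 ≤ (1+1/W₀) (∫(hB V (insert j B'))⁻¹ + 1)`.
-/

open MeasureTheory Real
open scoped ENNReal

namespace VJ26

variable {α : Type*} [DecidableEq α]
variable {W : α → α → ℝ} {V B B' : Finset α} {η : α → ℝ} {μ : Measure (α → ℝ)} {j o : α}
  {W₀ : ℝ}

/-- Sets grown from `{o}` by adding vertices with total weight at least `W₀` to the previous
set. -/
inductive Grow (W : α → α → ℝ) (W₀ : ℝ) (o : α) : Finset α → Prop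
  | base : Grow W W₀ o {o}
  | step (B : Finset α) (j : α) : Grow W W₀ o B → j ∉ B → W₀ ≤ WB W B j →
      Grow W W₀ o (insert j B)

theorem measurable_hB (W : α → α → ℝ) (V B : Finset α) (η : α → ℝ) :
    Measurable (fun β : α → ℝ => hB W V B η β) := by
  unfold hB
  exact (measurable_bil W (V \ B) (WB W B) η).const_add _

theorem dependsOn_hB (W : α → α → ℝ) (V B : Finset α) (η : α → ℝ) :
    DependsOn (fun β : α → ℝ => hB W V B η β) ((V \ B : Finset α) : Set α) := by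
  intro β β' h
  have h1 : bil W (V \ B) β (WB W B) η = bil W (V \ B) β' (WB W B) η :=
    dependsOn_bil W (V \ B) (WB W B) η h
  change ∑ j ∈ B, η j + bil W (V \ B) β (WB W B) η =
    ∑ j ∈ B, η j + bil W (V \ B) β' (WB W B) η
  rw [h1]

/-- the convexity inequality -/
private theorem rem_conv {x u v t : ℝ} (hx : 0 ≤ x) (hu : 0 < u) (hv : 0 ≤ v) (hxv : 0 < x + v)
    (ht : 0 < t) : (x + t * u * v)⁻¹ ≤ x / (x + v) ^ 2 + v / ((x + v) ^ 2 * u) * (1 / t) := by
  have hr : 0 < t * u := mul_pos ht hu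
  have hpos : 0 < x + t * u * v := by
    rcases hx.eq_or_lt with h | h
    · rw [← h, zero_add] at hxv ⊢
      exact mul_pos hr hxv
    · exact add_pos_of_pos_of_nonneg h (mul_nonneg hr.le hv)
  have e : x / (x + v) ^ 2 + v / ((x + v) ^ 2 * u) * (1 / t) =
      (x * (t * u) + v) / ((x + v) ^ 2 * (t * u)) := by
    field_simp
  rw [e, inv_eq_one_div, div_le_div_iff₀ hpos (by positivity)]
  nlinarith [mul_nonneg (mul_nonneg hx hv) (sq_nonneg (t * u - 1))]

private theorem rem_final {x u v W₀ : ℝ} (hx : 0 ≤ x) (hW₀ : 0 < W₀) (hu : W₀ ≤ u) (hv : 0 ≤ v)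
    (hxv : 0 < x + v) :
    x / (x + v) ^ 2 + v / ((x + v) ^ 2 * u) * (u + v + 1) ≤
      (1 + 1 / W₀) * (x + v)⁻¹ + 1 / W₀ := by
  have hu0 : 0 < u := hW₀.trans_le hu
  have e1 : x / (x + v) ^ 2 + v / ((x + v) ^ 2 * u) * (u + v + 1) =
      (x + v)⁻¹ + (v * (v + 1) / (x + v) ^ 2) * u⁻¹ := by
    field_simp
    ring
  have h1 : v * (v + 1) / (x + v) ^ 2 ≤ 1 + (x + v)⁻¹ := by
    rw [div_le_iff₀ (by positivity)]
    have e2 : (1 + (x + v)⁻¹) * (x + v) ^ 2 = (x + v) ^ 2 + (x + v) := by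
      field_simp
    rw [e2]
    nlinarith [mul_nonneg hx hv]
  have h2 : u⁻¹ ≤ W₀⁻¹ := inv_anti₀ hW₀ hu
  have h3 : (v * (v + 1) / (x + v) ^ 2) * u⁻¹ ≤ (1 + (x + v)⁻¹) * W₀⁻¹ :=
    mul_le_mul h1 h2 (by positivity) (by positivity)
  rw [e1]
  calc (x + v)⁻¹ + (v * (v + 1) / (x + v) ^ 2) * u⁻¹
      ≤ (x + v)⁻¹ + (1 + (x + v)⁻¹) * W₀⁻¹ := by linarith
    _ = _ := by ring

/-- the inner integral -/
private theorem rem_inner {x u v W₀ : ℝ} (hx : 0 ≤ x) (hW₀ : 0 < W₀) (hu : W₀ ≤ u)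
    (hv : 0 ≤ v) :
    ∫⁻ t in Set.Ioi (0 : ℝ), ENNReal.ofReal (ig (u + v) t) *
      (ENNReal.ofReal (x + t * u * v))⁻¹ ≤
      ENNReal.ofReal (1 + 1 / W₀) * (ENNReal.ofReal (x + v))⁻¹ + ENNReal.ofReal (1 / W₀) := by
  have hu0 : 0 < u := hW₀.trans_le hu
  rcases (add_nonneg hx hv).eq_or_lt with h0 | hxv
  · rw [← h0, ENNReal.ofReal_zero, ENNReal.inv_zero, ENNReal.mul_top, top_add]
    · exact le_top
    · rw [Ne, ENNReal.ofReal_eq_zero, not_le]
      positivity
  have hm := h38_meas_ig (u + v)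
  have hs : 0 ≤ u + v := by linarith
  have hC1 : 0 ≤ x / (x + v) ^ 2 := by positivity
  have hC2 : 0 ≤ v / ((x + v) ^ 2 * u) := by positivity
  have hm1 : Measurable (fun t : ℝ => ENNReal.ofReal (ig (u + v) t)) := hm.ennreal_ofReal
  have hm2 : Measurable (fun t : ℝ => ENNReal.ofReal (ig (u + v) t * (1 / t))) :=
    (hm.mul (measurable_const.div measurable_id)).ennreal_ofReal
  calc ∫⁻ t in Set.Ioi (0 : ℝ), ENNReal.ofReal (ig (u + v) t) *
      (ENNReal.ofReal (x + t * u * v))⁻¹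
      ≤ ∫⁻ t in Set.Ioi (0 : ℝ), (ENNReal.ofReal (ig (u + v) t) *
          ENNReal.ofReal (x / (x + v) ^ 2) +
          ENNReal.ofReal (ig (u + v) t * (1 / t)) * ENNReal.ofReal (v / ((x + v) ^ 2 * u))) := by
        refine setLIntegral_mono' measurableSet_Ioi fun t ht => ?_
        have ht0 : 0 < t := ht
        have hpos : 0 < x + t * u * v := by
          rcases hx.eq_or_lt with h | h
          · rw [← h, zero_add] at hxv ⊢
            exact mul_pos (mul_pos ht0 hu0) hxv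
          · exact add_pos_of_pos_of_nonneg h (mul_nonneg (mul_pos ht0 hu0).le hv)
        rw [← ENNReal.ofReal_inv_of_pos hpos, ← ENNReal.ofReal_mul (ig_nonneg _ _),
          ← ENNReal.ofReal_mul (ig_nonneg _ _), ← ENNReal.ofReal_mul
            (mul_nonneg (ig_nonneg _ _) (by positivity)), ← ENNReal.ofReal_add
            (mul_nonneg (ig_nonneg _ _) hC1)
            (mul_nonneg (mul_nonneg (ig_nonneg _ _) (by positivity)) hC2)]
        apply ENNReal.ofReal_le_ofReal
        have h1 := mul_le_mul_of_nonneg_left (rem_conv hx hu0 hv hxv ht0)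
          (ig_nonneg (u + v) t)
        refine h1.trans (le_of_eq ?_)
        ring
    _ = ENNReal.ofReal (x / (x + v) ^ 2) +
          ENNReal.ofReal (u + v + 1) * ENNReal.ofReal (v / ((x + v) ^ 2 * u)) := by
        rw [lintegral_add_left (hm1.mul_const _), lintegral_mul_const _ hm1,
          lintegral_mul_const _ hm2, ig_mass hs, ig_inv_mean hs, one_mul]
    _ = ENNReal.ofReal (x / (x + v) ^ 2 + v / ((x + v) ^ 2 * u) * (u + v + 1)) := by
        rw [← ENNReal.ofReal_mul (by linarith), ← ENNReal.ofReal_add hC1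
          (mul_nonneg (by linarith) hC2), mul_comm (u + v + 1)]
    _ ≤ ENNReal.ofReal ((1 + 1 / W₀) * (x + v)⁻¹ + 1 / W₀) :=
        ENNReal.ofReal_le_ofReal (rem_final hx hW₀ hu hv hxv)
    _ = _ := by
        rw [ENNReal.ofReal_add (by positivity) (by positivity), ENNReal.ofReal_mul (by positivity),
          ENNReal.ofReal_inv_of_pos hxv]

theorem remove_vertex (hW : Wt W) (hη : ∀ i, 0 ≤ η i) (h : VR μ V W η) (hB' : B' ⊆ V)
    (hj : j ∈ V) (hjB : j ∉ B') (hW₀ : 0 < W₀) (hle : W₀ ≤ WB W B' j) :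
    ∫⁻ β, (ENNReal.ofReal (hB W V B' η β))⁻¹ ∂μ ≤
      ENNReal.ofReal (1 + 1 / W₀) *
        (∫⁻ β, (ENNReal.ofReal (hB W V (insert j B') η β))⁻¹ ∂μ) +
      ENNReal.ofReal (1 / W₀) := by
  have hprob := h.prob
  set O : Finset α := V \ insert j B' with hO
  have hVO : V \ B' = insert j O := by
    ext x
    simp only [hO, Finset.mem_sdiff, Finset.mem_insert, not_or]
    constructor
    · rintro ⟨h1, h2⟩
      by_cases hx : x = j
      · exact Or.inl hx
      · exact Or.inr ⟨h1, hx, h2⟩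
    · rintro (rfl | ⟨h1, _, h2⟩)
      · exact ⟨hj, hjB⟩
      · exact ⟨h1, h2⟩
  have hjO : j ∉ O := by
    rw [hO, Finset.mem_sdiff, not_and, not_not]
    exact fun _ => Finset.mem_insert_self j B'
  have hWB0 : ∀ i, 0 ≤ WB W B' i := fun i => Finset.sum_nonneg fun k _ => hW.nonneg k i
  have hθ : ∀ i, 0 ≤ (η + WB W B') i := fun i => add_nonneg (hη i) (hWB0 i)
  have h1 : VR μ (insert j O) W (η + WB W B') := by
    rw [← hVO]
    exact VR.marg_sdiff hW hB' h
  have hAG := VR.allGood hW hθ h1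
  set X : (α → ℝ) → ℝ := fun β => ∑ i ∈ B', η i + bil W O β (WB W B') η with hX
  set Uu : (α → ℝ) → ℝ := fun β => WB W B' j + bil W O β (WB W B') (W j) with hU
  set Vv : (α → ℝ) → ℝ := fun β => η j + bil W O β (W j) η with hV
  have mX : Measurable X := (measurable_bil W O (WB W B') η).const_add _
  have mU : Measurable Uu := (measurable_bil W O (WB W B') (W j)).const_add _
  have mV : Measurable Vv := (measurable_bil W O (W j) η).const_add _
  set Φ : (α → ℝ) → ℝ → ℝ≥0∞ := fun β t =>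
    (ENNReal.ofReal (X β + t * Uu β * Vv β))⁻¹ with hΦ
  have hΦm : Measurable (fun p : (α → ℝ) × ℝ => Φ p.1 p.2) := by
    have m1 : Measurable (fun p : (α → ℝ) × ℝ => X p.1) := mX.comp measurable_fst
    have m2 : Measurable (fun p : (α → ℝ) × ℝ => Uu p.1) := mU.comp measurable_fst
    have m3 : Measurable (fun p : (α → ℝ) × ℝ => Vv p.1) := mV.comp measurable_fst
    exact ((m1.add ((measurable_snd.mul m2).mul m3)).ennreal_ofReal).inv
  have hΦd : ∀ t, DependsOn (fun β => Φ β t) (O : Set α) := by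
    intro t β β' hb
    have d1 : bil W O β (WB W B') η = bil W O β' (WB W B') η :=
      dependsOn_bil W O (WB W B') η hb
    have d2 : bil W O β (WB W B') (W j) = bil W O β' (WB W B') (W j) :=
      dependsOn_bil W O (WB W B') (W j) hb
    have d3 : bil W O β (W j) η = bil W O β' (W j) η := dependsOn_bil W O (W j) η hb
    simp only [hΦ, hX, hU, hV]
    rw [d1, d2, d3]
  have h2 : ∫⁻ β, (ENNReal.ofReal (hB W V B' η β))⁻¹ ∂μ =
      ∫⁻ β, Φ β (gr W (insert j O) β j j) ∂μ := by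
    refine lintegral_congr_ae ?_
    filter_upwards [hAG] with β hβ
    have hG : Good W O β := hβ.1 _ (Finset.subset_insert j O)
    have hG' : Good W (insert j O) β := hβ.1 _ (Finset.Subset.refl _)
    simp only [hΦ, hX, hU, hV]
    congr 2
    unfold hB
    rw [hVO, bil_insert hW hG hG' hjO]
    ring
  rw [h2, VR.disint hW hθ hjO h1 hΦm hΦd]
  have h3 : ∫⁻ β, (ENNReal.ofReal (1 + 1 / W₀) *
      (ENNReal.ofReal (hB W V (insert j B') η β))⁻¹ + ENNReal.ofReal (1 / W₀)) ∂μ =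
      ENNReal.ofReal (1 + 1 / W₀) *
        (∫⁻ β, (ENNReal.ofReal (hB W V (insert j B') η β))⁻¹ ∂μ) +
      ENNReal.ofReal (1 / W₀) := by
    have m4 : Measurable (fun β : α → ℝ =>
        (ENNReal.ofReal (hB W V (insert j B') η β))⁻¹) :=
      (measurable_hB W V (insert j B') η).ennreal_ofReal.inv
    rw [lintegral_add_right _ measurable_const, lintegral_const, measure_univ, mul_one,
      lintegral_const_mul _ m4]
  rw [← h3]
  refine lintegral_mono_ae ?_
  filter_upwards [hAG] with β hβ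
  have hG : Good W O β := hβ.1 _ (Finset.subset_insert j O)
  have e1 : sfn W O (η + WB W B') j β = Uu β + Vv β := by
    unfold sfn
    simp only [hU, hV]
    rw [bil_add_right, Pi.add_apply, bil_symm hG (W j) (WB W B')]
    ring
  have e2 : hB W V (insert j B') η β = X β + Vv β := by
    have e3 : WB W (insert j B') = W j + WB W B' := by
      funext k
      rw [Pi.add_apply, WB, WB, Finset.sum_insert hjB]
    unfold hB
    simp only [hX, hV]
    rw [e3, bil_add_left, Finset.sum_insert hjB]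
    ring
  rw [e1, e2]
  exact rem_inner (add_nonneg (Finset.sum_nonneg fun i _ => hη i)
    (bil_nonneg hG (fun i _ => hWB0 i) (fun i _ => hη i))) hW₀
    (hle.trans (le_add_of_nonneg_right (bil_nonneg hG (fun i _ => hWB0 i)
      (fun i _ => hW.nonneg j i))))
    (add_nonneg (hη j) (bil_nonneg hG (fun i _ => hW.nonneg j i) (fun i _ => hη i)))

end VJ26
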