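import Pool.Agent.VJ26.ZBasic
import Pool.Agent.VJ26.Remove

/-!
# [VJ-ZGROW] Growing boxes and segments; finite second moments

This file: `card_seg`, `grow_seg`, `grow_box`

`grow_seg`: `seg (n+1) = insert (n e₀) (seg n)`, and `n e₀` is adjacent to `(n-1) e₀ ∈ seg n`.
`grow_box`: more generally every finite `B ∋ 0` such that each `x ∈ B`, `x ≠ 0`, has a neighbour
`y ∈ B` with `∑|y k| < ∑|x k|`: strong induction on `B.card`, remove a vertex `j ≠ 0` with
maximal `ℓ¹` norm (the property survives). In `box m`: if `x k ≠ 0` let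
`y = x - sign(x k) e_k`.
`sq_formula`: `VR.mean_sq` with `m = 0`, `U = V.erase 0`; `hB (Wd w) V {0} η β = sfn (Wd w)
(V.erase 0) η 0 β` (`V \ {0} = V.erase 0`, `WB W {0} = W 0`), positive by `sfn_pos` (a.s.), and
`ENNReal.ofReal (1/s) = (ENNReal.ofReal s)⁻¹` for `s > 0`.
`sq_fin`: `remove_chain` with `V = B = box m`: `hB V V η β = ∑_{j∈V} η_j > 0` is a constant
(`V \ V = ∅`, `bil` over `∅` is `0`; the corner `fun _ => m` has `etaV > 0`).
-/

open MeasureTheory Real
open scoped ENNReal

namespace VJ26

variable {d : ℕ} {w : ℝ} {μ : Measure (Zd d → ℝ)} {V V' U : Finset (Zd d)} {i j m x : Zd d}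
  {β : Zd d → ℝ}

theorem card_seg [NeZero d] (n : ℕ) : (seg (d := d) n).card = n := by
  unfold seg
  rw [Finset.card_image_of_injective]
  · simp
  · intro a b h
    have h1 := congrFun h (0 : Fin d)
    simp only [Pi.single_eq_same] at h1
    exact_mod_cast h1

theorem zgrow_WB_ge (hw : 0 < w) {B : Finset (Zd d)} {y j : Zd d} (hy : y ∈ B) (hA : Adj y j) :
    w ≤ WB (Wd w) B j := by
  unfold WB
  have h1 : ∀ i ∈ B, 0 ≤ Wd w i j := by
    intro i _
    unfold Wd
    split_ifs
    · exact hw.le
    · exact le_refl _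
  have h2 := Finset.single_le_sum h1 hy
  have h3 : Wd w y j = w := by
    unfold Wd
    rw [if_pos hA]
  rw [h3] at h2
  exact h2

theorem zgrow_seg_succ [NeZero d] (n : ℕ) :
    seg (d := d) (n + 1) = insert (Pi.single (0 : Fin d) ((n : ℕ) : ℤ)) (seg n) := by
  unfold seg
  rw [Finset.range_add_one, Finset.image_insert]

theorem grow_seg [NeZero d] (hw : 0 < w) {n : ℕ} (hn : 1 ≤ n) :
    Grow (Wd (d := d) w) w 0 (seg n) := by
  induction n, hn using Nat.le_induction with
  | base =>
    have h : seg (d := d) 1 = {0} := by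
      unfold seg
      simp
    rw [h]
    exact Grow.base
  | succ n hn ih =>
    rw [zgrow_seg_succ]
    refine Grow.step _ _ ih ?_ ?_
    · intro hmem
      unfold seg at hmem
      rw [Finset.mem_image] at hmem
      obtain ⟨a, ha, hab⟩ := hmem
      rw [Finset.mem_range] at ha
      have h1 := congrFun hab (0 : Fin d)
      simp only [Pi.single_eq_same] at h1
      have h2 : a = n := by exact_mod_cast h1
      omega
    · have hmem : (Pi.single (0 : Fin d) (((n - 1 : ℕ) : ℕ) : ℤ) : Zd d) ∈ seg (d := d) n := by
        unfold seg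
        rw [Finset.mem_image]
        exact ⟨n - 1, Finset.mem_range.2 (by omega), rfl⟩
      refine zgrow_WB_ge hw hmem ?_
      unfold Adj
      rw [Finset.sum_eq_single (0 : Fin d)]
      · simp only [Pi.single_eq_same]
        have h3 : ((n - 1 : ℕ) : ℤ) = (n : ℤ) - 1 := by
          rw [Nat.cast_sub hn]
          simp
        rw [h3]
        have h4 : (n : ℤ) - 1 - (n : ℤ) = -1 := by ring
        rw [h4]
        simp
      · intro b _ hb
        rw [Pi.single_eq_of_ne hb, Pi.single_eq_of_ne hb]
        simp
      · intro h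
        exact absurd (Finset.mem_univ _) h

theorem zgrow_aux (hw : 0 < w) : ∀ (n : ℕ) (B : Finset (Zd d)), B.card = n → (0 : Zd d) ∈ B →
    (∀ x ∈ B, x ≠ 0 → ∃ y ∈ B, Adj y x ∧ ∑ k, |y k| < ∑ k, |x k|) →
    Grow (Wd (d := d) w) w 0 B := by
  intro n
  induction n with
  | zero =>
    intro B hB h0 _
    rw [Finset.card_eq_zero] at hB
    rw [hB] at h0
    exact absurd h0 (Finset.notMem_empty _)
  | succ n ih =>
    intro B hB h0 hP
    by_cases hne : (B.erase 0).Nonempty
    · obtain ⟨j, hj, hmax⟩ := Finset.exists_max_image (B.erase 0) (fun x : Zd d => ∑ k, |x k|) hne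
      have hj0 : j ≠ 0 := (Finset.mem_erase.1 hj).1
      have hjB : j ∈ B := (Finset.mem_erase.1 hj).2
      have hcard : (B.erase j).card = n := by
        rw [Finset.card_erase_of_mem hjB, hB]
        rfl
      have h0' : (0 : Zd d) ∈ B.erase j := Finset.mem_erase.2 ⟨hj0.symm, h0⟩
      have hP' : ∀ x ∈ B.erase j, x ≠ 0 →
          ∃ y ∈ B.erase j, Adj y x ∧ ∑ k, |y k| < ∑ k, |x k| := by
        intro x hx hx0
        have hxB := (Finset.mem_erase.1 hx).2
        obtain ⟨y, hy, hA, hlt⟩ := hP x hxB hx0
        refine ⟨y, Finset.mem_erase.2 ⟨?_, hy⟩, hA, hlt⟩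
        intro hyj
        have h1 := hmax x (Finset.mem_erase.2 ⟨hx0, hxB⟩)
        rw [hyj] at hlt
        exact absurd hlt (not_lt.2 h1)
      have hG := ih (B.erase j) hcard h0' hP'
      obtain ⟨y, hy, hA, hlt⟩ := hP j hjB hj0
      have hyj : y ≠ j := by
        intro h
        rw [h] at hlt
        exact lt_irrefl _ hlt
      have h2 := Grow.step (B.erase j) j hG (Finset.notMem_erase j B)
        (zgrow_WB_ge hw (Finset.mem_erase.2 ⟨hyj, hy⟩) hA)
      rw [Finset.insert_erase hjB] at h2
      exact h2
    · rw [Finset.not_nonempty_iff_eq_empty] at hne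
      have h1 : B = {0} := by
        rw [← Finset.insert_erase h0, hne]
        rfl
      rw [h1]
      exact Grow.base

theorem grow_box (hw : 0 < w) (m : ℕ) : Grow (Wd (d := d) w) w 0 (box m) := by
  refine zgrow_aux hw _ _ rfl ?_ ?_
  · unfold box
    rw [Finset.mem_Icc]
    constructor
    · intro k
      simp
    · intro k
      simp
  · intro x hx hx0
    unfold box at hx
    rw [Finset.mem_Icc] at hx
    obtain ⟨hl, hu⟩ := hx
    have hex : ∃ k, x k ≠ 0 := by
      by_contra hcon
      push Not at hcon
      exact hx0 (funext hcon)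
    obtain ⟨k, hk⟩ := hex
    have hlk : -(m : ℤ) ≤ x k := hl k
    have huk : x k ≤ (m : ℤ) := hu k
    obtain ⟨c, hc1, hc2, hc3, hc4⟩ : ∃ c : ℤ, |c| < |x k| ∧ |c - x k| = 1 ∧ -(m : ℤ) ≤ c ∧
        c ≤ (m : ℤ) := by
      rcases lt_or_gt_of_ne hk with h | h
      · refine ⟨x k + 1, ?_, ?_, by omega, by omega⟩
        · rw [abs_of_nonpos (by omega : x k + 1 ≤ 0), abs_of_neg h]
          omega
        · have : x k + 1 - x k = 1 := by ring
          rw [this]
          rfl
      · refine ⟨x k - 1, ?_, ?_, by omega, by omega⟩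
        · rw [abs_of_nonneg (by omega : 0 ≤ x k - 1), abs_of_pos h]
          omega
        · have : x k - 1 - x k = -1 := by ring
          rw [this]
          rfl
    refine ⟨Function.update x k c, ?_, ?_, ?_⟩
    · unfold box
      rw [Finset.mem_Icc]
      constructor
      · intro l
        by_cases hlk' : l = k
        · rw [hlk', Function.update_self]
          exact hc3
        · rw [Function.update_of_ne hlk']
          exact hl l
      · intro l
        by_cases hlk' : l = k
        · rw [hlk', Function.update_self]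
          exact hc4
        · rw [Function.update_of_ne hlk']
          exact hu l
    · unfold Adj
      rw [Finset.sum_eq_single k]
      · rw [Function.update_self]
        exact hc2
      · intro b _ hb
        rw [Function.update_of_ne hb]
        simp
      · intro h
        exact absurd (Finset.mem_univ _) h
    · refine Finset.sum_lt_sum ?_ ⟨k, Finset.mem_univ k, ?_⟩
      · intro l _
        by_cases hlk' : l = k
        · rw [hlk', Function.update_self]
          exact hc1.le
        · rw [Function.update_of_ne hlk']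
      · rw [Function.update_self]
        exact hc1

end VJ26
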