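import Pool.Agent.VJ26.ZContr
import Pool.Agent.VJ26.ZGrow
import Pool.Agent.VJ26.RemoveC

/-!
# [VJ-ZFIN] Growing boxes and segments; finite second moments

This file: `hB_zero`, `RF.sq_formula`, `RF.sq_fin`

`grow_seg`: `seg (n+1) = insert (n e₀) (seg n)`, and `n e₀` is adjacent to `(n-1) e₀ ∈ seg n`.
`grow_box`: more generally every finite `B ∋ 0` such that each `x ∈ B`, `x ≠ 0`, has a neighbour
`y ∈ B` with `∑|y k| < ∑|x k|`: strong induction on `B.card`, remove a vertex `j ≠ 0` with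
maximal `ℓ¹` norm (the property survives). In `box m`: if `x k ≠ 0` let
`y = x - sign(x k) e_k`.
`sq_formula`: `VR.mean_sq` with `m = 0`, `U = V.erase 0`; `hB (Wd w) V {0} η β = sfn (Wd w)
(V.erase 0) η 0 β` (`V \ {0} = V.erase 0`, `WB W {0} = W 0`), positive by `sfn_pos` (a.s.), and
`ENNReal.ofReal (1/s) = (ENNReal.ofReal s)⁻¹` for `s > 0`.
`sq_fin`: `remove_chain` with `V = B = box m`: `hB V V η β = ∑_{j∈V} η_j > 0` is a constant
(`V \ V = ∅`, `bil` over `∅` is `0`; the corner `fun _ => m` has `etaV > 0`).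
-/

open MeasureTheory Real
open scoped ENNReal

namespace VJ26

variable {d : ℕ} {w : ℝ} {μ : Measure (Zd d → ℝ)} {V V' U : Finset (Zd d)} {i j m x : Zd d}
  {β : Zd d → ℝ}

theorem hB_zero (h0 : 0 ∈ V) (η : Zd d → ℝ) (β : Zd d → ℝ) :
    hB (Wd w) V {0} η β = sfn (Wd w) (V.erase 0) η 0 β := by
  unfold hB sfn
  have h1 : WB (Wd (d := d) w) {0} = Wd w 0 := by
    funext k
    unfold WB
    rw [Finset.sum_singleton]
  rw [h1, Finset.sum_singleton, Finset.sdiff_singleton_eq_erase]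

theorem zfin_ae_pos [NeZero d] (hw : 0 < w) (h : RF w μ) (h0 : 0 ∈ V) :
    ∀ᵐ β ∂μ, 0 < sfn (Wd w) (V.erase 0) (etaV w V) 0 β := by
  have h1 := h77_ae_sfn_pos hw h (Finset.notMem_erase (0 : Zd d) V)
  rwa [Finset.insert_erase h0] at h1

theorem RF.sq_formula [NeZero d] (hw : 0 < w) (h : RF w μ) (h0 : 0 ∈ V) :
    ∫⁻ β, ENNReal.ofReal (psiV w V β 0 ^ 2) ∂μ =
      1 + ∫⁻ β, (ENNReal.ofReal (hB (Wd w) V {0} (etaV w V) β))⁻¹ ∂μ := by
  have hpos := zfin_ae_pos hw h h0
  have hV := h.vr V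
  have h1 := VR.mean_sq (m := (0 : Zd d)) (U := V.erase 0) (θ := etaV w V)
    (wt_Wd hw.le) (etaV_nonneg hw.le V) (Finset.notMem_erase (0 : Zd d) V)
    (μ := μ) (by rw [Finset.insert_erase h0]; exact hV) hpos
  rw [Finset.insert_erase h0] at h1
  unfold psiV
  rw [h1]
  congr 1
  refine lintegral_congr_ae ?_
  filter_upwards [hpos] with β hβ
  rw [hB_zero h0, one_div, ENNReal.ofReal_inv_of_pos hβ]

theorem zfin_hB_self (η : Zd d → ℝ) (β : Zd d → ℝ) :
    hB (Wd w) V V η β = ∑ j ∈ V, η j := by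
  unfold hB bil
  rw [Finset.sdiff_self, Finset.sum_empty, add_zero]

theorem zfin_corner [NeZero d] (hw : 0 < w) (m : ℕ) :
    0 < ∑ j ∈ box m, etaV w (box (d := d) m) j := by
  set c : Zd d := fun _ => (m : ℤ) with hc
  have hcb : c ∈ box (d := d) m := by
    unfold box
    rw [Finset.mem_Icc]
    refine ⟨fun k => ?_, fun k => le_rfl⟩
    simp only [hc]
    omega
  set e : Zd d := c + Pi.single (0 : Fin d) 1 with he
  have hadj : Adj c e := by
    unfold Adj
    rw [Finset.sum_eq_single (0 : Fin d)]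
    · simp [he]
    · intro l _ hl
      simp [he, hl]
    · intro h
      exact absurd (Finset.mem_univ _) h
  have heb : e ∉ box (d := d) m := by
    unfold box
    rw [Finset.mem_Icc]
    intro h
    have := h.2 (0 : Fin d)
    simp only [he, hc, Pi.add_apply, Pi.single_eq_same] at this
    omega
  have h1 : 0 < etaV w (box (d := d) m) c := by
    unfold etaV
    have h2 : (if e ∈ box (d := d) m then 0 else w) ≤
        ∑ j ∈ nb c, (if j ∈ box (d := d) m then 0 else w) :=
      Finset.single_le_sum (f := fun j => if j ∈ box (d := d) m then (0 : ℝ) else w)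
        (fun j _ => by
          split_ifs
          · exact le_rfl
          · exact hw.le) (mem_nb.2 hadj)
    rw [if_neg heb] at h2
    linarith
  exact lt_of_lt_of_le h1 (Finset.single_le_sum (f := fun j => etaV w (box (d := d) m) j)
    (fun j _ => etaV_nonneg hw.le _ j) hcb)

theorem RF.sq_fin [NeZero d] (hw : 0 < w) (h : RF w μ) (m : ℕ) :
    ∫⁻ β, ENNReal.ofReal (psiV w (box m) β 0 ^ 2) ∂μ < ∞ := by
  have hprob := (h.vr ∅).prob
  have h0 : (0 : Zd d) ∈ box (d := d) m := by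
    unfold box
    rw [Finset.mem_Icc]
    refine ⟨fun k => ?_, fun k => ?_⟩
    · simp
    · simp
  rw [RF.sq_formula hw h h0]
  have h1 := remove_chain (wt_Wd hw.le) (etaV_nonneg hw.le (box (d := d) m)) (h.vr (box m)) hw
    (grow_box hw m) (Finset.Subset.refl _)
  rw [add_comm] at h1
  refine lt_of_le_of_lt h1 ?_
  refine ENNReal.mul_lt_top ENNReal.ofReal_lt_top ?_
  have h2 := zfin_corner (d := d) hw m
  simp only [zfin_hB_self, lintegral_const, measure_univ, mul_one]
  refine ENNReal.add_lt_top.2 ⟨?_, ENNReal.one_lt_top⟩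
  rw [ENNReal.inv_lt_top]
  exact ENNReal.ofReal_pos.2 h2

end VJ26
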