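import Pool.Agent.VJ26.GLe
import Pool.Agent.VJ26.ProcB
import Pool.Agent.VJ26.ZFin

/-!
# [VJ-LINK] Transience implies `SmallH`

`link_bound`: `IsVRJP.proc_bound` with `g = gfun (Wd w) V 0 (etaV w V) z μ`; the law
`VR μ (V.erase 0) (Wd w) (etaV w V + Wd w 0)` is the marginal (`VR.marg` with
`V = insert 0 (V.erase 0)`); `g_step`, `g_root` (`T = z - L_0`), `g_bdry`, `g_le_one`, `g_init`,
`measurable_gfun`; `rate = w ∑_{nb}` by `etaV_eq_rate`; `hB_zero`.
`smallH`: `tau_small` and `x = z - 1`.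
-/

open MeasureTheory Real
open scoped ENNReal

namespace VJ26

variable {d : ℕ} {w : ℝ} {Ω : Type*} [MeasurableSpace Ω] {P : Measure Ω}
  {X : ℕ → Ω → Zd d} {T : ℕ → Ω → ℝ} {μ : Measure (Zd d → ℝ)}

theorem link_bound (hw : 0 < w) (h : RF w μ) (hX : IsVRJP w P X T) (htr : IsTransient P X)
    {V : Finset (Zd d)} (h0 : 0 ∈ V) {z : ℝ} (hz : 1 < z) :
    ∫⁻ β, ENNReal.ofReal (exp (-((z - 1) * hB (Wd w) V {0} (etaV w V) β))) ∂μ ≤
      P {ω | ∃ n, z ≤ locT (X · ω) (T · ω) n 0} := by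
  have hWt := wt_Wd (d := d) hw.le
  have hη := etaV_nonneg (d := d) hw.le V
  have hprob := (h.vr V).prob
  have hlaw : VR μ (V.erase 0) (Wd w) (etaV w V + Wd w 0) := by
    apply VR.marg hWt (Finset.notMem_erase 0 V)
    rw [Finset.insert_erase h0]
    exact h.vr V
  have hb := hX.proc_bound hw htr h0 hz (g := gfun (Wd w) V 0 (etaV w V) z μ)
    (fun i => measurable_gfun inferInstance i)
    (fun i hi L hL hLo => g_le_one hWt hη h0 hlaw hz.le hL hLo hi)
    (fun L hL hLo => g_bdry hWt hη h0 hlaw hz.le hL hLo)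
    (fun i hi hi0 L hL hL1 => by
      have hr : rate (Wd w) V (etaV w V) i L = w * ∑ k ∈ nb i, L k := etaV_eq_rate hL1
      have := g_step hWt hη h0 hlaw hz.le hL hi hi0
      rw [hr] at this
      exact this)
    (fun L hL hL1 hLz => by
      have hr : rate (Wd w) V (etaV w V) 0 L = w * ∑ k ∈ nb 0, L k := etaV_eq_rate hL1
      have := g_root hWt hη h0 hlaw hz.le hL (T := z - L 0) (by linarith)
      rw [hr, add_sub_cancel] at this
      exact this)
  rw [g_init h0] at hb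
  refine le_trans (le_of_eq ?_) hb
  refine lintegral_congr fun β => ?_
  rw [hB_zero h0]

theorem smallH (hw : 0 < w) (h : RF w μ) (hX : IsVRJP w P X T) (htr : IsTransient P X) :
    SmallH w μ := by
  intro ε hε
  obtain ⟨z, hz, hzε⟩ := hX.tau_small hw htr hε
  refine ⟨z - 1, by linarith, fun V h0 => ?_⟩
  exact (link_bound hw h hX htr h0 hz).trans hzε

end VJ26
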