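import Pool.Agent.VJ26.ZMain
import Pool.Agent.VJ26.Link

/-!
# [VJ-FINAL] The final theorem

`rf_of_laplace`: the law `μ = P.map (fun ω i => β i ω)` satisfies `RF w μ`: for `L ≥ 1` put
`l_i = L_i^2 - 1` (`sqrt (1 + l_i) = L_i`, `sqrt ((1+l_i)(1+l_j)) = L_i L_j`).
`vrjp_L2`: `smallH` and `RF.main_bound'`.
-/

open MeasureTheory Real
open scoped ENNReal

namespace VJ26

variable {d : ℕ} {w : ℝ}

/-- The random potential of the problem: a positive random field whose finite-dimensional
Laplace transforms are given by the formula of the problem (the sum over edges inside `U` is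
written as one half of the sum over ordered pairs). -/
structure IsPotential (w : ℝ) {Ω : Type*} [MeasurableSpace Ω] (P : Measure Ω)
    (β : Zd d → Ω → ℝ) : Prop where
  prob : IsProbabilityMeasure P
  meas : ∀ i, Measurable (β i)
  pos : ∀ i, ∀ᵐ ω ∂P, 0 < β i ω
  lap : ∀ (U : Finset (Zd d)) (l : Zd d → ℝ), (∀ i, 0 ≤ l i) →
    ∫ ω, exp (-∑ i ∈ U, l i * β i ω) ∂P =
      exp (-((1 / 2) * ∑ i ∈ U, ∑ j ∈ U,
            if Adj i j then w * (Real.sqrt ((1 + l i) * (1 + l j)) - 1) else 0)
          - ∑ i ∈ U, ∑ j ∈ nb i, if j ∈ U then 0 else w * (Real.sqrt (1 + l i) - 1)) *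
        ∏ i ∈ U, (Real.sqrt (1 + l i))⁻¹

theorem rf_of_laplace (hw : 0 < w) {Ω : Type*} [MeasurableSpace Ω] {P : Measure Ω}
    {β : Zd d → Ω → ℝ} (h : IsPotential w P β) :
    RF w (P.map (fun ω i => β i ω)) := by
  classical
  have hP := h.prob
  have hm : Measurable (fun ω i => β i ω) := measurable_pi_lambda _ h.meas
  refine ⟨fun U => ⟨Measure.isProbabilityMeasure_map hm.aemeasurable, fun i _ => ?_,
    fun L hL => ?_⟩⟩
  · have hs : MeasurableSet {b : Zd d → ℝ | 0 < b i} :=
      measurableSet_lt measurable_const (measurable_pi_apply i)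
    rw [ae_map_iff hm.aemeasurable hs]
    exact h.pos i
  · have hL0 : ∀ i, 0 ≤ L i := fun i => le_trans zero_le_one (hL i)
    have hl0 : ∀ i, 0 ≤ L i ^ 2 - 1 := fun i => by nlinarith [hL i]
    have hF : Measurable fun b : Zd d → ℝ =>
        ENNReal.ofReal (exp (-∑ i ∈ U, ((L i) ^ 2 - 1) * b i)) := by
      refine ENNReal.measurable_ofReal.comp (measurable_exp.comp (Measurable.neg ?_))
      exact Finset.measurable_sum _ fun i _ => (measurable_pi_apply i).const_mul _
    rw [lintegral_map hF hm]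
    have hmeas : Measurable fun ω => exp (-∑ i ∈ U, ((L i) ^ 2 - 1) * β i ω) := by
      refine measurable_exp.comp (Measurable.neg ?_)
      exact Finset.measurable_sum _ fun i _ => (h.meas i).const_mul _
    have hae : ∀ᵐ ω ∂P, ∀ i ∈ U, 0 < β i ω := by
      rw [Filter.eventually_all_finset]
      exact fun i _ => h.pos i
    have hint : Integrable (fun ω => exp (-∑ i ∈ U, ((L i) ^ 2 - 1) * β i ω)) P := by
      refine Integrable.mono' (integrable_const (1 : ℝ)) hmeas.aestronglyMeasurable ?_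
      filter_upwards [hae] with ω hω
      rw [Real.norm_eq_abs, abs_of_pos (exp_pos _)]
      refine exp_le_one_iff.2 (neg_nonpos.2 (Finset.sum_nonneg fun i hi => ?_))
      exact mul_nonneg (hl0 i) (hω i hi).le
    rw [← ofReal_integral_eq_lintegral_ofReal hint
      (Filter.Eventually.of_forall fun ω => (exp_pos _).le)]
    congr 1
    rw [h.lap U (fun i => L i ^ 2 - 1) hl0, Lam]
    have hs1 : ∀ i, Real.sqrt (1 + (L i ^ 2 - 1)) = L i := fun i => by
      rw [add_sub_cancel, Real.sqrt_sq (hL0 i)]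
    have hs2 : ∀ i j, Real.sqrt ((1 + (L i ^ 2 - 1)) * (1 + (L j ^ 2 - 1))) = L i * L j := by
      intro i j
      rw [add_sub_cancel, add_sub_cancel, ← mul_pow, Real.sqrt_sq (mul_nonneg (hL0 i) (hL0 j))]
    simp only [hs1, hs2]
    congr 2
    congr 1
    · rw [neg_mul]
      congr 2
      refine Finset.sum_congr rfl fun i _ => Finset.sum_congr rfl fun j _ => ?_
      unfold Wd
      split_ifs <;> ring
    · refine Finset.sum_congr rfl fun i _ => ?_
      rw [etaV, Finset.sum_mul]
      refine Finset.sum_congr rfl fun j _ => ?_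
      split_ifs <;> ring

theorem vrjp_L2 (hd : 1 ≤ d) (hw : 0 < w)
    {Ω' : Type*} [MeasurableSpace Ω'] {P' : Measure Ω'} {X : ℕ → Ω' → Zd d}
    {T : ℕ → Ω' → ℝ} (hX : IsVRJP w P' X T) (htr : IsTransient P' X)
    {Ω : Type*} [MeasurableSpace Ω] {P : Measure Ω} {β : Zd d → Ω → ℝ}
    (hβ : IsPotential w P β) :
    ∃ C : ℝ, ∀ (V : Finset (Zd d)) (i : Zd d), i ∈ V →
      Integrable (fun ω => psiV w V (fun j => β j ω) i ^ 2) P ∧
        ∫ ω, psiV w V (fun j => β j ω) i ^ 2 ∂P ≤ C := by
  have : NeZero d := ⟨by omega⟩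
  have hRF := rf_of_laplace hw hβ
  obtain ⟨C, hC⟩ := hRF.main_bound' hw (smallH hw hRF hX htr)
  have hm : Measurable (fun ω i => β i ω) := measurable_pi_lambda _ hβ.meas
  refine ⟨max C 0, fun V i hi => ?_⟩
  have hmeas : Measurable (fun ω => psiV w V (fun j => β j ω) i ^ 2) :=
    ((measurable_psiV w V i).comp hm).pow_const 2
  have hle : ∫⁻ ω, ENNReal.ofReal (psiV w V (fun j => β j ω) i ^ 2) ∂P ≤
      ENNReal.ofReal C := by
    have := hC V i hi
    rwa [lintegral_map ((measurable_psiV w V i).pow_const 2).ennreal_ofReal hm] at this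
  have hint : Integrable (fun ω => psiV w V (fun j => β j ω) i ^ 2) P := by
    refine ⟨hmeas.aestronglyMeasurable, ?_⟩
    rw [hasFiniteIntegral_iff_ofReal (Filter.Eventually.of_forall fun ω => by positivity)]
    exact hle.trans_lt ENNReal.ofReal_lt_top
  refine ⟨hint, ?_⟩
  rw [integral_eq_lintegral_of_nonneg_ae (Filter.Eventually.of_forall fun ω => by positivity)
    hmeas.aestronglyMeasurable]
  calc _ ≤ (ENNReal.ofReal C).toReal := ENNReal.toReal_mono ENNReal.ofReal_ne_top hle
    _ = max C 0 := ENNReal.toReal_ofReal' ..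

end VJ26
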