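import Pool.Agent.VJ26.Exist

/-!
# [VJ-RN] Changing the killing: Radon-Nikodym derivative

`exp(-⟨y,Gy⟩/2 - ⟨y,Gθ⟩ + ∑_U y) • μ` is the law with killing `θ + y`.
PROOF. Laplace functional at `L ≥ 1`: by `VR.tilt` with `F = exp(-⟨Ly,G'Ly⟩/2 - ⟨Ly,G'Lθ⟩)`
(`bil_scale`), `∫ exp(-∑(L^2-1)β) exp(-⟨y,Gy⟩/2-⟨y,Gθ⟩) dμ = Lam(U,W,θ,L) exp(-∑ L_i y_i)` by (P4)
for the tilted law and the vector `L y`; times `exp(∑ y_i)` this is `Lam(U,W,θ+y,L)`.
(`L = 1` gives total mass one.) Positivity: absolutely continuous.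
-/

open MeasureTheory Real
open scoped ENNReal

namespace VJ26

variable {α : Type*} [DecidableEq α]
variable {W : α → α → ℝ} {U : Finset α} {θ y : α → ℝ} {μ μ' : Measure (α → ℝ)} {m : α}

/-- the density -/
noncomputable def rnd (W : α → α → ℝ) (U : Finset α) (θ y β : α → ℝ) : ℝ :=
  exp (-(1 / 2 * bil W U β y y) - bil W U β y θ + ∑ i ∈ U, y i)

theorem rn_Lam (L : α → ℝ) (hL : ∀ i, 1 ≤ L i) :
    exp (∑ i ∈ U, y i) * (Lam U W θ L * exp (-∑ i ∈ U, L i * y i)) = Lam U W (θ + y) L := by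
  unfold Lam
  have h : ∑ i ∈ U, (θ + y) i * (L i - 1) =
      ∑ i ∈ U, θ i * (L i - 1) + ∑ i ∈ U, L i * y i - ∑ i ∈ U, y i := by
    rw [← Finset.sum_add_distrib, ← Finset.sum_sub_distrib]
    exact Finset.sum_congr rfl fun i _ => by rw [Pi.add_apply]; ring
  rw [h]
  have h2 : -(1 / 2) * ∑ i ∈ U, ∑ j ∈ U, W i j * (L i * L j - 1) -
      (∑ i ∈ U, θ i * (L i - 1) + ∑ i ∈ U, L i * y i - ∑ i ∈ U, y i) =
      ∑ i ∈ U, y i + ((-(1 / 2) * ∑ i ∈ U, ∑ j ∈ U, W i j * (L i * L j - 1) -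
      ∑ i ∈ U, θ i * (L i - 1)) + -∑ i ∈ U, L i * y i) := by ring
  rw [h2, Real.exp_add, Real.exp_add]
  ring

theorem rn_measurable_rnd (W : α → α → ℝ) (U : Finset α) (θ y : α → ℝ) :
    Measurable (fun β : α → ℝ => ENNReal.ofReal (rnd W U θ y β)) := by
  unfold rnd
  refine Measurable.ennreal_ofReal (Real.measurable_exp.comp ?_)
  exact ((((measurable_bil W U y y).const_mul _).neg.sub (measurable_bil W U y θ)).add_const _)

theorem rn_lap (hW : Wt W) (hθ : ∀ i, 0 ≤ θ i) (hy : ∀ i, 0 ≤ y i) (h : VR μ U W θ)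
    (L : α → ℝ) (hL : ∀ i, 1 ≤ L i) :
    ∫⁻ β, ENNReal.ofReal (rnd W U θ y β) *
      ENNReal.ofReal (exp (-∑ i ∈ U, ((L i) ^ 2 - 1) * β i)) ∂μ =
      ENNReal.ofReal (Lam U W (θ + y) L) := by
  obtain ⟨μL, hμL, hF⟩ := h.tilt hL
  have hL0 : ∀ i, 0 < L i := fun i => lt_of_lt_of_le one_pos (hL i)
  set F : (α → ℝ) → ℝ≥0∞ := fun β =>
    ENNReal.ofReal (exp (-(1 / 2 * bil (WL W L) U β (fun i => L i * y i) (fun i => L i * y i)) -
      bil (WL W L) U β (fun i => L i * y i) (fun i => L i * θ i))) with hFdef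
  have hFm : Measurable F := by
    refine Measurable.ennreal_ofReal (Real.measurable_exp.comp ?_)
    exact (((measurable_bil _ U _ _).const_mul _).neg.sub (measurable_bil _ U _ _))
  have hFd : DependsOn F (U : Set α) := by
    intro β β' hβ
    have h1 := dependsOn_bil (WL W L) U (fun i => L i * y i) (fun i => L i * y i) hβ
    have h2 := dependsOn_bil (WL W L) U (fun i => L i * y i) (fun i => L i * θ i) hβ
    simp only [hFdef]
    simp only at h1 h2
    rw [h1, h2]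
  have h1 := hF F hFm hFd
  have h2 := VR.p4 (y := fun i => L i * y i) (hW.WL hL0)
    (fun i => mul_nonneg (hL0 i).le (hθ i)) hμL
    (fun i => mul_nonneg (hL0 i).le (hy i))
  have hgood := h.good hW hθ
  have h3 : ∫⁻ β, ENNReal.ofReal (rnd W U θ y β) *
      ENNReal.ofReal (exp (-∑ i ∈ U, ((L i) ^ 2 - 1) * β i)) ∂μ =
      ∫⁻ β, ENNReal.ofReal (exp (∑ i ∈ U, y i)) *
        (ENNReal.ofReal (exp (-∑ i ∈ U, ((L i) ^ 2 - 1) * β i)) *
            F (fun i => L i ^ 2 * β i)) ∂μ := by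
    refine lintegral_congr_ae ?_
    filter_upwards [hgood] with β hβ
    simp only [hFdef, rnd]
    rw [← bil_scale hL0 hβ, ← bil_scale hL0 hβ, Real.exp_add,
      ENNReal.ofReal_mul (exp_pos _).le]
    ring
  have hm1 : Measurable (fun β : α → ℝ =>
      ENNReal.ofReal (exp (-∑ i ∈ U, ((L i) ^ 2 - 1) * β i)) * F (fun i => L i ^ 2 * β i)) := by
    refine Measurable.mul (Measurable.ennreal_ofReal (Real.measurable_exp.comp
      (Measurable.neg ?_))) (hFm.comp ?_)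
    · exact Finset.measurable_sum _ fun i _ => (measurable_pi_apply i).const_mul _
    · rw [measurable_pi_iff]
      intro i
      exact (measurable_pi_apply i).const_mul _
  rw [h3, lintegral_const_mul _ hm1, h1, h2, ← rn_Lam L hL, ENNReal.ofReal_mul (exp_pos _).le,
    ENNReal.ofReal_mul (Lam_pos hL).le]

theorem VR.rn (hW : Wt W) (hθ : ∀ i, 0 ≤ θ i) (hy : ∀ i, 0 ≤ y i) (h : VR μ U W θ) :
    VR (μ.withDensity (fun β => ENNReal.ofReal (rnd W U θ y β))) U W (θ + y) := by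
  have hlap : ∀ L : α → ℝ, (∀ i, 1 ≤ L i) →
      ∫⁻ β, ENNReal.ofReal (exp (-∑ i ∈ U, ((L i) ^ 2 - 1) * β i))
        ∂(μ.withDensity (fun β => ENNReal.ofReal (rnd W U θ y β))) =
      ENNReal.ofReal (Lam U W (θ + y) L) := by
    intro L hL
    have hm : Measurable (fun β : α → ℝ =>
        ENNReal.ofReal (exp (-∑ i ∈ U, ((L i) ^ 2 - 1) * β i))) := by
      refine Measurable.ennreal_ofReal (Real.measurable_exp.comp (Measurable.neg ?_))
      exact Finset.measurable_sum _ fun i _ => (measurable_pi_apply i).const_mul _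
    rw [lintegral_withDensity_eq_lintegral_mul _ (rn_measurable_rnd W U θ y) hm]
    exact rn_lap hW hθ hy h L hL
  refine ⟨⟨?_⟩, ?_, hlap⟩
  · have h1 := hlap (fun _ => 1) (fun _ => le_rfl)
    simp only [one_pow, sub_self, zero_mul, Finset.sum_const_zero, neg_zero, exp_zero,
      ENNReal.ofReal_one, lintegral_const, one_mul] at h1
    rw [h1]
    unfold Lam
    simp
  · intro i hi
    exact (withDensity_absolutelyContinuous μ _).ae_le (h.pos i hi)

/-- the form used in applications: any law with killing `θ + y`. -/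
theorem VR.lintegral_rn (hW : Wt W) (hθ : ∀ i, 0 ≤ θ i) (hy : ∀ i, 0 ≤ y i) (h : VR μ U W θ)
    (h' : VR μ' U W (θ + y)) {F : (α → ℝ) → ℝ≥0∞} (hF : Measurable F)
    (hd : DependsOn F (U : Set α)) :
    ∫⁻ β, F β ∂μ' = ∫⁻ β, ENNReal.ofReal (rnd W U θ y β) * F β ∂μ := by
  rw [h'.lintegral_eq (VR.rn hW hθ hy h) hF hd,
    lintegral_withDensity_eq_lintegral_mul _ (rn_measurable_rnd W U θ y) hF]
  rfl

end VJ26
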