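import Pool.Agent.VJ26.GFun
import Pool.Agent.VJ26.RN

/-!
# [VJ-GBDRY] The hitting functional: boundary value and upper bound

This file: `g_bdry`, `g_init`

Notation of `GFun.lean`. For `z = L_o` the exponent is
`∑_U (L_k^2-1)β_k + (z^2-1)ϒ/2 + (z-1) h`. By `VR.tilt` (`L' = L` on `U`, `1` off `U`, or directly
`L`; only `L` on `U` matters) and `bil_scale`: with `G' = gr (WL W L) U (L^2 β)`, `w = L W_o`
(vector `k ↦ L_k W_ok`), `ϒ = ⟨w, G' w⟩`, `h = η_o + ⟨w, G' (Lη)⟩`, tilted killing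
`θ' = L (η + W_o)`, and `y = (z-1) w`:
 `⟨y,G'y⟩/2 + ⟨y,G'θ'⟩ = (z^2-1)ϒ/2 + (z-1)(h - η_o)`.
(P4) for the tilted law (`VR.p4`): `∫ exp(-E) dμ = Lam(U,W,η+W_o,L) e^{-(z-1)η_o} e^{-(z-1)∑_U w_k}`
and `pref o L` is exactly the inverse of this number when `L_o = z`:
`g_bdry : gfun o L = 1`.

`g_init`: `L = 1`: `pref o 1 = 1`, `E = (z-1) h`, `φ_o = 1`.
-/

open MeasureTheory Real
open scoped ENNReal

namespace VJ26

variable {α : Type*} [DecidableEq α]
variable {W : α → α → ℝ} {U V : Finset α} {θ y η L : α → ℝ} {μ : Measure (α → ℝ)} {o i j : α}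
  {z T : ℝ}

/-- The functional integrated against the tilted law. -/
noncomputable def gbF (W : α → α → ℝ) (U : Finset α) (θ y : α → ℝ) (β : α → ℝ) : ℝ≥0∞ :=
  ENNReal.ofReal (exp (-(1 / 2 * bil W U β y y) - bil W U β y θ))

theorem measurable_gbF (W : α → α → ℝ) (U : Finset α) (θ y : α → ℝ) :
    Measurable (gbF W U θ y) := by
  unfold gbF
  have h1 := measurable_bil W U y y
  have h2 := measurable_bil W U y θ
  fun_prop

theorem dependsOn_gbF (W : α → α → ℝ) (U : Finset α) (θ y : α → ℝ) :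
    DependsOn (gbF W U θ y) (U : Set α) := by
  intro β β' h
  have h1 : bil W U β y y = bil W U β' y y := dependsOn_bil W U y y h
  have h2 : bil W U β y θ = bil W U β' y θ := dependsOn_bil W U y θ h
  unfold gbF
  rw [h1, h2]

/-- The value of the functional at the rescaled potential. -/
theorem gbF_scale {β : α → ℝ} (hL : ∀ i, 0 < L i) (hG : Good W U β) (x : α → ℝ) (z : ℝ) :
    gbF (WL W L) U (fun i => L i * (η + x) i) (fun i => L i * ((z - 1) * x i))
      (fun i => L i ^ 2 * β i) =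
      ENNReal.ofReal (exp (-((z ^ 2 - 1) * bil W U β x x / 2) - (z - 1) * bil W U β x η)) := by
  unfold gbF
  rw [← bil_scale hL hG (fun i => (z - 1) * x i) (fun i => (z - 1) * x i),
    ← bil_scale hL hG (fun i => (z - 1) * x i) (η + x), bil_smul_left, bil_smul_right,
    bil_smul_left, bil_add_right]
  congr 2
  ring

/-- The double sum over `V` in terms of `U = V.erase o`. -/
theorem sum_erase_split (hW : Wt W) (ho : o ∈ V) (L : α → ℝ) :
    ∑ k ∈ V, ∑ l ∈ V, W k l * (L k * L l - 1) =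
      ∑ k ∈ V.erase o, ∑ l ∈ V.erase o, W k l * (L k * L l - 1) +
        2 * ∑ k ∈ V.erase o, W o k * (L o * L k - 1) := by
  have h1 : ∀ k, ∑ l ∈ V, W k l * (L k * L l - 1) =
      W k o * (L k * L o - 1) + ∑ l ∈ V.erase o, W k l * (L k * L l - 1) := fun k =>
    (Finset.add_sum_erase V (fun l => W k l * (L k * L l - 1)) ho).symm
  have h2 : ∑ k ∈ V, ∑ l ∈ V, W k l * (L k * L l - 1) =
      (∑ l ∈ V, W o l * (L o * L l - 1)) +
        ∑ k ∈ V.erase o, ∑ l ∈ V, W k l * (L k * L l - 1) :=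
    (Finset.add_sum_erase V (fun k => ∑ l ∈ V, W k l * (L k * L l - 1)) ho).symm
  rw [h2, h1 o, hW.diag o, zero_mul, zero_add,
    Finset.sum_congr rfl (fun k _ => h1 k), Finset.sum_add_distrib]
  have h3 : ∑ k ∈ V.erase o, W k o * (L k * L o - 1) =
      ∑ k ∈ V.erase o, W o k * (L o * L k - 1) := by
    refine Finset.sum_congr rfl fun k _ => ?_
    rw [hW.symm k o]
    ring
  rw [h3]
  ring

/-- The product of the prefactor and the Laplace functional. -/
theorem pref_mul_Lam (hW : Wt W) (ho : o ∈ V) (hL : ∀ i, 1 ≤ L i) (hLo : L o = z) :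
    pref W V η o L * (exp (-((z - 1) * η o)) * (Lam (V.erase o) W (η + W o) L *
      exp (-∑ i ∈ V.erase o, L i * ((z - 1) * W o i)))) = 1 := by
  unfold pref Lam
  have hpos : ∀ i, L i ≠ 0 := fun i => (lt_of_lt_of_le zero_lt_one (hL i)).ne'
  have hprod : (∏ k ∈ V.erase o, L k) * ∏ k ∈ V.erase o, (L k)⁻¹ = 1 := by
    rw [← Finset.prod_mul_distrib]
    exact Finset.prod_eq_one fun k _ => mul_inv_cancel₀ (hpos k)
  have hη : ∑ k ∈ V, η k * (L k - 1) =
      η o * (z - 1) + ∑ k ∈ V.erase o, η k * (L k - 1) := by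
    rw [← hLo]
    exact (Finset.add_sum_erase V (fun k => η k * (L k - 1)) ho).symm
  have hexp : (1 / 2) * ∑ k ∈ V, ∑ l ∈ V, W k l * (L k * L l - 1) + ∑ k ∈ V, η k * (L k - 1) +
      (-((z - 1) * η o) + ((-(1 / 2) * ∑ i ∈ V.erase o, ∑ j ∈ V.erase o, W i j * (L i * L j - 1) -
        ∑ i ∈ V.erase o, (η + W o) i * (L i - 1)) +
      (-∑ i ∈ V.erase o, L i * ((z - 1) * W o i)))) = 0 := by
    rw [sum_erase_split hW ho, hη, hLo]
    have h1 : ∑ i ∈ V.erase o, (η + W o) i * (L i - 1) =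
        ∑ i ∈ V.erase o, η i * (L i - 1) + ∑ i ∈ V.erase o, W o i * (L i - 1) := by
      rw [← Finset.sum_add_distrib]
      refine Finset.sum_congr rfl fun i _ => ?_
      rw [Pi.add_apply]
      ring
    have h2 : ∑ k ∈ V.erase o, W o k * (z * L k - 1) =
        ∑ i ∈ V.erase o, W o i * (L i - 1) + ∑ i ∈ V.erase o, L i * ((z - 1) * W o i) := by
      rw [← Finset.sum_add_distrib]
      refine Finset.sum_congr rfl fun i _ => ?_
      ring
    rw [h1, h2]
    ring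
  calc _ = ((∏ k ∈ V.erase o, L k) * ∏ k ∈ V.erase o, (L k)⁻¹) *
        (exp ((1 / 2) * ∑ k ∈ V, ∑ l ∈ V, W k l * (L k * L l - 1) + ∑ k ∈ V, η k * (L k - 1)) *
        (exp (-((z - 1) * η o)) * (exp (-(1 / 2) * ∑ i ∈ V.erase o, ∑ j ∈ V.erase o,
          W i j * (L i * L j - 1) - ∑ i ∈ V.erase o, (η + W o) i * (L i - 1)) *
        exp (-∑ i ∈ V.erase o, L i * ((z - 1) * W o i))))) := by ring
    _ = 1 := by
      rw [hprod, one_mul, ← exp_add, ← exp_add, ← exp_add, hexp, exp_zero]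

theorem g_bdry (hW : Wt W) (hη : ∀ i, 0 ≤ η i) (ho : o ∈ V)
    (h : VR μ (V.erase o) W (η + W o)) (hz : 1 ≤ z) (hL : ∀ i, 1 ≤ L i) (hLo : L o = z) :
    gfun W V o η z μ o L = 1 := by
  have hL0 : ∀ i, 0 < L i := fun i => lt_of_lt_of_le zero_lt_one (hL i)
  have hθ : ∀ i, 0 ≤ (η + W o) i := fun i => add_nonneg (hη i) (hW.nonneg o i)
  have hθ' : ∀ i, 0 ≤ L i * (η + W o) i := fun i => mul_nonneg (hL0 i).le (hθ i)
  have hy : ∀ i, 0 ≤ L i * ((z - 1) * W o i) := fun i =>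
    mul_nonneg (hL0 i).le (mul_nonneg (sub_nonneg.2 hz) (hW.nonneg o i))
  obtain ⟨μL, hμL, hF⟩ := h.tilt hL
  have h1 : ∫⁻ β, gbF (WL W L) (V.erase o) (fun i => L i * (η + W o) i)
      (fun i => L i * ((z - 1) * W o i)) β ∂μL =
      ENNReal.ofReal (exp (-∑ i ∈ V.erase o, L i * ((z - 1) * W o i))) :=
    VR.p4 (hW.WL hL0) hθ' hμL hy
  have h2 := hF (gbF (WL W L) (V.erase o) (fun i => L i * (η + W o) i)
      (fun i => L i * ((z - 1) * W o i))) (measurable_gbF _ _ _ _) (dependsOn_gbF _ _ _ _)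
  rw [h1, ← ENNReal.ofReal_mul (Lam_pos hL).le] at h2
  have h3 : ∫⁻ β, ENNReal.ofReal (exp (-gE W V o η z L β) * kap W (V.erase o) β o o) ∂μ =
      ENNReal.ofReal (exp (-((z - 1) * η o))) *
        ∫⁻ β, ENNReal.ofReal (exp (-∑ i ∈ V.erase o, ((L i) ^ 2 - 1) * β i)) *
          gbF (WL W L) (V.erase o) (fun i => L i * (η + W o) i)
            (fun i => L i * ((z - 1) * W o i)) (fun i => L i ^ 2 * β i) ∂μ := by
    rw [← lintegral_const_mul' _ _ ENNReal.ofReal_ne_top]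
    refine lintegral_congr_ae ?_
    filter_upwards [VR.good hW hθ h] with β hG
    rw [gbF_scale hL0 hG, ← ENNReal.ofReal_mul (exp_pos _).le,
      ← ENNReal.ofReal_mul (exp_pos _).le, ← exp_add, ← exp_add]
    congr 1
    unfold kap gE sfn
    rw [if_pos rfl, mul_one, hLo]
    congr 1
    ring
  unfold gfun
  rw [h3, h2, ← ENNReal.ofReal_mul (exp_pos _).le, ← ENNReal.ofReal_mul
    (pref_pos hL o).le, pref_mul_Lam hW ho hL hLo, ENNReal.ofReal_one]

theorem g_init (ho : o ∈ V) :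
    gfun W V o η z μ o (fun _ => 1) =
      ∫⁻ β, ENNReal.ofReal (exp (-((z - 1) * sfn W (V.erase o) η o β))) ∂μ := by
  unfold gfun
  have h1 : pref W V η o (fun _ => 1) = 1 := by
    unfold pref
    simp
  rw [h1, ENNReal.ofReal_one, one_mul]
  refine lintegral_congr fun β => ?_
  unfold gE kap
  rw [if_pos rfl, mul_one]
  simp

end VJ26
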