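import Pool.Agent.VJ26.Exist

/-!
# [VJ-GFUN] The hitting functional: definitions and algebra

This file: `measurable_gfun`, `pref_update_self`, `pref_update_other`, `sum_W_kap`, `sum_W_kap_root`, `pref_pos`

`V ∋ o` finite, `U = V.erase o`, `η ≥ 0`, `VR μ U W (η + W o)`, `z ≥ 1`. With
`φ_i = kap W U β o i` (`φ_o = 1`, `φ = G_U W_o` on `U`), `ϒ = bil W U β (W o) (W o)`,
`h = sfn W U η o β = η_o + ⟨W_o, G_U η⟩`,
 `E(L,β) = ∑_{k∈U} (L_k^2-1) β_k + (L_o^2-1) ϒ/2 + (z-1) h`,
 `pref i L = (∏_{k∈V\{i}} L_k) exp( (1/2)∑_{k,l∈V} W_kl (L_k L_l - 1) + ∑_V η_k (L_k - 1) )`,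
 `gfun i L = pref i L * ∫ exp(-E(L,β)) φ_i dμ`.
It is the probability that the VRJP started at `i` with local times `L` reaches local time `z`
at `o` before it leaves `V`.

Let `L' = update L i (L i + t)`, `r = rate i L = ∑_{j∈V} W_ij L_j + η_i` (no dependence on
`L_i`). Then
 (a) `pref i L' * exp(-r t) = pref i L`;
 (b) `pref j L' * exp(-r t) * L_j = pref i L * (L_i + t)` for `j ∈ V`, `j ≠ i`
     (and the factor `W i j` vanishes for `j = i`);
 (c) `∑_{j∈V} W_ij φ_j = 2 β_i φ_i` for `i ∈ U` (`psi_eq`), `= ϒ` for `i = o`.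
`g_step` (`i ≠ o`): for `β_i > 0`, `exp(-L_i^2 β_i) = ∫_0^∞ 2 (L_i+t) β_i exp(-(L_i+t)^2 β_i) dt`,
so `exp(-E(L,β)) φ_i = ∫_0^∞ (L_i + t) exp(-E(L',β)) ∑_j W_ij φ_j dt`; multiply by `pref i L`,
use (b), Tonelli (`lintegral_lintegral_swap`).
`g_root`: the same with `exp(-L_o^2 ϒ/2) = exp(-(L_o+T)^2 ϒ/2) + ∫_0^T (L_o+t) ϒ exp(-(L_o+t)^2 ϒ/2) dt`
and (a) for the boundary term.
Everything in lintegral form, all terms are nonnegative (a.s. good `β`).
-/

open MeasureTheory Real
open scoped ENNReal

namespace VJ26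

variable {α : Type*} [DecidableEq α]
variable {W : α → α → ℝ} {V : Finset α} {η L : α → ℝ} {μ : Measure (α → ℝ)} {o i j : α}
  {z T : ℝ}

/-- the exponent -/
noncomputable def gE (W : α → α → ℝ) (V : Finset α) (o : α) (η : α → ℝ) (z : ℝ)
    (L β : α → ℝ) : ℝ :=
  ∑ k ∈ V.erase o, ((L k) ^ 2 - 1) * β k +
    ((L o) ^ 2 - 1) * bil W (V.erase o) β (W o) (W o) / 2 + (z - 1) * sfn W (V.erase o) η o β

/-- the prefactor -/
noncomputable def pref (W : α → α → ℝ) (V : Finset α) (η : α → ℝ) (i : α) (L : α → ℝ) : ℝ :=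
  (∏ k ∈ V.erase i, L k) *
    exp ((1 / 2) * ∑ k ∈ V, ∑ l ∈ V, W k l * (L k * L l - 1) + ∑ k ∈ V, η k * (L k - 1))

/-- the total jump rate -/
noncomputable def rate (W : α → α → ℝ) (V : Finset α) (η : α → ℝ) (i : α) (L : α → ℝ) : ℝ :=
  ∑ j ∈ V, W i j * L j + η i

/-- the hitting functional -/
noncomputable def gfun (W : α → α → ℝ) (V : Finset α) (o : α) (η : α → ℝ) (z : ℝ)
    (μ : Measure (α → ℝ)) (i : α) (L : α → ℝ) : ℝ≥0∞ :=
  ENNReal.ofReal (pref W V η i L) *
    ∫⁻ β, ENNReal.ofReal (exp (-gE W V o η z L β) * kap W (V.erase o) β o i) ∂μ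

private theorem gfn_measurable_pref (i : α) : Measurable (pref W V η i) := by
  unfold pref
  apply Measurable.mul
  · exact Finset.measurable_prod _ fun k _ => measurable_pi_apply k
  · apply Real.measurable_exp.comp
    apply Measurable.add
    · apply Measurable.const_mul
      refine Finset.measurable_sum _ fun k _ => Finset.measurable_sum _ fun l _ => ?_
      exact (((measurable_pi_apply k).mul (measurable_pi_apply l)).sub_const 1).const_mul _
    · refine Finset.measurable_sum _ fun k _ => ?_
      exact ((measurable_pi_apply k).sub_const 1).const_mul _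

private theorem gfn_measurable_kap (i : α) : Measurable fun β => kap W (V.erase o) β o i := by
  unfold kap
  split_ifs
  · exact measurable_const
  · exact measurable_psi _ _ _ _

private theorem gfn_measurable_gE :
    Measurable fun p : (α → ℝ) × (α → ℝ) => gE W V o η z p.1 p.2 := by
  unfold gE
  apply Measurable.add
  · apply Measurable.add
    · refine Finset.measurable_sum _ fun k _ => ?_
      exact ((((measurable_pi_apply k).comp measurable_fst).pow_const 2).sub_const 1).mul
        ((measurable_pi_apply k).comp measurable_snd)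
    · apply Measurable.div_const
      exact ((((measurable_pi_apply o).comp measurable_fst).pow_const 2).sub_const 1).mul
        ((measurable_bil W (V.erase o) (W o) (W o)).comp measurable_snd)
  · exact ((measurable_sfn W (V.erase o) η o).comp measurable_snd).const_mul _

theorem measurable_gfun (hμ : SFinite μ) (i : α) : Measurable (gfun W V o η z μ i) := by
  unfold gfun
  apply Measurable.mul
  · exact ENNReal.measurable_ofReal.comp (gfn_measurable_pref i)
  · have h : Measurable fun p : (α → ℝ) × (α → ℝ) =>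
        ENNReal.ofReal (exp (-gE W V o η z p.1 p.2) * kap W (V.erase o) p.2 o i) := by
      apply ENNReal.measurable_ofReal.comp
      exact (Real.measurable_exp.comp gfn_measurable_gE.neg).mul
        ((gfn_measurable_kap i).comp measurable_snd)
    exact h.lintegral_prod_right'

private theorem gfn_expo (hW : Wt W) (hi : i ∈ V) (t : ℝ) :
    (1 / 2) * ∑ k ∈ V, ∑ l ∈ V, W k l *
        (Function.update L i (L i + t) k * Function.update L i (L i + t) l - 1)
      + ∑ k ∈ V, η k * (Function.update L i (L i + t) k - 1) =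
    (1 / 2) * ∑ k ∈ V, ∑ l ∈ V, W k l * (L k * L l - 1) + ∑ k ∈ V, η k * (L k - 1)
      + rate W V η i L * t := by
  have hu : ∀ k, Function.update L i (L i + t) k = L k + (if k = i then t else 0) := by
    intro k
    by_cases h : k = i
    · subst h; simp
    · simp [h]
  simp only [hu]
  have e1 : ∀ k l, W k l * ((L k + if k = i then t else 0) * (L l + if l = i then t else 0) - 1)
      = W k l * (L k * L l - 1) + (if l = i then W k l * L k * t else 0)
        + (if k = i then W k l * L l * t else 0) := by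
    intro k l
    by_cases hk : k = i
    · by_cases hl : l = i
      · subst hk; subst hl
        simp [hW.diag]
      · simp only [hk, hl, if_true, if_false]; ring
    · by_cases hl : l = i
      · simp only [hk, hl, if_true, if_false]; ring
      · simp only [hk, hl, if_false]; ring
  simp only [e1]
  have e2 : ∀ k, η k * (L k + (if k = i then t else 0) - 1) =
      η k * (L k - 1) + (if k = i then η k * t else 0) := by
    intro k
    split_ifs <;> ring
  simp only [e2]
  simp only [Finset.sum_add_distrib]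
  have s1 : ∑ k ∈ V, ∑ l ∈ V, (if l = i then W k l * L k * t else 0) =
      (∑ j ∈ V, W i j * L j) * t := by
    rw [Finset.sum_mul]
    apply Finset.sum_congr rfl
    intro k _
    rw [Finset.sum_ite_eq' V i, if_pos hi, hW.symm k i]
  have s2 : ∑ k ∈ V, ∑ l ∈ V, (if k = i then W k l * L l * t else 0) =
      (∑ j ∈ V, W i j * L j) * t := by
    rw [Finset.sum_comm, Finset.sum_mul]
    apply Finset.sum_congr rfl
    intro l _
    rw [Finset.sum_ite_eq' V i, if_pos hi]
  have s3 : ∑ k ∈ V, (if k = i then η k * t else 0) = η i * t := by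
    rw [Finset.sum_ite_eq' V i, if_pos hi]
  rw [s1, s2, s3, rate]
  ring

/-- (a) -/
theorem pref_update_self (hW : Wt W) (hi : i ∈ V) (t : ℝ) :
    pref W V η i (Function.update L i (L i + t)) * exp (-(rate W V η i L * t)) =
      pref W V η i L := by
  unfold pref
  rw [gfn_expo hW hi, Real.exp_add, Real.exp_neg]
  have hp : ∏ k ∈ V.erase i, Function.update L i (L i + t) k = ∏ k ∈ V.erase i, L k := by
    apply Finset.prod_congr rfl
    intro k hk
    rw [Function.update_of_ne (Finset.ne_of_mem_erase hk)]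
  rw [hp]
  have := (Real.exp_pos (rate W V η i L * t)).ne'
  field_simp

/-- (b) -/
theorem pref_update_other (hW : Wt W) (hi : i ∈ V) (hj : j ∈ V) (hij : j ≠ i) (t : ℝ) :
    pref W V η j (Function.update L i (L i + t)) * exp (-(rate W V η i L * t)) * L j =
      pref W V η i L * (L i + t) := by
  unfold pref
  rw [gfn_expo hW hi, Real.exp_add, Real.exp_neg]
  have hi' : i ∈ V.erase j := Finset.mem_erase.mpr ⟨fun h => hij h.symm, hi⟩
  have hj' : j ∈ V.erase i := Finset.mem_erase.mpr ⟨hij, hj⟩
  have h1 : ∏ k ∈ V.erase j, Function.update L i (L i + t) k =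
      (L i + t) * ∏ k ∈ (V.erase j).erase i, L k := by
    rw [← Finset.mul_prod_erase _ _ hi', Function.update_self]
    congr 1
    apply Finset.prod_congr rfl
    intro k hk
    rw [Function.update_of_ne (Finset.ne_of_mem_erase hk)]
  have h2 : ∏ k ∈ V.erase i, L k = L j * ∏ k ∈ (V.erase j).erase i, L k := by
    rw [← Finset.mul_prod_erase _ _ hj', Finset.erase_right_comm]
  rw [h1, h2]
  have := (Real.exp_pos (rate W V η i L * t)).ne'
  field_simp

/-- (c) -/
theorem sum_W_kap {β : α → ℝ} (hW : Wt W) (hG : Good W (V.erase o) β) (ho : o ∈ V)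
    (hi : i ∈ V.erase o) :
    ∑ j ∈ V, W i j * kap W (V.erase o) β o j = 2 * β i * kap W (V.erase o) β o i := by
  rw [← Finset.add_sum_erase _ _ ho]
  have hio : i ≠ o := Finset.ne_of_mem_erase hi
  have hk : ∀ j ∈ V.erase o, kap W (V.erase o) β o j = ∑ k ∈ V.erase o, gr W (V.erase o) β j k * W o k := by
    intro j hj
    rw [kap, if_neg (Finset.ne_of_mem_erase hj), psi]
  rw [hk i hi, Finset.sum_congr rfl (fun j hj => by rw [hk j hj])]
  rw [show kap W (V.erase o) β o o = 1 by rw [kap, if_pos rfl]]
  have key : ∀ k ∈ V.erase o, 2 * β i * gr W (V.erase o) β i k * W o k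
      - ∑ j ∈ V.erase o, W i j * gr W (V.erase o) β j k * W o k = if i = k then W o k else 0 := by
    intro k hk'
    have := hG.eq i hi k hk'
    rw [← Finset.sum_mul, ← sub_mul, this]
    split_ifs <;> simp
  have hs := Finset.sum_congr rfl key
  rw [Finset.sum_sub_distrib, Finset.sum_ite_eq, if_pos hi, Finset.sum_comm] at hs
  have e1 : ∑ j ∈ V.erase o, W i j * ∑ k ∈ V.erase o, gr W (V.erase o) β j k * W o k =
      ∑ j ∈ V.erase o, ∑ k ∈ V.erase o, W i j * gr W (V.erase o) β j k * W o k := by
    apply Finset.sum_congr rfl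
    intro j _
    rw [Finset.mul_sum]
    apply Finset.sum_congr rfl
    intro k _
    ring
  have e2 : 2 * β i * ∑ k ∈ V.erase o, gr W (V.erase o) β i k * W o k =
      ∑ k ∈ V.erase o, 2 * β i * gr W (V.erase o) β i k * W o k := by
    rw [Finset.mul_sum]
    apply Finset.sum_congr rfl
    intro k _
    ring
  rw [e1, e2, hW.symm i o]
  linarith

/-- (c) at the root -/
theorem sum_W_kap_root {β : α → ℝ} (hW : Wt W) (ho : o ∈ V) :
    ∑ j ∈ V, W o j * kap W (V.erase o) β o j = bil W (V.erase o) β (W o) (W o) := by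
  rw [← Finset.add_sum_erase _ _ ho, hW.diag, zero_mul, zero_add, bil]
  apply Finset.sum_congr rfl
  intro j hj
  rw [kap, if_neg (Finset.ne_of_mem_erase hj), psi, Finset.mul_sum]
  apply Finset.sum_congr rfl
  intro k _
  ring

theorem pref_pos (hL : ∀ k, 1 ≤ L k) (i : α) : 0 < pref W V η i L := by
  unfold pref
  apply mul_pos
  · exact Finset.prod_pos fun k _ => lt_of_lt_of_le one_pos (hL k)
  · exact Real.exp_pos _

end VJ26
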