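import Pool.Agent.VJ26.IGInv

/-!
# [VJ-IG2] The inverse Gaussian integrals, part 2

This file: `ig_swap`, `ig_mean`, `ig_sq`

`ig_swap` (I5): substitute `t = 1/(s^2 u)`: `s t = 1/(s u)`,
`(1-st)^2/(2t) = (1 - s u)^2/(2u)` [indeed `(1-1/(su))^2 s^2 u/2 = (su-1)^2/(2u)`],
`(2π t^3)^(-1/2) dt = (2π)^(-1/2) (s^2 u)^(3/2) (s^2 u^2)^(-1) du = (2πu^3)^(-1/2) (s u) du`.
So `∫ ig(s,t) F(s t) dt = ∫ ig(s,u) (s u) F(1/(s u)) du`. Use
`lintegral_image_eq_lintegral_abs_deriv_mul` for the injective map `u ↦ 1/(s^2 u)` of `Ioi 0`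
onto `Ioi 0` (derivative `-1/(s^2 u^2)`).

`ig_mean` (I3): (I5) with `F = 1`.

`ig_inv_mean` (I4): for `L > 1`, by (I2),
`∫ ig(s,t) (1 - exp(-(L^2-1)/(2t)))/(L^2-1) dt = (1 - L⁻¹ exp(-s(L-1)))/(L^2-1)`. As `L ↓ 1`
the integrand increases to `ig(s,t)/(2t)` (`(1-e^{-cx})/c` is antitone in `c`), the right side
tends to `(1+s)/2`. Monotone convergence (or Fatou + the bound `(1-e^{-cx})/c ≤ x`). Another way:
integrate the derivative of `t^(-1/2) exp(-1/(2t) - s^2 t/2)`.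

`ig_sq` (I6): (I5) with `F(y) = 1/y` (for `y > 0`): `∫ ig (st)^2 = ∫ ig/(st) = (1/s)(s+1)`.
-/

open MeasureTheory Real
open scoped ENNReal

namespace VJ26

/-- (I5) -/
theorem ig_swap {s : ℝ} (hs : 0 < s) (F : ℝ → ℝ≥0∞) (hF : Measurable F) :
    ∫⁻ t in Set.Ioi (0 : ℝ), ENNReal.ofReal (ig s t) * F (s * t) =
      ∫⁻ t in Set.Ioi (0 : ℝ), ENNReal.ofReal (ig s t * (s * t)) * F (1 / (s * t)) := by
  have _ := hF
  set w : ℝ → ℝ := fun u => (s ^ 2 * u)⁻¹ with hw
  have hder : ∀ x ∈ Set.Ioi (0 : ℝ), HasDerivWithinAt w (-(1 / (s ^ 2 * x ^ 2))) (Set.Ioi 0) x := by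
    intro x hx
    have hx0 : x ≠ 0 := ne_of_gt hx
    have h1 : HasDerivAt (fun x : ℝ => s ^ 2 * x) (s ^ 2) x := by
      simpa using (hasDerivAt_id x).const_mul (s ^ 2)
    have h2 := h1.inv (mul_ne_zero (pow_ne_zero 2 hs.ne') hx0)
    refine (h2.congr_deriv ?_).hasDerivWithinAt
    field_simp
  have hinj : Set.InjOn w (Set.Ioi 0) := by
    intro x _ y _ hxy
    simp only [hw] at hxy
    exact mul_left_cancel₀ (pow_ne_zero 2 hs.ne') (inv_injective hxy)
  have himg : w '' Set.Ioi 0 = Set.Ioi 0 := by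
    ext y
    constructor
    · rintro ⟨x, hx, rfl⟩
      have hx' : 0 < x := hx
      simp only [hw, Set.mem_Ioi]
      positivity
    · intro hy
      have hy' : 0 < y := hy
      refine ⟨(s ^ 2 * y)⁻¹, by simp only [Set.mem_Ioi]; positivity, ?_⟩
      simp only [hw]
      field_simp
  have e1 := lintegral_image_eq_lintegral_abs_deriv_mul measurableSet_Ioi hder hinj
    (fun t => ENNReal.ofReal (ig s t) * F (s * t))
  rw [himg] at e1
  rw [e1]
  apply setLIntegral_congr_fun measurableSet_Ioi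
  intro u hu
  have hu' : 0 < u := hu
  have hpi : 0 < 2 * π := by positivity
  have h1 : s * w u = 1 / (s * u) := by
    simp only [hw]
    field_simp
  have hsq : Real.sqrt (2 * π * (w u) ^ 3) = Real.sqrt (2 * π * u ^ 3) / (s ^ 3 * u ^ 3) := by
    have : 2 * π * (w u) ^ 3 = (2 * π * u ^ 3) / (s ^ 3 * u ^ 3) ^ 2 := by
      simp only [hw]
      field_simp
    rw [this, Real.sqrt_div (by positivity), Real.sqrt_sq (by positivity)]
  have hexp : -(1 - s * w u) ^ 2 / (2 * w u) = -(1 - s * u) ^ 2 / (2 * u) := by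
    rw [h1]
    simp only [hw]
    field_simp
    ring
  have hsp : 0 < Real.sqrt (2 * π * u ^ 3) := Real.sqrt_pos.2 (by positivity)
  simp only
  rw [h1, ← mul_assoc, abs_neg, abs_of_nonneg (by positivity), ← ENNReal.ofReal_mul (by positivity)]
  congr 2
  unfold ig
  rw [hsq, hexp]
  field_simp

/-- (I3) -/
theorem ig_mean {s : ℝ} (hs : 0 < s) :
    ∫⁻ t in Set.Ioi (0 : ℝ), ENNReal.ofReal (ig s t * (s * t)) = 1 := by
  have h := ig_swap hs (fun _ => 1) measurable_const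
  simp only [mul_one] at h
  rw [← h, ig_mass hs.le]

/-- (I6) -/
theorem ig_sq {s : ℝ} (hs : 0 < s) :
    ∫⁻ t in Set.Ioi (0 : ℝ), ENNReal.ofReal (ig s t * (s * t) ^ 2) =
      ENNReal.ofReal (1 + 1 / s) := by
  have h := ig_swap hs (fun y => ENNReal.ofReal (1 / y)) (by fun_prop)
  have e1 : ∫⁻ t in Set.Ioi (0 : ℝ), ENNReal.ofReal (ig s t * (s * t)) *
      ENNReal.ofReal (1 / (1 / (s * t))) =
      ∫⁻ t in Set.Ioi (0 : ℝ), ENNReal.ofReal (ig s t * (s * t) ^ 2) := by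
    apply setLIntegral_congr_fun measurableSet_Ioi
    intro t ht
    have ht' : 0 < t := ht
    have h0 : 0 ≤ ig s t := ig_nonneg s t
    simp only
    rw [← ENNReal.ofReal_mul (by positivity), one_div_one_div]
    congr 1
    ring
  have e2 : ∫⁻ t in Set.Ioi (0 : ℝ), ENNReal.ofReal (ig s t) * ENNReal.ofReal (1 / (s * t)) =
      ENNReal.ofReal (1 / s) * ∫⁻ t in Set.Ioi (0 : ℝ), ENNReal.ofReal (ig s t * (1 / t)) := by
    rw [← lintegral_const_mul _ (by
      have : Measurable (fun t : ℝ => ig s t) := measurable_ig.comp (measurable_const.prodMk measurable_id)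
      fun_prop)]
    apply setLIntegral_congr_fun measurableSet_Ioi
    intro t ht
    have ht' : 0 < t := ht
    have h0 : 0 ≤ ig s t := ig_nonneg s t
    simp only
    rw [← ENNReal.ofReal_mul h0, ← ENNReal.ofReal_mul (by positivity)]
    congr 1
    field_simp
  rw [← e1, ← h, e2, ig_inv_mean hs.le, ← ENNReal.ofReal_mul (by positivity)]
  congr 1
  field_simp

end VJ26
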