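import Pool.Agent.VJ26.Disint
import Pool.Agent.VJ26.IG2

/-!
# [VJ-MEAN] First and second moments, the martingale step, the tail

This file: `sfn_nonneg`, `VR.mean_le`, `VR.mean_eq`

Everything is `VR.disint` at `m` and a one-dimensional integral, with
`ψ_m = psi W (insert m U) β θ m = s T` (`psi_insert_self`; a.s. good by `VR.allGood` or
`VR.good` and `VR.marg`), `s = sfn W U θ m β ≥ 0`, and
`ψ_x = psi W U β θ x + T κ_x s` for `x ∈ U` (`psi_insert`).
 * `mean_le`: `∫ ig(s,t) s t dt ≤ 1` (`= 1` if `s > 0`, `= 0` if `s = 0`).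
 * `mean_step`: `∫ ig(s,t)(A + κ_x s t) dt = A + κ_x` and
   `psi W U β (θ + W m) x = psi W U β θ x + psi W U β (W m) x` (`psi_add`), `κ_x = psi W U β (W m) x`.
 * `mean_sq`: (I6); `mean_inv`: (I4): `∫ ig(s,t)/(st) dt = (s+1)/s = 1 + 1/s`.
 * `mean_tail`: (TAIL).
-/

open MeasureTheory Real
open scoped ENNReal

namespace VJ26

variable {α : Type*} [DecidableEq α]
variable {W : α → α → ℝ} {U : Finset α} {θ : α → ℝ} {μ : Measure (α → ℝ)} {m x : α}

theorem sfn_nonneg (hW : Wt W) (hθ : ∀ i, 0 ≤ θ i) {β : α → ℝ} (hG : Good W U β) :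
    0 ≤ sfn W U θ m β := by
  unfold sfn
  exact add_nonneg (hθ m) (bil_nonneg hG (fun i _ => hW.nonneg m i) (fun i _ => hθ i))

/-- `∫ ig(s,t) (s t) dt · c ≤ c`. -/
theorem h32_inner_le {s : ℝ} (hs : 0 ≤ s) (c : ℝ≥0∞) :
    ∫⁻ t in Set.Ioi (0 : ℝ), ENNReal.ofReal (ig s t) * (ENNReal.ofReal (s * t) * c) ≤ c := by
  rcases hs.eq_or_lt with rfl | hs
  · simp
  · refine le_of_eq ?_
    have hig : Measurable (fun t : ℝ => ig s t) :=
      measurable_ig.comp (measurable_const.prodMk measurable_id)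
    have hm2 : Measurable (fun t : ℝ => ENNReal.ofReal (ig s t * (s * t))) :=
      (hig.mul (measurable_id.const_mul s)).ennreal_ofReal
    have e : ∀ t ∈ Set.Ioi (0 : ℝ), ENNReal.ofReal (ig s t) * (ENNReal.ofReal (s * t) * c) =
        ENNReal.ofReal (ig s t * (s * t)) * c := by
      intro t _
      rw [ENNReal.ofReal_mul (ig_nonneg s t), mul_assoc]
    rw [setLIntegral_congr_fun measurableSet_Ioi e, lintegral_mul_const _ hm2, ig_mean hs,
      one_mul]

/-- the same with equality for `s > 0`. -/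
theorem h32_inner_eq {s : ℝ} (hs : 0 < s) (c : ℝ≥0∞) :
    ∫⁻ t in Set.Ioi (0 : ℝ), ENNReal.ofReal (ig s t) * (ENNReal.ofReal (s * t) * c) = c := by
  have hig : Measurable (fun t : ℝ => ig s t) :=
    measurable_ig.comp (measurable_const.prodMk measurable_id)
  have hm2 : Measurable (fun t : ℝ => ENNReal.ofReal (ig s t * (s * t))) :=
    (hig.mul (measurable_id.const_mul s)).ennreal_ofReal
  have e : ∀ t ∈ Set.Ioi (0 : ℝ), ENNReal.ofReal (ig s t) * (ENNReal.ofReal (s * t) * c) =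
      ENNReal.ofReal (ig s t * (s * t)) * c := by
    intro t _
    rw [ENNReal.ofReal_mul (ig_nonneg s t), mul_assoc]
  rw [setLIntegral_congr_fun measurableSet_Ioi e, lintegral_mul_const _ hm2, ig_mean hs,
    one_mul]

/-- The disintegration of `∫ ψ_m F dμ`. -/
theorem h32_disint (hW : Wt W) (hθ : ∀ i, 0 ≤ θ i) (hm : m ∉ U)
    (h : VR μ (insert m U) W θ)
    {F : (α → ℝ) → ℝ≥0∞} (hF : Measurable F) (hd : DependsOn F (U : Set α)) :
    ∫⁻ β, ENNReal.ofReal (psi W (insert m U) β θ m) * F β ∂μ =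
      ∫⁻ β, (∫⁻ t in Set.Ioi (0 : ℝ), ENNReal.ofReal (ig (sfn W U θ m β) t) *
        (ENNReal.ofReal (sfn W U θ m β * t) * F β)) ∂μ := by
  set Φ : (α → ℝ) → ℝ → ℝ≥0∞ := fun β t =>
    ENNReal.ofReal (sfn W U θ m β * t) * F β with hΦ
  have hΦm : Measurable (fun p : (α → ℝ) × ℝ => Φ p.1 p.2) := by
    have m3 : Measurable (fun p : (α → ℝ) × ℝ => sfn W U θ m p.1) :=
      (measurable_sfn W U θ m).comp measurable_fst
    exact ((m3.mul measurable_snd).ennreal_ofReal).mul (hF.comp measurable_fst)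
  have hΦd : ∀ t, DependsOn (fun β => Φ β t) (U : Set α) := by
    intro t β β' hb
    have d3 : sfn W U θ m β = sfn W U θ m β' := dependsOn_sfn W U θ m hb
    have d4 : F β = F β' := hd hb
    simp only [hΦ]
    rw [d3, d4]
  have h1 : ∫⁻ β, ENNReal.ofReal (psi W (insert m U) β θ m) * F β ∂μ =
      ∫⁻ β, Φ β (gr W (insert m U) β m m) ∂μ := by
    refine lintegral_congr_ae ?_
    have g1 := VR.good hW hθ h
    have g2 := VR.good hW (fun i => add_nonneg (hθ i) (hW.nonneg m i)) (VR.marg hW hm h)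
    filter_upwards [g1, g2] with β a b
    simp only [hΦ]
    rw [psi_insert_self hW b a hm θ]
  rw [h1, VR.disint hW hθ hm h hΦm hΦd]

theorem VR.mean_le (hW : Wt W) (hθ : ∀ i, 0 ≤ θ i) (hm : m ∉ U) (h : VR μ (insert m U) W θ)
    {F : (α → ℝ) → ℝ≥0∞} (hF : Measurable F) (hd : DependsOn F (U : Set α)) :
    ∫⁻ β, ENNReal.ofReal (psi W (insert m U) β θ m) * F β ∂μ ≤ ∫⁻ β, F β ∂μ := by
  rw [h32_disint hW hθ hm h hF hd]
  refine lintegral_mono_ae ?_
  have g2 := VR.good hW (fun i => add_nonneg (hθ i) (hW.nonneg m i)) (VR.marg hW hm h)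
  filter_upwards [g2] with β hβ
  exact h32_inner_le (sfn_nonneg hW hθ hβ) (F β)

theorem VR.mean_eq (hW : Wt W) (hθ : ∀ i, 0 ≤ θ i) (hm : m ∉ U) (h : VR μ (insert m U) W θ)
    (hs : ∀ᵐ β ∂μ, 0 < sfn W U θ m β)
    {F : (α → ℝ) → ℝ≥0∞} (hF : Measurable F) (hd : DependsOn F (U : Set α)) :
    ∫⁻ β, ENNReal.ofReal (psi W (insert m U) β θ m) * F β ∂μ = ∫⁻ β, F β ∂μ := by
  rw [h32_disint hW hθ hm h hF hd]
  refine lintegral_congr_ae ?_
  filter_upwards [hs] with β hβ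
  exact h32_inner_eq hβ (F β)

end VJ26
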