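import Pool.Agent.VJ26.RN
import Pool.Agent.VJ26.Mean

/-!
# [VJ-GMEAN] The hitting functional: boundary value and upper bound

This file: `VR.mean1`

Notation of `GFun.lean`. For `z = L_o` the exponent is
`∑_U (L_k^2-1)β_k + (z^2-1)ϒ/2 + (z-1) h`. By `VR.tilt` (`L' = L` on `U`, `1` off `U`, or directly
`L`; only `L` on `U` matters) and `bil_scale`: with `G' = gr (WL W L) U (L^2 β)`, `w = L W_o`
(vector `k ↦ L_k W_ok`), `ϒ = ⟨w, G' w⟩`, `h = η_o + ⟨w, G' (Lη)⟩`, tilted killing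
`θ' = L (η + W_o)`, and `y = (z-1) w`:
 `⟨y,G'y⟩/2 + ⟨y,G'θ'⟩ = (z^2-1)ϒ/2 + (z-1)(h - η_o)`.
(P4) for the tilted law (`VR.p4`): `∫ exp(-E) dμ = Lam(U,W,η+W_o,L) e^{-(z-1)η_o} e^{-(z-1)∑_U w_k}`
and `pref o L` is exactly the inverse of this number when `L_o = z`:
`g_bdry : gfun o L = 1`.

`g_le_one` (`L_o ≤ z`): replacing `z` by `L_o` increases `gfun` (`h ≥ 0`); so let `z = L_o`.
For `i = o` it is `g_bdry`. For `i ∈ U`:
(MEAN1) for a law `VR μ' U W' θ'`, `y ≥ 0` and `i ∈ U`: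
 `∫ (G'(y+θ'))_i exp(-⟨y,G'y⟩/2 - ⟨y,G'θ'⟩) dμ' ≤ e^{-∑ y}`:
 by `VR.rn` this is `e^{-∑y}` times the mean of `psi W' U β (θ'+y) i` under the law with killing
 `θ' + y`, which is at most one (`VR.mean_le` with `F = 1`, `U = insert i (U.erase i)`).
Now `φ_i = (G_U W_o)_i = L_i (G' w)_i` (`psi_scale`) and `L_o w ≤ y + θ'` (as
`y + θ' = (L_o-1) w + w + Lη`), so `φ_i ≤ (L_i/L_o) (G'(y+θ'))_i`, and
`(∏_{k∈V\i} L_k) (L_i/L_o) = ∏_{k∈U} L_k`, so `gfun i L ≤` the same product as in `g_bdry` `= 1`.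

`g_init`: `L = 1`: `pref o 1 = 1`, `E = (z-1) h`, `φ_o = 1`.
-/

open MeasureTheory Real
open scoped ENNReal

namespace VJ26

variable {α : Type*} [DecidableEq α]
variable {W : α → α → ℝ} {U V : Finset α} {θ y η L : α → ℝ} {μ : Measure (α → ℝ)} {o i j : α}
  {z T : ℝ}

/-- (MEAN1) -/
theorem VR.mean1 (hW : Wt W) (hθ : ∀ i, 0 ≤ θ i) (hy : ∀ i, 0 ≤ y i) (h : VR μ U W θ)
    (hi : i ∈ U) :
    ∫⁻ β, ENNReal.ofReal (psi W U β (θ + y) i *
        exp (-(1 / 2 * bil W U β y y) - bil W U β y θ)) ∂μ ≤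
      ENNReal.ofReal (exp (-∑ i ∈ U, y i)) := by
  have h' : VR (μ.withDensity (fun β => ENNReal.ofReal (rnd W U θ y β))) U W (θ + y) :=
    VR.rn hW hθ hy h
  have hF : Measurable fun β : α → ℝ => ENNReal.ofReal (psi W U β (θ + y) i) :=
    (measurable_psi W U (θ + y) i).ennreal_ofReal
  have hd : DependsOn (fun β : α → ℝ => ENNReal.ofReal (psi W U β (θ + y) i)) (U : Set α) :=
    fun a b hab => congrArg ENNReal.ofReal (dependsOn_psi W U (θ + y) i hab)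
  have e := VR.lintegral_rn hW hθ hy h h' hF hd
  have hθy : ∀ i, 0 ≤ (θ + y) i := fun i => add_nonneg (hθ i) (hy i)
  have hins : insert i (U.erase i) = U := Finset.insert_erase hi
  have hm : ∫⁻ β, ENNReal.ofReal (psi W U β (θ + y) i)
      ∂(μ.withDensity (fun β => ENNReal.ofReal (rnd W U θ y β))) ≤ 1 := by
    have h2 : VR (μ.withDensity (fun β => ENNReal.ofReal (rnd W U θ y β)))
        (insert i (U.erase i)) W (θ + y) := by rw [hins]; exact h'
    have h3 := VR.mean_le hW hθy (Finset.notMem_erase i U) h2 (F := fun _ => 1)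
      measurable_const (fun _ _ _ => rfl)
    rw [hins] at h3
    have hp := h'.prob.measure_univ
    simpa [hp] using h3
  have hpt : ∀ β : α → ℝ, ENNReal.ofReal (psi W U β (θ + y) i *
        exp (-(1 / 2 * bil W U β y y) - bil W U β y θ)) =
      ENNReal.ofReal (exp (-∑ i ∈ U, y i)) *
        (ENNReal.ofReal (rnd W U θ y β) * ENNReal.ofReal (psi W U β (θ + y) i)) := by
    intro β
    rw [← mul_assoc, ← ENNReal.ofReal_mul (exp_pos _).le, rnd, ← exp_add,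
      ENNReal.ofReal_mul' (exp_pos _).le, mul_comm]
    congr 3
    ring
  calc ∫⁻ β, ENNReal.ofReal (psi W U β (θ + y) i *
        exp (-(1 / 2 * bil W U β y y) - bil W U β y θ)) ∂μ
      = ∫⁻ β, ENNReal.ofReal (exp (-∑ i ∈ U, y i)) *
        (ENNReal.ofReal (rnd W U θ y β) * ENNReal.ofReal (psi W U β (θ + y) i)) ∂μ :=
        lintegral_congr hpt
    _ = ENNReal.ofReal (exp (-∑ i ∈ U, y i)) *
        ∫⁻ β, (ENNReal.ofReal (rnd W U θ y β) * ENNReal.ofReal (psi W U β (θ + y) i)) ∂μ :=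
        lintegral_const_mul' _ _ ENNReal.ofReal_ne_top
    _ ≤ ENNReal.ofReal (exp (-∑ i ∈ U, y i)) * 1 := by
        rw [← e]
        exact mul_le_mul_right hm _
    _ = ENNReal.ofReal (exp (-∑ i ∈ U, y i)) := mul_one _

end VJ26
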