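import Pool.Agent.VJ26.GFun

/-!
# [VJ-GROOT] The hitting functional: one-step identities

This file: `g_root`

`V ∋ o` finite, `U = V.erase o`, `η ≥ 0`, `VR μ U W (η + W o)`, `z ≥ 1`. With
`φ_i = kap W U β o i` (`φ_o = 1`, `φ = G_U W_o` on `U`), `ϒ = bil W U β (W o) (W o)`,
`h = sfn W U η o β = η_o + ⟨W_o, G_U η⟩`,
 `E(L,β) = ∑_{k∈U} (L_k^2-1) β_k + (L_o^2-1) ϒ/2 + (z-1) h`,
 `pref i L = (∏_{k∈V\{i}} L_k) exp( (1/2)∑_{k,l∈V} W_kl (L_k L_l - 1) + ∑_V η_k (L_k - 1) )`,
 `gfun i L = pref i L * ∫ exp(-E(L,β)) φ_i dμ`.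
It is the probability that the VRJP started at `i` with local times `L` reaches local time `z`
at `o` before it leaves `V`.

Let `L' = update L i (L i + t)`, `r = rate i L = ∑_{j∈V} W_ij L_j + η_i` (no dependence on
`L_i`). Then
 (a) `pref i L' * exp(-r t) = pref i L`;
 (b) `pref j L' * exp(-r t) * L_j = pref i L * (L_i + t)` for `j ∈ V`, `j ≠ i`
     (and the factor `W i j` vanishes for `j = i`);
 (c) `∑_{j∈V} W_ij φ_j = 2 β_i φ_i` for `i ∈ U` (`psi_eq`), `= ϒ` for `i = o`.
`g_step` (`i ≠ o`): for `β_i > 0`, `exp(-L_i^2 β_i) = ∫_0^∞ 2 (L_i+t) β_i exp(-(L_i+t)^2 β_i) dt`,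
so `exp(-E(L,β)) φ_i = ∫_0^∞ (L_i + t) exp(-E(L',β)) ∑_j W_ij φ_j dt`; multiply by `pref i L`,
use (b), Tonelli (`lintegral_lintegral_swap`).
`g_root`: the same with `exp(-L_o^2 ϒ/2) = exp(-(L_o+T)^2 ϒ/2) + ∫_0^T (L_o+t) ϒ exp(-(L_o+t)^2 ϒ/2) dt`
and (a) for the boundary term.
Everything in lintegral form, all terms are nonnegative (a.s. good `β`).
-/

open MeasureTheory Real
open scoped ENNReal

namespace VJ26

variable {α : Type*} [DecidableEq α]
variable {W : α → α → ℝ} {V : Finset α} {η L : α → ℝ} {μ : Measure (α → ℝ)} {o i j : α}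
  {z T : ℝ}

/-- the exponent after an update at the root -/
theorem gE_update_root (L β : α → ℝ) (t : ℝ) :
    gE W V o η z (Function.update L o (L o + t)) β =
      ∑ k ∈ V.erase o, ((L k) ^ 2 - 1) * β k +
        ((L o + t) ^ 2 - 1) * bil W (V.erase o) β (W o) (W o) / 2 +
        (z - 1) * sfn W (V.erase o) η o β := by
  unfold gE
  rw [Function.update_self]
  congr 2
  refine Finset.sum_congr rfl fun k hk => ?_
  rw [Function.update_of_ne (Finset.ne_of_mem_erase hk)]

/-- the fundamental theorem of calculus for the root -/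
theorem root_ftc {A B Y l T : ℝ} (hY : 0 ≤ Y) (hl : 0 ≤ l) (hT : 0 ≤ T) :
    ENNReal.ofReal (exp (-(A + (l ^ 2 - 1) * Y / 2 + B))) =
      ENNReal.ofReal (exp (-(A + ((l + T) ^ 2 - 1) * Y / 2 + B))) +
        ∫⁻ t in Set.Ioc (0 : ℝ) T,
          ENNReal.ofReal ((l + t) * Y * exp (-(A + ((l + t) ^ 2 - 1) * Y / 2 + B))) := by
  have hcont : Continuous fun t : ℝ =>
      (l + t) * Y * exp (-(A + ((l + t) ^ 2 - 1) * Y / 2 + B)) := by fun_prop
  have hd : ∀ t : ℝ, HasDerivAt (fun t : ℝ => -exp (-(A + ((l + t) ^ 2 - 1) * Y / 2 + B)))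
      ((l + t) * Y * exp (-(A + ((l + t) ^ 2 - 1) * Y / 2 + B))) t := by
    intro t
    have h1 : HasDerivAt (fun t : ℝ => l + t) 1 t := by
      simpa using (hasDerivAt_id t).const_add l
    have h2 : HasDerivAt (fun t : ℝ => -(A + ((l + t) ^ 2 - 1) * Y / 2 + B))
        (-((2 * (l + t)) * Y / 2)) t := by
      have h3 : HasDerivAt (fun t : ℝ => (l + t) ^ 2) (2 * (l + t)) t := by
        simpa using h1.fun_pow 2
      exact ((((h3.sub_const 1).mul_const Y).div_const 2).const_add A |>.add_const B).neg
    have h4 := h2.exp.neg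
    have h5 : (l + t) * Y * exp (-(A + ((l + t) ^ 2 - 1) * Y / 2 + B)) =
        -(exp (-(A + ((l + t) ^ 2 - 1) * Y / 2 + B)) * -((2 * (l + t)) * Y / 2)) := by ring
    rw [h5]
    exact h4
  have hint := intervalIntegral.integral_eq_sub_of_hasDerivAt (a := 0) (b := T)
    (fun t _ => hd t) (hcont.intervalIntegrable 0 T)
  rw [intervalIntegral.integral_of_le hT] at hint
  have hnn : 0 ≤ᵐ[volume.restrict (Set.Ioc (0 : ℝ) T)] fun t : ℝ =>
      (l + t) * Y * exp (-(A + ((l + t) ^ 2 - 1) * Y / 2 + B)) := by
    filter_upwards [ae_restrict_mem measurableSet_Ioc] with t ht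
    exact mul_nonneg (mul_nonneg (add_nonneg hl ht.1.le) hY) (exp_pos _).le
  have hi : Integrable (fun t : ℝ =>
      (l + t) * Y * exp (-(A + ((l + t) ^ 2 - 1) * Y / 2 + B)))
      (volume.restrict (Set.Ioc (0 : ℝ) T)) :=
    (hcont.intervalIntegrable 0 T).1
  rw [← ofReal_integral_eq_lintegral_ofReal hi hnn,
    ← ENNReal.ofReal_add (exp_pos _).le (integral_nonneg_of_ae hnn), hint]
  congr 1
  simp only [add_zero]
  ring

theorem g_root (hW : Wt W) (hη : ∀ i, 0 ≤ η i) (ho : o ∈ V)
    (h : VR μ (V.erase o) W (η + W o)) (hz : 1 ≤ z) (hL : ∀ i, 1 ≤ L i) (hT : 0 ≤ T) :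
    gfun W V o η z μ o L =
      ENNReal.ofReal (exp (-(rate W V η o L * T))) *
        gfun W V o η z μ o (Function.update L o (L o + T)) +
      ∫⁻ t in Set.Ioc (0 : ℝ) T, ENNReal.ofReal (exp (-(rate W V η o L * t))) *
        ∑ j ∈ V, ENNReal.ofReal (W o j * L j) *
          gfun W V o η z μ j (Function.update L o (L o + t)) := by
  have hprob := h.prob
  have hgood : ∀ᵐ β ∂μ, Good W (V.erase o) β :=
    h.good hW (fun i => add_nonneg (hη i) (hW.nonneg o i))
  have hmk : ∀ j, Measurable fun β : α → ℝ => kap W (V.erase o) β o j := by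
    intro j
    unfold kap
    by_cases hj : j = o
    · simp [hj]
    · simpa only [hj, if_false] using measurable_psi W (V.erase o) (W o) j
  have hmY : Measurable fun β : α → ℝ => bil W (V.erase o) β (W o) (W o) :=
    measurable_bil _ _ _ _
  have hmE : Measurable fun p : (α → ℝ) × ℝ =>
      gE W V o η z (Function.update L o (L o + p.2)) p.1 := by
    simp only [gE_update_root]
    have h1 : Measurable fun p : (α → ℝ) × ℝ => bil W (V.erase o) p.1 (W o) (W o) :=
      hmY.comp measurable_fst
    have h2 : Measurable fun p : (α → ℝ) × ℝ => sfn W (V.erase o) η o p.1 :=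
      (measurable_sfn W (V.erase o) η o).comp measurable_fst
    have h3 : Measurable fun p : (α → ℝ) × ℝ =>
        ∑ k ∈ V.erase o, ((L k) ^ 2 - 1) * p.1 k :=
      Finset.measurable_sum _ fun k _ =>
        ((measurable_pi_apply k).comp measurable_fst).const_mul _
    fun_prop
  have hmE' : ∀ t : ℝ, Measurable fun β : α → ℝ =>
      gE W V o η z (Function.update L o (L o + t)) β := by
    intro t
    have h1 : Measurable fun β : α → ℝ => ((β, t) : (α → ℝ) × ℝ) := measurable_prodMk_right
    have h2 := hmE.comp h1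
    exact h2
  have hpL : 0 < pref W V η o L := pref_pos hL o
  have hLt : ∀ t : ℝ, 0 ≤ t → ∀ k, 1 ≤ Function.update L o (L o + t) k := by
    intro t ht k
    by_cases hk : k = o
    · subst hk
      rw [Function.update_self]
      have := hL k
      linarith
    · rw [Function.update_of_ne hk]
      exact hL k
  -- the joint integrand
  have hmJ : Measurable fun p : (α → ℝ) × ℝ => ENNReal.ofReal (pref W V η o L *
      ((L o + p.2) * bil W (V.erase o) p.1 (W o) (W o) *
        exp (-gE W V o η z (Function.update L o (L o + p.2)) p.1))) := by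
    refine ENNReal.measurable_ofReal.comp ?_
    have h1 : Measurable fun p : (α → ℝ) × ℝ => bil W (V.erase o) p.1 (W o) (W o) :=
      hmY.comp measurable_fst
    exact (((measurable_snd.const_add (L o)).mul h1).mul hmE.neg.exp).const_mul _
  -- step 1: pointwise identity
  have hstep1 : gfun W V o η z μ o L =
      ∫⁻ β, (ENNReal.ofReal (pref W V η o L) *
          ENNReal.ofReal (exp (-gE W V o η z (Function.update L o (L o + T)) β)) +
        ∫⁻ t in Set.Ioc (0 : ℝ) T, ENNReal.ofReal (pref W V η o L *
          ((L o + t) * bil W (V.erase o) β (W o) (W o) *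
          exp (-gE W V o η z (Function.update L o (L o + t)) β)))) ∂μ := by
    unfold gfun
    rw [← lintegral_const_mul']
    swap
    · exact ENNReal.ofReal_ne_top
    refine lintegral_congr_ae ?_
    filter_upwards [hgood] with β hβ
    have hY : 0 ≤ bil W (V.erase o) β (W o) (W o) := bil_self_nonneg hβ _
    have hk : kap W (V.erase o) β o o = 1 := by simp [kap]
    rw [hk, mul_one]
    have hf := root_ftc (A := ∑ k ∈ V.erase o, ((L k) ^ 2 - 1) * β k)
      (B := (z - 1) * sfn W (V.erase o) η o β) hY (zero_le_one.trans (hL o)) hT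
    have hE : gE W V o η z L β = ∑ k ∈ V.erase o, ((L k) ^ 2 - 1) * β k +
        ((L o) ^ 2 - 1) * bil W (V.erase o) β (W o) (W o) / 2 +
        (z - 1) * sfn W (V.erase o) η o β := rfl
    simp only [gE_update_root]
    rw [hE, hf, mul_add]
    congr 1
    rw [← lintegral_const_mul']
    swap
    · exact ENNReal.ofReal_ne_top
    refine lintegral_congr fun t => ?_
    rw [ENNReal.ofReal_mul hpL.le]
  -- step 2: split and swap
  rw [hstep1]
  have hmB : Measurable fun β : α → ℝ => ENNReal.ofReal (pref W V η o L) *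
      ENNReal.ofReal (exp (-gE W V o η z (Function.update L o (L o + T)) β)) := by
    exact (ENNReal.measurable_ofReal.comp (hmE' T).neg.exp).const_mul _
  rw [lintegral_add_left hmB]
  congr 1
  · -- boundary term
    rw [lintegral_const_mul' _ _ ENNReal.ofReal_ne_top]
    unfold gfun
    rw [← mul_assoc, ← ENNReal.ofReal_mul (exp_pos _).le]
    have ha := pref_update_self (η := η) (L := L) hW ho T
    rw [mul_comm] at ha
    rw [ha]
    congr 1
    refine lintegral_congr fun β => ?_
    have hk : kap W (V.erase o) β o o = 1 := by simp [kap]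
    rw [hk, mul_one]
  · rw [lintegral_lintegral_swap hmJ.aemeasurable]
    refine setLIntegral_congr_fun measurableSet_Ioc ?_
    intro t ht
    change ∫⁻ β, ENNReal.ofReal (pref W V η o L *
          ((L o + t) * bil W (V.erase o) β (W o) (W o) *
          exp (-gE W V o η z (Function.update L o (L o + t)) β))) ∂μ =
      ENNReal.ofReal (exp (-(rate W V η o L * t))) *
        ∑ j ∈ V, ENNReal.ofReal (W o j * L j) *
          gfun W V o η z μ j (Function.update L o (L o + t))
    have hLt' := hLt t ht.1.le
    have hpt : ∀ᵐ β ∂μ, ENNReal.ofReal (pref W V η o L *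
          ((L o + t) * bil W (V.erase o) β (W o) (W o) *
          exp (-gE W V o η z (Function.update L o (L o + t)) β))) =
        ∑ j ∈ V, ENNReal.ofReal (exp (-(rate W V η o L * t)) * (W o j * L j) *
          pref W V η j (Function.update L o (L o + t))) *
            ENNReal.ofReal (exp (-gE W V o η z (Function.update L o (L o + t)) β) *
              kap W (V.erase o) β o j) := by
      filter_upwards [hgood] with β hβ
      have hc : ∀ j, 0 ≤ exp (-(rate W V η o L * t)) * (W o j * L j) *
          pref W V η j (Function.update L o (L o + t)) := fun j =>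
        mul_nonneg (mul_nonneg (exp_pos _).le (mul_nonneg (hW.nonneg o j)
          (zero_le_one.trans (hL j)))) (pref_pos hLt' j).le
      have hn : ∀ j ∈ V, 0 ≤ exp (-(rate W V η o L * t)) * (W o j * L j) *
          pref W V η j (Function.update L o (L o + t)) *
            (exp (-gE W V o η z (Function.update L o (L o + t)) β) *
              kap W (V.erase o) β o j) := fun j _ =>
        mul_nonneg (hc j) (mul_nonneg (exp_pos _).le (kap_nonneg hW hβ o j))
      have hs : ∑ j ∈ V, ENNReal.ofReal (exp (-(rate W V η o L * t)) * (W o j * L j) *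
          pref W V η j (Function.update L o (L o + t))) *
            ENNReal.ofReal (exp (-gE W V o η z (Function.update L o (L o + t)) β) *
              kap W (V.erase o) β o j) =
          ENNReal.ofReal (∑ j ∈ V, exp (-(rate W V η o L * t)) * (W o j * L j) *
          pref W V η j (Function.update L o (L o + t)) *
            (exp (-gE W V o η z (Function.update L o (L o + t)) β) *
              kap W (V.erase o) β o j)) := by
        rw [ENNReal.ofReal_sum_of_nonneg hn]
        exact Finset.sum_congr rfl fun j _ => (ENNReal.ofReal_mul (hc j)).symm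
      rw [hs]
      congr 1
      rw [← sum_W_kap_root (β := β) hW ho, Finset.mul_sum, Finset.sum_mul, Finset.mul_sum]
      refine Finset.sum_congr rfl fun j hj => ?_
      by_cases hjo : j = o
      · subst hjo
        rw [hW.diag]
        ring
      · have hb := pref_update_other (η := η) (L := L) hW ho hj hjo t
        calc pref W V η o L * ((L o + t) * (W o j * kap W (V.erase o) β o j) *
              exp (-gE W V o η z (Function.update L o (L o + t)) β)) =
            (pref W V η o L * (L o + t)) * (W o j * kap W (V.erase o) β o j) *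
              exp (-gE W V o η z (Function.update L o (L o + t)) β) := by ring
          _ = _ := by rw [← hb]; ring
    rw [lintegral_congr_ae hpt, lintegral_finsetSum, Finset.mul_sum]
    · refine Finset.sum_congr rfl fun j hj => ?_
      rw [lintegral_const_mul' _ _ ENNReal.ofReal_ne_top]
      unfold gfun
      rw [ENNReal.ofReal_mul (mul_nonneg (exp_pos _).le (mul_nonneg (hW.nonneg o j)
          (zero_le_one.trans (hL j)))), ENNReal.ofReal_mul (exp_pos _).le]
      ring
    · intro j _
      exact (ENNReal.measurable_ofReal.comp ((hmE' t).neg.exp.mul (hmk j))).const_mul _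

end VJ26
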