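import Pool.Agent.VJ26.GFun

/-!
# [VJ-GSTEP] The hitting functional: one-step identities

This file: `g_step`

`V ∋ o` finite, `U = V.erase o`, `η ≥ 0`, `VR μ U W (η + W o)`, `z ≥ 1`. With
`φ_i = kap W U β o i` (`φ_o = 1`, `φ = G_U W_o` on `U`), `ϒ = bil W U β (W o) (W o)`,
`h = sfn W U η o β = η_o + ⟨W_o, G_U η⟩`,
 `E(L,β) = ∑_{k∈U} (L_k^2-1) β_k + (L_o^2-1) ϒ/2 + (z-1) h`,
 `pref i L = (∏_{k∈V\{i}} L_k) exp( (1/2)∑_{k,l∈V} W_kl (L_k L_l - 1) + ∑_V η_k (L_k - 1) )`,
 `gfun i L = pref i L * ∫ exp(-E(L,β)) φ_i dμ`.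
It is the probability that the VRJP started at `i` with local times `L` reaches local time `z`
at `o` before it leaves `V`.

Let `L' = update L i (L i + t)`, `r = rate i L = ∑_{j∈V} W_ij L_j + η_i` (no dependence on
`L_i`). Then
 (a) `pref i L' * exp(-r t) = pref i L`;
 (b) `pref j L' * exp(-r t) * L_j = pref i L * (L_i + t)` for `j ∈ V`, `j ≠ i`
     (and the factor `W i j` vanishes for `j = i`);
 (c) `∑_{j∈V} W_ij φ_j = 2 β_i φ_i` for `i ∈ U` (`psi_eq`), `= ϒ` for `i = o`.
`g_step` (`i ≠ o`): for `β_i > 0`, `exp(-L_i^2 β_i) = ∫_0^∞ 2 (L_i+t) β_i exp(-(L_i+t)^2 β_i) dt`,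
so `exp(-E(L,β)) φ_i = ∫_0^∞ (L_i + t) exp(-E(L',β)) ∑_j W_ij φ_j dt`; multiply by `pref i L`,
use (b), Tonelli (`lintegral_lintegral_swap`).
`g_root`: the same with `exp(-L_o^2 ϒ/2) = exp(-(L_o+T)^2 ϒ/2) + ∫_0^T (L_o+t) ϒ exp(-(L_o+t)^2 ϒ/2) dt`
and (a) for the boundary term.
Everything in lintegral form, all terms are nonnegative (a.s. good `β`).
-/

open MeasureTheory Real
open scoped ENNReal

namespace VJ26

variable {α : Type*} [DecidableEq α]
variable {W : α → α → ℝ} {V : Finset α} {η L : α → ℝ} {μ : Measure (α → ℝ)} {o i j : α}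
  {z T : ℝ}

/-- the exponent after an update at a vertex different from the root -/
theorem gE_update_other (hi : i ∈ V) (hio : i ≠ o) (L β : α → ℝ) (t : ℝ) :
    gE W V o η z (Function.update L i (L i + t)) β =
      ((L i + t) ^ 2 - 1) * β i +
        (∑ k ∈ (V.erase o).erase i, ((L k) ^ 2 - 1) * β k +
          ((L o) ^ 2 - 1) * bil W (V.erase o) β (W o) (W o) / 2 +
          (z - 1) * sfn W (V.erase o) η o β) := by
  have hiU : i ∈ V.erase o := Finset.mem_erase.2 ⟨hio, hi⟩
  have h1 : ∑ k ∈ V.erase o, ((Function.update L i (L i + t) k) ^ 2 - 1) * β k =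
      ((L i + t) ^ 2 - 1) * β i + ∑ k ∈ (V.erase o).erase i, ((L k) ^ 2 - 1) * β k := by
    rw [← Finset.add_sum_erase _ _ hiU, Function.update_self]
    congr 1
    refine Finset.sum_congr rfl fun k hk => ?_
    rw [Function.update_of_ne (Finset.ne_of_mem_erase hk)]
  unfold gE
  rw [h1, Function.update_of_ne (Ne.symm hio)]
  ring

/-- the exponential representation -/
theorem step_ftc {Y B l : ℝ} (hY : 0 < Y) (hl : 0 ≤ l) :
    ENNReal.ofReal (exp (-((l ^ 2 - 1) * Y + B))) =
      ∫⁻ t in Set.Ioi (0 : ℝ),
        ENNReal.ofReal ((l + t) * (2 * Y) * exp (-(((l + t) ^ 2 - 1) * Y + B))) := by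
  have hd : ∀ t : ℝ, HasDerivAt (fun t : ℝ => -exp (-(((l + t) ^ 2 - 1) * Y + B)))
      ((l + t) * (2 * Y) * exp (-(((l + t) ^ 2 - 1) * Y + B))) t := by
    intro t
    have h1 : HasDerivAt (fun t : ℝ => l + t) 1 t := by
      simpa using (hasDerivAt_id t).const_add l
    have h2 : HasDerivAt (fun t : ℝ => -(((l + t) ^ 2 - 1) * Y + B))
        (-((2 * (l + t)) * Y)) t := by
      have h3 : HasDerivAt (fun t : ℝ => (l + t) ^ 2) (2 * (l + t)) t := by
        simpa using h1.fun_pow 2
      exact (((h3.sub_const 1).mul_const Y).add_const B).neg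
    have h4 := h2.exp.neg
    have h5 : (l + t) * (2 * Y) * exp (-(((l + t) ^ 2 - 1) * Y + B)) =
        -(exp (-(((l + t) ^ 2 - 1) * Y + B)) * -((2 * (l + t)) * Y)) := by ring
    rw [h5]
    exact h4
  have hnn : ∀ t ∈ Set.Ioi (0 : ℝ),
      0 ≤ (l + t) * (2 * Y) * exp (-(((l + t) ^ 2 - 1) * Y + B)) := by
    intro t ht
    exact mul_nonneg (mul_nonneg (add_nonneg hl (le_of_lt ht)) (by positivity)) (exp_pos _).le
  have hlim : Filter.Tendsto (fun t : ℝ => -exp (-(((l + t) ^ 2 - 1) * Y + B)))
      Filter.atTop (nhds 0) := by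
    have h1 : Filter.Tendsto (fun t : ℝ => -(((l + t) ^ 2 - 1) * Y + B))
        Filter.atTop Filter.atBot := by
      refine Filter.tendsto_neg_atTop_atBot.comp ?_
      refine Filter.tendsto_atTop_add_const_right _ _ ?_
      refine Filter.Tendsto.atTop_mul_const hY ?_
      refine Filter.tendsto_atTop_add_const_right _ _ ?_
      refine (Filter.tendsto_pow_atTop (two_ne_zero)).comp ?_
      exact Filter.tendsto_atTop_add_const_left _ _ Filter.tendsto_id
    have h2 := (tendsto_exp_atBot.comp h1).neg
    simpa using h2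
  have hint := integrableOn_Ioi_deriv_of_nonneg' (fun t _ => hd t) hnn hlim
  have hval := integral_Ioi_of_hasDerivAt_of_nonneg' (fun t _ => hd t) hnn hlim
  have hnn' : 0 ≤ᵐ[volume.restrict (Set.Ioi (0 : ℝ))] fun t : ℝ =>
      (l + t) * (2 * Y) * exp (-(((l + t) ^ 2 - 1) * Y + B)) := by
    filter_upwards [ae_restrict_mem measurableSet_Ioi] with t ht
    exact hnn t ht
  rw [← ofReal_integral_eq_lintegral_ofReal hint hnn', hval]
  congr 1
  simp

theorem g_step (hW : Wt W) (hη : ∀ i, 0 ≤ η i) (ho : o ∈ V)
    (h : VR μ (V.erase o) W (η + W o)) (hz : 1 ≤ z) (hL : ∀ i, 1 ≤ L i) (hi : i ∈ V)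
    (hio : i ≠ o) :
    gfun W V o η z μ i L =
      ∫⁻ t in Set.Ioi (0 : ℝ), ENNReal.ofReal (exp (-(rate W V η i L * t))) *
        ∑ j ∈ V, ENNReal.ofReal (W i j * L j) *
          gfun W V o η z μ j (Function.update L i (L i + t)) := by
  have hprob := h.prob
  have hiU : i ∈ V.erase o := Finset.mem_erase.2 ⟨hio, hi⟩
  have hgood : ∀ᵐ β ∂μ, Good W (V.erase o) β :=
    h.good hW (fun i => add_nonneg (hη i) (hW.nonneg o i))
  have hpos : ∀ᵐ β ∂μ, 0 < β i := h.pos i hiU
  have hmk : ∀ j, Measurable fun β : α → ℝ => kap W (V.erase o) β o j := by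
    intro j
    unfold kap
    by_cases hj : j = o
    · simp [hj]
    · simpa only [hj, if_false] using measurable_psi W (V.erase o) (W o) j
  have hmY : Measurable fun β : α → ℝ => bil W (V.erase o) β (W o) (W o) :=
    measurable_bil _ _ _ _
  have hmE : Measurable fun p : (α → ℝ) × ℝ =>
      gE W V o η z (Function.update L i (L i + p.2)) p.1 := by
    simp only [gE_update_other hi hio]
    have h0 : Measurable fun p : (α → ℝ) × ℝ => p.1 i :=
      (measurable_pi_apply i).comp measurable_fst
    have h1 : Measurable fun p : (α → ℝ) × ℝ => bil W (V.erase o) p.1 (W o) (W o) :=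
      hmY.comp measurable_fst
    have h2 : Measurable fun p : (α → ℝ) × ℝ => sfn W (V.erase o) η o p.1 :=
      (measurable_sfn W (V.erase o) η o).comp measurable_fst
    have h3 : Measurable fun p : (α → ℝ) × ℝ =>
        ∑ k ∈ (V.erase o).erase i, ((L k) ^ 2 - 1) * p.1 k :=
      Finset.measurable_sum _ fun k _ =>
        ((measurable_pi_apply k).comp measurable_fst).const_mul _
    fun_prop
  have hmE' : ∀ t : ℝ, Measurable fun β : α → ℝ =>
      gE W V o η z (Function.update L i (L i + t)) β := by
    intro t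
    have h1 : Measurable fun β : α → ℝ => ((β, t) : (α → ℝ) × ℝ) := measurable_prodMk_right
    have h2 := hmE.comp h1
    exact h2
  have hpL : 0 < pref W V η i L := pref_pos hL i
  have hLt : ∀ t : ℝ, 0 ≤ t → ∀ k, 1 ≤ Function.update L i (L i + t) k := by
    intro t ht k
    by_cases hk : k = i
    · subst hk
      rw [Function.update_self]
      have := hL k
      linarith
    · rw [Function.update_of_ne hk]
      exact hL k
  -- the joint integrand
  have hmJ : Measurable fun p : (α → ℝ) × ℝ => ENNReal.ofReal (pref W V η i L *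
      ((L i + p.2) * (2 * p.1 i) *
        exp (-gE W V o η z (Function.update L i (L i + p.2)) p.1) *
          kap W (V.erase o) p.1 o i)) := by
    refine ENNReal.measurable_ofReal.comp ?_
    have h0 : Measurable fun p : (α → ℝ) × ℝ => p.1 i :=
      (measurable_pi_apply i).comp measurable_fst
    have h1 : Measurable fun p : (α → ℝ) × ℝ => kap W (V.erase o) p.1 o i :=
      (hmk i).comp measurable_fst
    exact ((((measurable_snd.const_add (L i)).mul (h0.const_mul 2)).mul
      hmE.neg.exp).mul h1).const_mul _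
  -- step 1: pointwise identity
  have hstep1 : gfun W V o η z μ i L =
      ∫⁻ β, (∫⁻ t in Set.Ioi (0 : ℝ), ENNReal.ofReal (pref W V η i L *
          ((L i + t) * (2 * β i) *
          exp (-gE W V o η z (Function.update L i (L i + t)) β) *
            kap W (V.erase o) β o i))) ∂μ := by
    unfold gfun
    rw [← lintegral_const_mul']
    swap
    · exact ENNReal.ofReal_ne_top
    refine lintegral_congr_ae ?_
    filter_upwards [hgood, hpos] with β hβ hβi
    have hf := step_ftc (Y := β i)
      (B := ∑ k ∈ (V.erase o).erase i, ((L k) ^ 2 - 1) * β k +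
          ((L o) ^ 2 - 1) * bil W (V.erase o) β (W o) (W o) / 2 +
          (z - 1) * sfn W (V.erase o) η o β) hβi (zero_le_one.trans (hL i))
    have hE : gE W V o η z L β = ((L i) ^ 2 - 1) * β i +
        (∑ k ∈ (V.erase o).erase i, ((L k) ^ 2 - 1) * β k +
          ((L o) ^ 2 - 1) * bil W (V.erase o) β (W o) (W o) / 2 +
          (z - 1) * sfn W (V.erase o) η o β) := by
      have h0 := gE_update_other (W := W) (η := η) (z := z) hi hio L β 0
      rw [add_zero, Function.update_eq_self] at h0
      exact h0
    simp only [gE_update_other hi hio]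
    rw [ENNReal.ofReal_mul (exp_pos _).le, hE, hf, mul_comm _ (ENNReal.ofReal (kap _ _ _ _ _)),
      ← lintegral_const_mul' _ _ ENNReal.ofReal_ne_top,
      ← lintegral_const_mul' _ _ ENNReal.ofReal_ne_top]
    refine lintegral_congr fun t => ?_
    rw [ENNReal.ofReal_mul hpL.le, ← ENNReal.ofReal_mul (kap_nonneg hW hβ o i)]
    congr 2
    ring
  rw [hstep1, lintegral_lintegral_swap hmJ.aemeasurable]
  refine setLIntegral_congr_fun measurableSet_Ioi ?_
  intro t ht
  change ∫⁻ β, ENNReal.ofReal (pref W V η i L *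
        ((L i + t) * (2 * β i) *
        exp (-gE W V o η z (Function.update L i (L i + t)) β) *
          kap W (V.erase o) β o i)) ∂μ =
    ENNReal.ofReal (exp (-(rate W V η i L * t))) *
      ∑ j ∈ V, ENNReal.ofReal (W i j * L j) *
        gfun W V o η z μ j (Function.update L i (L i + t))
  have hLt' := hLt t (le_of_lt ht)
  have hpt : ∀ᵐ β ∂μ, ENNReal.ofReal (pref W V η i L *
        ((L i + t) * (2 * β i) *
        exp (-gE W V o η z (Function.update L i (L i + t)) β) *
          kap W (V.erase o) β o i)) =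
      ∑ j ∈ V, ENNReal.ofReal (exp (-(rate W V η i L * t)) * (W i j * L j) *
        pref W V η j (Function.update L i (L i + t))) *
          ENNReal.ofReal (exp (-gE W V o η z (Function.update L i (L i + t)) β) *
            kap W (V.erase o) β o j) := by
    filter_upwards [hgood] with β hβ
    have hc : ∀ j, 0 ≤ exp (-(rate W V η i L * t)) * (W i j * L j) *
        pref W V η j (Function.update L i (L i + t)) := fun j =>
      mul_nonneg (mul_nonneg (exp_pos _).le (mul_nonneg (hW.nonneg i j)
        (zero_le_one.trans (hL j)))) (pref_pos hLt' j).le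
    have hn : ∀ j ∈ V, 0 ≤ exp (-(rate W V η i L * t)) * (W i j * L j) *
        pref W V η j (Function.update L i (L i + t)) *
          (exp (-gE W V o η z (Function.update L i (L i + t)) β) *
            kap W (V.erase o) β o j) := fun j _ =>
      mul_nonneg (hc j) (mul_nonneg (exp_pos _).le (kap_nonneg hW hβ o j))
    have hs : ∑ j ∈ V, ENNReal.ofReal (exp (-(rate W V η i L * t)) * (W i j * L j) *
        pref W V η j (Function.update L i (L i + t))) *
          ENNReal.ofReal (exp (-gE W V o η z (Function.update L i (L i + t)) β) *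
            kap W (V.erase o) β o j) =
        ENNReal.ofReal (∑ j ∈ V, exp (-(rate W V η i L * t)) * (W i j * L j) *
        pref W V η j (Function.update L i (L i + t)) *
          (exp (-gE W V o η z (Function.update L i (L i + t)) β) *
            kap W (V.erase o) β o j)) := by
      rw [ENNReal.ofReal_sum_of_nonneg hn]
      exact Finset.sum_congr rfl fun j _ => (ENNReal.ofReal_mul (hc j)).symm
    rw [hs]
    congr 1
    have hsum := sum_W_kap (β := β) hW hβ ho hiU
    calc pref W V η i L * ((L i + t) * (2 * β i) *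
          exp (-gE W V o η z (Function.update L i (L i + t)) β) *
            kap W (V.erase o) β o i) =
        pref W V η i L * (L i + t) *
          exp (-gE W V o η z (Function.update L i (L i + t)) β) *
            (2 * β i * kap W (V.erase o) β o i) := by ring
      _ = pref W V η i L * (L i + t) *
          exp (-gE W V o η z (Function.update L i (L i + t)) β) *
            ∑ j ∈ V, W i j * kap W (V.erase o) β o j := by rw [hsum]
      _ = _ := by
        rw [Finset.mul_sum]
        refine Finset.sum_congr rfl fun j hj => ?_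
        by_cases hji : j = i
        · subst hji
          rw [hW.diag]
          ring
        · have hb := pref_update_other (η := η) (L := L) hW hi hj hji t
          calc pref W V η i L * (L i + t) *
                exp (-gE W V o η z (Function.update L i (L i + t)) β) *
                  (W i j * kap W (V.erase o) β o j) =
              (pref W V η i L * (L i + t)) * (W i j * kap W (V.erase o) β o j) *
                exp (-gE W V o η z (Function.update L i (L i + t)) β) := by ring
            _ = _ := by rw [← hb]; ring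
  rw [lintegral_congr_ae hpt, lintegral_finsetSum, Finset.mul_sum]
  · refine Finset.sum_congr rfl fun j hj => ?_
    rw [lintegral_const_mul' _ _ ENNReal.ofReal_ne_top]
    unfold gfun
    rw [ENNReal.ofReal_mul (mul_nonneg (exp_pos _).le (mul_nonneg (hW.nonneg i j)
        (zero_le_one.trans (hL j)))), ENNReal.ofReal_mul (exp_pos _).le]
    ring
  · intro j _
    exact (ENNReal.measurable_ofReal.comp ((hmE' t).neg.exp.mul (hmk j))).const_mul _

end VJ26
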