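import Pool.Agent.VJ26.GBdry
import Pool.Agent.VJ26.GMean
import Pool.Agent.VJ26.GStep
import Pool.Agent.VJ26.GRoot

/-!
# [VJ-GLE] The hitting functional: boundary value and upper bound

This file: `g_le_one`

Notation of `GFun.lean`. For `z = L_o` the exponent is
`∑_U (L_k^2-1)β_k + (z^2-1)ϒ/2 + (z-1) h`. By `VR.tilt` (`L' = L` on `U`, `1` off `U`, or directly
`L`; only `L` on `U` matters) and `bil_scale`: with `G' = gr (WL W L) U (L^2 β)`, `w = L W_o`
(vector `k ↦ L_k W_ok`), `ϒ = ⟨w, G' w⟩`, `h = η_o + ⟨w, G' (Lη)⟩`, tilted killing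
`θ' = L (η + W_o)`, and `y = (z-1) w`:
 `⟨y,G'y⟩/2 + ⟨y,G'θ'⟩ = (z^2-1)ϒ/2 + (z-1)(h - η_o)`.
(P4) for the tilted law (`VR.p4`): `∫ exp(-E) dμ = Lam(U,W,η+W_o,L) e^{-(z-1)η_o} e^{-(z-1)∑_U w_k}`
and `pref o L` is exactly the inverse of this number when `L_o = z`:
`g_bdry : gfun o L = 1`.

`g_le_one` (`L_o ≤ z`): replacing `z` by `L_o` increases `gfun` (`h ≥ 0`); so let `z = L_o`.
For `i = o` it is `g_bdry`. For `i ∈ U`:
(MEAN1) for a law `VR μ' U W' θ'`, `y ≥ 0` and `i ∈ U`:
 `∫ (G'(y+θ'))_i exp(-⟨y,G'y⟩/2 - ⟨y,G'θ'⟩) dμ' ≤ e^{-∑ y}`: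
 by `VR.rn` this is `e^{-∑y}` times the mean of `psi W' U β (θ'+y) i` under the law with killing
 `θ' + y`, which is at most one (`VR.mean_le` with `F = 1`, `U = insert i (U.erase i)`).
Now `φ_i = (G_U W_o)_i = L_i (G' w)_i` (`psi_scale`) and `L_o w ≤ y + θ'` (as
`y + θ' = (L_o-1) w + w + Lη`), so `φ_i ≤ (L_i/L_o) (G'(y+θ'))_i`, and
`(∏_{k∈V\i} L_k) (L_i/L_o) = ∏_{k∈U} L_k`, so `gfun i L ≤` the same product as in `g_bdry` `= 1`.

`g_init`: `L = 1`: `pref o 1 = 1`, `E = (z-1) h`, `φ_o = 1`.
-/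

open MeasureTheory Real
open scoped ENNReal

namespace VJ26

variable {α : Type*} [DecidableEq α]
variable {W : α → α → ℝ} {U V : Finset α} {θ y η L : α → ℝ} {μ : Measure (α → ℝ)} {o i j : α}
  {z T : ℝ}

private theorem gle_prod (ho : o ∈ V) (hi : i ∈ V) (hL : ∀ i, 1 ≤ L i) :
    (∏ k ∈ V.erase i, L k) * (L i / L o) * ∏ k ∈ V.erase o, (L k)⁻¹ = 1 := by
  have h1 : (∏ k ∈ V.erase i, L k) * L i = (∏ k ∈ V.erase o, L k) * L o := by
    rw [Finset.prod_erase_mul V L hi, Finset.prod_erase_mul V L ho]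
  have h2 : L o ≠ 0 := (lt_of_lt_of_le one_pos (hL o)).ne'
  have h3 : ∏ k ∈ V.erase o, L k ≠ 0 :=
    Finset.prod_ne_zero_iff.mpr fun k _ => (lt_of_lt_of_le one_pos (hL k)).ne'
  have h4 : (∏ k ∈ V.erase i, L k) * (L i / L o) = ∏ k ∈ V.erase o, L k := by
    rw [mul_div_assoc', h1, mul_div_assoc, div_self h2, mul_one]
  rw [h4, Finset.prod_inv_distrib, mul_inv_cancel₀ h3]

private theorem gle_expo (hW : Wt W) (ho : o ∈ V) (L η : α → ℝ) :
    ((1 / 2) * ∑ k ∈ V, ∑ l ∈ V, W k l * (L k * L l - 1) + ∑ k ∈ V, η k * (L k - 1)) +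
      (-((L o - 1) * η o)) +
      (-(1 / 2) * ∑ i ∈ V.erase o, ∑ j ∈ V.erase o, W i j * (L i * L j - 1) -
        ∑ i ∈ V.erase o, (η + W o) i * (L i - 1)) +
      (-∑ k ∈ V.erase o, (L o - 1) * (L k * W o k)) = 0 := by
  have hv : insert o (V.erase o) = V := Finset.insert_erase ho
  have hn : o ∉ V.erase o := Finset.notMem_erase o V
  have h1 : ∑ k ∈ V, ∑ l ∈ V, W k l * (L k * L l - 1) =
      ∑ k ∈ V.erase o, ∑ l ∈ V.erase o, W k l * (L k * L l - 1) +
        2 * ∑ k ∈ V.erase o, W o k * (L o * L k - 1) := by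
    conv_lhs => rw [← hv]
    rw [Finset.sum_insert hn, Finset.sum_insert hn, hW.diag, zero_mul, zero_add]
    have h2 : ∑ k ∈ V.erase o, ∑ l ∈ insert o (V.erase o), W k l * (L k * L l - 1) =
        ∑ k ∈ V.erase o, W o k * (L o * L k - 1) +
          ∑ k ∈ V.erase o, ∑ l ∈ V.erase o, W k l * (L k * L l - 1) := by
      rw [← Finset.sum_add_distrib]
      refine Finset.sum_congr rfl fun k _ => ?_
      rw [Finset.sum_insert hn, hW.symm k o, mul_comm (L k) (L o)]
    rw [h2]
    ring
  have h3 : ∑ k ∈ V, η k * (L k - 1) = η o * (L o - 1) + ∑ k ∈ V.erase o, η k * (L k - 1) := by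
    conv_lhs => rw [← hv]
    rw [Finset.sum_insert hn]
  have h4 : ∑ k ∈ V.erase o, W o k * (L o * L k - 1) -
      ∑ k ∈ V.erase o, W o k * (L k - 1) - ∑ k ∈ V.erase o, (L o - 1) * (L k * W o k) = 0 := by
    rw [← Finset.sum_sub_distrib, ← Finset.sum_sub_distrib]
    refine Finset.sum_eq_zero fun k _ => ?_
    ring
  have h5 : ∑ i ∈ V.erase o, (η + W o) i * (L i - 1) =
      ∑ i ∈ V.erase o, η i * (L i - 1) + ∑ i ∈ V.erase o, W o i * (L i - 1) := by
    rw [← Finset.sum_add_distrib]
    refine Finset.sum_congr rfl fun k _ => ?_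
    rw [Pi.add_apply]
    ring
  rw [h1, h3, h5]
  linear_combination h4

private theorem gle_total (hW : Wt W) (ho : o ∈ V) (hi : i ∈ V) (hL : ∀ i, 1 ≤ L i) :
    pref W V η i L * (exp (-((L o - 1) * η o)) * (L i / L o)) *
      (Lam (V.erase o) W (η + W o) L *
        exp (-∑ k ∈ V.erase o, (L o - 1) * (L k * W o k))) = 1 := by
  have h1 := gle_prod ho hi hL
  have h2 := gle_expo hW ho L η
  unfold pref Lam
  have h3 : ∀ A B C D E F G H : ℝ, A * exp B * (exp C * D) * (exp E * F * exp G) =
      exp (B + C + E + G) * (A * D * F) := by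
    intro A B C D E F G H
    rw [exp_add, exp_add, exp_add]
    ring
  rw [h3 _ _ _ _ _ _ _ 0, h1, h2, exp_zero, mul_one]

private theorem gle_bound (hW : Wt W) (hη : ∀ i, 0 ≤ η i) (hL : ∀ i, 1 ≤ L i) (hLo : L o ≤ z)
    (hio : i ≠ o) {β : α → ℝ} (hG : Good W (V.erase o) β) :
    exp (-gE W V o η z L β) * kap W (V.erase o) β o i ≤
      exp (-((L o - 1) * η o)) * (L i / L o) *
        (exp (-∑ k ∈ V.erase o, ((L k) ^ 2 - 1) * β k) *
          (psi (WL W L) (V.erase o) (fun k => L k ^ 2 * β k)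
              ((fun k => L k * (η + W o) k) + fun k => (L o - 1) * (L k * W o k)) i *
            exp (-(1 / 2 * bil (WL W L) (V.erase o) (fun k => L k ^ 2 * β k)
                (fun k => (L o - 1) * (L k * W o k)) (fun k => (L o - 1) * (L k * W o k))) -
              bil (WL W L) (V.erase o) (fun k => L k ^ 2 * β k)
                (fun k => (L o - 1) * (L k * W o k)) (fun k => L k * (η + W o) k)))) := by
  set U := V.erase o with hU
  have hL0 : ∀ i, 0 < L i := fun i => lt_of_lt_of_le one_pos (hL i)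
  set β' : α → ℝ := fun k => L k ^ 2 * β k with hβ'
  set w : α → ℝ := fun k => L k * W o k with hw
  have hG' : Good (WL W L) U β' := good_scale hL0 hG
  have hs : 0 ≤ sfn W U η o β := sfn_nonneg hW hη hG
  -- the exponent
  have e1 : bil (WL W L) U β' w w = bil W U β (W o) (W o) := (bil_scale hL0 hG _ _).symm
  have e2 : bil (WL W L) U β' w (fun k => L k * (η + W o) k) = bil W U β (W o) (η + W o) :=
    (bil_scale hL0 hG _ _).symm
  have e3 : bil (WL W L) U β' (fun k => (L o - 1) * w k) (fun k => (L o - 1) * w k) =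
      (L o - 1) * ((L o - 1) * bil W U β (W o) (W o)) := by
    rw [bil_smul_left, bil_smul_right, e1]
  have e4 : bil (WL W L) U β' (fun k => (L o - 1) * w k) (fun k => L k * (η + W o) k) =
      (L o - 1) * bil W U β (W o) (η + W o) := by
    rw [bil_smul_left, e2]
  -- the kernel
  have k1 : kap W U β o i = L i * psi (WL W L) U β' w i := by
    unfold kap
    rw [if_neg hio]
    exact psi_scale hL0 hG (W o) i
  have k2 : L o * psi (WL W L) U β' w i ≤
      psi (WL W L) U β' ((fun k => L k * (η + W o) k) + fun k => (L o - 1) * w k) i := by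
    have h1 : L o * psi (WL W L) U β' w i = psi (WL W L) U β' (fun k => L o * w k) i := by
      unfold psi
      rw [Finset.mul_sum]
      exact Finset.sum_congr rfl fun j _ => by ring
    rw [h1]
    refine psi_mono hG' ?_ i
    intro k _
    have h2 : 0 ≤ L k * η k := mul_nonneg (hL0 k).le (hη k)
    simp only [Pi.add_apply, hw]
    nlinarith
  have k3 : kap W U β o i ≤ L i / L o *
      psi (WL W L) U β' ((fun k => L k * (η + W o) k) + fun k => (L o - 1) * w k) i := by
    rw [k1]
    have h3 : psi (WL W L) U β' w i ≤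
        psi (WL W L) U β' ((fun k => L k * (η + W o) k) + fun k => (L o - 1) * w k) i / L o := by
      rw [le_div_iff₀ (hL0 o)]
      linarith
    calc L i * psi (WL W L) U β' w i ≤ L i * (psi (WL W L) U β'
          ((fun k => L k * (η + W o) k) + fun k => (L o - 1) * w k) i / L o) :=
        mul_le_mul_of_nonneg_left h3 (hL0 i).le
      _ = _ := by ring
  have k4 : exp (-gE W V o η z L β) ≤ exp (-((L o - 1) * η o)) *
      (exp (-∑ k ∈ U, ((L k) ^ 2 - 1) * β k) *
        exp (-(1 / 2 * bil (WL W L) U β' (fun k => (L o - 1) * w k) (fun k => (L o - 1) * w k)) -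
          bil (WL W L) U β' (fun k => (L o - 1) * w k) (fun k => L k * (η + W o) k))) := by
    rw [← exp_add, ← exp_add]
    refine exp_le_exp.mpr ?_
    rw [e3, e4, bil_add_right]
    have h5 : (L o - 1) * sfn W U η o β ≤ (z - 1) * sfn W U η o β :=
      mul_le_mul_of_nonneg_right (by linarith) hs
    have h6 : sfn W U η o β = η o + bil W U β (W o) η := rfl
    unfold gE
    rw [← hU]
    rw [h6] at h5 ⊢
    nlinarith [h5]
  calc exp (-gE W V o η z L β) * kap W U β o i
      ≤ (exp (-((L o - 1) * η o)) *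
      (exp (-∑ k ∈ U, ((L k) ^ 2 - 1) * β k) *
        exp (-(1 / 2 * bil (WL W L) U β' (fun k => (L o - 1) * w k) (fun k => (L o - 1) * w k)) -
          bil (WL W L) U β' (fun k => (L o - 1) * w k) (fun k => L k * (η + W o) k)))) *
        (L i / L o *
      psi (WL W L) U β' ((fun k => L k * (η + W o) k) + fun k => (L o - 1) * w k) i) :=
        mul_le_mul k4 k3 (kap_nonneg hW hG o i) (by positivity)
    _ = _ := by ring

theorem g_le_one (hW : Wt W) (hη : ∀ i, 0 ≤ η i) (ho : o ∈ V)
    (h : VR μ (V.erase o) W (η + W o)) (hz : 1 ≤ z) (hL : ∀ i, 1 ≤ L i) (hLo : L o ≤ z)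
    (hi : i ∈ V) :
    gfun W V o η z μ i L ≤ 1 := by
  have hθ : ∀ i, 0 ≤ (η + W o) i := fun i => add_nonneg (hη i) (hW.nonneg o i)
  have hgood : ∀ᵐ β ∂μ, Good W (V.erase o) β := h.good hW hθ
  by_cases hio : i = o
  · subst hio
    have h1 : gfun W V i η z μ i L ≤ gfun W V i η (L i) μ i L := by
      unfold gfun
      refine mul_le_mul_right (lintegral_mono_ae ?_) _
      filter_upwards [hgood] with β hG
      refine ENNReal.ofReal_le_ofReal (mul_le_mul_of_nonneg_right ?_ (kap_nonneg hW hG i i))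
      refine exp_le_exp.mpr (neg_le_neg ?_)
      unfold gE
      have hs : 0 ≤ sfn W (V.erase i) η i β := sfn_nonneg hW hη hG
      have h5 : (L i - 1) * sfn W (V.erase i) η i β ≤ (z - 1) * sfn W (V.erase i) η i β :=
        mul_le_mul_of_nonneg_right (by linarith) hs
      linarith
    exact h1.trans (g_bdry hW hη ho h (hL i) hL rfl).le
  · have hiU : i ∈ V.erase o := Finset.mem_erase.mpr ⟨hio, hi⟩
    have hL0 : ∀ i, 0 < L i := fun i => lt_of_lt_of_le one_pos (hL i)
    obtain ⟨μL, hμL, hF⟩ := h.tilt hL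
    have hθL : ∀ i, 0 ≤ (fun k => L k * (η + W o) k) i :=
      fun i => mul_nonneg (hL0 i).le (hθ i)
    have hyL : ∀ i, 0 ≤ (fun k => (L o - 1) * (L k * W o k)) i :=
      fun i => mul_nonneg (by linarith [hL o]) (mul_nonneg (hL0 i).le (hW.nonneg o i))
    have hm := VR.mean1 (hW.WL hL0) hθL hyL hμL hiU
    have hmeas : Measurable (fun β : α → ℝ => ENNReal.ofReal (
        psi (WL W L) (V.erase o) β
              ((fun k => L k * (η + W o) k) + fun k => (L o - 1) * (L k * W o k)) i *
            exp (-(1 / 2 * bil (WL W L) (V.erase o) β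
                (fun k => (L o - 1) * (L k * W o k)) (fun k => (L o - 1) * (L k * W o k))) -
              bil (WL W L) (V.erase o) β
                (fun k => (L o - 1) * (L k * W o k)) (fun k => L k * (η + W o) k)))) := by
      refine ENNReal.measurable_ofReal.comp ?_
      refine (measurable_psi _ _ _ _).mul (measurable_exp.comp ?_)
      exact (((measurable_bil _ _ _ _).const_mul (1 / 2)).neg).sub (measurable_bil _ _ _ _)
    have hdep : DependsOn (fun β : α → ℝ => ENNReal.ofReal (
        psi (WL W L) (V.erase o) β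
              ((fun k => L k * (η + W o) k) + fun k => (L o - 1) * (L k * W o k)) i *
            exp (-(1 / 2 * bil (WL W L) (V.erase o) β
                (fun k => (L o - 1) * (L k * W o k)) (fun k => (L o - 1) * (L k * W o k))) -
              bil (WL W L) (V.erase o) β
                (fun k => (L o - 1) * (L k * W o k)) (fun k => L k * (η + W o) k))))
        ((V.erase o : Finset α) : Set α) := by
      intro a b hab
      have d1 := dependsOn_psi (WL W L) (V.erase o)
        ((fun k => L k * (η + W o) k) + fun k => (L o - 1) * (L k * W o k)) i hab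
      have d2 := dependsOn_bil (WL W L) (V.erase o)
        (fun k => (L o - 1) * (L k * W o k)) (fun k => (L o - 1) * (L k * W o k)) hab
      have d3 := dependsOn_bil (WL W L) (V.erase o)
        (fun k => (L o - 1) * (L k * W o k)) (fun k => L k * (η + W o) k) hab
      simp only at d1 d2 d3 ⊢
      rw [d1, d2, d3]
    have ht := hF _ hmeas hdep
    have hpos1 : 0 ≤ exp (-((L o - 1) * η o)) * (L i / L o) :=
      mul_nonneg (exp_pos _).le (div_nonneg (hL0 i).le (hL0 o).le)
    have hint : ∫⁻ β, ENNReal.ofReal (exp (-gE W V o η z L β) * kap W (V.erase o) β o i) ∂μ ≤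
        ENNReal.ofReal (exp (-((L o - 1) * η o)) * (L i / L o)) *
          (ENNReal.ofReal (Lam (V.erase o) W (η + W o) L) *
            ENNReal.ofReal (exp (-∑ k ∈ V.erase o, (L o - 1) * (L k * W o k)))) := by
      calc ∫⁻ β, ENNReal.ofReal (exp (-gE W V o η z L β) * kap W (V.erase o) β o i) ∂μ
          ≤ ∫⁻ β, ENNReal.ofReal (exp (-((L o - 1) * η o)) * (L i / L o)) *
              (ENNReal.ofReal (exp (-∑ k ∈ V.erase o, ((L k) ^ 2 - 1) * β k)) *
                ENNReal.ofReal (psi (WL W L) (V.erase o) (fun k => L k ^ 2 * β k)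
              ((fun k => L k * (η + W o) k) + fun k => (L o - 1) * (L k * W o k)) i *
            exp (-(1 / 2 * bil (WL W L) (V.erase o) (fun k => L k ^ 2 * β k)
                (fun k => (L o - 1) * (L k * W o k)) (fun k => (L o - 1) * (L k * W o k))) -
              bil (WL W L) (V.erase o) (fun k => L k ^ 2 * β k)
                (fun k => (L o - 1) * (L k * W o k)) (fun k => L k * (η + W o) k)))) ∂μ := by
            refine lintegral_mono_ae ?_
            filter_upwards [hgood] with β hG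
            rw [← ENNReal.ofReal_mul (exp_pos _).le, ← ENNReal.ofReal_mul hpos1]
            exact ENNReal.ofReal_le_ofReal (gle_bound hW hη hL hLo hio hG)
        _ = ENNReal.ofReal (exp (-((L o - 1) * η o)) * (L i / L o)) *
              ∫⁻ β, (ENNReal.ofReal (exp (-∑ k ∈ V.erase o, ((L k) ^ 2 - 1) * β k)) *
                ENNReal.ofReal (psi (WL W L) (V.erase o) (fun k => L k ^ 2 * β k)
              ((fun k => L k * (η + W o) k) + fun k => (L o - 1) * (L k * W o k)) i *
            exp (-(1 / 2 * bil (WL W L) (V.erase o) (fun k => L k ^ 2 * β k)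
                (fun k => (L o - 1) * (L k * W o k)) (fun k => (L o - 1) * (L k * W o k))) -
              bil (WL W L) (V.erase o) (fun k => L k ^ 2 * β k)
                (fun k => (L o - 1) * (L k * W o k)) (fun k => L k * (η + W o) k)))) ∂μ :=
            lintegral_const_mul' _ _ ENNReal.ofReal_ne_top
        _ ≤ _ := by
            refine mul_le_mul_right ?_ _
            rw [ht]
            exact mul_le_mul_right hm _
    have hLam : 0 ≤ Lam (V.erase o) W (η + W o) L := (Lam_pos hL).le
    have hfin : ENNReal.ofReal (pref W V η i L) *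
        (ENNReal.ofReal (exp (-((L o - 1) * η o)) * (L i / L o)) *
          (ENNReal.ofReal (Lam (V.erase o) W (η + W o) L) *
            ENNReal.ofReal (exp (-∑ k ∈ V.erase o, (L o - 1) * (L k * W o k))))) = 1 := by
      rw [← ENNReal.ofReal_mul hLam, ← ENNReal.ofReal_mul hpos1,
        ← ENNReal.ofReal_mul (pref_pos hL i).le, ← mul_assoc, gle_total hW ho hi hL,
        ENNReal.ofReal_one]
    unfold gfun
    exact (mul_le_mul_right hint _).trans hfin.le

end VJ26
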