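import Pool.Agent.VJ26.Defs

/-!
# [VJ-GREEN1] Green functions: uniqueness, locality, measurability

This file: `IsGreen.eq_gr`, `IsGreen.good`, `gr_congr`, `gr_zero_left`, `gr_zero_right`, `good_congr`, `good_empty`, `bil_congr`, `psi_congr`

`IsGreen.eq_gr`: the equation says `Hm W U β * G|_U = 1`
(`∑_k Hm i k * G k j = 2 β_i G_ij - ∑_k W_ik G_kj`), so `G|_U` is the inverse
(`Matrix.inv_eq_right_inv`); off `U` both vanish (`zero`, `symm`).

`gr_congr`: `Hm W U β` only uses `W` on `U × U` and `β` on `U`.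

`measurable_gr`: `A⁻¹ = Ring.inverse (det A) • adjugate A` (`Matrix.inv_def`), `det` and the
entries of `adjugate` are continuous in the entries (`Continuous.matrix_det`,
`Continuous.matrix_adjugate`), `Ring.inverse_eq_inv'`, `Measurable.inv`; the entries
of `Hm W U β` are measurable in `β`.
-/

open MeasureTheory Real
open scoped ENNReal

namespace VJ26

variable {α : Type*} [DecidableEq α]
variable {W W' : α → α → ℝ} {U : Finset α} {β β' θ x y : α → ℝ} {G : α → α → ℝ} {i j p q : α}

theorem IsGreen.eq_gr (h : IsGreen W U β G) : gr W U β = G := by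
  have hAB : Hm W U β * (Matrix.of fun i j : U => G i j) = 1 := by
    ext i j
    rw [Matrix.mul_apply]
    simp only [Hm, Matrix.of_apply, sub_mul, ite_mul, zero_mul, Finset.sum_sub_distrib,
      Finset.sum_ite_eq, Finset.mem_univ, if_true]
    have h1 := h.eq i i.2 j j.2
    rw [← Finset.sum_coe_sort U (fun k => W i k * G k j)] at h1
    rw [h1, Matrix.one_apply]
    by_cases hij : i = j
    · simp [hij]
    · rw [if_neg hij, if_neg (fun h2 => hij (Subtype.ext h2))]
  have hinv := Matrix.inv_eq_right_inv hAB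
  funext i j
  unfold gr
  split_ifs with hij
  · rw [hinv]; rfl
  · by_cases hi : i ∈ U
    · have hj : j ∉ U := fun hj => hij ⟨hi, hj⟩
      rw [h.symm i j, h.zero j i hj]
    · rw [h.zero i j hi]

theorem IsGreen.good (h : IsGreen W U β G) : Good W U β := by
  rw [Good, h.eq_gr]; exact h

theorem gr_congr (hW : ∀ i ∈ U, ∀ j ∈ U, W i j = W' i j) (hβ : ∀ i ∈ U, β i = β' i) :
    gr W U β = gr W' U β' := by
  have hH : Hm W U β = Hm W' U β' := by
    ext i j
    simp only [Hm, Matrix.of_apply]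
    rw [hW i i.2 j j.2, hβ i i.2]
  funext i j
  unfold gr
  rw [hH]

theorem gr_zero_left (hi : i ∉ U) : gr W U β i j = 0 := by
  unfold gr
  rw [dif_neg (fun h => hi h.1)]

theorem gr_zero_right (hj : j ∉ U) : gr W U β i j = 0 := by
  unfold gr
  rw [dif_neg (fun h => hj h.2)]

theorem good_congr (hW : ∀ i ∈ U, ∀ j ∈ U, W i j = W' i j) (hβ : ∀ i ∈ U, β i = β' i)
    (h : Good W U β) : Good W' U β' := by
  have hg := gr_congr hW hβ
  unfold Good at h ⊢
  rw [← hg]
  refine ⟨h.zero, h.symm, fun i hi j hj => ?_, h.nonneg, h.psd, h.pos⟩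
  rw [← h.eq i hi j hj, hβ i hi]
  congr 1
  exact Finset.sum_congr rfl fun k hk => by rw [hW i hi k hk]

theorem good_empty : Good W ∅ β := by
  have hz : ∀ i j, gr W ∅ β i j = 0 := fun i j => gr_zero_left (Finset.notMem_empty i)
  exact ⟨fun i j _ => hz i j, fun i j => by rw [hz, hz], fun i hi => absurd hi (Finset.notMem_empty i),
    fun i j => (hz i j).ge, fun x => by simp, fun i hi => absurd hi (Finset.notMem_empty i)⟩

theorem bil_congr (hW : ∀ i ∈ U, ∀ j ∈ U, W i j = W' i j) (hβ : ∀ i ∈ U, β i = β' i)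
    {x' y' : α → ℝ} (hx : ∀ i ∈ U, x i = x' i) (hy : ∀ i ∈ U, y i = y' i) :
    bil W U β x y = bil W' U β' x' y' := by
  unfold bil
  rw [gr_congr hW hβ]
  exact Finset.sum_congr rfl fun i hi => Finset.sum_congr rfl fun j hj => by rw [hx i hi, hy j hj]

theorem psi_congr (hW : ∀ i ∈ U, ∀ j ∈ U, W i j = W' i j) (hβ : ∀ i ∈ U, β i = β' i)
    {θ' : α → ℝ} (hx : ∀ i ∈ U, θ i = θ' i) : psi W U β θ = psi W' U β' θ' := by
  funext i
  unfold psi
  rw [gr_congr hW hβ]
  exact Finset.sum_congr rfl fun j hj => by rw [hx j hj]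

end VJ26
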