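import Pool.Agent.VJ26.Green3

/-!
# [VJ-GREEN2] Adding one vertex (Schur complement)

This file: `schur_isGreen`, `schur_good`, `schur_T`, `gr_insert`

`schur_good`: let `G = gr W U β` be good, `w = W m`, `q = ⟨w, G w⟩`, `2 β_m = 1/t + q`,
`κ_i = (G w)_i` on `U`, `κ_m = 1` (`κ_i = 0` elsewhere, automatically, since `psi` is zero
off `U`). Then `G⁺_ij = G_ij + t κ_i κ_j` is the Green function of `insert m U`.
 * equation, row `i ∈ U`: `2β_i G⁺_ij - ∑_{k∈U} W_ik G⁺_kj - W_im G⁺_mj`
   `= [2β_i G_ij - ∑_{k∈U} W_ik G_kj] + t κ_j [2β_i κ_i - ∑_{k∈U} W_ik κ_k - W_im]` and the last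
   bracket is `0` since `H_U (G w) = w` on `U`; (for `j = m`: `G_im = 0`, `G_km = 0`.)
   (`G_mj = 0` since `m ∉ U`.)
 * row `m`: `2β_m t κ_j - ∑_{k∈U} w_k (G_kj + t κ_k κ_j) - W_mm G⁺_mj`
   `= κ_j t (2β_m - q) - (G w)_j = κ_j - (G w)_j` (`(G w)_j = 0` for `j = m`), which is
   `0` for `j ∈ U` and `1` for `j = m`.
 * symmetric, nonnegative (`t > 0`, `κ ≥ 0`), `⟨x, G⁺ x⟩ = ⟨x, G x⟩_U + t (∑ κ_i x_i)^2 ≥ 0`,
   positive diagonal.

`schur_T`: from the equations for `G⁺ = gr W (insert m U) β`, `T = G⁺_mm > 0`: for `i ∈ U`,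
`∑_k H_U(i,k) G⁺_km = w_i T`, hence `G⁺_km = T (G w)_k` (multiply by `G`); row `m`:
`2 β_m T - ∑_{k∈U} w_k G⁺_km = 1`, i.e. `2β_m = 1/T + ⟨w, G w⟩`.

`gr_insert` = `schur_T` + `schur_good` + `IsGreen.eq_gr`. The rest is algebra.
-/

open MeasureTheory Real
open scoped ENNReal

namespace VJ26

variable {α : Type*} [DecidableEq α]
variable {W : α → α → ℝ} {U : Finset α} {β θ x y : α → ℝ} {m i j p q : α} {t : ℝ}

private theorem grn2_kap_m (m : α) : kap W U β m m = 1 := by
  simp [kap]

private theorem grn2_kap_of_mem (hm : m ∉ U) (hi : i ∈ U) :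
    kap W U β m i = psi W U β (W m) i := by
  have : i ≠ m := fun h => hm (h ▸ hi)
  simp [kap, this]

private theorem grn2_sum_wm (hG : Good W U β) (m j : α) :
    ∑ k ∈ U, W m k * gr W U β k j = psi W U β (W m) j := by
  rw [psi]
  apply Finset.sum_congr rfl
  intro k _
  rw [hG.symm k j]
  ring

theorem schur_isGreen (hW : Wt W) (hG : Good W U β) (hm : m ∉ U) (ht : 0 < t)
    (hβ : 2 * β m = 1 / t + bil W U β (W m) (W m)) :
    IsGreen W (insert m U) β
      (fun i j => gr W U β i j + t * kap W U β m i * kap W U β m j) := by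
  refine ⟨?_, ?_, ?_, ?_, ?_, ?_⟩
  · intro i j hi
    rw [Finset.mem_insert, not_or] at hi
    have h1 : kap W U β m i = 0 := by
      simp [kap, hi.1, psi_zero_off hi.2]
    rw [gr_zero_left hi.2, h1]
    ring
  · intro i j
    rw [hG.symm i j]
    ring
  · intro i hi j hj
    rw [Finset.sum_insert hm]
    have hsum : ∑ k ∈ U, W i k * (gr W U β k j + t * kap W U β m k * kap W U β m j) =
        ∑ k ∈ U, W i k * gr W U β k j +
          t * kap W U β m j * ∑ k ∈ U, W i k * psi W U β (W m) k := by
      rw [Finset.mul_sum, ← Finset.sum_add_distrib]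
      apply Finset.sum_congr rfl
      intro k hk
      rw [grn2_kap_of_mem hm hk]
      ring
    rw [hsum, gr_zero_left hm, grn2_kap_m]
    rcases Finset.mem_insert.mp hi with rfl | hiU
    · rw [grn2_sum_wm hG, hW.diag, gr_zero_left hm, grn2_kap_m, ← bil_eq_sum_psi]
      have h1 : t * (2 * β i - bil W U β (W i) (W i)) = 1 := by
        rw [hβ]
        field_simp
        ring
      rcases Finset.mem_insert.mp hj with rfl | hjU
      · rw [grn2_kap_m, psi_zero_off hm, if_pos rfl]
        linear_combination h1
      · have hij : i ≠ j := fun h => hm (h ▸ hjU)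
        rw [if_neg hij, grn2_kap_of_mem hm hjU]
        linear_combination (psi W U β (W i) j) * h1
    · have him : i ≠ m := fun h => hm (h ▸ hiU)
      have h1 := psi_eq hG (W m) hiU
      rw [grn2_kap_of_mem hm hiU]
      have h2 : 2 * β i * gr W U β i j - ∑ k ∈ U, W i k * gr W U β k j =
          if i = j then 1 else 0 := by
        rcases Finset.mem_insert.mp hj with rfl | hjU
        · rw [gr_zero_right hm, if_neg him, Finset.sum_eq_zero]
          · ring
          · intro k _
            rw [gr_zero_right hm, mul_zero]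
        · exact hG.eq i hiU j hjU
      rw [← h2]
      have h3 := hW.symm i m
      linear_combination (t * kap W U β m j) * h1 - (t * kap W U β m j) * h3
  · intro i j
    have h1 := kap_nonneg hW hG m i
    have h2 := kap_nonneg hW hG m j
    have h3 := hG.nonneg i j
    positivity
  · intro x
    have h1 : ∑ i ∈ insert m U, ∑ j ∈ insert m U,
        x i * (gr W U β i j + t * kap W U β m i * kap W U β m j) * x j =
        ∑ i ∈ U, ∑ j ∈ U, x i * gr W U β i j * x j +
          t * (∑ i ∈ insert m U, x i * kap W U β m i) ^ 2 := by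
      have h2 : ∑ i ∈ insert m U, ∑ j ∈ insert m U, x i * gr W U β i j * x j =
          ∑ i ∈ U, ∑ j ∈ U, x i * gr W U β i j * x j := by
        rw [Finset.sum_insert hm, Finset.sum_eq_zero, zero_add]
        · apply Finset.sum_congr rfl
          intro i _
          rw [Finset.sum_insert hm, gr_zero_right hm]
          ring
        · intro j _
          rw [gr_zero_left hm]
          ring
      rw [← h2, sq, Finset.sum_mul_sum, Finset.mul_sum, ← Finset.sum_add_distrib]
      apply Finset.sum_congr rfl
      intro i _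
      rw [Finset.mul_sum, ← Finset.sum_add_distrib]
      apply Finset.sum_congr rfl
      intro j _
      ring
    rw [h1]
    have h2 := hG.psd x
    positivity
  · intro i hi
    have h1 := hG.nonneg i i
    rcases Finset.mem_insert.mp hi with rfl | hiU
    · rw [grn2_kap_m]
      linarith
    · have h2 := hG.pos i hiU
      have h3 : 0 ≤ t * kap W U β m i * kap W U β m i := by
        have := mul_self_nonneg (kap W U β m i)
        rw [mul_assoc]
        positivity
      linarith

theorem schur_good (hW : Wt W) (hG : Good W U β) (hm : m ∉ U) (ht : 0 < t)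
    (hβ : 2 * β m = 1 / t + bil W U β (W m) (W m)) :
    Good W (insert m U) β ∧ gr W (insert m U) β m m = t := by
  have h := schur_isGreen hW hG hm ht hβ
  refine ⟨h.good, ?_⟩
  rw [h.eq_gr]
  change gr W U β m m + t * kap W U β m m * kap W U β m m = t
  rw [gr_zero_left hm, grn2_kap_m]
  ring

private theorem grn2_col (hW : Wt W) (hG : Good W U β) (hG' : Good W (insert m U) β)
    (hm : m ∉ U) (hi : i ∈ U) :
    gr W (insert m U) β i m = gr W (insert m U) β m m * psi W U β (W m) i := by
  have hT : 0 < gr W (insert m U) β m m := hG'.pos m (Finset.mem_insert_self _ _)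
  have h2 : gr W (insert m U) β i m / gr W (insert m U) β m m = psi W U β (W m) i := by
    apply psi_unique (x := fun k => gr W (insert m U) β k m / gr W (insert m U) β m m) hW hG _ hi
    intro i hi
    have him : i ≠ m := fun h => hm (h ▸ hi)
    have h3 := hG'.eq i (Finset.mem_insert_of_mem hi) m (Finset.mem_insert_self _ _)
    rw [Finset.sum_insert hm, if_neg him] at h3
    have h4 : ∑ k ∈ U, W i k * (gr W (insert m U) β k m / gr W (insert m U) β m m) =
        (∑ k ∈ U, W i k * gr W (insert m U) β k m) / gr W (insert m U) β m m := by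
      rw [Finset.sum_div]
      apply Finset.sum_congr rfl
      intro k _
      ring
    rw [h4, hW.symm m i]
    field_simp
    linarith
  rw [← h2]
  field_simp

theorem schur_T (hW : Wt W) (hG : Good W U β) (hG' : Good W (insert m U) β) (hm : m ∉ U) :
    2 * β m = 1 / gr W (insert m U) β m m + bil W U β (W m) (W m) := by
  have hT : 0 < gr W (insert m U) β m m := hG'.pos m (Finset.mem_insert_self _ _)
  have h1 := hG'.eq m (Finset.mem_insert_self _ _) m (Finset.mem_insert_self _ _)
  rw [Finset.sum_insert hm, if_pos rfl, hW.diag] at h1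
  rw [bil_eq_sum_psi]
  have h2 : ∑ k ∈ U, W m k * gr W (insert m U) β k m =
      gr W (insert m U) β m m * ∑ k ∈ U, W m k * psi W U β (W m) k := by
    rw [Finset.mul_sum]
    apply Finset.sum_congr rfl
    intro k hk
    rw [grn2_col hW hG hG' hm hk]
    ring
  rw [h2] at h1
  field_simp
  linarith

theorem gr_insert (hW : Wt W) (hG : Good W U β) (hG' : Good W (insert m U) β) (hm : m ∉ U)
    (i j : α) :
    gr W (insert m U) β i j =
      gr W U β i j + gr W (insert m U) β m m * kap W U β m i * kap W U β m j := by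
  have hT : 0 < gr W (insert m U) β m m := hG'.pos m (Finset.mem_insert_self _ _)
  have h := (schur_isGreen hW hG hm hT (schur_T hW hG hG' hm)).eq_gr
  exact congrFun (congrFun h i) j

end VJ26
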