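import Pool.Agent.VJ26.GreenM

/-!
# [VJ-GREEN3] Green functions: further algebra

This file: `bil_nonneg`, `psi_nonneg`, `kap_nonneg`, `cap_nonneg`, `cap_ge`, `bil_symm`, `cap_symm`, `bil_add_left`, `bil_add_right`, `bil_smul_left`, `bil_smul_right`, `bil_self_nonneg`, `bil_sq_le`, `bil_eq_sum_psi`, `psi_add`, `psi_mono`, `bil_mono`, `psi_ge_term`, `bil_ge_term`, `psi_eq`, `psi_unique`, `psi_zero_off`

All statements are finite sums. `bil_sq_le` is Cauchy-Schwarz for the positive semidefinite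
form `psd` (discriminant: `0 ≤ ⟨x + s y, G (x + s y)⟩` for all real `s`).
`psi_eq`: multiply `eq` by `θ_j` and sum over `j`. `psi_unique`: if `H x = θ` on `U` then
`∑_i G_ki θ_i = ∑_i G_ki (2β_i x_i - ∑_l W_il x_l) = x_k` by symmetry of `G`, `W` and `eq`.
`gr_scale`: `G_ij = L_i L_j G'_ij` where `G' = gr (WL W L) U (L^2 β)`: use `IsGreen.eq_gr` for
`(i,j) ↦ (L_i)⁻¹ (L_j)⁻¹ G_ij` (this function is good for the scaled data when `Good W U β`).
`gr_relabel`: relabelling by a bijection `e` of the vertex set: apply `IsGreen.eq_gr`.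
-/

open MeasureTheory Real
open scoped ENNReal

namespace VJ26

variable {α : Type*} [DecidableEq α]
variable {W : α → α → ℝ} {U : Finset α} {β θ x y z : α → ℝ} {m i j p q : α} {t : ℝ}

theorem bil_nonneg (hG : Good W U β) (hx : ∀ i ∈ U, 0 ≤ x i) (hy : ∀ i ∈ U, 0 ≤ y i) :
    0 ≤ bil W U β x y := by
  unfold bil
  refine Finset.sum_nonneg fun i hi => Finset.sum_nonneg fun j hj => ?_
  exact mul_nonneg (mul_nonneg (hx i hi) (hG.nonneg i j)) (hy j hj)

theorem psi_nonneg (hG : Good W U β) (hθ : ∀ i ∈ U, 0 ≤ θ i) (i : α) :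
    0 ≤ psi W U β θ i := by
  unfold psi
  exact Finset.sum_nonneg fun j hj => mul_nonneg (hG.nonneg i j) (hθ j hj)

theorem kap_nonneg (hW : Wt W) (hG : Good W U β) (m i : α) : 0 ≤ kap W U β m i := by
  unfold kap
  split_ifs with h
  · exact zero_le_one
  · exact psi_nonneg hG (fun j _ => hW.nonneg m j) i

theorem cap_nonneg (hW : Wt W) (hG : Good W U β) (p q : α) : 0 ≤ cap W U β p q := by
  unfold cap
  exact add_nonneg (hW.nonneg p q)
    (bil_nonneg hG (fun j _ => hW.nonneg p j) (fun j _ => hW.nonneg q j))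

theorem cap_ge (hW : Wt W) (hG : Good W U β) (p q : α) : W p q ≤ cap W U β p q := by
  unfold cap
  exact le_add_of_nonneg_right
    (bil_nonneg hG (fun j _ => hW.nonneg p j) (fun j _ => hW.nonneg q j))

theorem bil_symm (hG : Good W U β) (x y : α → ℝ) : bil W U β x y = bil W U β y x := by
  unfold bil
  rw [Finset.sum_comm]
  refine Finset.sum_congr rfl fun i _ => Finset.sum_congr rfl fun j _ => ?_
  rw [hG.symm j i]
  ring

theorem cap_symm (hW : Wt W) (hG : Good W U β) (p q : α) :
    cap W U β p q = cap W U β q p := by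
  unfold cap
  rw [hW.symm p q, bil_symm hG]

theorem bil_add_left (x y z : α → ℝ) :
    bil W U β (x + y) z = bil W U β x z + bil W U β y z := by
  unfold bil
  simp only [Pi.add_apply, add_mul, Finset.sum_add_distrib]

theorem bil_add_right (x y z : α → ℝ) :
    bil W U β x (y + z) = bil W U β x y + bil W U β x z := by
  unfold bil
  simp only [Pi.add_apply, mul_add, Finset.sum_add_distrib]

theorem bil_smul_left (c : ℝ) (x y : α → ℝ) :
    bil W U β (fun i => c * x i) y = c * bil W U β x y := by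
  unfold bil
  simp only [Finset.mul_sum]
  refine Finset.sum_congr rfl fun i _ => Finset.sum_congr rfl fun j _ => ?_
  ring

theorem bil_smul_right (c : ℝ) (x y : α → ℝ) :
    bil W U β x (fun i => c * y i) = c * bil W U β x y := by
  unfold bil
  simp only [Finset.mul_sum]
  refine Finset.sum_congr rfl fun i _ => Finset.sum_congr rfl fun j _ => ?_
  ring

theorem bil_self_nonneg (hG : Good W U β) (x : α → ℝ) : 0 ≤ bil W U β x x :=
  hG.psd x

theorem bil_sq_le (hG : Good W U β) (x y : α → ℝ) :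
    bil W U β x y ^ 2 ≤ bil W U β x x * bil W U β y y := by
  have key : ∀ s : ℝ, 0 ≤ bil W U β y y * (s * s) + (2 * bil W U β x y) * s + bil W U β x x := by
    intro s
    have h := bil_self_nonneg hG (x + fun i => s * y i)
    rw [bil_add_left, bil_add_right, bil_add_right, bil_smul_left, bil_smul_left,
      bil_smul_right, bil_smul_right, bil_symm hG y x] at h
    nlinarith [h]
  have h := discrim_le_zero key
  unfold discrim at h
  nlinarith [h]

theorem bil_eq_sum_psi (x y : α → ℝ) :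
    bil W U β x y = ∑ i ∈ U, x i * psi W U β y i := by
  unfold bil psi
  refine Finset.sum_congr rfl fun i _ => ?_
  rw [Finset.mul_sum]
  refine Finset.sum_congr rfl fun j _ => ?_
  ring

theorem psi_add (x y : α → ℝ) (i : α) :
    psi W U β (x + y) i = psi W U β x i + psi W U β y i := by
  unfold psi
  simp only [Pi.add_apply, mul_add, Finset.sum_add_distrib]

theorem psi_mono (hG : Good W U β) (h : ∀ i ∈ U, x i ≤ y i) (i : α) :
    psi W U β x i ≤ psi W U β y i := by
  unfold psi
  exact Finset.sum_le_sum fun j hj => mul_le_mul_of_nonneg_left (h j hj) (hG.nonneg i j)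

theorem bil_mono (hG : Good W U β) {x' y' : α → ℝ} (hx0 : ∀ i ∈ U, 0 ≤ x i)
    (hx : ∀ i ∈ U, x i ≤ x' i) (hy0 : ∀ i ∈ U, 0 ≤ y i) (hy : ∀ i ∈ U, y i ≤ y' i) :
    bil W U β x y ≤ bil W U β x' y' := by
  unfold bil
  refine Finset.sum_le_sum fun i hi => Finset.sum_le_sum fun j hj => ?_
  have h1 : 0 ≤ gr W U β i j := hG.nonneg i j
  have h2 : x i * gr W U β i j ≤ x' i * gr W U β i j := mul_le_mul_of_nonneg_right (hx i hi) h1
  exact mul_le_mul h2 (hy j hj) (hy0 j hj) (mul_nonneg ((hx0 i hi).trans (hx i hi)) h1)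

/-- the single term lower bounds -/
theorem psi_ge_term (hG : Good W U β) (hθ : ∀ i ∈ U, 0 ≤ θ i) (hi : i ∈ U) :
    gr W U β i i * θ i ≤ psi W U β θ i := by
  unfold psi
  exact Finset.single_le_sum (f := fun j => gr W U β i j * θ j)
    (fun j hj => mul_nonneg (hG.nonneg i j) (hθ j hj)) hi

theorem bil_ge_term (hG : Good W U β) (hx : ∀ i ∈ U, 0 ≤ x i) (hy : ∀ i ∈ U, 0 ≤ y i)
    (hi : i ∈ U) : x i * gr W U β i i * y i ≤ bil W U β x y := by
  rw [bil_eq_sum_psi]
  have h1 : x i * psi W U β y i ≤ ∑ k ∈ U, x k * psi W U β y k :=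
    Finset.single_le_sum (f := fun k => x k * psi W U β y k)
      (fun k hk => mul_nonneg (hx k hk) (psi_nonneg hG hy k)) hi
  refine le_trans ?_ h1
  rw [mul_assoc]
  exact mul_le_mul_of_nonneg_left (psi_ge_term hG hy hi) (hx i hi)

theorem psi_eq (hG : Good W U β) (θ : α → ℝ) (hi : i ∈ U) :
    2 * β i * psi W U β θ i - ∑ k ∈ U, W i k * psi W U β θ k = θ i := by
  have h : ∑ j ∈ U, (2 * β i * gr W U β i j - ∑ k ∈ U, W i k * gr W U β k j) * θ j = θ i := by
    rw [Finset.sum_congr rfl (fun j hj => by rw [hG.eq i hi j hj])]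
    simp [hi]
  rw [← h]
  unfold psi
  simp only [sub_mul, Finset.sum_sub_distrib, Finset.mul_sum, Finset.sum_mul]
  congr 1
  · refine Finset.sum_congr rfl fun j _ => ?_
    ring
  · rw [Finset.sum_comm]
    refine Finset.sum_congr rfl fun j _ => Finset.sum_congr rfl fun k _ => ?_
    ring

theorem psi_unique (hW : Wt W) (hG : Good W U β)
    (hx : ∀ i ∈ U, 2 * β i * x i - ∑ k ∈ U, W i k * x k = θ i) (hi : i ∈ U) :
    x i = psi W U β θ i := by
  unfold psi
  have h1 : ∑ j ∈ U, gr W U β i j * θ j =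
      ∑ j ∈ U, gr W U β i j * (2 * β j * x j - ∑ k ∈ U, W j k * x k) :=
    Finset.sum_congr rfl fun j hj => by rw [hx j hj]
  have h2 : ∑ j ∈ U, gr W U β i j * (2 * β j * x j - ∑ k ∈ U, W j k * x k) =
      ∑ j ∈ U, (2 * β j * gr W U β j i - ∑ k ∈ U, W j k * gr W U β k i) * x j := by
    simp only [mul_sub, sub_mul, Finset.sum_sub_distrib, Finset.mul_sum, Finset.sum_mul]
    congr 1
    · refine Finset.sum_congr rfl fun j _ => ?_
      rw [hG.symm i j]
      ring
    · rw [Finset.sum_comm]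
      refine Finset.sum_congr rfl fun j _ => Finset.sum_congr rfl fun k _ => ?_
      rw [hG.symm i k, hW.symm j k]
      ring
  rw [h1, h2, Finset.sum_congr rfl (fun j hj => by rw [hG.eq j hj i hi])]
  simp [hi]

theorem psi_zero_off (hi : i ∉ U) : psi W U β θ i = 0 := by
  unfold psi
  exact Finset.sum_eq_zero fun j _ => by rw [gr_zero_left hi, zero_mul]

end VJ26
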