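import Pool.Agent.VJ26.Green1

/-!
# [VJ-GREENM] Green functions: uniqueness, locality, measurability

This file: `measurable_gr`, `measurable_bil`, `measurable_psi`, `measurable_cap`, `measurable_sfn`, `dependsOn_gr`, `dependsOn_bil`, `dependsOn_psi`, `dependsOn_cap`, `dependsOn_sfn`

`IsGreen.eq_gr`: the equation says `Hm W U β * G|_U = 1`
(`∑_k Hm i k * G k j = 2 β_i G_ij - ∑_k W_ik G_kj`), so `G|_U` is the inverse
(`Matrix.inv_eq_right_inv`); off `U` both vanish (`zero`, `symm`).

`gr_congr`: `Hm W U β` only uses `W` on `U × U` and `β` on `U`.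

`measurable_gr`: `A⁻¹ = Ring.inverse (det A) • adjugate A` (`Matrix.inv_def`), `det` and the
entries of `adjugate` are continuous in the entries (`Continuous.matrix_det`,
`Continuous.matrix_adjugate`), `Ring.inverse_eq_inv'`, `Measurable.inv`; the entries
of `Hm W U β` are measurable in `β`.
-/

open MeasureTheory Real
open scoped ENNReal

namespace VJ26

variable {α : Type*} [DecidableEq α]
variable {W W' : α → α → ℝ} {U : Finset α} {β β' θ x y : α → ℝ} {G : α → α → ℝ} {i j p q : α}

/-- The determinant of a matrix with measurable entries is measurable. -/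
theorem measurable_det_of_entries {Ω ι : Type*} [MeasurableSpace Ω] [Fintype ι] [DecidableEq ι]
    {f : Ω → Matrix ι ι ℝ} (hf : ∀ i j, Measurable fun w => f w i j) :
    Measurable fun w => (f w).det := by
  simp only [Matrix.det_apply]
  refine Finset.measurable_sum _ fun σ _ => ?_
  refine Measurable.const_smul ?_ _
  exact Finset.measurable_prod _ fun i _ => hf _ _

/-- The entries of the inverse of a matrix with measurable entries are measurable. -/
theorem measurable_inv_of_entries {Ω ι : Type*} [MeasurableSpace Ω] [Fintype ι] [DecidableEq ι]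
    {f : Ω → Matrix ι ι ℝ} (hf : ∀ i j, Measurable fun w => f w i j) (i j : ι) :
    Measurable fun w => (f w)⁻¹ i j := by
  have h : (fun w => (f w)⁻¹ i j)
      = fun w => ((f w).det)⁻¹ * ((f w).updateRow j (Pi.single i 1)).det := by
    funext w
    rw [Matrix.inv_def, Matrix.smul_apply, Matrix.adjugate_apply, Ring.inverse_eq_inv',
      smul_eq_mul]
  rw [h]
  refine (measurable_det_of_entries hf).inv.mul (measurable_det_of_entries fun a b => ?_)
  by_cases hab : a = j
  · subst hab
    simp only [Matrix.updateRow_self]
    exact measurable_const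
  · have : (fun w => (f w).updateRow j (Pi.single i 1) a b) = fun w => f w a b := by
      funext w
      rw [Matrix.updateRow_ne hab]
    rw [this]
    exact hf a b

theorem measurable_gr (W : α → α → ℝ) (U : Finset α) (i j : α) :
    Measurable (fun β : α → ℝ => gr W U β i j) := by
  unfold gr
  by_cases h : i ∈ U ∧ j ∈ U
  · simp only [dif_pos h]
    refine measurable_inv_of_entries (fun a b => ?_) _ _
    simp only [Hm, Matrix.of_apply]
    by_cases hab : a = b
    · simp only [hab, if_true]
      exact ((measurable_pi_apply _).const_mul 2).sub_const _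
    · simp only [hab, if_false]
      exact measurable_const
  · simp only [dif_neg h]
    exact measurable_const

theorem measurable_bil (W : α → α → ℝ) (U : Finset α) (x y : α → ℝ) :
    Measurable (fun β : α → ℝ => bil W U β x y) := by
  unfold bil
  exact Finset.measurable_sum _ fun i _ => Finset.measurable_sum _ fun j _ =>
    ((measurable_gr W U i j).const_mul _).mul_const _

theorem measurable_psi (W : α → α → ℝ) (U : Finset α) (θ : α → ℝ) (i : α) :
    Measurable (fun β : α → ℝ => psi W U β θ i) := by
  unfold psi
  exact Finset.measurable_sum _ fun j _ => (measurable_gr W U i j).mul_const _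

theorem measurable_cap (W : α → α → ℝ) (U : Finset α) (p q : α) :
    Measurable (fun β : α → ℝ => cap W U β p q) := by
  unfold cap
  exact (measurable_bil W U (W p) (W q)).const_add _

theorem measurable_sfn (W : α → α → ℝ) (U : Finset α) (θ : α → ℝ) (m : α) :
    Measurable (fun β : α → ℝ => sfn W U θ m β) := by
  unfold sfn
  exact (measurable_bil W U (W m) θ).const_add _

theorem dependsOn_gr (W : α → α → ℝ) (U : Finset α) (i j : α) :
    DependsOn (fun β : α → ℝ => gr W U β i j) (U : Set α) := by
  intro β β' h
  have := gr_congr (W := W) (W' := W) (U := U) (β := β) (β' := β')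
    (fun _ _ _ _ => rfl) (fun i hi => h i (Finset.mem_coe.2 hi))
  simp only [this]

theorem dependsOn_bil (W : α → α → ℝ) (U : Finset α) (x y : α → ℝ) :
    DependsOn (fun β : α → ℝ => bil W U β x y) (U : Set α) := by
  intro β β' h
  exact bil_congr (fun _ _ _ _ => rfl) (fun i hi => h i (Finset.mem_coe.2 hi))
    (fun _ _ => rfl) (fun _ _ => rfl)

theorem dependsOn_psi (W : α → α → ℝ) (U : Finset α) (θ : α → ℝ) (i : α) :
    DependsOn (fun β : α → ℝ => psi W U β θ i) (U : Set α) := by
  intro β β' h
  have := psi_congr (W := W) (W' := W) (U := U) (β := β) (β' := β') (θ := θ) (θ' := θ)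
    (fun _ _ _ _ => rfl) (fun i hi => h i (Finset.mem_coe.2 hi)) (fun _ _ => rfl)
  simp only [this]

theorem dependsOn_cap (W : α → α → ℝ) (U : Finset α) (p q : α) :
    DependsOn (fun β : α → ℝ => cap W U β p q) (U : Set α) := by
  intro β β' h
  have := dependsOn_bil W U (W p) (W q) h
  simp only [cap]
  exact congrArg (fun t => W p q + t) this

theorem dependsOn_sfn (W : α → α → ℝ) (U : Finset α) (θ : α → ℝ) (m : α) :
    DependsOn (fun β : α → ℝ => sfn W U θ m β) (U : Set α) := by
  intro β β' h
  have := dependsOn_bil W U (W m) θ h
  simp only [sfn]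
  exact congrArg (fun t => θ m + t) this

end VJ26
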