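import Pool.Agent.VJ26.Green3

/-!
# [VJ-GREENS] Green functions: further algebra

This file: `Wt.WL`, `good_scale`, `good_unscale`, `gr_scale`, `bil_scale`, `psi_scale`, `gr_relabel`

All statements are finite sums. `bil_sq_le` is Cauchy-Schwarz for the positive semidefinite
form `psd` (discriminant: `0 ≤ ⟨x + s y, G (x + s y)⟩` for all real `s`).
`psi_eq`: multiply `eq` by `θ_j` and sum over `j`. `psi_unique`: if `H x = θ` on `U` then
`∑_i G_ki θ_i = ∑_i G_ki (2β_i x_i - ∑_l W_il x_l) = x_k` by symmetry of `G`, `W` and `eq`.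
`gr_scale`: `G_ij = L_i L_j G'_ij` where `G' = gr (WL W L) U (L^2 β)`: use `IsGreen.eq_gr` for
`(i,j) ↦ (L_i)⁻¹ (L_j)⁻¹ G_ij` (this function is good for the scaled data when `Good W U β`).
`gr_relabel`: relabelling by a bijection `e` of the vertex set: apply `IsGreen.eq_gr`.
-/

open MeasureTheory Real
open scoped ENNReal

namespace VJ26

variable {α : Type*} [DecidableEq α]
variable {W : α → α → ℝ} {U : Finset α} {β θ x y z : α → ℝ} {m i j p q : α} {t : ℝ}

theorem Wt.WL (hW : Wt W) {L : α → ℝ} (hL : ∀ i, 0 < L i) : Wt (WL W L) where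
  symm i j := by
    change L i * W i j * L j = L j * W j i * L i
    rw [hW.symm i j]
    ring
  nonneg i j := mul_nonneg (mul_nonneg (hL i).le (hW.nonneg i j)) (hL j).le
  diag i := by
    change L i * W i i * L i = 0
    rw [hW.diag i, mul_zero, zero_mul]

theorem isGreen_scale {L : α → ℝ} (hL : ∀ i, 0 < L i) (hG : Good W U β) :
    IsGreen (VJ26.WL W L) U (fun i => L i ^ 2 * β i)
      (fun i j => (L i)⁻¹ * (L j)⁻¹ * gr W U β i j) where
  zero i j hi := by
    rw [hG.zero i j hi, mul_zero]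
  symm i j := by
    rw [hG.symm i j]
    ring
  eq i hi j hj := by
    have h1 : ∀ k, VJ26.WL W L i k * ((L k)⁻¹ * (L j)⁻¹ * gr W U β k j) =
        L i * (L j)⁻¹ * (W i k * gr W U β k j) := by
      intro k
      have := (hL k).ne'
      unfold VJ26.WL
      field_simp
    have h2 : 2 * (L i ^ 2 * β i) * ((L i)⁻¹ * (L j)⁻¹ * gr W U β i j) -
        ∑ k ∈ U, VJ26.WL W L i k * ((L k)⁻¹ * (L j)⁻¹ * gr W U β k j) =
        L i * (L j)⁻¹ * (2 * β i * gr W U β i j - ∑ k ∈ U, W i k * gr W U β k j) := by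
      rw [Finset.sum_congr rfl (fun k _ => h1 k), ← Finset.mul_sum]
      have := (hL i).ne'
      have := (hL j).ne'
      field_simp
    change 2 * (L i ^ 2 * β i) * ((L i)⁻¹ * (L j)⁻¹ * gr W U β i j) -
        ∑ k ∈ U, VJ26.WL W L i k * ((L k)⁻¹ * (L j)⁻¹ * gr W U β k j) = _
    rw [h2, hG.eq i hi j hj]
    split_ifs with h
    · rw [h, mul_one, mul_inv_cancel₀ (hL j).ne']
    · rw [mul_zero]
  nonneg i j := mul_nonneg (mul_nonneg (inv_nonneg.2 (hL i).le) (inv_nonneg.2 (hL j).le))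
    (hG.nonneg i j)
  psd x := by
    have h1 := hG.psd (fun i => (L i)⁻¹ * x i)
    have h2 : ∑ i ∈ U, ∑ j ∈ U, (L i)⁻¹ * x i * gr W U β i j * ((L j)⁻¹ * x j) =
        ∑ i ∈ U, ∑ j ∈ U, x i * ((L i)⁻¹ * (L j)⁻¹ * gr W U β i j) * x j :=
      Finset.sum_congr rfl fun i _ => Finset.sum_congr rfl fun j _ => by ring
    exact h2 ▸ h1
  pos i hi := mul_pos (mul_pos (inv_pos.2 (hL i)) (inv_pos.2 (hL i))) (hG.pos i hi)

theorem good_scale {L : α → ℝ} (hL : ∀ i, 0 < L i) (hG : Good W U β) :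
    Good (VJ26.WL W L) U (fun i => L i ^ 2 * β i) :=
  (isGreen_scale hL hG).good

theorem good_unscale {L : α → ℝ} (hL : ∀ i, 0 < L i)
    (hG : Good (VJ26.WL W L) U (fun i => L i ^ 2 * β i)) : Good W U β := by
  have h1 := good_scale (L := fun i => (L i)⁻¹) (fun i => inv_pos.2 (hL i)) hG
  have h2 : VJ26.WL (VJ26.WL W L) (fun i => (L i)⁻¹) = W := by
    funext i j
    have := (hL i).ne'
    have := (hL j).ne'
    unfold VJ26.WL
    field_simp
  have h3 : (fun i => (L i)⁻¹ ^ 2 * (L i ^ 2 * β i)) = β := by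
    funext i
    have := (hL i).ne'
    field_simp
  rw [h2] at h1
  exact h3 ▸ h1

theorem gr_scale {L : α → ℝ} (hL : ∀ i, 0 < L i) (hG : Good W U β) (i j : α) :
    gr W U β i j = L i * L j * gr (VJ26.WL W L) U (fun i => L i ^ 2 * β i) i j := by
  rw [(isGreen_scale hL hG).eq_gr]
  have := (hL i).ne'
  have := (hL j).ne'
  field_simp

theorem bil_scale {L : α → ℝ} (hL : ∀ i, 0 < L i) (hG : Good W U β) (x y : α → ℝ) :
    bil W U β x y = bil (VJ26.WL W L) U (fun i => L i ^ 2 * β i)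
      (fun i => L i * x i) (fun i => L i * y i) := by
  unfold bil
  refine Finset.sum_congr rfl fun i _ => Finset.sum_congr rfl fun j _ => ?_
  rw [gr_scale hL hG i j]
  ring

theorem psi_scale {L : α → ℝ} (hL : ∀ i, 0 < L i) (hG : Good W U β) (θ : α → ℝ) (i : α) :
    psi W U β θ i = L i * psi (VJ26.WL W L) U (fun i => L i ^ 2 * β i)
      (fun i => L i * θ i) i := by
  unfold psi
  rw [Finset.mul_sum]
  refine Finset.sum_congr rfl fun j _ => ?_
  rw [gr_scale hL hG i j]
  ring

theorem gr_relabel (e : α ≃ α) (he : ∀ i j, W (e i) (e j) = W i j) (hG : Good W (U.map e.toEmbedding) β)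
    (i j : α) :
    gr W (U.map e.toEmbedding) β (e i) (e j) = gr W U (fun k => β (e k)) i j := by
  have hmem : ∀ i, e i ∈ U.map e.toEmbedding ↔ i ∈ U := fun i => by
    rw [Finset.mem_map_equiv, Equiv.symm_apply_apply]
  have h : IsGreen W U (fun k => β (e k))
      (fun i j => gr W (U.map e.toEmbedding) β (e i) (e j)) := by
    refine ⟨fun i j hi => ?_, fun i j => hG.symm _ _, fun i hi j hj => ?_, fun i j => hG.nonneg _ _,
      fun x => ?_, fun i hi => hG.pos _ ((hmem i).2 hi)⟩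
    · exact hG.zero _ _ fun h => hi ((hmem i).1 h)
    · have h1 := hG.eq (e i) ((hmem i).2 hi) (e j) ((hmem j).2 hj)
      rw [Finset.sum_map] at h1
      simp only [Equiv.coe_toEmbedding, he, EmbeddingLike.apply_eq_iff_eq] at h1
      exact h1
    · have h1 := hG.psd (fun a => x (e.symm a))
      simp only [Finset.sum_map, Equiv.coe_toEmbedding, Equiv.symm_apply_apply] at h1
      exact h1
  exact (congrFun (congrFun h.eq_gr i) j).symm

end VJ26
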