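import Pool.Agent.VJ26.Defs

/-!
# [VJ-IG1] The inverse Gaussian integrals, part 1

Everything is a consequence of the master integral: for `A > 0`, `B ≥ 0`
  `∫_0^∞ (2 π t^3)^(-1/2) exp(-(A^2/(2t) + B^2 t/2)) dt = A⁻¹ exp(-A B)`.   (IGM)

PROOF of (IGM). Substitute `t = 1/x^2` (or first `t = 1/u`): `(2πt^3)^(-1/2) dt` becomes
`2 (2π)^(-1/2) dx` on `x > 0`, so the integral is
`sqrt(2/π) ∫_0^∞ exp(-(A^2 x^2/2 + B^2/(2 x^2))) dx`. Write
`A^2 x^2/2 + B^2/(2x^2) = (A x - B/x)^2/2 + A B`. The Cauchy-Schloemilch substitution: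
for `a > 0, b ≥ 0` and an even function `f`, `∫_0^∞ f(a x - b/x) dx = a⁻¹ ∫_0^∞ f(y) dy`.
A direct way: for `B > 0` let `u(x) = A x - B/x`, an increasing bijection
`(0,∞) → R` with `u' = A + B/x^2`. Then `∫_0^∞ exp(-u^2/2) u' dx = sqrt(2π)`
(change of variables, or FTC limit), and the map `x -> (B/A)/x` exchanges the two parts:
`∫ exp(-u^2/2) A dx = ∫ exp(-u^2/2) (B/x^2) dx`, so each equals `sqrt(2π)/2`. Hence
`∫_0^∞ exp(-u^2/2) dx = sqrt(2π)/(2A)` and (IGM) follows. For `B = 0` it is the Gaussian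
integral (`integral_gaussian_Ioi`). Mathlib: `MeasureTheory.integral_image_eq_integral_abs_deriv_smul`,
`integral_comp_...`, `lintegral_image_eq_lintegral_abs_deriv_mul` (the last one is convenient since
everything is in lintegral form).

The other statements are (IGM) with
`(1-st)^2/(2t) + c t = 1/(2t) - s + (s^2+2c) t/2` and
`(1-st)^2/(2t) + (L^2-1)/(2t) = L^2/(2t) - s + s^2 t/2`.
-/

open MeasureTheory Real
open scoped ENNReal

namespace VJ26

theorem measurable_ig : Measurable (fun p : ℝ × ℝ => ig p.1 p.2) := by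
  unfold ig
  fun_prop

theorem ig_nonneg (s t : ℝ) : 0 ≤ ig s t := by
  unfold ig
  positivity

/-- The Gaussian integral over the line, in `lintegral` form. -/
theorem ig_gauss_univ :
    ∫⁻ y : ℝ, ENNReal.ofReal (exp (-(y ^ 2 / 2))) = ENNReal.ofReal (Real.sqrt (2 * π)) := by
  have h1 : Integrable (fun y : ℝ => exp (-(1 / 2) * y ^ 2)) :=
    integrable_exp_neg_mul_sq (by norm_num)
  have h2 : ∫ y : ℝ, exp (-(1 / 2) * y ^ 2) = Real.sqrt (π / (1 / 2)) := integral_gaussian _
  have h3 : (fun y : ℝ => ENNReal.ofReal (exp (-(y ^ 2 / 2)))) =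
      fun y : ℝ => ENNReal.ofReal (exp (-(1 / 2) * y ^ 2)) := by
    funext y
    congr 2
    ring
  rw [h3, ← ofReal_integral_eq_lintegral_ofReal h1
    (Filter.Eventually.of_forall fun y => (exp_pos _).le), h2]
  congr 2
  ring

/-- The half-line Gaussian integral, in `lintegral` form. -/
theorem ig_gauss_Ioi {A : ℝ} (hA : 0 < A) :
    ∫⁻ x in Set.Ioi (0 : ℝ), ENNReal.ofReal (exp (-((A * x) ^ 2 / 2))) =
      ENNReal.ofReal (Real.sqrt (2 * π) / (2 * A)) := by
  have hA2 : (0 : ℝ) < A ^ 2 / 2 := by positivity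
  have h1 : Integrable (fun y : ℝ => exp (-(A ^ 2 / 2) * y ^ 2)) (volume.restrict (Set.Ioi 0)) :=
    (integrable_exp_neg_mul_sq hA2).restrict
  have h2 : ∫ y in Set.Ioi (0 : ℝ), exp (-(A ^ 2 / 2) * y ^ 2) =
      Real.sqrt (π / (A ^ 2 / 2)) / 2 := integral_gaussian_Ioi _
  have h3 : (fun y : ℝ => ENNReal.ofReal (exp (-((A * y) ^ 2 / 2)))) =
      fun y : ℝ => ENNReal.ofReal (exp (-(A ^ 2 / 2) * y ^ 2)) := by
    funext y
    congr 2
    ring
  rw [h3, ← ofReal_integral_eq_lintegral_ofReal h1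
    (Filter.Eventually.of_forall fun y => (exp_pos _).le), h2]
  congr 1
  have h4 : π / (A ^ 2 / 2) = (2 * π) / A ^ 2 := by field_simp
  rw [h4, Real.sqrt_div (by positivity), Real.sqrt_sq hA.le]
  field_simp

/-- The Cauchy-Schloemilch integral. -/
theorem ig_cs {A B : ℝ} (hA : 0 < A) (hB : 0 ≤ B) :
    ∫⁻ x in Set.Ioi (0 : ℝ), ENNReal.ofReal (exp (-((A * x - B / x) ^ 2 / 2))) =
      ENNReal.ofReal (Real.sqrt (2 * π) / (2 * A)) := by
  rcases hB.eq_or_lt with rfl | hB
  · rw [← ig_gauss_Ioi hA]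
    refine setLIntegral_congr_fun measurableSet_Ioi fun x _ => ?_
    simp
  set g : ℝ → ℝ≥0∞ := fun y => ENNReal.ofReal (exp (-(y ^ 2 / 2))) with hg
  have hgm : Measurable g := by
    rw [hg]
    fun_prop
  set u : ℝ → ℝ := fun x => A * x - B / x with hu
  have hum : Measurable u := by
    rw [hu]
    fun_prop
  set J : ℝ≥0∞ := ∫⁻ x in Set.Ioi (0 : ℝ), g (u x) with hJ
  set K : ℝ≥0∞ := ∫⁻ x in Set.Ioi (0 : ℝ), ENNReal.ofReal (B / x ^ 2) * g (u x) with hK
  -- first change of variables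
  have hder : ∀ x ∈ Set.Ioi (0 : ℝ), HasDerivWithinAt u (A + B / x ^ 2) (Set.Ioi 0) x := by
    intro x hx
    have hx0 : x ≠ 0 := ne_of_gt hx
    have h1 : HasDerivAt (fun x : ℝ => A * x) A x := by
      simpa using (hasDerivAt_id x).const_mul A
    have h2 : HasDerivAt (fun x : ℝ => B / x) (-(B / x ^ 2)) x := by
      have := (hasDerivAt_inv hx0).const_mul B
      refine (this.congr_deriv ?_).congr_of_eventuallyEq (Filter.Eventually.of_forall ?_)
      · field_simp
      · intro y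
        simp [div_eq_mul_inv]
    have h3 := (h1.sub h2).hasDerivWithinAt (s := Set.Ioi 0)
    refine h3.congr_deriv ?_
    ring
  have hinj : Set.InjOn u (Set.Ioi 0) := by
    intro x hx y hy hxy
    have hx' : 0 < x := hx
    have hy' : 0 < y := hy
    simp only [hu] at hxy
    have h1 : (x - y) * (A + B / (x * y)) = 0 := by
      have : (x - y) * (A + B / (x * y)) = (A * x - B / x) - (A * y - B / y) := by
        field_simp
        ring
      rw [this, hxy, sub_self]
    have h2 : 0 < A + B / (x * y) := by positivity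
    rcases mul_eq_zero.1 h1 with h | h
    · linarith
    · exact absurd h h2.ne'
  have himg : u '' Set.Ioi 0 = Set.univ := by
    refine Set.eq_univ_of_forall fun y => ?_
    -- solve A x^2 - y x - B = 0
    have hD : 0 < y ^ 2 + 4 * A * B := by positivity
    have hs := Real.sq_sqrt hD.le
    have hs0 : |y| < Real.sqrt (y ^ 2 + 4 * A * B) := by
      rw [← Real.sqrt_sq_eq_abs]
      exact Real.sqrt_lt_sqrt (sq_nonneg _) (by nlinarith [mul_pos hA hB])
    have hpos : 0 < y + Real.sqrt (y ^ 2 + 4 * A * B) := by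
      have := neg_abs_le y
      linarith
    refine ⟨(y + Real.sqrt (y ^ 2 + 4 * A * B)) / (2 * A), by
      exact div_pos hpos (by positivity), ?_⟩
    simp only [hu]
    set r := Real.sqrt (y ^ 2 + 4 * A * B) with hr
    have hne : y + r ≠ 0 := hpos.ne'
    field_simp
    nlinarith
  have e1 : ∫⁻ y, g y = ∫⁻ x in Set.Ioi (0 : ℝ), ENNReal.ofReal |A + B / x ^ 2| * g (u x) := by
    have := lintegral_image_eq_lintegral_abs_deriv_mul measurableSet_Ioi hder hinj g
    rw [himg, Measure.restrict_univ] at this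
    exact this
  have e2 : ∫⁻ y, g y = ENNReal.ofReal A * J + K := by
    have hgu : Measurable (fun x => g (u x)) := hgm.comp hum
    rw [e1, hJ, hK, ← lintegral_const_mul _ hgu, ← lintegral_add_left (hgu.const_mul _)]
    refine setLIntegral_congr_fun measurableSet_Ioi fun x hx => ?_
    have hx' : 0 < x := hx
    have : 0 ≤ B / x ^ 2 := by positivity
    rw [abs_of_nonneg (by positivity), ENNReal.ofReal_add hA.le this, add_mul]
  -- second change of variables
  set v : ℝ → ℝ := fun x => B / A / x with hv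
  have hder2 : ∀ x ∈ Set.Ioi (0 : ℝ), HasDerivWithinAt v (-(B / A / x ^ 2)) (Set.Ioi 0) x := by
    intro x hx
    have hx0 : x ≠ 0 := ne_of_gt hx
    have h2 : HasDerivAt v (-(B / A / x ^ 2)) x := by
      have := (hasDerivAt_inv hx0).const_mul (B / A)
      refine (this.congr_deriv ?_).congr_of_eventuallyEq (Filter.Eventually.of_forall ?_)
      · field_simp
      · intro y
        simp [hv, div_eq_mul_inv]
    exact h2.hasDerivWithinAt
  have hinj2 : Set.InjOn v (Set.Ioi 0) := by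
    intro x hx y hy hxy
    have hx' : 0 < x := hx
    have hy' : 0 < y := hy
    simp only [hv] at hxy
    have h0 : B / A ≠ 0 := by positivity
    rw [div_eq_div_iff hx'.ne' hy'.ne'] at hxy
    exact (mul_left_cancel₀ h0 hxy).symm
  have himg2 : v '' Set.Ioi 0 = Set.Ioi 0 := by
    ext y
    constructor
    · rintro ⟨x, hx, rfl⟩
      have hx' : 0 < x := hx
      simp only [hv, Set.mem_Ioi]
      positivity
    · intro hy
      have hy' : 0 < y := hy
      refine ⟨B / A / y, by simp only [Set.mem_Ioi]; positivity, ?_⟩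
      simp only [hv]
      field_simp
  have e3 : ENNReal.ofReal A * J = K := by
    have := lintegral_image_eq_lintegral_abs_deriv_mul measurableSet_Ioi hder2 hinj2
      (fun x => g (u x))
    rw [himg2] at this
    rw [hJ, this, hK, ← lintegral_const_mul]
    · refine setLIntegral_congr_fun measurableSet_Ioi fun x hx => ?_
      have hx' : 0 < x := hx
      have h1 : g (u (v x)) = g (u x) := by
        simp only [hg, hu, hv]
        congr 4
        field_simp
        ring
      rw [h1, ← mul_assoc, ← ENNReal.ofReal_mul hA.le]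
      congr 2
      rw [abs_neg, abs_of_nonneg (by positivity)]
      field_simp
    · have hvm : Measurable v := by
        rw [hv]
        fun_prop
      exact Measurable.mul (by fun_prop) ((hgm.comp hum).comp hvm)
  have e4 : ENNReal.ofReal (2 * A) * J = ENNReal.ofReal (Real.sqrt (2 * π)) := by
    rw [← ig_gauss_univ, ← hg, e2, ← e3, ENNReal.ofReal_mul (by norm_num)]
    simp only [ENNReal.ofReal_ofNat]
    ring
  have h2A : ENNReal.ofReal (2 * A) ≠ 0 := by
    rw [Ne, ENNReal.ofReal_eq_zero]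
    push Not
    positivity
  rw [ENNReal.ofReal_div_of_pos (by positivity), ← e4]
  rw [mul_comm, ENNReal.mul_div_cancel_right h2A ENNReal.ofReal_ne_top]

/-- The master integral. -/
theorem ig_master {A B : ℝ} (hA : 0 < A) (hB : 0 ≤ B) :
    ∫⁻ t in Set.Ioi (0 : ℝ), ENNReal.ofReal
      ((Real.sqrt (2 * π * t ^ 3))⁻¹ * exp (-(A ^ 2 / (2 * t) + B ^ 2 * t / 2))) =
    ENNReal.ofReal (A⁻¹ * exp (-(A * B))) := by
  set F : ℝ → ℝ≥0∞ := fun t => ENNReal.ofReal
      ((Real.sqrt (2 * π * t ^ 3))⁻¹ * exp (-(A ^ 2 / (2 * t) + B ^ 2 * t / 2))) with hF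
  set w : ℝ → ℝ := fun x => (x ^ 2)⁻¹ with hw
  have hder : ∀ x ∈ Set.Ioi (0 : ℝ), HasDerivWithinAt w (-(2 / x ^ 3)) (Set.Ioi 0) x := by
    intro x hx
    have hx0 : x ≠ 0 := ne_of_gt hx
    have h1 : HasDerivAt (fun x : ℝ => x ^ 2) (2 * x) x := by
      simpa using hasDerivAt_pow 2 x
    have h2 := h1.inv (pow_ne_zero 2 hx0)
    refine (h2.congr_deriv ?_).hasDerivWithinAt
    field_simp
  have hinj : Set.InjOn w (Set.Ioi 0) := by
    intro x hx y hy hxy
    have hx' : 0 < x := hx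
    have hy' : 0 < y := hy
    simp only [hw] at hxy
    exact (pow_left_inj₀ hx'.le hy'.le two_ne_zero).1 (inv_injective hxy)
  have himg : w '' Set.Ioi 0 = Set.Ioi 0 := by
    ext y
    constructor
    · rintro ⟨x, hx, rfl⟩
      have hx' : 0 < x := hx
      simp only [hw, Set.mem_Ioi]
      positivity
    · intro hy
      have hy' : 0 < y := hy
      refine ⟨(Real.sqrt y)⁻¹, by simp only [Set.mem_Ioi]; positivity, ?_⟩
      simp only [hw]
      rw [inv_pow, inv_inv, Real.sq_sqrt hy'.le]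
  have e1 : ∫⁻ t in Set.Ioi (0 : ℝ), F t =
      ∫⁻ x in Set.Ioi (0 : ℝ), ENNReal.ofReal |-(2 / x ^ 3)| * F (w x) := by
    have := lintegral_image_eq_lintegral_abs_deriv_mul measurableSet_Ioi hder hinj F
    rw [himg] at this
    exact this
  have e2 : ∀ x ∈ Set.Ioi (0 : ℝ), ENNReal.ofReal |-(2 / x ^ 3)| * F (w x) =
      ENNReal.ofReal (2 / Real.sqrt (2 * π) * exp (-(A * B))) *
        ENNReal.ofReal (exp (-((A * x - B / x) ^ 2 / 2))) := by
    intro x hx
    have hx' : 0 < x := hx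
    have hpi : 0 < 2 * π := by positivity
    have hs : Real.sqrt (2 * π * (w x) ^ 3) = Real.sqrt (2 * π) / x ^ 3 := by
      have : 2 * π * (w x) ^ 3 = (2 * π) / (x ^ 3) ^ 2 := by
        simp only [hw]
        field_simp
      rw [this, Real.sqrt_div hpi.le, Real.sqrt_sq (by positivity)]
    have hexp : -(A ^ 2 / (2 * w x) + B ^ 2 * w x / 2) =
        -(A * B) + -((A * x - B / x) ^ 2 / 2) := by
      simp only [hw]
      field_simp
      ring
    simp only [hF]
    rw [hs, hexp, Real.exp_add, abs_neg, abs_of_nonneg (by positivity),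
      ← ENNReal.ofReal_mul (by positivity), ← ENNReal.ofReal_mul (by positivity)]
    congr 1
    have hsp : 0 < Real.sqrt (2 * π) := Real.sqrt_pos.2 hpi
    field_simp
  rw [e1, setLIntegral_congr_fun measurableSet_Ioi e2, lintegral_const_mul, ig_cs hA hB,
    ← ENNReal.ofReal_mul (by positivity)]
  · congr 1
    have hsp : 0 < Real.sqrt (2 * π) := Real.sqrt_pos.2 (by positivity)
    field_simp
  · fun_prop

/-- (I1) -/
theorem ig_laplace {s c : ℝ} (hs : 0 ≤ s) (hc : 0 ≤ c) :
    ∫⁻ t in Set.Ioi (0 : ℝ), ENNReal.ofReal (ig s t * exp (-(c * t))) =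
      ENNReal.ofReal (exp (s - Real.sqrt (s ^ 2 + 2 * c))) := by
  have hsc : 0 ≤ s ^ 2 + 2 * c := by positivity
  have hm := ig_master (A := 1) (B := Real.sqrt (s ^ 2 + 2 * c)) one_pos (Real.sqrt_nonneg _)
  have e : ∀ t ∈ Set.Ioi (0 : ℝ), ENNReal.ofReal (ig s t * exp (-(c * t))) =
      ENNReal.ofReal (exp s) * ENNReal.ofReal ((Real.sqrt (2 * π * t ^ 3))⁻¹ *
        exp (-((1 : ℝ) ^ 2 / (2 * t) + Real.sqrt (s ^ 2 + 2 * c) ^ 2 * t / 2))) := by
    intro t ht
    have ht' : 0 < t := ht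
    rw [← ENNReal.ofReal_mul (exp_pos _).le, Real.sq_sqrt hsc]
    unfold ig
    have h1 : exp (-(1 - s * t) ^ 2 / (2 * t)) * exp (-(c * t)) =
        exp s * exp (-((1 : ℝ) ^ 2 / (2 * t) + (s ^ 2 + 2 * c) * t / 2)) := by
      rw [← Real.exp_add, ← Real.exp_add]
      congr 1
      field_simp
      ring
    rw [mul_assoc, h1]
    congr 1
    ring
  rw [setLIntegral_congr_fun measurableSet_Ioi e, lintegral_const_mul _ (by fun_prop), hm,
    ← ENNReal.ofReal_mul (exp_pos _).le]
  congr 1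
  rw [inv_one, one_mul, one_mul, ← Real.exp_add, sub_eq_add_neg]

/-- Total mass one. -/
theorem ig_mass {s : ℝ} (hs : 0 ≤ s) :
    ∫⁻ t in Set.Ioi (0 : ℝ), ENNReal.ofReal (ig s t) = 1 := by
  have h := ig_laplace hs le_rfl
  simpa [Real.sqrt_sq hs] using h

/-- (I2) -/
theorem ig_inv_laplace {s L : ℝ} (hs : 0 ≤ s) (hL : 1 ≤ L) :
    ∫⁻ t in Set.Ioi (0 : ℝ), ENNReal.ofReal (ig s t * exp (-((L ^ 2 - 1) * (1 / t / 2)))) =
      ENNReal.ofReal (L⁻¹ * exp (-(s * (L - 1)))) := by
  have hL0 : 0 < L := by linarith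
  have hm := ig_master (A := L) (B := s) hL0 hs
  have e : ∀ t ∈ Set.Ioi (0 : ℝ),
      ENNReal.ofReal (ig s t * exp (-((L ^ 2 - 1) * (1 / t / 2)))) =
      ENNReal.ofReal (exp s) * ENNReal.ofReal ((Real.sqrt (2 * π * t ^ 3))⁻¹ *
        exp (-(L ^ 2 / (2 * t) + s ^ 2 * t / 2))) := by
    intro t ht
    have ht' : 0 < t := ht
    rw [← ENNReal.ofReal_mul (exp_pos _).le]
    unfold ig
    have h1 : exp (-(1 - s * t) ^ 2 / (2 * t)) * exp (-((L ^ 2 - 1) * (1 / t / 2))) =
        exp s * exp (-(L ^ 2 / (2 * t) + s ^ 2 * t / 2)) := by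
      rw [← Real.exp_add, ← Real.exp_add]
      congr 1
      field_simp
      ring
    rw [mul_assoc, h1]
    congr 1
    ring
  rw [setLIntegral_congr_fun measurableSet_Ioi e, lintegral_const_mul _ (by fun_prop), hm,
    ← ENNReal.ofReal_mul (exp_pos _).le]
  congr 1
  rw [mul_left_comm, ← Real.exp_add]
  congr 2
  ring

end VJ26
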