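import Pool.Agent.VJ26.IG2

/-!
# [VJ-IG5] Monotonicity in the parameter of the inverse Gaussian law

This file: `ig_tail`

(M0) `λ ↦ exp(λ - sqrt(λ^2 + 2 c λ))` is antitone on `[0,∞)` for `c ≥ 0`
(`λ' - λ ≤ sqrt(λ'^2+2cλ') - sqrt(λ^2+2cλ)`: multiply by the conjugate; it is enough that
`sqrt(λ^2+2cλ) ≤ λ + c` for both, since `λ'^2+2cλ' - λ^2-2cλ = (λ'-λ)(λ'+λ+2c)`).

(M1) for `g > 0`, `h ≥ 0`, `0 ≤ λ ≤ λ'`:
`∫ ig(λ',t)/(g + h λ' t) dt ≤ ∫ ig(λ,t)/(g + h λ t) dt`.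
PROOF: for `t > 0`, `1/(g+hλt) = ∫_0^∞ exp(-c g) exp(-(c h λ) t) dc`; Tonelli and (I1) give
`∫ ig(λ,t)/(g+hλt) dt = ∫_0^∞ exp(-c g) exp(λ - sqrt(λ^2 + 2 c h λ)) dc`; now (M0).

(M1') the version needed for two conductances: `a, c, c' ≥ 0`, `c ≤ c'`, `g > 0`:
`∫ ig(a+c',t)/(g + a c' t) dt ≤ ∫ ig(a+c,t)/(g + a c t) dt`. With `λ = a+c`, `λ' = a+c'`,
`h = ac/(a+c)`, `h' = ac'/(a+c')`: `h ≤ h'` and `a c' = h' λ'`, so the left side is at most the
one with `h` in place of `h'` (pointwise), then (M1). (If `a + c = 0` then `h = 0` in Lean and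
`a c = 0 = h λ`, fine; if `a + c' = 0` both sides agree.)

(M2) for `A, B ≥ 0`, `C, D > 0`, `0 < λ ≤ λ'`:
`∫ ig(λ',t) (A+Bλ't)^2/(C+Dλ't) dt ≤ ∫ ig(λ,t) (A+Bλt)^2/(C+Dλt) dt`.
PROOF: division: with `Y = λ t`, `(A+BY)^2/(C+DY) = α Y + β₀ + γ/(C+DY)`, `α = B^2/D`,
`β₀ = (2AB - αC)/D`, `γ = (A - BC/D)^2 ≥ 0`. As `∫ ig(λ,t) λt dt = 1 = ∫ ig(λ,t) dt`, the
integral is `α + β₀ + γ ∫ ig(λ,t)/(C+Dλt) dt` (all real integrals are finite:
`1/(C+DY) ≤ 1/C`; to stay in lintegral add `|β₀|` to both sides), then (M1).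

(TAIL) for `s > 0`, `K > 0`: `∫ ig(s,t) (st) 1{st > K} dt ≤ e * exp(s - sqrt(s^2+2Ks))`.
PROOF: (I5) with `F(y) = 1{1/y > K}`: the left side is `∫ ig(s,t) 1{1/(st) > K} dt`
and `1{1/(st) > K} = 1{K s t < 1} ≤ e * exp(-K s t)`; then (I1) with `c = K s`.
-/

open MeasureTheory Real
open scoped ENNReal

namespace VJ26

/-- (TAIL) -/
theorem ig_tail {s K : ℝ} (hs : 0 < s) (hK : 0 < K) :
    ∫⁻ t in Set.Ioi (0 : ℝ), ENNReal.ofReal (ig s t) *
      (if K < s * t then ENNReal.ofReal (s * t) else 0) ≤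
    ENNReal.ofReal (exp 1 * exp (s - Real.sqrt (s ^ 2 + 2 * (K * s)))) := by
  have hF : Measurable (fun y : ℝ => if K < 1 / y then (1 : ℝ≥0∞) else 0) := by
    refine Measurable.ite ?_ measurable_const measurable_const
    exact measurableSet_lt measurable_const (measurable_const.div measurable_id)
  have h1 : ∫⁻ t in Set.Ioi (0 : ℝ), ENNReal.ofReal (ig s t) *
      (if K < s * t then ENNReal.ofReal (s * t) else 0) =
      ∫⁻ t in Set.Ioi (0 : ℝ), ENNReal.ofReal (ig s t * (s * t)) *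
        (fun y : ℝ => if K < 1 / y then (1 : ℝ≥0∞) else 0) (1 / (s * t)) := by
    refine setLIntegral_congr_fun measurableSet_Ioi fun t ht => ?_
    have ht0 : 0 < t := ht
    simp only [one_div_one_div]
    split_ifs with h
    · rw [mul_one, ENNReal.ofReal_mul (ig_nonneg s t)]
    · simp
  rw [h1, ← ig_swap hs _ hF]
  have h2 : ∫⁻ t in Set.Ioi (0 : ℝ), ENNReal.ofReal (ig s t) *
      (fun y : ℝ => if K < 1 / y then (1 : ℝ≥0∞) else 0) (s * t) ≤
      ∫⁻ t in Set.Ioi (0 : ℝ), ENNReal.ofReal (exp 1) *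
        ENNReal.ofReal (ig s t * exp (-(K * s * t))) := by
    refine setLIntegral_mono' measurableSet_Ioi fun t ht => ?_
    have ht0 : 0 < t := ht
    have hst : 0 < s * t := mul_pos hs ht0
    simp only
    split_ifs with h
    · rw [mul_one, ← ENNReal.ofReal_mul (exp_pos 1).le]
      apply ENNReal.ofReal_le_ofReal
      have h3 : K * (s * t) < 1 := by
        rwa [lt_div_iff₀ hst] at h
      have h4 : 1 ≤ exp 1 * exp (-(K * s * t)) := by
        rw [← exp_add]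
        apply one_le_exp
        nlinarith
      nlinarith [ig_nonneg s t, mul_le_mul_of_nonneg_left h4 (ig_nonneg s t)]
    · simp
  refine h2.trans (le_of_eq ?_)
  rw [lintegral_const_mul' _ _ ENNReal.ofReal_ne_top, ig_laplace hs.le (by positivity),
    ENNReal.ofReal_mul (exp_pos 1).le]

end VJ26
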