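import Pool.Agent.VJ26.IG1

/-!
# [VJ-IGINV] The inverse Gaussian integrals, part 2

This file: `ig_inv_mean`

`ig_swap` (I5): substitute `t = 1/(s^2 u)`: `s t = 1/(s u)`,
`(1-st)^2/(2t) = (1 - s u)^2/(2u)` [indeed `(1-1/(su))^2 s^2 u/2 = (su-1)^2/(2u)`],
`(2π t^3)^(-1/2) dt = (2π)^(-1/2) (s^2 u)^(3/2) (s^2 u^2)^(-1) du = (2πu^3)^(-1/2) (s u) du`.
So `∫ ig(s,t) F(s t) dt = ∫ ig(s,u) (s u) F(1/(s u)) du`. Use
`lintegral_image_eq_lintegral_abs_deriv_mul` for the injective map `u ↦ 1/(s^2 u)` of `Ioi 0`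
onto `Ioi 0` (derivative `-1/(s^2 u^2)`).

`ig_mean` (I3): (I5) with `F = 1`.

`ig_inv_mean` (I4): for `L > 1`, by (I2),
`∫ ig(s,t) (1 - exp(-(L^2-1)/(2t)))/(L^2-1) dt = (1 - L⁻¹ exp(-s(L-1)))/(L^2-1)`. As `L ↓ 1`
the integrand increases to `ig(s,t)/(2t)` (`(1-e^{-cx})/c` is antitone in `c`), the right side
tends to `(1+s)/2`. Monotone convergence (or Fatou + the bound `(1-e^{-cx})/c ≤ x`). Another way:
integrate the derivative of `t^(-1/2) exp(-1/(2t) - s^2 t/2)`.

`ig_sq` (I6): (I5) with `F(y) = 1/y` (for `y > 0`): `∫ ig (st)^2 = ∫ ig/(st) = (1/s)(s+1)`.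
-/

open MeasureTheory Real
open scoped ENNReal

namespace VJ26

theorem helper4_one_sub_exp_lim (x : ℝ) :
    Filter.Tendsto (fun c : ℝ => (1 - exp (-(c * x))) / c) (nhdsWithin 0 (Set.Ioi 0)) (nhds x) := by
  have h1 : HasDerivAt (fun c : ℝ => 1 - exp (-(c * x))) x 0 := by
    have h2 : HasDerivAt (fun c : ℝ => -(c * x)) (-(1 * x)) 0 :=
      ((hasDerivAt_id (0 : ℝ)).mul_const x).neg
    have h3 := (h2.exp).const_sub 1
    have e : -(exp (-((0 : ℝ) * x)) * -(1 * x)) = x := by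
      rw [zero_mul, neg_zero, exp_zero]
      ring
    rw [e] at h3
    exact h3
  have h4 := h1.tendsto_slope_zero_right
  refine h4.congr fun c => ?_
  simp only [zero_add, zero_mul, neg_zero, exp_zero, sub_self, sub_zero, smul_eq_mul]
  rw [div_eq_inv_mul]

theorem helper4_rhs_lim (s : ℝ) :
    Filter.Tendsto (fun L : ℝ => (1 - L⁻¹ * exp (-(s * (L - 1)))) / (L ^ 2 - 1))
      (nhdsWithin 1 (Set.Ioi 1)) (nhds ((s + 1) / 2)) := by
  have h1 : HasDerivAt (fun L : ℝ => 1 - L⁻¹ * exp (-(s * (L - 1)))) (s + 1) 1 := by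
    have h2 : HasDerivAt (fun L : ℝ => -(s * (L - 1))) (-(s * 1)) 1 :=
      (((hasDerivAt_id (1 : ℝ)).sub_const 1).const_mul s).neg
    have h3 := ((hasDerivAt_inv (one_ne_zero (α := ℝ))).mul h2.exp).const_sub 1
    have e : -(-((1 : ℝ) ^ 2)⁻¹ * exp (-(s * (1 - 1))) +
        (1 : ℝ)⁻¹ * (exp (-(s * (1 - 1))) * -(s * 1))) = s + 1 := by
      rw [sub_self, mul_zero, neg_zero, exp_zero]
      norm_num
    rw [e] at h3
    exact h3
  have h4 := h1.tendsto_slope_zero_right
  -- shift to `L = 1 + c`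
  have h5 : Filter.Tendsto (fun L : ℝ => L - 1) (nhdsWithin 1 (Set.Ioi 1))
      (nhdsWithin 0 (Set.Ioi 0)) := by
    refine tendsto_nhdsWithin_iff.2 ⟨?_, ?_⟩
    · have : Filter.Tendsto (fun L : ℝ => L - 1) (nhds 1) (nhds (1 - 1)) :=
        (continuous_id.sub continuous_const).tendsto 1
      rw [sub_self] at this
      exact this.mono_left nhdsWithin_le_nhds
    · filter_upwards [self_mem_nhdsWithin] with L hL
      rw [Set.mem_Ioi] at hL ⊢
      linarith
  have h6 := h4.comp h5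
  have h7 : Filter.Tendsto (fun L : ℝ => (L + 1)⁻¹) (nhdsWithin 1 (Set.Ioi 1)) (nhds (1 + 1)⁻¹) := by
    have h8 : Filter.Tendsto (fun L : ℝ => L + 1) (nhds 1) (nhds (1 + 1)) :=
      (continuous_id.add continuous_const).tendsto 1
    exact (h8.inv₀ (by norm_num)).mono_left nhdsWithin_le_nhds
  have h9 := h6.mul h7
  have e1 : (s + 1) * (1 + 1)⁻¹ = (s + 1) / 2 := by norm_num [div_eq_mul_inv]
  rw [e1] at h9
  refine h9.congr' ?_
  filter_upwards [self_mem_nhdsWithin] with L hL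
  rw [Set.mem_Ioi] at hL
  have hL1 : L - 1 ≠ 0 := by intro h; linarith
  have hL2 : L + 1 ≠ 0 := by intro h; linarith
  simp only [Function.comp, smul_eq_mul, add_sub_cancel, inv_one, sub_self, mul_zero, neg_zero,
    exp_zero, sub_zero, mul_one]
  have e2 : L ^ 2 - 1 = (L - 1) * (L + 1) := by ring
  rw [e2]
  field_simp

theorem helper4_int_eq {s L : ℝ} (hs : 0 ≤ s) (hL : 1 < L) :
    ∫⁻ t in Set.Ioi (0 : ℝ), ENNReal.ofReal
      (ig s t * ((1 - exp (-((L ^ 2 - 1) * (1 / t / 2)))) / (L ^ 2 - 1))) =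
      ENNReal.ofReal ((1 - L⁻¹ * exp (-(s * (L - 1)))) / (L ^ 2 - 1)) := by
  have hc : 0 < L ^ 2 - 1 := by nlinarith
  set c := L ^ 2 - 1 with hcdef
  have hig : Measurable (fun t : ℝ => ig s t) :=
    measurable_ig.comp (measurable_const.prodMk measurable_id)
  have hexp : Measurable (fun t : ℝ => exp (-(c * (1 / t / 2)))) := by fun_prop
  have h1 : (∫⁻ t in Set.Ioi (0 : ℝ), ENNReal.ofReal
      (ig s t * ((1 - exp (-(c * (1 / t / 2)))) / c))) +
      (∫⁻ t in Set.Ioi (0 : ℝ), ENNReal.ofReal c⁻¹ *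
        ENNReal.ofReal (ig s t * exp (-(c * (1 / t / 2))))) =
      ∫⁻ t in Set.Ioi (0 : ℝ), ENNReal.ofReal c⁻¹ * ENNReal.ofReal (ig s t) := by
    rw [← lintegral_add_left]
    · refine setLIntegral_congr_fun measurableSet_Ioi fun t ht => ?_
      rw [Set.mem_Ioi] at ht
      have h2 : exp (-(c * (1 / t / 2))) ≤ 1 := by
        rw [exp_le_one_iff]
        have : 0 ≤ c * (1 / t / 2) := by positivity
        linarith
      have h3 : 0 ≤ ig s t := ig_nonneg s t
      rw [← ENNReal.ofReal_mul (by positivity), ← ENNReal.ofReal_mul (by positivity),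
        ← ENNReal.ofReal_add]
      · congr 1
        field_simp
        ring
      · exact mul_nonneg h3 (div_nonneg (by linarith) hc.le)
      · positivity
    · exact (hig.mul ((measurable_const.sub hexp).div_const c)).ennreal_ofReal
  have hm2 : Measurable (fun t : ℝ => ENNReal.ofReal (ig s t * exp (-(c * (1 / t / 2))))) :=
    (hig.mul hexp).ennreal_ofReal
  rw [lintegral_const_mul _ hm2, lintegral_const_mul _ hig.ennreal_ofReal,
    ig_mass hs, ig_inv_laplace hs hL.le, mul_one, ← ENNReal.ofReal_mul (by positivity)] at h1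
  have h4 := ENNReal.eq_sub_of_add_eq ENNReal.ofReal_ne_top h1
  rw [h4, ← ENNReal.ofReal_sub _ (by positivity)]
  congr 1
  field_simp

/-- (I4) -/
theorem ig_inv_mean {s : ℝ} (hs : 0 ≤ s) :
    ∫⁻ t in Set.Ioi (0 : ℝ), ENNReal.ofReal (ig s t * (1 / t)) = ENNReal.ofReal (s + 1) := by
  have hig : Measurable (fun t : ℝ => ig s t) :=
    measurable_ig.comp (measurable_const.prodMk measurable_id)
  set L : ℕ → ℝ := fun n => 1 + 1 / ((n : ℝ) + 1) with hLdef
  have hL1 : ∀ n, 1 < L n := by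
    intro n
    have : (0 : ℝ) < 1 / ((n : ℝ) + 1) := by positivity
    simp only [hLdef]
    linarith
  have hLt : Filter.Tendsto L Filter.atTop (nhdsWithin 1 (Set.Ioi 1)) := by
    refine tendsto_nhdsWithin_iff.2 ⟨?_, Filter.Eventually.of_forall hL1⟩
    have := (tendsto_one_div_add_atTop_nhds_zero_nat (𝕜 := ℝ)).const_add 1
    rwa [add_zero] at this
  have hct : Filter.Tendsto (fun n => L n ^ 2 - 1) Filter.atTop (nhdsWithin 0 (Set.Ioi 0)) := by
    refine tendsto_nhdsWithin_iff.2 ⟨?_, Filter.Eventually.of_forall fun n => ?_⟩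
    · have h1 : Filter.Tendsto L Filter.atTop (nhds 1) := hLt.mono_right nhdsWithin_le_nhds
      have h2 := (h1.pow 2).sub_const 1
      norm_num at h2
      exact h2
    · have := hL1 n
      rw [Set.mem_Ioi]
      nlinarith
  set F : ℕ → ℝ → ℝ≥0∞ := fun n t => ENNReal.ofReal
      (ig s t * ((1 - exp (-((L n ^ 2 - 1) * (1 / t / 2)))) / (L n ^ 2 - 1))) with hF
  have hFint : ∀ n, ∫⁻ t in Set.Ioi (0 : ℝ), F n t =
      ENNReal.ofReal ((1 - (L n)⁻¹ * exp (-(s * (L n - 1)))) / (L n ^ 2 - 1)) :=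
    fun n => helper4_int_eq hs (hL1 n)
  have hlim : Filter.Tendsto (fun n => ∫⁻ t in Set.Ioi (0 : ℝ), F n t) Filter.atTop
      (nhds (ENNReal.ofReal ((s + 1) / 2))) := by
    simp_rw [hFint]
    exact (ENNReal.continuous_ofReal.tendsto _).comp ((helper4_rhs_lim s).comp hLt)
  have hFm : ∀ n, Measurable (F n) := by
    intro n
    have hexp : Measurable (fun t : ℝ => exp (-((L n ^ 2 - 1) * (1 / t / 2)))) := by fun_prop
    exact (hig.mul ((measurable_const.sub hexp).div_const _)).ennreal_ofReal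
  -- the pointwise limit
  have hpt : ∀ t : ℝ, Filter.Tendsto (fun n => F n t) Filter.atTop
      (nhds (ENNReal.ofReal (ig s t * (1 / t / 2)))) := by
    intro t
    refine (ENNReal.continuous_ofReal.tendsto _).comp ?_
    exact ((helper4_one_sub_exp_lim (1 / t / 2)).comp hct).const_mul (ig s t)
  have hup : ∫⁻ t in Set.Ioi (0 : ℝ), ENNReal.ofReal (ig s t * (1 / t / 2)) ≤
      ENNReal.ofReal ((s + 1) / 2) := by
    have h1 : ∀ t : ℝ, ENNReal.ofReal (ig s t * (1 / t / 2)) =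
        Filter.liminf (fun n => F n t) Filter.atTop := fun t => (hpt t).liminf_eq.symm
    simp_rw [h1]
    refine (lintegral_liminf_le hFm).trans ?_
    rw [hlim.liminf_eq]
  have hlow : ENNReal.ofReal ((s + 1) / 2) ≤
      ∫⁻ t in Set.Ioi (0 : ℝ), ENNReal.ofReal (ig s t * (1 / t / 2)) := by
    refine le_of_tendsto' hlim fun n => ?_
    refine setLIntegral_mono' measurableSet_Ioi fun t ht => ?_
    rw [Set.mem_Ioi] at ht
    apply ENNReal.ofReal_le_ofReal
    have hc : 0 < L n ^ 2 - 1 := by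
      have := hL1 n
      nlinarith
    refine mul_le_mul_of_nonneg_left ?_ (ig_nonneg s t)
    rw [div_le_iff₀ hc]
    have := add_one_le_exp (-((L n ^ 2 - 1) * (1 / t / 2)))
    linarith
  have heq := le_antisymm hup hlow
  have h2 : ∀ t : ℝ, ENNReal.ofReal (ig s t * (1 / t)) =
      ENNReal.ofReal 2 * ENNReal.ofReal (ig s t * (1 / t / 2)) := by
    intro t
    rw [← ENNReal.ofReal_mul (by norm_num)]
    congr 1
    ring
  simp_rw [h2]
  have hm : Measurable (fun t : ℝ => ENNReal.ofReal (ig s t * (1 / t / 2))) := by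
    have h3 : Measurable (fun t : ℝ => 1 / t / 2) := by fun_prop
    exact (hig.mul h3).ennreal_ofReal
  rw [lintegral_const_mul _ hm, heq, ← ENNReal.ofReal_mul (by norm_num)]
  congr 1
  ring

end VJ26
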