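import Pool.Agent.VJ26.UQ

/-!
# [VJ-INDEP] Independence of non-adjacent sets

`Λ, Λ'` disjoint, no weights between them: `Lam (Λ ∪ Λ') W θ L = Lam Λ W θ L * Lam Λ' W θ L`
(for all `L`). Hence (`L = 1` off `Λ`, resp. off `Λ'`) `VR μ Λ W θ`, `VR μ Λ' W θ`, and the image
`ν` of `μ.prod μ` under `(β, β') ↦ (fun i => if i ∈ Λ then β i else β' i)` satisfies
`VR ν (Λ ∪ Λ') W θ`; by `VR.lintegral_eq`,
`∫ F F' dμ = ∫ F F' dν = ∫∫ F(β) F'(β') dμ dμ`.
-/

open MeasureTheory Real
open scoped ENNReal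

namespace VJ26

variable {α : Type*} [DecidableEq α]
variable {W : α → α → ℝ} {Λ Λ' : Finset α} {θ : α → ℝ} {μ : Measure (α → ℝ)}

namespace IndepAux

omit [DecidableEq α] in
theorem lam_congr {L L' : α → ℝ} (U : Finset α) (h : ∀ i ∈ U, L i = L' i) :
    Lam U W θ L = Lam U W θ L' := by
  unfold Lam
  congr 1
  · congr 1
    congr 1
    · congr 1
      refine Finset.sum_congr rfl fun i hi => Finset.sum_congr rfl fun j hj => ?_
      rw [h i hi, h j hj]
    · refine Finset.sum_congr rfl fun i hi => ?_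
      rw [h i hi]
  · refine Finset.prod_congr rfl fun i hi => ?_
    rw [h i hi]

omit [DecidableEq α] in
theorem lam_one {L : α → ℝ} (U : Finset α) (h : ∀ i ∈ U, L i = 1) :
    Lam U W θ L = 1 := by
  have h1 : Lam U W θ L = Lam U W θ (fun _ => 1) := lam_congr U h
  rw [h1]
  simp [Lam]

theorem lam_union (hd : Disjoint Λ Λ') (hW : ∀ i ∈ Λ, ∀ j ∈ Λ', W i j = 0 ∧ W j i = 0)
    (L : α → ℝ) : Lam (Λ ∪ Λ') W θ L = Lam Λ W θ L * Lam Λ' W θ L := by
  unfold Lam
  have h1 : ∑ i ∈ Λ ∪ Λ', ∑ j ∈ Λ ∪ Λ', W i j * (L i * L j - 1) =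
      ∑ i ∈ Λ, ∑ j ∈ Λ, W i j * (L i * L j - 1) +
        ∑ i ∈ Λ', ∑ j ∈ Λ', W i j * (L i * L j - 1) := by
    rw [Finset.sum_union hd]
    congr 1
    · refine Finset.sum_congr rfl fun i hi => ?_
      rw [Finset.sum_union hd]
      rw [Finset.sum_eq_zero (s := Λ') (fun j hj => by rw [(hW i hi j hj).1, zero_mul]),
        add_zero]
    · refine Finset.sum_congr rfl fun i hi => ?_
      rw [Finset.sum_union hd]
      rw [Finset.sum_eq_zero (s := Λ) (fun j hj => by rw [(hW j hj i hi).2, zero_mul]),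
        zero_add]
  rw [h1, Finset.sum_union hd, Finset.prod_union hd]
  rw [mul_mul_mul_comm, ← exp_add]
  congr 2
  ring

theorem cut_left (hd : Disjoint Λ Λ') (L : α → ℝ) (β : α → ℝ) :
    ∑ i ∈ Λ ∪ Λ', ((if i ∈ Λ then L i else 1) ^ 2 - 1) * β i =
      ∑ i ∈ Λ, ((L i) ^ 2 - 1) * β i := by
  rw [Finset.sum_union hd]
  rw [Finset.sum_eq_zero (s := Λ') (fun j hj => by
    rw [if_neg (Finset.disjoint_right.mp hd hj)]; ring), add_zero]
  exact Finset.sum_congr rfl fun i hi => by rw [if_pos hi]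

theorem vr_left (hd : Disjoint Λ Λ') (hW : ∀ i ∈ Λ, ∀ j ∈ Λ', W i j = 0 ∧ W j i = 0)
    (h : VR μ (Λ ∪ Λ') W θ) : VR μ Λ W θ := by
  refine ⟨h.prob, fun i hi => h.pos i (Finset.mem_union_left _ hi), fun L hL => ?_⟩
  have h1 := h.lap (fun i => if i ∈ Λ then L i else 1) (fun i => by
    split_ifs
    · exact hL i
    · exact le_rfl)
  simp only [cut_left hd L] at h1
  rw [h1, lam_union hd hW, lam_one (U := Λ') (fun i hi => by
    rw [if_neg (Finset.disjoint_right.mp hd hi)]), mul_one]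
  congr 1
  exact lam_congr Λ (fun i hi => by rw [if_pos hi])

theorem vr_right (hd : Disjoint Λ Λ') (hW : ∀ i ∈ Λ, ∀ j ∈ Λ', W i j = 0 ∧ W j i = 0)
    (h : VR μ (Λ ∪ Λ') W θ) : VR μ Λ' W θ := by
  rw [Finset.union_comm] at h
  exact vr_left hd.symm (fun i hi j hj => ⟨(hW j hj i hi).2, (hW j hj i hi).1⟩) h

/-- Gluing of two potentials. -/
noncomputable def glue (Λ : Finset α) (p : (α → ℝ) × (α → ℝ)) : α → ℝ :=
  fun i => if i ∈ Λ then p.1 i else p.2 i

theorem measurable_glue (Λ : Finset α) : Measurable (glue (α := α) Λ) := by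
  refine measurable_pi_iff.mpr fun i => ?_
  unfold glue
  by_cases hi : i ∈ Λ
  · simp only [hi, if_true]
    exact (measurable_pi_apply i).comp measurable_fst
  · simp only [hi, if_false]
    exact (measurable_pi_apply i).comp measurable_snd

omit [DecidableEq α] in
theorem measurable_lap (U : Finset α) (L : α → ℝ) :
    Measurable fun β : α → ℝ => ENNReal.ofReal (exp (-∑ i ∈ U, ((L i) ^ 2 - 1) * β i)) := by
  refine ENNReal.measurable_ofReal.comp (Real.measurable_exp.comp ?_)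
  refine Measurable.neg ?_
  exact Finset.measurable_sum _ fun i _ => (measurable_pi_apply i).const_mul _

theorem vr_glue (hd : Disjoint Λ Λ') (hW : ∀ i ∈ Λ, ∀ j ∈ Λ', W i j = 0 ∧ W j i = 0)
    (h : VR μ (Λ ∪ Λ') W θ) : VR ((μ.prod μ).map (glue Λ)) (Λ ∪ Λ') W θ := by
  have hprob := h.prob
  refine ⟨Measure.isProbabilityMeasure_map (measurable_glue Λ).aemeasurable, fun i hi => ?_,
    fun L hL => ?_⟩
  · have hS : MeasurableSet {β : α → ℝ | 0 < β i} :=
      measurableSet_lt measurable_const (measurable_pi_apply i)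
    rw [ae_map_iff (measurable_glue Λ).aemeasurable hS]
    have hi' := h.pos i hi
    by_cases hiΛ : i ∈ Λ
    · have h1 : ∀ᵐ p ∂(μ.prod μ), 0 < p.1 i :=
        (Measure.quasiMeasurePreserving_fst (μ := μ) (ν := μ)).ae hi'
      filter_upwards [h1] with p hp
      simpa [glue, hiΛ] using hp
    · have h1 : ∀ᵐ p ∂(μ.prod μ), 0 < p.2 i :=
        (Measure.quasiMeasurePreserving_snd (μ := μ) (ν := μ)).ae hi'
      filter_upwards [h1] with p hp
      simpa [glue, hiΛ] using hp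
  · rw [lintegral_map (measurable_lap _ L) (measurable_glue Λ)]
    have h1 : ∀ p : (α → ℝ) × (α → ℝ),
        ENNReal.ofReal (exp (-∑ i ∈ Λ ∪ Λ', ((L i) ^ 2 - 1) * glue Λ p i)) =
          ENNReal.ofReal (exp (-∑ i ∈ Λ, ((L i) ^ 2 - 1) * p.1 i)) *
            ENNReal.ofReal (exp (-∑ i ∈ Λ', ((L i) ^ 2 - 1) * p.2 i)) := by
      intro p
      rw [← ENNReal.ofReal_mul (exp_pos _).le, ← exp_add]
      congr 2
      rw [Finset.sum_union hd, neg_add]
      congr 2
      · exact Finset.sum_congr rfl fun i hi => by rw [glue, if_pos hi]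
      · exact Finset.sum_congr rfl fun i hi => by
          rw [glue, if_neg (Finset.disjoint_right.mp hd hi)]
    simp only [h1]
    rw [lintegral_prod_mul (measurable_lap Λ L).aemeasurable (measurable_lap Λ' L).aemeasurable,
      (vr_left hd hW h).lap L hL, (vr_right hd hW h).lap L hL, lam_union hd hW,
      ENNReal.ofReal_mul]
    unfold Lam
    refine mul_nonneg (exp_pos _).le (Finset.prod_nonneg fun i _ => inv_nonneg.mpr ?_)
    linarith [hL i]

end IndepAux

open IndepAux in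
theorem VR.indep (hd : Disjoint Λ Λ') (hW : ∀ i ∈ Λ, ∀ j ∈ Λ', W i j = 0 ∧ W j i = 0)
    (h : VR μ (Λ ∪ Λ') W θ) {F F' : (α → ℝ) → ℝ≥0∞} (hF : Measurable F) (hF' : Measurable F')
    (hdF : DependsOn F (Λ : Set α)) (hdF' : DependsOn F' (Λ' : Set α)) :
    ∫⁻ β, F β * F' β ∂μ = (∫⁻ β, F β ∂μ) * ∫⁻ β, F' β ∂μ := by
  have hprob := h.prob
  have h1 : DependsOn (fun β => F β * F' β) ((Λ ∪ Λ' : Finset α) : Set α) := by
    intro x y hxy
    have hx : F x = F y := hdF fun i hi =>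
      hxy i (Finset.mem_coe.mpr (Finset.mem_union_left _ (Finset.mem_coe.mp hi)))
    have hx' : F' x = F' y := hdF' fun i hi =>
      hxy i (Finset.mem_coe.mpr (Finset.mem_union_right _ (Finset.mem_coe.mp hi)))
    simp only [hx, hx']
  have hm : Measurable fun β : α → ℝ => F β * F' β := hF.mul hF'
  rw [h.lintegral_eq (vr_glue hd hW h) hm h1, lintegral_map hm (measurable_glue Λ)]
  have h2 : ∀ p : (α → ℝ) × (α → ℝ), F (glue Λ p) * F' (glue Λ p) = F p.1 * F' p.2 := by
    intro p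
    congr 1
    · exact hdF fun i hi => by rw [glue, if_pos (Finset.mem_coe.mp hi)]
    · exact hdF' fun i hi => by
        rw [glue, if_neg (Finset.disjoint_right.mp hd (Finset.mem_coe.mp hi))]
  simp only [h2]
  exact lintegral_prod_mul hF.aemeasurable hF'.aemeasurable

end VJ26
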