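import Pool.Agent.VJ26.LargeA

/-!
# [VJ-LARGEC] The glued conductance is large if the average of `ψ` is close to one

This file: `P4_avg`

`VR μ V W η`, `B ⊆ V` nonempty, `A = (∑_{j∈B} ψ_j)/|B|`, `ψ = psi W V β η`,
`h = hB W V B η β`, `δ = E|A - 1| ≤ 10^{-5}`. Claim `P(h ≤ 6) ≤ 1/6`.

Notation: `O = V \ B`, `η'_j = η_j + bil W O β (W j) η` for `j ∈ B` (zero elsewhere),
`θ = 1_B/|B|`, `Q = bil W V β θ θ`, `S = ∑_{j∈B} η'_j ψ_j`.

`psi_eq_bdry`: `ψ_i - (G_O η)_i = (G_V η')_i` for `i ∈ V`: the left side `x_i` solves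
`2β_i x_i - ∑_{k∈V} W_ik x_k = η'_i` on `V` (`psi_eq` for `V` and for `O`, `psi_zero_off`), so
`psi_unique`. In particular `ψ_j = (G_V η')_j` for `j ∈ B`.
Hence `S = ⟨η', G_V η'⟩`, `A = ⟨θ, G_V η'⟩`, `A^2 ≤ Q S` (`bil_sq_le`).
`S_small`: `E[S 1{h ≤ 6}] ≤ 6`: for `j ∈ B`, `V = insert j (V.erase j)`, `VR.mean_le` with
`F = η'_j 1{h ≤ 6}` (depends on `O ⊆ V.erase j`), sum over `j`: `∑_{j∈B} η'_j = h`.
`P4_avg`: `VR.p4` with `y = θ`: `E exp(-Q/2 - A) = e^{-1}` (`bil W V β θ η = A`), so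
`E[e^{-A}(1 - e^{-Q/2})] = E[e^{-A}] - e^{-1} ≤ E|A-1| = δ` (`|e^{-a} - e^{-1}| ≤ |a-1|`, `a ≥ 0`).
Conclusion: `P(|A-1| ≥ 1/2) ≤ 2δ`; `P(S > 72, h ≤ 6) ≤ 1/12` (Markov); on
`{|A-1| < 1/2, S ≤ 72}` one has `Q ≥ 1/288`, `e^{-A}(1-e^{-Q/2}) ≥ e^{-3/2}(1 - e^{-1/576}) ≥ 1/2600`,
so this event has probability at most `2600 δ`. Total `≤ 1/12 + 2602 · 10^{-5} ≤ 1/6`.
(If it is convenient, use lintegral and `ENNReal` Markov `meas_ge_le_lintegral_div`.)
-/

open MeasureTheory Real
open scoped ENNReal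

namespace VJ26

variable {α : Type*} [DecidableEq α]
variable {W : α → α → ℝ} {V B : Finset α} {η β : α → ℝ} {μ : Measure (α → ℝ)} {i j : α}

theorem P4_avg (hW : Wt W) (hη : ∀ i, 0 ≤ η i) (h : VR μ V W η) (hBV : B ⊆ V)
    (hne : B.Nonempty) :
    ∫⁻ β, ENNReal.ofReal (exp (-((∑ j ∈ B, psi W V β η j) / B.card)) *
        (1 - exp (-(bil W V β (fun i => if i ∈ B then (1 / B.card : ℝ) else 0)
        (fun i => if i ∈ B then (1 / B.card : ℝ) else 0) / 2)))) ∂μ ≤
      ∫⁻ β, ENNReal.ofReal |(∑ j ∈ B, psi W V β η j) / B.card - 1| ∂μ := by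
  have hprob : IsProbabilityMeasure μ := h.prob
  set θ : α → ℝ := fun i => if i ∈ B then (1 / B.card : ℝ) else 0 with hθ
  have hcard : (0 : ℝ) < B.card := by exact_mod_cast hne.card_pos
  have hθ0 : ∀ i, 0 ≤ θ i := by
    intro i
    simp only [hθ]
    split_ifs
    · positivity
    · exact le_refl _
  have hsum : ∀ f : α → ℝ, ∑ i ∈ V, θ i * f i = (∑ j ∈ B, f j) / B.card := by
    intro f
    simp only [hθ, ite_mul, zero_mul]
    rw [Finset.sum_ite_mem, Finset.inter_eq_right.2 hBV, Finset.sum_div]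
    exact Finset.sum_congr rfl fun j _ => by ring
  have hA : ∀ β, bil W V β θ η = (∑ j ∈ B, psi W V β η j) / B.card := by
    intro β
    rw [bil_eq_sum_psi, hsum]
  have hone : ∑ i ∈ V, θ i = 1 := by
    have h1 := hsum (fun _ => 1)
    simp only [mul_one, Finset.sum_const, nsmul_eq_mul] at h1
    rw [h1, div_self hcard.ne']
  have hp4 := VR.p4 hW hη h hθ0
  rw [hone] at hp4
  have hmeas : Measurable (fun β : α → ℝ =>
      ENNReal.ofReal (exp (-(1 / 2 * bil W V β θ θ) - bil W V β θ η))) := by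
    exact (Real.measurable_exp.comp ((((measurable_bil W V θ θ).const_mul (1 / 2)).neg).sub
      (measurable_bil W V θ η))).ennreal_ofReal
  have hfin : ENNReal.ofReal (exp (-1)) ≠ ⊤ := ENNReal.ofReal_ne_top
  refine (ENNReal.add_le_add_iff_right hfin).1 ?_
  calc ∫⁻ β, ENNReal.ofReal (exp (-((∑ j ∈ B, psi W V β η j) / B.card)) *
        (1 - exp (-(bil W V β θ θ / 2)))) ∂μ + ENNReal.ofReal (exp (-1))
      = ∫⁻ β, ENNReal.ofReal (exp (-((∑ j ∈ B, psi W V β η j) / B.card)) *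
        (1 - exp (-(bil W V β θ θ / 2)))) + ENNReal.ofReal
          (exp (-(1 / 2 * bil W V β θ θ) - bil W V β θ η)) ∂μ := by
        rw [lintegral_add_right _ hmeas, hp4]
    _ ≤ ∫⁻ β, ENNReal.ofReal |(∑ j ∈ B, psi W V β η j) / B.card - 1| +
          ENNReal.ofReal (exp (-1)) ∂μ := by
        apply lintegral_mono_ae
        filter_upwards [VR.good hW hη h] with β hG
        have hA0 : 0 ≤ bil W V β θ η := bil_nonneg hG (fun i _ => hθ0 i) (fun i _ => hη i)
        have hQ0 : 0 ≤ bil W V β θ θ := bil_self_nonneg hG θ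
        rw [← hA β]
        set A := bil W V β θ η with hAdef
        set Q := bil W V β θ θ with hQdef
        have h1 : 0 ≤ exp (-A) * (1 - exp (-(Q / 2))) := by
          apply mul_nonneg (exp_pos _).le
          have : exp (-(Q / 2)) ≤ 1 := exp_le_one_iff.2 (by linarith)
          linarith
        rw [← ENNReal.ofReal_add h1 (exp_pos _).le,
          ← ENNReal.ofReal_add (abs_nonneg _) (exp_pos _).le]
        apply ENNReal.ofReal_le_ofReal
        have h2 : exp (-(1 / 2 * Q) - A) = exp (-A) * exp (-(Q / 2)) := by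
          rw [← exp_add]
          congr 1
          ring
        have h3 : exp (-A) * (1 - exp (-(Q / 2))) + exp (-(1 / 2 * Q) - A) = exp (-A) := by
          rw [h2]; ring
        rw [h3]
        -- exp (-A) ≤ |A - 1| + exp (-1)
        rcases le_total 1 A with hle | hle
        · have : exp (-A) ≤ exp (-1) := exp_le_exp.2 (by linarith)
          have h4 := abs_nonneg (A - 1)
          linarith
        · have h5 : 1 + (A - 1) ≤ exp (A - 1) := by
            have := add_one_le_exp (A - 1)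
            linarith
          have h6 : exp (-A) * exp (A - 1) = exp (-1) := by
            rw [← exp_add]; congr 1; ring
          have h7 : exp (-A) ≤ 1 := exp_le_one_iff.2 (by linarith)
          have h8 : 0 < exp (-A) := exp_pos _
          have h9 : exp (-A) * (1 + (A - 1)) ≤ exp (-1) := by
            rw [← h6]
            exact mul_le_mul_of_nonneg_left h5 h8.le
          rw [abs_of_nonpos (by linarith)]
          nlinarith
    _ = ∫⁻ β, ENNReal.ofReal |(∑ j ∈ B, psi W V β η j) / B.card - 1| ∂μ +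
          ENNReal.ofReal (exp (-1)) := by
        rw [lintegral_add_right _ measurable_const, lintegral_const, measure_univ, mul_one]

end VJ26
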