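import Pool.Agent.VJ26.LargeB
import Pool.Agent.VJ26.LargeC

/-!
# [VJ-LARGE] The glued conductance is large if the average of `ψ` is close to one

This file: `large_h`

`VR μ V W η`, `B ⊆ V` nonempty, `A = (∑_{j∈B} ψ_j)/|B|`, `ψ = psi W V β η`,
`h = hB W V B η β`, `δ = E|A - 1| ≤ 10^{-5}`. Claim `P(h ≤ 6) ≤ 1/6`.

Notation: `O = V \ B`, `η'_j = η_j + bil W O β (W j) η` for `j ∈ B` (zero elsewhere),
`θ = 1_B/|B|`, `Q = bil W V β θ θ`, `S = ∑_{j∈B} η'_j ψ_j`.

`psi_eq_bdry`: `ψ_i - (G_O η)_i = (G_V η')_i` for `i ∈ V`: the left side `x_i` solves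
`2β_i x_i - ∑_{k∈V} W_ik x_k = η'_i` on `V` (`psi_eq` for `V` and for `O`, `psi_zero_off`), so
`psi_unique`. In particular `ψ_j = (G_V η')_j` for `j ∈ B`.
Hence `S = ⟨η', G_V η'⟩`, `A = ⟨θ, G_V η'⟩`, `A^2 ≤ Q S` (`bil_sq_le`).
`S_small`: `E[S 1{h ≤ 6}] ≤ 6`: for `j ∈ B`, `V = insert j (V.erase j)`, `VR.mean_le` with
`F = η'_j 1{h ≤ 6}` (depends on `O ⊆ V.erase j`), sum over `j`: `∑_{j∈B} η'_j = h`.
`P4_avg`: `VR.p4` with `y = θ`: `E exp(-Q/2 - A) = e^{-1}` (`bil W V β θ η = A`), so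
`E[e^{-A}(1 - e^{-Q/2})] = E[e^{-A}] - e^{-1} ≤ E|A-1| = δ` (`|e^{-a} - e^{-1}| ≤ |a-1|`, `a ≥ 0`).
Conclusion: `P(|A-1| ≥ 1/2) ≤ 2δ`; `P(S > 72, h ≤ 6) ≤ 1/12` (Markov); on
`{|A-1| < 1/2, S ≤ 72}` one has `Q ≥ 1/288`, `e^{-A}(1-e^{-Q/2}) ≥ e^{-3/2}(1 - e^{-1/576}) ≥ 1/2600`,
so this event has probability at most `2600 δ`. Total `≤ 1/12 + 2602 · 10^{-5} ≤ 1/6`.
(If it is convenient, use lintegral and `ENNReal` Markov `meas_ge_le_lintegral_div`.)
-/

open MeasureTheory Real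
open scoped ENNReal

namespace VJ26

variable {α : Type*} [DecidableEq α]
variable {W : α → α → ℝ} {V B : Finset α} {η β : α → ℝ} {μ : Measure (α → ℝ)} {i j : α}

namespace LargeAux

theorem measurable_etaB (W : α → α → ℝ) (V B : Finset α) (η : α → ℝ) (j : α) :
    Measurable fun β : α → ℝ => etaB W V B η β j := by
  unfold etaB
  by_cases hj : j ∈ B
  · simp only [hj, if_true]
    exact (measurable_bil W (V \ B) (W j) η).const_add _
  · simp only [hj, if_false]
    exact measurable_const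

theorem measurable_avg (W : α → α → ℝ) (V B : Finset α) (η : α → ℝ) :
    Measurable fun β : α → ℝ => (∑ j ∈ B, psi W V β η j) / B.card :=
  (Finset.measurable_sum _ fun j _ => measurable_psi W V η j).div_const _

theorem measurable_hB (W : α → α → ℝ) (V B : Finset α) (η : α → ℝ) :
    Measurable fun β : α → ℝ => hB W V B η β := by
  unfold hB
  exact (measurable_bil W (V \ B) (WB W B) η).const_add _

theorem measurable_S (W : α → α → ℝ) (V B : Finset α) (η : α → ℝ) :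
    Measurable fun β : α → ℝ => ∑ j ∈ B, etaB W V B η β j * psi W V β η j :=
  Finset.measurable_sum _ fun j _ => (measurable_etaB W V B η j).mul (measurable_psi W V η j)

theorem exp_three_half : (1 : ℝ) / 5 ≤ exp (-(3 / 2)) := by
  have h1 : exp (3 / 2 : ℝ) ≤ 5 := by
    have h2 : exp (3 / 2 : ℝ) ^ 2 ≤ 5 ^ 2 := by
      have h3 : exp (3 / 2 : ℝ) ^ 2 = exp 1 ^ 3 := by
        rw [← exp_nat_mul, ← exp_nat_mul]
        norm_num
      rw [h3]
      have h4 : exp 1 ^ 3 ≤ 2.72 ^ 3 :=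
        pow_le_pow_left₀ (exp_pos 1).le (by linarith [exp_one_lt_d9]) 3
      refine h4.trans (by norm_num)
    exact le_of_sq_le_sq h2 (by norm_num)
  rw [exp_neg, one_div]
  exact inv_anti₀ (exp_pos _) h1

theorem small_exp {q : ℝ} (hq : 1 / 288 ≤ q) : 1 / 577 ≤ 1 - exp (-(q / 2)) := by
  have h1 : exp (-(q / 2)) ≤ exp (-(1 / 576)) := exp_le_exp.mpr (by linarith)
  have h2 : exp (-(1 / 576 : ℝ)) ≤ 576 / 577 := by
    rw [exp_neg]
    have h3 : (1 : ℝ) / 576 + 1 ≤ exp (1 / 576) := add_one_le_exp _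
    have h4 : (exp (1 / 576 : ℝ))⁻¹ ≤ (1 / 576 + 1)⁻¹ := inv_anti₀ (by norm_num) h3
    refine h4.trans (by norm_num)
  linarith

theorem low {a q s : ℝ} (hq0 : 0 ≤ q) (ha : |a - 1| < 1 / 2) (hs : s ≤ 72) (h : a ^ 2 ≤ q * s) :
    1 / 2885 ≤ exp (-a) * (1 - exp (-(q / 2))) := by
  rw [abs_lt] at ha
  have h1 : q * s ≤ q * 72 := mul_le_mul_of_nonneg_left hs hq0
  have h2 : 1 / 288 ≤ q := by nlinarith
  have h3 := small_exp h2
  have h4 : 1 / 5 ≤ exp (-a) := exp_three_half.trans (exp_le_exp.mpr (by linarith))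
  have h5 : (1 : ℝ) / 5 * (1 / 577) ≤ exp (-a) * (1 - exp (-(q / 2))) :=
    mul_le_mul h4 h3 (by norm_num) (exp_pos _).le
  refine le_trans (by norm_num) h5

omit [DecidableEq α] in
theorem markov {μ : Measure (α → ℝ)} {f : (α → ℝ) → ℝ≥0∞} (hf : Measurable f) {c d : ℝ}
    (hc : 0 < c) (hd : ∫⁻ β, f β ∂μ ≤ ENNReal.ofReal d) :
    μ {β | ENNReal.ofReal c ≤ f β} ≤ ENNReal.ofReal (d / c) := by
  have h0 : ENNReal.ofReal c ≠ 0 := by
    simpa using hc
  have h1 := meas_ge_le_lintegral_div (μ := μ) hf.aemeasurable h0 ENNReal.ofReal_ne_top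
  refine h1.trans ?_
  rw [ENNReal.ofReal_div_of_pos hc]
  exact ENNReal.div_le_div_right hd _

end LargeAux

open LargeAux in
theorem large_h (hW : Wt W) (hη : ∀ i, 0 ≤ η i) (h : VR μ V W η) (hBV : B ⊆ V)
    (hne : B.Nonempty)
    (hA : ∫⁻ β, ENNReal.ofReal |(∑ j ∈ B, psi W V β η j) / B.card - 1| ∂μ ≤
      ENNReal.ofReal (1 / 100000)) :
    μ {β | hB W V B η β ≤ 6} ≤ ENNReal.ofReal (1 / 6) := by
  have hprob := h.prob
  have hS := S_small hW hη h hBV (H := 6) (by norm_num)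
  have hP := (P4_avg hW hη h hBV hne).trans hA
  have m1 : Measurable fun β : α → ℝ =>
      ENNReal.ofReal |(∑ j ∈ B, psi W V β η j) / B.card - 1| :=
    ENNReal.measurable_ofReal.comp (((measurable_avg W V B η).sub_const 1).abs)
  have m2 : Measurable fun β : α → ℝ => (if hB W V B η β ≤ 6 then
        ENNReal.ofReal (∑ j ∈ B, etaB W V B η β j * psi W V β η j) else 0) :=
    Measurable.ite (measurableSet_le (measurable_hB W V B η) measurable_const)
      (ENNReal.measurable_ofReal.comp (measurable_S W V B η)) measurable_const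
  have m3 : Measurable fun β : α → ℝ =>
      ENNReal.ofReal (exp (-((∑ j ∈ B, psi W V β η j) / B.card)) *
        (1 - exp (-(bil W V β (fun i => if i ∈ B then (1 / B.card : ℝ) else 0)
        (fun i => if i ∈ B then (1 / B.card : ℝ) else 0) / 2)))) :=
    ENNReal.measurable_ofReal.comp ((measurable_avg W V B η).neg.exp.mul
      (((measurable_bil W V _ _).div_const 2).neg.exp.const_sub 1))
  have e1 := markov (μ := μ) m1 (c := 1 / 2) (by norm_num) hA
  have e2 := markov (μ := μ) m2 (c := 72) (by norm_num) hS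
  have e3 := markov (μ := μ) m3 (c := 1 / 2885) (by norm_num) hP
  have hle : μ {β | hB W V B η β ≤ 6} ≤
      μ (({β | ENNReal.ofReal (1 / 2) ≤
          ENNReal.ofReal |(∑ j ∈ B, psi W V β η j) / B.card - 1|} ∪
        {β | ENNReal.ofReal 72 ≤ (if hB W V B η β ≤ 6 then
          ENNReal.ofReal (∑ j ∈ B, etaB W V B η β j * psi W V β η j) else 0)}) ∪
        {β | ENNReal.ofReal (1 / 2885) ≤
          ENNReal.ofReal (exp (-((∑ j ∈ B, psi W V β η j) / B.card)) *
          (1 - exp (-(bil W V β (fun i => if i ∈ B then (1 / B.card : ℝ) else 0)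
          (fun i => if i ∈ B then (1 / B.card : ℝ) else 0) / 2))))}) := by
    refine measure_mono_ae ?_
    filter_upwards [h.allGood hW hη] with β hG hβ
    have hβ' : hB W V B η β ≤ 6 := hβ
    have hGV : Good W V β := hG.1 V (Finset.Subset.refl V)
    have hGO : Good W (V \ B) β := hG.1 _ Finset.sdiff_subset
    by_cases c1 : 1 / 2 ≤ |(∑ j ∈ B, psi W V β η j) / B.card - 1|
    · exact Or.inl (Or.inl (ENNReal.ofReal_le_ofReal c1))
    by_cases c2 : 72 ≤ ∑ j ∈ B, etaB W V B η β j * psi W V β η j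
    · refine Or.inl (Or.inr ?_)
      change ENNReal.ofReal 72 ≤ (if hB W V B η β ≤ 6 then _ else _)
      rw [if_pos hβ']
      exact ENNReal.ofReal_le_ofReal c2
    refine Or.inr (ENNReal.ofReal_le_ofReal ?_)
    exact low (bil_self_nonneg hGV _) (not_le.mp c1) (not_le.mp c2).le
      (avg_sq_le hW hBV hGV hGO)
  refine hle.trans ((measure_union_le _ _).trans ((add_le_add_left (measure_union_le _ _) _).trans
    ((add_le_add (add_le_add e1 e2) e3).trans ?_)))
  rw [← ENNReal.ofReal_add (by norm_num) (by norm_num),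
    ← ENNReal.ofReal_add (by norm_num) (by norm_num)]
  exact ENNReal.ofReal_le_ofReal (by norm_num)

end VJ26
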