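import Pool.Agent.VJ26.Mean2

/-!
# [VJ-LARGEA] The glued conductance is large if the average of `ψ` is close to one

This file: `etaB`, `psi_eq_bdry`, `sum_etaB`, `avg_sq_le`

`VR μ V W η`, `B ⊆ V` nonempty, `A = (∑_{j∈B} ψ_j)/|B|`, `ψ = psi W V β η`,
`h = hB W V B η β`, `δ = E|A - 1| ≤ 10^{-5}`. Claim `P(h ≤ 6) ≤ 1/6`.

Notation: `O = V \ B`, `η'_j = η_j + bil W O β (W j) η` for `j ∈ B` (zero elsewhere),
`θ = 1_B/|B|`, `Q = bil W V β θ θ`, `S = ∑_{j∈B} η'_j ψ_j`.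

`psi_eq_bdry`: `ψ_i - (G_O η)_i = (G_V η')_i` for `i ∈ V`: the left side `x_i` solves
`2β_i x_i - ∑_{k∈V} W_ik x_k = η'_i` on `V` (`psi_eq` for `V` and for `O`, `psi_zero_off`), so
`psi_unique`. In particular `ψ_j = (G_V η')_j` for `j ∈ B`.
Hence `S = ⟨η', G_V η'⟩`, `A = ⟨θ, G_V η'⟩`, `A^2 ≤ Q S` (`bil_sq_le`).
`S_small`: `E[S 1{h ≤ 6}] ≤ 6`: for `j ∈ B`, `V = insert j (V.erase j)`, `VR.mean_le` with
`F = η'_j 1{h ≤ 6}` (depends on `O ⊆ V.erase j`), sum over `j`: `∑_{j∈B} η'_j = h`.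
`P4_avg`: `VR.p4` with `y = θ`: `E exp(-Q/2 - A) = e^{-1}` (`bil W V β θ η = A`), so
`E[e^{-A}(1 - e^{-Q/2})] = E[e^{-A}] - e^{-1} ≤ E|A-1| = δ` (`|e^{-a} - e^{-1}| ≤ |a-1|`, `a ≥ 0`).
Conclusion: `P(|A-1| ≥ 1/2) ≤ 2δ`; `P(S > 72, h ≤ 6) ≤ 1/12` (Markov); on
`{|A-1| < 1/2, S ≤ 72}` one has `Q ≥ 1/288`, `e^{-A}(1-e^{-Q/2}) ≥ e^{-3/2}(1 - e^{-1/576}) ≥ 1/2600`,
so this event has probability at most `2600 δ`. Total `≤ 1/12 + 2602 · 10^{-5} ≤ 1/6`.
(If it is convenient, use lintegral and `ENNReal` Markov `meas_ge_le_lintegral_div`.)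
-/

open MeasureTheory Real
open scoped ENNReal

namespace VJ26

variable {α : Type*} [DecidableEq α]
variable {W : α → α → ℝ} {V B : Finset α} {η β : α → ℝ} {μ : Measure (α → ℝ)} {i j : α}

/-- effective killing of the vertices of `B` -/
noncomputable def etaB (W : α → α → ℝ) (V B : Finset α) (η β : α → ℝ) (j : α) : ℝ :=
  if j ∈ B then η j + bil W (V \ B) β (W j) η else 0

theorem la55_sum_split (hBV : B ⊆ V) (f : α → ℝ) (hf : ∀ k ∈ B, f k = 0) :
    ∑ k ∈ V, f k = ∑ k ∈ V \ B, f k := by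
  rw [← Finset.sum_sdiff hBV, Finset.sum_eq_zero hf, add_zero]

theorem la55_sum_B (hBV : B ⊆ V) (f : α → ℝ) (hf : ∀ k ∈ V, k ∉ B → f k = 0) :
    ∑ k ∈ V, f k = ∑ k ∈ B, f k := by
  rw [← Finset.sum_sdiff hBV, Finset.sum_eq_zero (fun k hk => ?_), zero_add]
  rw [Finset.mem_sdiff] at hk
  exact hf k hk.1 hk.2

theorem psi_eq_bdry (hW : Wt W) (hBV : B ⊆ V) (hG : Good W V β) (hGO : Good W (V \ B) β)
    (hi : i ∈ B) : psi W V β η i = psi W V β (etaB W V B η β) i := by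
  have hoff : ∀ k ∈ B, psi W (V \ B) β η k = 0 := fun k hk =>
    psi_zero_off (fun h => (Finset.mem_sdiff.1 h).2 hk)
  have key : ∀ k ∈ V, 2 * β k * (psi W V β η k - psi W (V \ B) β η k) -
      ∑ l ∈ V, W k l * (psi W V β η l - psi W (V \ B) β η l) = etaB W V B η β k := by
    intro k hk
    have h1 := psi_eq hG η hk
    have h2 : ∑ l ∈ V, W k l * (psi W V β η l - psi W (V \ B) β η l) =
        ∑ l ∈ V, W k l * psi W V β η l - ∑ l ∈ V \ B, W k l * psi W (V \ B) β η l := by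
      rw [← la55_sum_split hBV (fun l => W k l * psi W (V \ B) β η l)
        (fun l hl => by rw [hoff l hl, mul_zero]), ← Finset.sum_sub_distrib]
      exact Finset.sum_congr rfl fun l _ => by ring
    rw [h2]
    unfold etaB
    split_ifs with hkB
    · rw [hoff k hkB, bil_eq_sum_psi]
      linarith
    · have h3 := psi_eq hGO η (Finset.mem_sdiff.2 ⟨hk, hkB⟩)
      linarith
  have h := psi_unique hW hG (x := fun k => psi W V β η k - psi W (V \ B) β η k) key (hBV hi)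
  rw [← h]
  change _ = psi W V β η i - psi W (V \ B) β η i
  rw [hoff i hi, sub_zero]

theorem sum_etaB : ∑ j ∈ B, etaB W V B η β j = hB W V B η β := by
  have h1 : ∀ j ∈ B, etaB W V B η β j = η j + bil W (V \ B) β (W j) η := by
    intro j hj
    unfold etaB
    rw [if_pos hj]
  rw [Finset.sum_congr rfl h1, Finset.sum_add_distrib]
  unfold hB
  congr 1
  rw [bil_eq_sum_psi, Finset.sum_congr rfl (fun j _ => bil_eq_sum_psi (W j) η), Finset.sum_comm]
  refine Finset.sum_congr rfl fun k _ => ?_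
  rw [WB, Finset.sum_mul]

theorem avg_sq_le (hW : Wt W) (hBV : B ⊆ V) (hG : Good W V β) (hGO : Good W (V \ B) β) :
    ((∑ j ∈ B, psi W V β η j) / B.card) ^ 2 ≤
      bil W V β (fun i => if i ∈ B then (1 / B.card : ℝ) else 0)
        (fun i => if i ∈ B then (1 / B.card : ℝ) else 0) *
      ∑ j ∈ B, etaB W V B η β j * psi W V β η j := by
  have hz : ∀ k, k ∉ B → etaB W V B η β k = 0 := by
    intro k hk
    unfold etaB
    rw [if_neg hk]
  have hA : (∑ j ∈ B, psi W V β η j) / B.card =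
      bil W V β (fun i => if i ∈ B then (1 / B.card : ℝ) else 0) (etaB W V B η β) := by
    rw [bil_eq_sum_psi, la55_sum_B hBV _ (fun k _ hk => by rw [if_neg hk, zero_mul]),
      Finset.sum_div]
    refine Finset.sum_congr rfl fun k hk => ?_
    rw [if_pos hk, ← psi_eq_bdry hW hBV hG hGO hk]
    ring
  have hS : ∑ j ∈ B, etaB W V B η β j * psi W V β η j =
      bil W V β (etaB W V B η β) (etaB W V B η β) := by
    rw [bil_eq_sum_psi, la55_sum_B hBV _ (fun k _ hk => by rw [hz k hk, zero_mul])]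
    refine Finset.sum_congr rfl fun k hk => ?_
    rw [← psi_eq_bdry hW hBV hG hGO hk]
  rw [hA, hS]
  exact bil_sq_le hG _ _

end VJ26
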