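import Pool.Agent.VJ26.LargeA

/-!
# [VJ-LARGEB] The glued conductance is large if the average of `ψ` is close to one

This file: `S_small`

`VR μ V W η`, `B ⊆ V` nonempty, `A = (∑_{j∈B} ψ_j)/|B|`, `ψ = psi W V β η`,
`h = hB W V B η β`, `δ = E|A - 1| ≤ 10^{-5}`. Claim `P(h ≤ 6) ≤ 1/6`.

Notation: `O = V \ B`, `η'_j = η_j + bil W O β (W j) η` for `j ∈ B` (zero elsewhere),
`θ = 1_B/|B|`, `Q = bil W V β θ θ`, `S = ∑_{j∈B} η'_j ψ_j`.

`psi_eq_bdry`: `ψ_i - (G_O η)_i = (G_V η')_i` for `i ∈ V`: the left side `x_i` solves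
`2β_i x_i - ∑_{k∈V} W_ik x_k = η'_i` on `V` (`psi_eq` for `V` and for `O`, `psi_zero_off`), so
`psi_unique`. In particular `ψ_j = (G_V η')_j` for `j ∈ B`.
Hence `S = ⟨η', G_V η'⟩`, `A = ⟨θ, G_V η'⟩`, `A^2 ≤ Q S` (`bil_sq_le`).
`S_small`: `E[S 1{h ≤ 6}] ≤ 6`: for `j ∈ B`, `V = insert j (V.erase j)`, `VR.mean_le` with
`F = η'_j 1{h ≤ 6}` (depends on `O ⊆ V.erase j`), sum over `j`: `∑_{j∈B} η'_j = h`.
`P4_avg`: `VR.p4` with `y = θ`: `E exp(-Q/2 - A) = e^{-1}` (`bil W V β θ η = A`), so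
`E[e^{-A}(1 - e^{-Q/2})] = E[e^{-A}] - e^{-1} ≤ E|A-1| = δ` (`|e^{-a} - e^{-1}| ≤ |a-1|`, `a ≥ 0`).
Conclusion: `P(|A-1| ≥ 1/2) ≤ 2δ`; `P(S > 72, h ≤ 6) ≤ 1/12` (Markov); on
`{|A-1| < 1/2, S ≤ 72}` one has `Q ≥ 1/288`, `e^{-A}(1-e^{-Q/2}) ≥ e^{-3/2}(1 - e^{-1/576}) ≥ 1/2600`,
so this event has probability at most `2600 δ`. Total `≤ 1/12 + 2602 · 10^{-5} ≤ 1/6`.
(If it is convenient, use lintegral and `ENNReal` Markov `meas_ge_le_lintegral_div`.)
-/

open MeasureTheory Real
open scoped ENNReal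

namespace VJ26

variable {α : Type*} [DecidableEq α]
variable {W : α → α → ℝ} {V B : Finset α} {η β : α → ℝ} {μ : Measure (α → ℝ)} {i j : α}

theorem S_small (hW : Wt W) (hη : ∀ i, 0 ≤ η i) (h : VR μ V W η) (hBV : B ⊆ V) {H : ℝ}
    (hH : 0 ≤ H) :
    ∫⁻ β, (if hB W V B η β ≤ H then
        ENNReal.ofReal (∑ j ∈ B, etaB W V B η β j * psi W V β η j) else 0) ∂μ ≤
      ENNReal.ofReal H := by
  have := h.prob
  have hmeasH : Measurable (fun β : α → ℝ => hB W V B η β) := by
    unfold hB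
    exact measurable_const.add (measurable_bil W (V \ B) (WB W B) η)
  have hdepH : ∀ j ∈ B, ∀ β β' : α → ℝ, (∀ i ∈ ((V.erase j : Finset α) : Set α), β i = β' i) →
      hB W V B η β = hB W V B η β' := by
    intro j hj β β' hβ
    have h1 := (dependsOn_bil W (V \ B) (WB W B) η) (x := β) (y := β') (fun i hi => hβ i (by
      simp only [Finset.coe_sdiff, Set.mem_sdiff, Finset.mem_coe] at hi
      simp only [Finset.coe_erase, Set.mem_sdiff, Finset.mem_coe, Set.mem_singleton_iff]
      exact ⟨hi.1, fun hij => hi.2 (hij ▸ hj)⟩))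
    unfold hB
    simp only at h1
    rw [h1]
  -- the factors
  let F : α → (α → ℝ) → ℝ≥0∞ := fun j β =>
    if hB W V B η β ≤ H then ENNReal.ofReal (η j + bil W (V \ B) β (W j) η) else 0
  have hFm : ∀ j, Measurable (F j) := by
    intro j
    refine Measurable.ite (measurableSet_le hmeasH measurable_const) ?_ measurable_const
    exact (measurable_const.add (measurable_bil W (V \ B) (W j) η)).ennreal_ofReal
  have hFd : ∀ j ∈ B, DependsOn (F j) ((V.erase j : Finset α) : Set α) := by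
    intro j hj β β' hβ
    have h1 := (dependsOn_bil W (V \ B) (W j) η) (x := β) (y := β') (fun i hi => hβ i (by
      simp only [Finset.coe_sdiff, Set.mem_sdiff, Finset.mem_coe] at hi
      simp only [Finset.coe_erase, Set.mem_sdiff, Finset.mem_coe, Set.mem_singleton_iff]
      exact ⟨hi.1, fun hij => hi.2 (hij ▸ hj)⟩))
    simp only at h1
    simp only [F]
    rw [h1, hdepH j hj β β' hβ]
  -- each term
  have hterm : ∀ j ∈ B,
      ∫⁻ β, ENNReal.ofReal (psi W V β η j) * F j β ∂μ ≤ ∫⁻ β, F j β ∂μ := by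
    intro j hj
    have hins : insert j (V.erase j) = V := Finset.insert_erase (hBV hj)
    have h' : VR μ (insert j (V.erase j)) W η := by rw [hins]; exact h
    have := VR.mean_le hW hη (Finset.notMem_erase j V) h' (hFm j) (hFd j hj)
    rwa [hins] at this
  have hAG := VR.allGood hW hη h
  calc ∫⁻ β, (if hB W V B η β ≤ H then
        ENNReal.ofReal (∑ j ∈ B, etaB W V B η β j * psi W V β η j) else 0) ∂μ
      = ∫⁻ β, ∑ j ∈ B, ENNReal.ofReal (psi W V β η j) * F j β ∂μ := by
        refine lintegral_congr_ae ?_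
        filter_upwards [hAG] with β hβ
        have hGO : Good W (V \ B) β := hβ.1 _ Finset.sdiff_subset
        have hGV : Good W V β := hβ.1 _ (Finset.Subset.refl V)
        by_cases hH' : hB W V B η β ≤ H
        · simp only [F, if_pos hH']
          rw [ENNReal.ofReal_sum_of_nonneg]
          · refine Finset.sum_congr rfl fun j hj => ?_
            rw [etaB, if_pos hj, mul_comm, ENNReal.ofReal_mul (psi_nonneg hGV (fun i _ => hη i) j)]
          · intro j hj
            rw [etaB, if_pos hj]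
            exact mul_nonneg (add_nonneg (hη j) (bil_nonneg hGO (fun i _ => hW.nonneg j i)
              (fun i _ => hη i))) (psi_nonneg hGV (fun i _ => hη i) j)
        · simp only [F, if_neg hH', mul_zero, Finset.sum_const_zero]
    _ = ∑ j ∈ B, ∫⁻ β, ENNReal.ofReal (psi W V β η j) * F j β ∂μ := by
        refine lintegral_finsetSum B fun j _ => ?_
        exact (measurable_psi W V η j).ennreal_ofReal.mul (hFm j)
    _ ≤ ∑ j ∈ B, ∫⁻ β, F j β ∂μ := Finset.sum_le_sum hterm
    _ = ∫⁻ β, ∑ j ∈ B, F j β ∂μ := (lintegral_finsetSum B fun j _ => hFm j).symm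
    _ ≤ ∫⁻ _, ENNReal.ofReal H ∂μ := by
        refine lintegral_mono_ae ?_
        filter_upwards [hAG] with β hβ
        have hGO : Good W (V \ B) β := hβ.1 _ Finset.sdiff_subset
        by_cases hH' : hB W V B η β ≤ H
        · simp only [F, if_pos hH']
          rw [← ENNReal.ofReal_sum_of_nonneg (fun j _ => add_nonneg (hη j)
            (bil_nonneg hGO (fun i _ => hW.nonneg j i) (fun i _ => hη i)))]
          refine ENNReal.ofReal_le_ofReal (le_trans (le_of_eq ?_) hH')
          rw [← sum_etaB]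
          refine Finset.sum_congr rfl fun j hj => ?_
          rw [etaB, if_pos hj]
        · simp only [F, if_neg hH', Finset.sum_const_zero]
          exact bot_le
    _ = ENNReal.ofReal H := by simp

end VJ26
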