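import Pool.Agent.VJ26.Mean
import Pool.Agent.VJ26.IG5

/-!
# [VJ-MEAN2] First and second moments, the martingale step, the tail

This file: `VR.mean_step`, `VR.mean_sq`, `VR.mean_inv`, `VR.mean_tail`

Everything is `VR.disint` at `m` and a one-dimensional integral, with
`ψ_m = psi W (insert m U) β θ m = s T` (`psi_insert_self`; a.s. good by `VR.allGood` or
`VR.good` and `VR.marg`), `s = sfn W U θ m β ≥ 0`, and
`ψ_x = psi W U β θ x + T κ_x s` for `x ∈ U` (`psi_insert`).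
 * `mean_le`: `∫ ig(s,t) s t dt ≤ 1` (`= 1` if `s > 0`, `= 0` if `s = 0`).
 * `mean_step`: `∫ ig(s,t)(A + κ_x s t) dt = A + κ_x` and
   `psi W U β (θ + W m) x = psi W U β θ x + psi W U β (W m) x` (`psi_add`), `κ_x = psi W U β (W m) x`.
 * `mean_sq`: (I6); `mean_inv`: (I4): `∫ ig(s,t)/(st) dt = (s+1)/s = 1 + 1/s`.
 * `mean_tail`: (TAIL).
-/

open MeasureTheory Real
open scoped ENNReal

namespace VJ26

variable {α : Type*} [DecidableEq α]
variable {W : α → α → ℝ} {U : Finset α} {θ : α → ℝ} {μ : Measure (α → ℝ)} {m x : α}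

/-- a.s. both `U` and `insert m U` are good. -/
theorem h38_good (hW : Wt W) (hθ : ∀ i, 0 ≤ θ i) (hm : m ∉ U)
    (h : VR μ (insert m U) W θ) :
    ∀ᵐ β ∂μ, Good W U β ∧ Good W (insert m U) β := by
  have h1 := VR.good hW hθ h
  have h2 := VR.good hW (fun i => add_nonneg (hθ i) (hW.nonneg m i)) (VR.marg hW hm h)
  filter_upwards [h1, h2] with β a b
  exact ⟨b, a⟩

theorem h38_meas_ig (s : ℝ) : Measurable (fun t : ℝ => ig s t) :=
  measurable_ig.comp (measurable_const.prodMk measurable_id)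

theorem h38_inner_step {s A κ : ℝ} (hs : 0 < s) (hA : 0 ≤ A) (hκ : 0 ≤ κ) (c : ℝ≥0∞) :
    ∫⁻ t in Set.Ioi (0 : ℝ), ENNReal.ofReal (ig s t) *
      (ENNReal.ofReal (A + t * κ * s) * c) = ENNReal.ofReal (A + κ) * c := by
  have hig := h38_meas_ig s
  have e : ∀ t ∈ Set.Ioi (0 : ℝ), ENNReal.ofReal (ig s t) *
      (ENNReal.ofReal (A + t * κ * s) * c) =
      ENNReal.ofReal (ig s t) * (ENNReal.ofReal A * c) +
        ENNReal.ofReal (ig s t * (s * t)) * (ENNReal.ofReal κ * c) := by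
    intro t ht
    have ht0 : 0 < t := ht
    have h1 : ENNReal.ofReal (A + t * κ * s) =
        ENNReal.ofReal A + ENNReal.ofReal (s * t) * ENNReal.ofReal κ := by
      rw [← ENNReal.ofReal_mul (mul_pos hs ht0).le, ← ENNReal.ofReal_add hA (by positivity)]
      congr 1
      ring
    rw [h1, ENNReal.ofReal_mul (ig_nonneg s t)]
    ring
  have hm1 : Measurable (fun t : ℝ => ENNReal.ofReal (ig s t)) := hig.ennreal_ofReal
  have hm2 : Measurable (fun t : ℝ => ENNReal.ofReal (ig s t * (s * t))) :=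
    (hig.mul (measurable_id.const_mul s)).ennreal_ofReal
  rw [setLIntegral_congr_fun measurableSet_Ioi e, lintegral_add_left (hm1.mul_const _),
    lintegral_mul_const _ hm1, lintegral_mul_const _ hm2, ig_mass hs.le, ig_mean hs,
    ENNReal.ofReal_add hA hκ]
  ring

theorem h38_inner_sq {s : ℝ} (hs : 0 < s) :
    ∫⁻ t in Set.Ioi (0 : ℝ), ENNReal.ofReal (ig s t) * ENNReal.ofReal ((s * t) ^ 2) =
      1 + ENNReal.ofReal (1 / s) := by
  have e : ∀ t ∈ Set.Ioi (0 : ℝ), ENNReal.ofReal (ig s t) * ENNReal.ofReal ((s * t) ^ 2) =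
      ENNReal.ofReal (ig s t * (s * t) ^ 2) := by
    intro t _
    rw [ENNReal.ofReal_mul (ig_nonneg s t)]
  rw [setLIntegral_congr_fun measurableSet_Ioi e, ig_sq hs,
    ENNReal.ofReal_add zero_le_one (by positivity), ENNReal.ofReal_one]

theorem h38_inner_inv {s : ℝ} (hs : 0 < s) :
    ∫⁻ t in Set.Ioi (0 : ℝ), ENNReal.ofReal (ig s t) * ENNReal.ofReal (1 / (s * t)) =
      1 + ENNReal.ofReal (1 / s) := by
  have e : ∀ t ∈ Set.Ioi (0 : ℝ), ENNReal.ofReal (ig s t) * ENNReal.ofReal (1 / (s * t)) =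
      ENNReal.ofReal (1 / s) * ENNReal.ofReal (ig s t * (1 / t)) := by
    intro t ht
    have ht0 : 0 < t := ht
    rw [← ENNReal.ofReal_mul (ig_nonneg s t), ← ENNReal.ofReal_mul (by positivity)]
    congr 1
    field_simp
  have hm : Measurable (fun t : ℝ => ENNReal.ofReal (ig s t * (1 / t))) :=
    ((h38_meas_ig s).mul (measurable_const.div measurable_id)).ennreal_ofReal
  rw [setLIntegral_congr_fun measurableSet_Ioi e, lintegral_const_mul _ hm, ig_inv_mean hs.le,
    ← ENNReal.ofReal_mul (by positivity)]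
  have h1 : 1 / s * (s + 1) = 1 + 1 / s := by
    field_simp
  rw [h1, ENNReal.ofReal_add zero_le_one (by positivity), ENNReal.ofReal_one]

theorem VR.mean_step (hW : Wt W) (hθ : ∀ i, 0 ≤ θ i) (hm : m ∉ U)
    (h : VR μ (insert m U) W θ) (hs : ∀ᵐ β ∂μ, 0 < sfn W U θ m β) (hx : x ∈ U)
    {F : (α → ℝ) → ℝ≥0∞} (hF : Measurable F) (hd : DependsOn F (U : Set α)) :
    ∫⁻ β, ENNReal.ofReal (psi W (insert m U) β θ x) * F β ∂μ =
      ∫⁻ β, ENNReal.ofReal (psi W U β (θ + W m) x) * F β ∂μ := by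
  have hxm : x ≠ m := fun e => hm (e ▸ hx)
  set Φ : (α → ℝ) → ℝ → ℝ≥0∞ := fun β t =>
    ENNReal.ofReal (psi W U β θ x + t * psi W U β (W m) x * sfn W U θ m β) * F β with hΦ
  have hΦm : Measurable (fun p : (α → ℝ) × ℝ => Φ p.1 p.2) := by
    have m1 : Measurable (fun p : (α → ℝ) × ℝ => psi W U p.1 θ x) :=
      (measurable_psi W U θ x).comp measurable_fst
    have m2 : Measurable (fun p : (α → ℝ) × ℝ => psi W U p.1 (W m) x) :=
      (measurable_psi W U (W m) x).comp measurable_fst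
    have m3 : Measurable (fun p : (α → ℝ) × ℝ => sfn W U θ m p.1) :=
      (measurable_sfn W U θ m).comp measurable_fst
    exact ((m1.add ((measurable_snd.mul m2).mul m3)).ennreal_ofReal).mul
      (hF.comp measurable_fst)
  have hΦd : ∀ t, DependsOn (fun β => Φ β t) (U : Set α) := by
    intro t β β' hb
    have d1 : psi W U β θ x = psi W U β' θ x := dependsOn_psi W U θ x hb
    have d2 : psi W U β (W m) x = psi W U β' (W m) x := dependsOn_psi W U (W m) x hb
    have d3 : sfn W U θ m β = sfn W U θ m β' := dependsOn_sfn W U θ m hb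
    have d4 : F β = F β' := hd hb
    simp only [hΦ]
    rw [d1, d2, d3, d4]
  have h1 : ∫⁻ β, ENNReal.ofReal (psi W (insert m U) β θ x) * F β ∂μ =
      ∫⁻ β, Φ β (gr W (insert m U) β m m) ∂μ := by
    refine lintegral_congr_ae ?_
    filter_upwards [h38_good hW hθ hm h] with β hβ
    simp only [hΦ]
    rw [psi_insert hW hβ.1 hβ.2 hm θ x]
    unfold kap
    rw [if_neg hxm]
  rw [h1, VR.disint hW hθ hm h hΦm hΦd]
  refine lintegral_congr_ae ?_
  filter_upwards [h38_good hW hθ hm h, hs] with β hβ hsβ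
  simp only [hΦ]
  rw [h38_inner_step hsβ (psi_nonneg hβ.1 (fun i _ => hθ i) x)
    (psi_nonneg hβ.1 (fun i _ => hW.nonneg m i) x), psi_add]

theorem VR.mean_sq (hW : Wt W) (hθ : ∀ i, 0 ≤ θ i) (hm : m ∉ U) (h : VR μ (insert m U) W θ)
    (hs : ∀ᵐ β ∂μ, 0 < sfn W U θ m β) :
    ∫⁻ β, ENNReal.ofReal (psi W (insert m U) β θ m ^ 2) ∂μ =
      1 + ∫⁻ β, ENNReal.ofReal (1 / sfn W U θ m β) ∂μ := by
  have := h.prob
  set Φ : (α → ℝ) → ℝ → ℝ≥0∞ := fun β t =>
    ENNReal.ofReal ((sfn W U θ m β * t) ^ 2) with hΦ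
  have m3 : Measurable (fun p : (α → ℝ) × ℝ => sfn W U θ m p.1) :=
    (measurable_sfn W U θ m).comp measurable_fst
  have hΦm : Measurable (fun p : (α → ℝ) × ℝ => Φ p.1 p.2) :=
    ((m3.mul measurable_snd).pow_const 2).ennreal_ofReal
  have hΦd : ∀ t, DependsOn (fun β => Φ β t) (U : Set α) := by
    intro t β β' hb
    have d3 : sfn W U θ m β = sfn W U θ m β' := dependsOn_sfn W U θ m hb
    simp only [hΦ]
    rw [d3]
  have h1 : ∫⁻ β, ENNReal.ofReal (psi W (insert m U) β θ m ^ 2) ∂μ =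
      ∫⁻ β, Φ β (gr W (insert m U) β m m) ∂μ := by
    refine lintegral_congr_ae ?_
    filter_upwards [h38_good hW hθ hm h] with β hβ
    simp only [hΦ]
    rw [psi_insert_self hW hβ.1 hβ.2 hm θ]
  have h2 : Measurable (fun β : α → ℝ => ENNReal.ofReal (1 / sfn W U θ m β)) :=
    (measurable_const.div (measurable_sfn W U θ m)).ennreal_ofReal
  have h3 : ∫⁻ β, (1 + ENNReal.ofReal (1 / sfn W U θ m β)) ∂μ =
      1 + ∫⁻ β, ENNReal.ofReal (1 / sfn W U θ m β) ∂μ := by
    rw [lintegral_add_right _ h2, lintegral_one, measure_univ]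
  rw [h1, VR.disint hW hθ hm h hΦm hΦd, ← h3]
  refine lintegral_congr_ae ?_
  filter_upwards [hs] with β hsβ
  simp only [hΦ]
  exact h38_inner_sq hsβ

theorem VR.mean_inv (hW : Wt W) (hθ : ∀ i, 0 ≤ θ i) (hm : m ∉ U) (h : VR μ (insert m U) W θ)
    (hs : ∀ᵐ β ∂μ, 0 < sfn W U θ m β) :
    ∫⁻ β, ENNReal.ofReal (1 / psi W (insert m U) β θ m) ∂μ =
      1 + ∫⁻ β, ENNReal.ofReal (1 / sfn W U θ m β) ∂μ := by
  have := h.prob
  set Φ : (α → ℝ) → ℝ → ℝ≥0∞ := fun β t =>
    ENNReal.ofReal (1 / (sfn W U θ m β * t)) with hΦ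
  have m3 : Measurable (fun p : (α → ℝ) × ℝ => sfn W U θ m p.1) :=
    (measurable_sfn W U θ m).comp measurable_fst
  have hΦm : Measurable (fun p : (α → ℝ) × ℝ => Φ p.1 p.2) :=
    (measurable_const.div (m3.mul measurable_snd)).ennreal_ofReal
  have hΦd : ∀ t, DependsOn (fun β => Φ β t) (U : Set α) := by
    intro t β β' hb
    have d3 : sfn W U θ m β = sfn W U θ m β' := dependsOn_sfn W U θ m hb
    simp only [hΦ]
    rw [d3]
  have h1 : ∫⁻ β, ENNReal.ofReal (1 / psi W (insert m U) β θ m) ∂μ =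
      ∫⁻ β, Φ β (gr W (insert m U) β m m) ∂μ := by
    refine lintegral_congr_ae ?_
    filter_upwards [h38_good hW hθ hm h] with β hβ
    simp only [hΦ]
    rw [psi_insert_self hW hβ.1 hβ.2 hm θ]
  have h2 : Measurable (fun β : α → ℝ => ENNReal.ofReal (1 / sfn W U θ m β)) :=
    (measurable_const.div (measurable_sfn W U θ m)).ennreal_ofReal
  have h3 : ∫⁻ β, (1 + ENNReal.ofReal (1 / sfn W U θ m β)) ∂μ =
      1 + ∫⁻ β, ENNReal.ofReal (1 / sfn W U θ m β) ∂μ := by
    rw [lintegral_add_right _ h2, lintegral_one, measure_univ]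
  rw [h1, VR.disint hW hθ hm h hΦm hΦd, ← h3]
  refine lintegral_congr_ae ?_
  filter_upwards [hs] with β hsβ
  simp only [hΦ]
  exact h38_inner_inv hsβ

theorem VR.mean_tail (hW : Wt W) (hθ : ∀ i, 0 ≤ θ i) (hm : m ∉ U)
    (h : VR μ (insert m U) W θ) (hs : ∀ᵐ β ∂μ, 0 < sfn W U θ m β) {K : ℝ} (hK : 0 < K)
    {F : (α → ℝ) → ℝ≥0∞} (hF : Measurable F) (hd : DependsOn F (U : Set α)) :
    ∫⁻ β, (if K < psi W (insert m U) β θ m then
        ENNReal.ofReal (psi W (insert m U) β θ m) else 0) * F β ∂μ ≤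
      ∫⁻ β, ENNReal.ofReal (exp 1 * exp (sfn W U θ m β -
        Real.sqrt (sfn W U θ m β ^ 2 + 2 * (K * sfn W U θ m β)))) * F β ∂μ := by
  set Φ : (α → ℝ) → ℝ → ℝ≥0∞ := fun β t =>
    (if K < sfn W U θ m β * t then ENNReal.ofReal (sfn W U θ m β * t) else 0) * F β with hΦ
  have m3 : Measurable (fun p : (α → ℝ) × ℝ => sfn W U θ m p.1) :=
    (measurable_sfn W U θ m).comp measurable_fst
  have m4 : Measurable (fun p : (α → ℝ) × ℝ => sfn W U θ m p.1 * p.2) := m3.mul measurable_snd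
  have hΦm : Measurable (fun p : (α → ℝ) × ℝ => Φ p.1 p.2) :=
    (Measurable.ite (measurableSet_lt measurable_const m4) m4.ennreal_ofReal
      measurable_const).mul (hF.comp measurable_fst)
  have hΦd : ∀ t, DependsOn (fun β => Φ β t) (U : Set α) := by
    intro t β β' hb
    have d3 : sfn W U θ m β = sfn W U θ m β' := dependsOn_sfn W U θ m hb
    have d4 : F β = F β' := hd hb
    simp only [hΦ]
    rw [d3, d4]
  have h1 : ∫⁻ β, (if K < psi W (insert m U) β θ m then
        ENNReal.ofReal (psi W (insert m U) β θ m) else 0) * F β ∂μ =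
      ∫⁻ β, Φ β (gr W (insert m U) β m m) ∂μ := by
    refine lintegral_congr_ae ?_
    filter_upwards [h38_good hW hθ hm h] with β hβ
    simp only [hΦ]
    rw [psi_insert_self hW hβ.1 hβ.2 hm θ]
  rw [h1, VR.disint hW hθ hm h hΦm hΦd]
  refine lintegral_mono_ae ?_
  filter_upwards [hs] with β hsβ
  simp only [hΦ]
  have hmi : Measurable (fun t : ℝ => ENNReal.ofReal (ig (sfn W U θ m β) t) *
      (if K < sfn W U θ m β * t then ENNReal.ofReal (sfn W U θ m β * t) else 0)) := by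
    have m5 : Measurable (fun t : ℝ => sfn W U θ m β * t) := measurable_id.const_mul _
    exact (h38_meas_ig _).ennreal_ofReal.mul
      (Measurable.ite (measurableSet_lt measurable_const m5) m5.ennreal_ofReal
        measurable_const)
  have e : ∀ t : ℝ, ENNReal.ofReal (ig (sfn W U θ m β) t) *
      ((if K < sfn W U θ m β * t then ENNReal.ofReal (sfn W U θ m β * t) else 0) * F β) =
      (ENNReal.ofReal (ig (sfn W U θ m β) t) *
      (if K < sfn W U θ m β * t then ENNReal.ofReal (sfn W U θ m β * t) else 0)) * F β :=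
    fun t => (mul_assoc _ _ _).symm
  rw [lintegral_congr e, lintegral_mul_const _ hmi]
  exact mul_le_mul_left (ig_tail hsβ hK) _

end VJ26
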