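import Pool.Agent.VJ26.EdgeIJ

/-!
# [VJ-MONO] Monotonicity theorem (MT)

`Φ(W') ≤ Φ(W)` whenever `W ≤ W'`, `W_pq > 0`, `W_kp > 0` for `k ∈ U`.
PROOF. For a finset `S` of ordered pairs let `W^S(a,b) = W'(a,b)` if `(a,b) ∈ S` or `(b,a) ∈ S`,
else `W(a,b)`. `W^S` is `Wt`, `W ≤ W^S ≤ W'` (so the positivity hypotheses hold for every `W^S`)
and `Φ(W^S)` makes sense (`exists_VR`). Induction on `S` (Finset.induction): adding `(a,b)` to `S`
changes at most the pair `{a,b}` and increases it, `Φ(W^{insert}) ≤ Φ(W^S)`: if `a = b` nothing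
changes; if `a` or `b` is not in `insert p (insert q U)` nothing that `Φ` sees changes
(`VR.congr`, `bil_congr`; or restrict to `S ⊆ V ×ˢ V`, `V = insert p (insert q U)`);
otherwise `edge_pq` (or its symmetric form `SameOff W W' q p`, which is the same proposition up to
order), `edge_xq`, `edge_xp`, `edge_ij`. For `S = V ×ˢ V`, `W^S = W'` on `V × V`.
-/

open MeasureTheory Real
open scoped ENNReal

namespace VJ26

variable {α : Type*} [DecidableEq α]
variable {W W' : α → α → ℝ} {U : Finset α} {μ μ' : Measure (α → ℝ)} {p q : α}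

/-- the weights `W'` on the pairs of `S`, `W` elsewhere -/
private noncomputable def WS (W W' : α → α → ℝ) (S : Finset (α × α)) (a b : α) : ℝ :=
  if (a, b) ∈ S ∨ (b, a) ∈ S then W' a b else W a b

private theorem WS_wt (hW : Wt W) (hW' : Wt W') (S : Finset (α × α)) : Wt (WS W W' S) where
  symm i j := by
    unfold WS
    by_cases h : (i, j) ∈ S ∨ (j, i) ∈ S
    · rw [if_pos h, if_pos h.symm, hW'.symm]
    · rw [if_neg h, if_neg (fun t => h t.symm), hW.symm]
  nonneg i j := by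
    unfold WS
    split_ifs
    · exact hW'.nonneg i j
    · exact hW.nonneg i j
  diag i := by
    unfold WS
    split_ifs
    · exact hW'.diag i
    · exact hW.diag i

private theorem WS_ge (hle : ∀ i j, W i j ≤ W' i j) (S : Finset (α × α)) (a b : α) :
    W a b ≤ WS W W' S a b := by
  unfold WS
  split_ifs
  · exact hle a b
  · exact le_rfl

private theorem WS_mono (hle : ∀ i j, W i j ≤ W' i j) (S : Finset (α × α)) (e : α × α) (a b : α) :
    WS W W' S a b ≤ WS W W' (insert e S) a b := by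
  unfold WS
  by_cases h : (a, b) ∈ S ∨ (b, a) ∈ S
  · rw [if_pos h, if_pos (h.imp (Finset.mem_insert_of_mem) (Finset.mem_insert_of_mem))]
  · rw [if_neg h]
    split_ifs
    · exact hle a b
    · exact le_rfl

private theorem WS_off (S : Finset (α × α)) (a b : α) :
    SameOff (WS W W' S) (WS W W' (insert (a, b) S)) a b := by
  intro c d h1 h2
  have e1 : (c, d) ∈ insert (a, b) S ↔ (c, d) ∈ S := by
    rw [Finset.mem_insert]
    constructor
    · rintro (h | h)
      · exact absurd (by simpa using h) h1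
      · exact h
    · exact Or.inr
  have e2 : (d, c) ∈ insert (a, b) S ↔ (d, c) ∈ S := by
    rw [Finset.mem_insert]
    constructor
    · rintro (h | h)
      · have h' : d = a ∧ c = b := by simpa using h
        exact absurd ⟨h'.2, h'.1⟩ h2
      · exact h
    · exact Or.inr
  unfold WS
  simp only [e1, e2]

private theorem SameOff.flip {W₁ W₂ : α → α → ℝ} {a b : α} (h : SameOff W₁ W₂ a b) :
    SameOff W₁ W₂ b a := fun c d h1 h2 => h c d h2 h1

/-- one step -/
private theorem mono_step {W₁ W₂ : α → α → ℝ} {μ₁ μ₂ : Measure (α → ℝ)} {a b : α}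
    (hW : Wt W₁) (hW' : Wt W₂) (hp : p ∉ U) (hq : q ∉ U) (hpq : p ≠ q)
    (h0 : 0 < W₁ p q) (hpU : ∀ k ∈ U, 0 < W₁ k p) (hle : ∀ i j, W₁ i j ≤ W₂ i j)
    (hs : SameOff W₁ W₂ a b) (ha : a ∈ insert p (insert q U)) (hb : b ∈ insert p (insert q U))
    (h : VR μ₁ U W₁ (W₁ p + W₁ q)) (h' : VR μ₂ U W₂ (W₂ p + W₂ q)) :
    ∫⁻ β, ENNReal.ofReal (1 / cap W₂ U β p q) ∂μ₂ ≤
      ∫⁻ β, ENNReal.ofReal (1 / cap W₁ U β p q) ∂μ₁ := by
  by_cases hab : a = b
  · subst hab
    have hs' : SameOff W₁ W₂ p q := by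
      intro c d _ _
      by_cases hcd : c = a ∧ d = a
      · rw [hcd.1, hcd.2, hW.diag, hW'.diag]
      · exact hs c d hcd hcd
    exact edge_pq hW hW' hp hq hpq h0 hs' (hle p q) h h'
  rcases Finset.mem_insert.1 ha with rfl | ha1
  · rcases Finset.mem_insert.1 hb with rfl | hb1
    · exact absurd rfl hab
    rcases Finset.mem_insert.1 hb1 with rfl | hb2
    · exact edge_pq hW hW' hp hq hpq h0 hs (hle _ _) h h'
    · exact edge_xp hW hW' hp hq hpq h0 hb2 hs.flip (hle _ _) h h'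
  rcases Finset.mem_insert.1 ha1 with rfl | ha2
  · rcases Finset.mem_insert.1 hb with rfl | hb1
    · exact edge_pq hW hW' hp hq hpq h0 hs.flip (hle _ _) h h'
    rcases Finset.mem_insert.1 hb1 with rfl | hb2
    · exact absurd rfl hab
    · exact edge_xq hW hW' hp hq hpq h0 hb2 hs.flip (hle _ _) h h'
  rcases Finset.mem_insert.1 hb with rfl | hb1
  · exact edge_xp hW hW' hp hq hpq h0 ha2 hs (hle _ _) h h'
  rcases Finset.mem_insert.1 hb1 with rfl | hb2
  · exact edge_xq hW hW' hp hq hpq h0 ha2 hs (hle _ _) h h'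
  · exact edge_ij hW hW' hp hq hpq h0 hpU ha2 hb2 hab hs (hle _ _) h h'

/-- induction over the pairs -/
private theorem mono_ind (hW : Wt W) (hW' : Wt W') (hp : p ∉ U) (hq : q ∉ U) (hpq : p ≠ q)
    (h0 : 0 < W p q) (hpU : ∀ k ∈ U, 0 < W k p) (hle : ∀ i j, W i j ≤ W' i j)
    (h : VR μ U W (W p + W q)) (S : Finset (α × α)) :
    S ⊆ insert p (insert q U) ×ˢ insert p (insert q U) →
    ∀ μS : Measure (α → ℝ), VR μS U (WS W W' S) (WS W W' S p + WS W W' S q) →
    ∫⁻ β, ENNReal.ofReal (1 / cap (WS W W' S) U β p q) ∂μS ≤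
      ∫⁻ β, ENNReal.ofReal (1 / cap W U β p q) ∂μ := by
  induction S using Finset.induction_on with
  | empty =>
    intro _ μS hS
    have e : WS W W' (∅ : Finset (α × α)) = W := by
      funext a b; unfold WS; simp
    rw [e] at hS ⊢
    exact edge_pq hW hW hp hq hpq h0 (fun _ _ _ _ => rfl) le_rfl h hS
  | insert e S he ih =>
    intro hsub μS hS
    obtain ⟨a, b⟩ := e
    have hmem := hsub (Finset.mem_insert_self (a, b) S)
    rw [Finset.mem_product] at hmem
    have hwt := WS_wt hW hW' S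
    obtain ⟨μ₁, h₁⟩ := exists_VR hwt U (WS W W' S p + WS W W' S q)
      (fun i => add_nonneg (hwt.nonneg p i) (hwt.nonneg q i))
    have h2 := ih ((Finset.subset_insert _ _).trans hsub) μ₁ h₁
    refine le_trans ?_ h2
    exact mono_step hwt (WS_wt hW hW' _) hp hq hpq (h0.trans_le (WS_ge hle S p q))
      (fun k hk => (hpU k hk).trans_le (WS_ge hle S k p)) (WS_mono hle S (a, b))
      (WS_off S a b) hmem.1 hmem.2 h₁ hS

theorem mono_thm (hW : Wt W) (hW' : Wt W') (hp : p ∉ U) (hq : q ∉ U) (hpq : p ≠ q)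
    (h0 : 0 < W p q) (hpU : ∀ k ∈ U, 0 < W k p) (hle : ∀ i j, W i j ≤ W' i j)
    (h : VR μ U W (W p + W q)) (h' : VR μ' U W' (W' p + W' q)) :
    ∫⁻ β, ENNReal.ofReal (1 / cap W' U β p q) ∂μ' ≤
      ∫⁻ β, ENNReal.ofReal (1 / cap W U β p q) ∂μ := by
  set V : Finset α := insert p (insert q U) with hV
  have hpV : p ∈ V := Finset.mem_insert_self _ _
  have hqV : q ∈ V := Finset.mem_insert_of_mem (Finset.mem_insert_self _ _)
  have hUV : ∀ i ∈ U, i ∈ V := fun i hi =>
    Finset.mem_insert_of_mem (Finset.mem_insert_of_mem hi)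
  have hag : ∀ a ∈ V, ∀ b ∈ V, W' a b = WS W W' (V ×ˢ V) a b := by
    intro a ha b hb
    unfold WS
    rw [if_pos (Or.inl (Finset.mem_product.2 ⟨ha, hb⟩))]
  have h1 : VR μ' U (WS W W' (V ×ˢ V)) (WS W W' (V ×ˢ V) p + WS W W' (V ×ˢ V) q) := by
    refine h'.congr (fun i hi j hj => hag i (hUV i hi) j (hUV j hj)) (fun i hi => ?_)
    simp only [Pi.add_apply]
    rw [hag p hpV i (hUV i hi), hag q hqV i (hUV i hi)]
  have h2 : ∀ β : α → ℝ, cap W' U β p q = cap (WS W W' (V ×ˢ V)) U β p q := by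
    intro β
    unfold cap
    rw [hag p hpV q hqV]
    congr 1
    exact bil_congr (fun i hi j hj => hag i (hUV i hi) j (hUV j hj)) (fun _ _ => rfl)
      (fun i hi => hag p hpV i (hUV i hi)) (fun i hi => hag q hqV i (hUV i hi))
  have h3 := mono_ind hW hW' hp hq hpq h0 hpU hle h (V ×ˢ V) (Finset.Subset.refl _) μ' h1
  simp only [h2]
  exact h3

end VJ26
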