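import Pool.Agent.VJ26.Mono
import Pool.Agent.VJ26.CMa

/-!
# [VJ-NEG] Negative correlation of mixtures of exponentials with `1/cap`

`neg_exp`: fix `l ≥ 0` on `U`; let `L_i = sqrt(1 + l_i)` on `U`, `L_i = 1` off `U`. By `VR.tilt`
(with `F β' = 1/cap (WL W L) U β' p q`; on good `β`, `cap W U β p q = cap (WL W L) U (L^2 β) p q`
by `bil_scale` since `L_p = L_q = 1`)
 `∫ exp(-∑ l_i β_i)/cap dμ = Lam(U,W,θ,L) ∫ 1/cap (WL W L) dμL`, `VR μL U W^L (W^L p + W^L q)`,
and `mono_thm` (`W ≤ WL W L` since `L ≥ 1`) bounds the last integral by `Φ(W)`;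
`Lam = ∫ exp(-∑ l_i β_i) dμ` is `VR.lap`.
`neg_corr`: integrate over `m(dl)` (`lintegral_lintegral_swap`, s-finite).
-/

open MeasureTheory Real
open scoped ENNReal

namespace VJ26

variable {α : Type*} [DecidableEq α]
variable {W : α → α → ℝ} {U : Finset α} {μ : Measure (α → ℝ)} {p q : α}
  {f : (α → ℝ) → ℝ≥0∞}

/-- The scale function `sqrt(1 + l_i)` on `U`, `1` off `U`. -/
private noncomputable def ngL (U : Finset α) (l : α → ℝ) (i : α) : ℝ :=
  if i ∈ U then sqrt (1 + l i) else 1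

private theorem ngL_one_le {l : α → ℝ} (hl : ∀ i ∈ U, 0 ≤ l i) (i : α) : 1 ≤ ngL U l i := by
  unfold ngL
  split_ifs with h
  · rw [Real.one_le_sqrt]
    linarith [hl i h]
  · exact le_refl 1

private theorem ngL_sq {l : α → ℝ} (hl : ∀ i ∈ U, 0 ≤ l i) {i : α} (hi : i ∈ U) :
    ngL U l i ^ 2 - 1 = l i := by
  unfold ngL
  rw [if_pos hi, Real.sq_sqrt (by linarith [hl i hi])]
  ring

private theorem ngL_off {l : α → ℝ} {i : α} (hi : i ∉ U) : ngL U l i = 1 := if_neg hi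

theorem neg_exp (hW : Wt W) (hp : p ∉ U) (hq : q ∉ U) (hpq : p ≠ q)
    (h0 : 0 < W p q) (hpU : ∀ k ∈ U, 0 < W k p) (h : VR μ U W (W p + W q)) {l : α → ℝ}
    (hl : ∀ i ∈ U, 0 ≤ l i) :
    ∫⁻ β, ENNReal.ofReal (exp (-∑ i ∈ U, l i * β i)) *
        ENNReal.ofReal (1 / cap W U β p q) ∂μ ≤
      (∫⁻ β, ENNReal.ofReal (exp (-∑ i ∈ U, l i * β i)) ∂μ) *
        ∫⁻ β, ENNReal.ofReal (1 / cap W U β p q) ∂μ := by
  set L : α → ℝ := ngL U l with hLdef
  have hL1 : ∀ i, 1 ≤ L i := ngL_one_le hl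
  have hL0 : ∀ i, 0 < L i := fun i => lt_of_lt_of_le one_pos (hL1 i)
  have hLp : L p = 1 := ngL_off hp
  have hLq : L q = 1 := ngL_off hq
  have hexp : ∀ β : α → ℝ, ENNReal.ofReal (exp (-∑ i ∈ U, l i * β i)) =
      ENNReal.ofReal (exp (-∑ i ∈ U, ((L i) ^ 2 - 1) * β i)) := by
    intro β
    congr 3
    exact Finset.sum_congr rfl fun i hi => by rw [ngL_sq hl hi]
  obtain ⟨μL, hμL, hF⟩ := h.tilt hL1
  have hθ : (fun i => L i * (W p + W q) i) = WL W L p + WL W L q := by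
    funext i
    simp only [Pi.add_apply, WL, hLp, hLq]
    ring
  rw [hθ] at hμL
  have hgood : ∀ᵐ β ∂μ, Good W U β :=
    h.good hW (fun i => add_nonneg (hW.nonneg p i) (hW.nonneg q i))
  have hmono := mono_thm (W' := WL W L) hW (hW.WL hL0) hp hq hpq h0 hpU (fun i j => by
    have h1 : W i j ≤ L i * W i j := le_mul_of_one_le_left (hW.nonneg i j) (hL1 i)
    exact h1.trans (le_mul_of_one_le_right (mul_nonneg (hL0 i).le (hW.nonneg i j)) (hL1 j)))
    h hμL
  have hcap : ∀ β, Good W U β →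
      cap (WL W L) U (fun i => L i ^ 2 * β i) p q = cap W U β p q := by
    intro β hβ
    have h1 : (fun i => L i * W p i) = WL W L p := by
      funext i
      simp only [WL, hLp]
      ring
    have h2 : (fun i => L i * W q i) = WL W L q := by
      funext i
      simp only [WL, hLq]
      ring
    unfold cap
    rw [bil_scale hL0 hβ (W p) (W q), h1, h2]
    congr 1
    simp only [WL, hLp, hLq]
    ring
  have key := hF (fun β => ENNReal.ofReal (1 / cap (WL W L) U β p q))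
    (ENNReal.measurable_ofReal.comp ((measurable_const).div (measurable_cap (WL W L) U p q)))
    (fun β β' hb => by
      have := dependsOn_cap (WL W L) U p q hb
      simp only at this ⊢
      rw [this])
  have hlap := h.lap L hL1
  calc ∫⁻ β, ENNReal.ofReal (exp (-∑ i ∈ U, l i * β i)) *
        ENNReal.ofReal (1 / cap W U β p q) ∂μ
      = ∫⁻ β, ENNReal.ofReal (exp (-∑ i ∈ U, ((L i) ^ 2 - 1) * β i)) *
          ENNReal.ofReal (1 / cap (WL W L) U (fun i => L i ^ 2 * β i) p q) ∂μ := by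
        apply lintegral_congr_ae
        filter_upwards [hgood] with β hβ
        rw [hexp β, hcap β hβ]
    _ = ENNReal.ofReal (Lam U W (W p + W q) L) *
          ∫⁻ β, ENNReal.ofReal (1 / cap (WL W L) U β p q) ∂μL := key
    _ ≤ ENNReal.ofReal (Lam U W (W p + W q) L) *
          ∫⁻ β, ENNReal.ofReal (1 / cap W U β p q) ∂μ := by gcongr
    _ = (∫⁻ β, ENNReal.ofReal (exp (-∑ i ∈ U, l i * β i)) ∂μ) *
          ∫⁻ β, ENNReal.ofReal (1 / cap W U β p q) ∂μ := by
        rw [← hlap]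
        congr 1
        exact lintegral_congr fun β => (hexp β).symm

theorem neg_corr (hW : Wt W) (hp : p ∉ U) (hq : q ∉ U) (hpq : p ≠ q)
    (h0 : 0 < W p q) (hpU : ∀ k ∈ U, 0 < W k p) (h : VR μ U W (W p + W q)) (hf : CM U f) :
    ∫⁻ β, f β * ENNReal.ofReal (1 / cap W U β p q) ∂μ ≤
      (∫⁻ β, f β ∂μ) * ∫⁻ β, ENNReal.ofReal (1 / cap W U β p q) ∂μ := by
  have := h.prob
  obtain ⟨m, hm, hmp, hfe⟩ := hf
  have hker : Measurable (fun z : (α → ℝ) × (α → ℝ) =>
      ENNReal.ofReal (exp (-∑ i ∈ U, z.2 i * z.1 i))) := CM.measurable_ker2 U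
  have hc : Measurable (fun β : α → ℝ => ENNReal.ofReal (1 / cap W U β p q)) :=
    ENNReal.measurable_ofReal.comp ((measurable_const).div (measurable_cap W U p q))
  have hae : ∀ᵐ l ∂m, ∀ i ∈ U, 0 ≤ l i := by
    rw [Filter.eventually_all_finset]
    exact hmp
  calc ∫⁻ β, f β * ENNReal.ofReal (1 / cap W U β p q) ∂μ
      = ∫⁻ β, ∫⁻ l, ENNReal.ofReal (exp (-∑ i ∈ U, l i * β i)) *
          ENNReal.ofReal (1 / cap W U β p q) ∂m ∂μ := by
        apply lintegral_congr
        intro β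
        rw [hfe β, lintegral_mul_const _ (CM.measurable_ker U β)]
    _ = ∫⁻ l, ∫⁻ β, ENNReal.ofReal (exp (-∑ i ∈ U, l i * β i)) *
          ENNReal.ofReal (1 / cap W U β p q) ∂μ ∂m := by
        apply lintegral_lintegral_swap
        exact (hker.mul (hc.comp measurable_fst)).aemeasurable
    _ ≤ ∫⁻ l, (∫⁻ β, ENNReal.ofReal (exp (-∑ i ∈ U, l i * β i)) ∂μ) *
          (∫⁻ β, ENNReal.ofReal (1 / cap W U β p q) ∂μ) ∂m := by
        apply lintegral_mono_ae
        filter_upwards [hae] with l hl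
        exact neg_exp hW hp hq hpq h0 hpU h hl
    _ = (∫⁻ l, ∫⁻ β, ENNReal.ofReal (exp (-∑ i ∈ U, l i * β i)) ∂μ ∂m) *
          (∫⁻ β, ENNReal.ofReal (1 / cap W U β p q) ∂μ) := by
        rw [lintegral_mul_const]
        exact Measurable.lintegral_prod_left' hker
    _ = (∫⁻ β, f β ∂μ) * ∫⁻ β, ENNReal.ofReal (1 / cap W U β p q) ∂μ := by
        congr 1
        rw [← lintegral_lintegral_swap hker.aemeasurable]
        exact lintegral_congr fun β => (hfe β).symm

end VJ26
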