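import Pool.Agent.VJ26.ProcT

/-!
# [VJ-PROCSTEP] The process side: an abstract hitting estimate for the VRJP

This file: `alive`, `IsVRJP.proc_step`

Notation: `L^n_j(ω) = locT (X · ω) (T · ω) n j`, `r = w ∑_{k∈nb i} L_k`.
A measurable functional `g i L` (`i ∈ V`, `L ≥ 1`, `L = 1` off `V`) satisfies the one-step
identities `hstep` (for `i ≠ 0`) and `hroot` (for `i = 0`, `L_0 < z`), is `≤ 1` for `L_0 ≤ z` and
`= 1` for `i = 0`, `L_0 = z`.
Let `A_n = {X_0,...,X_n ∈ V, L^n_0 < z}` and `a_n = E[g(X_n, L^n) 1_{A_n}]`.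
STEP: `a_n ≤ P(A_n, z ≤ L^{n+1}_0) + a_{n+1}`. Conditionally on `(X_0,T_0,...,X_n)` use
`hold` for `T_n` and `jump` for `X_{n+1}` (`L^{n+1} = update L^n X_n (L^n_{X_n} + T_n)`; the
neighbours `j` of `X_n` have `L^n_j` unaffected; off `V` all `L^n_j = 1` on `A_n`):
 `E[g(X_{n+1},L^{n+1}) 1{X_{n+1} ∈ V}| ..] = ∫_0^∞ r e^{-rt} ∑_{j∈V} (w 1{j∼X_n} L_j/r) g(j, L'_t) dt`,
 which for `X_n ≠ 0` is `g(X_n, L^n)` by `hstep`; for `X_n = 0` restrict to `T_n < z - L_0`
 (`P(T_n ≥ z - L_0 | ..) = e^{-r(z-L_0)}`) and use `hroot` with `g 0 (update L 0 z) = 1`.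
So `a_0 ≤ ∑_{k<n} P(A_k, L^k_0 < z ≤ L^{k+1}_0) + a_n ≤ P(∃ k, z ≤ L^k_0) + P(X_0..X_n ∈ V)`
(the events are disjoint as `L^k_0` is nondecreasing a.s.: `T ≥ 0` a.s. by `hold`), and
`a_0 = g 0 1` since `X_0 = 0`, `L^0 = 1`, `z > 1`. Finally `P(X_k ∈ V for all k ≤ n) → 0`: the
intersection of these events is null by transience (some vertex of the finite set `V` would be
visited infinitely often): `tendsto_measure_iInter_atTop` (antitone).

SUGGESTION: `proc_step` (the displayed step) is the main work: apply `hold` to the function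
`f(x, t', t)` = the `jump`-sum with `L' `, etc. History as `Fin`-tuples: `locT` for `n` only uses
the first `n` values of `X` and `T`; write `locT` of the extended sequences.
-/

open MeasureTheory Real
open scoped ENNReal

namespace VJ26

variable {d : ℕ} {w : ℝ} {Ω : Type*} [MeasurableSpace Ω] {P : Measure Ω}
  {X : ℕ → Ω → Zd d} {T : ℕ → Ω → ℝ}

/-- alive: `X_0..X_n ∈ V` and local time at `0` on arrival at `X_n` smaller than `z` -/
def alive (X : ℕ → Ω → Zd d) (T : ℕ → Ω → ℝ) (V : Finset (Zd d)) (z : ℝ) (n : ℕ) : Set Ω :=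
  {ω | (∀ k ≤ n, X k ω ∈ V) ∧ locT (X · ω) (T · ω) n 0 < z}

/-- local times as functions of the history -/
noncomputable def psA {n : ℕ} (x : Fin (n + 1) → Zd d) (t : Fin n → ℝ) (j : Zd d) : ℝ :=
  1 + ∑ m : Fin n, if x m.castSucc = j then t m else 0

/-- local times as functions of the history, with the last holding time -/
noncomputable def psB {n : ℕ} (x : Fin (n + 1) → Zd d) (t : Fin (n + 1) → ℝ) (j : Zd d) : ℝ :=
  1 + ∑ m : Fin (n + 1), if x m = j then t m else 0

theorem ps_locT (x : ℕ → Zd d) (t : ℕ → ℝ) (n : ℕ) :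
    locT x t n = psA (fun k : Fin (n + 1) => x k) (fun k : Fin n => t k) := by
  funext j
  unfold locT psA
  rw [Finset.sum_range]
  rfl

theorem ps_locT_succ (x : ℕ → Zd d) (t : ℕ → ℝ) (n : ℕ) :
    locT x t (n + 1) = psB (fun k : Fin (n + 1) => x k) (fun k : Fin (n + 1) => t k) := by
  funext j
  unfold locT psB
  rw [Finset.sum_range]

theorem psB_snoc {n : ℕ} (x : Fin (n + 1) → Zd d) (t : Fin n → ℝ) (s : ℝ) :
    psB x (Fin.snoc (α := fun _ => ℝ) t s) =
      Function.update (psA x t) (x (Fin.last n)) (psA x t (x (Fin.last n)) + s) := by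
  funext j
  unfold psB
  rw [Fin.sum_univ_castSucc]
  simp only [Fin.snoc_castSucc, Fin.snoc_last]
  by_cases h : j = x (Fin.last n)
  · subst h
    rw [Function.update_self, if_pos rfl]
    unfold psA
    ring
  · rw [Function.update_of_ne h, if_neg (Ne.symm h), add_zero]
    rfl

theorem psA_meas {n : ℕ} (x : Fin (n + 1) → Zd d) : Measurable (psA x) := by
  refine measurable_pi_lambda _ fun j => ?_
  unfold psA
  refine measurable_const.add (Finset.measurable_sum _ fun m _ => ?_)
  split_ifs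
  · exact measurable_pi_apply m
  · exact measurable_const

theorem psB_meas {n : ℕ} (x : Fin (n + 1) → Zd d) : Measurable (psB x) := by
  refine measurable_pi_lambda _ fun j => ?_
  unfold psB
  refine measurable_const.add (Finset.measurable_sum _ fun m _ => ?_)
  split_ifs
  · exact measurable_pi_apply m
  · exact measurable_const

theorem ps_snoc_meas {n : ℕ} :
    Measurable (fun q : (Fin n → ℝ) × ℝ => (Fin.snoc (α := fun _ => ℝ) q.1 q.2 : Fin (n + 1) → ℝ)) := by
  refine measurable_pi_lambda _ fun j => ?_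
  refine Fin.lastCases ?_ (fun i => ?_) j
  · simp only [Fin.snoc_last]
    exact measurable_snd
  · simp only [Fin.snoc_castSucc]
    exact (measurable_pi_apply i).comp measurable_fst

theorem ps_mem_nb {i j : Zd d} : j ∈ nb i ↔ Adj i j := by
  unfold nb
  rw [Finset.mem_filter, and_iff_right_iff_imp]
  intro h
  unfold Adj at h
  have h1 : ∀ k, |i k - j k| ≤ 1 := by
    intro k
    rw [← h]
    exact Finset.single_le_sum (f := fun k => |i k - j k|) (fun _ _ => abs_nonneg _)
      (Finset.mem_univ k)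
  rw [Finset.mem_Icc]
  constructor
  · intro k
    have := abs_le.1 (h1 k)
    simp only [Pi.sub_apply, Pi.one_apply]
    omega
  · intro k
    have := abs_le.1 (h1 k)
    simp only [Pi.add_apply, Pi.one_apply]
    omega

/-- the function to which `jump` is applied -/
noncomputable def psF (V : Finset (Zd d)) (z : ℝ) (g : Zd d → (Zd d → ℝ) → ℝ≥0∞) {n : ℕ}
    (q : (Fin (n + 1) → Zd d) × (Fin (n + 1) → ℝ) × Zd d) : ℝ≥0∞ := by
  classical exact
    if (∀ k, q.1 k ∈ V) ∧ q.2.2 ∈ V ∧ psB q.1 q.2.1 0 < z then g q.2.2 (psB q.1 q.2.1) else 0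

theorem psF_meas {V : Finset (Zd d)} {z : ℝ} {g : Zd d → (Zd d → ℝ) → ℝ≥0∞}
    (hgm : ∀ i, Measurable (g i)) {n : ℕ} : Measurable (psF V z g (n := n)) := by
  classical
  refine measurable_from_prod_countable_right fun x => ?_
  refine measurable_from_prod_countable_left fun j => ?_
  unfold psF
  simp only
  by_cases h : (∀ k, x k ∈ V) ∧ j ∈ V
  · have h1 : (fun t : Fin (n + 1) → ℝ =>
        if (∀ k, x k ∈ V) ∧ j ∈ V ∧ psB x t 0 < z then g j (psB x t) else 0) =
        fun t => if psB x t 0 < z then g j (psB x t) else 0 := by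
      funext t
      simp [h.1, h.2]
    rw [h1]
    refine Measurable.ite ?_ ((hgm j).comp (psB_meas x)) measurable_const
    exact measurableSet_lt ((measurable_pi_apply 0).comp (psB_meas x)) measurable_const
  · have h1 : (fun t : Fin (n + 1) → ℝ =>
        if (∀ k, x k ∈ V) ∧ j ∈ V ∧ psB x t 0 < z then g j (psB x t) else 0) =
        fun _ => 0 := by
      funext t
      rw [if_neg]
      tauto
    rw [h1]
    exact measurable_const

/-- the jump sum -/
noncomputable def psG (w : ℝ) (V : Finset (Zd d)) (z : ℝ) (g : Zd d → (Zd d → ℝ) → ℝ≥0∞) {n : ℕ}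
    (q : (Fin (n + 1) → Zd d) × (Fin n → ℝ) × ℝ) : ℝ≥0∞ :=
  ∑ j ∈ nb (q.1 (Fin.last n)),
    ENNReal.ofReal (w * psA q.1 q.2.1 j / (w * ∑ k ∈ nb (q.1 (Fin.last n)), psA q.1 q.2.1 k)) *
      psF V z g (q.1, Fin.snoc (α := fun _ => ℝ) q.2.1 q.2.2, j)

theorem psG_meas {V : Finset (Zd d)} {z : ℝ} {g : Zd d → (Zd d → ℝ) → ℝ≥0∞}
    (hgm : ∀ i, Measurable (g i)) {n : ℕ} : Measurable (psG w V z g (n := n)) := by
  refine measurable_from_prod_countable_right fun x => ?_
  unfold psG
  simp only
  have hA : ∀ j, Measurable (fun q : (Fin n → ℝ) × ℝ => psA x q.1 j) := fun j =>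
    (measurable_pi_apply j).comp ((psA_meas x).comp measurable_fst)
  refine Finset.measurable_sum _ fun j _ => ?_
  refine Measurable.mul ?_ ?_
  · refine ENNReal.measurable_ofReal.comp ?_
    exact ((hA j).const_mul w).div ((Finset.measurable_sum _ fun k _ => hA k).const_mul w)
  · refine (psF_meas hgm).comp ?_
    exact measurable_const.prodMk (ps_snoc_meas.prodMk measurable_const)

/-- the exit indicator -/
noncomputable def psE (V : Finset (Zd d)) (z : ℝ) {n : ℕ}
    (q : (Fin (n + 1) → Zd d) × (Fin n → ℝ) × ℝ) : ℝ≥0∞ := by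
  classical exact
    if (∀ k, q.1 k ∈ V) ∧ psA q.1 q.2.1 0 < z ∧
      z ≤ psB q.1 (Fin.snoc (α := fun _ => ℝ) q.2.1 q.2.2) 0 then 1 else 0

theorem psE_meas {V : Finset (Zd d)} {z : ℝ} {n : ℕ} : Measurable (psE V z (n := n)) := by
  classical
  refine measurable_from_prod_countable_right fun x => ?_
  unfold psE
  simp only
  by_cases h : ∀ k, x k ∈ V
  · have h1 : (fun q : (Fin n → ℝ) × ℝ =>
        if (∀ k, x k ∈ V) ∧ psA x q.1 0 < z ∧
          z ≤ psB x (Fin.snoc (α := fun _ => ℝ) q.1 q.2) 0 then (1 : ℝ≥0∞) else 0) =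
        fun q => if psA x q.1 0 < z ∧
          z ≤ psB x (Fin.snoc (α := fun _ => ℝ) q.1 q.2) 0 then 1 else 0 := by
      funext t
      simp [h]
    rw [h1]
    refine Measurable.ite ?_ measurable_const measurable_const
    refine MeasurableSet.inter ?_ ?_
    · exact measurableSet_lt ((measurable_pi_apply 0).comp ((psA_meas x).comp measurable_fst))
        measurable_const
    · exact measurableSet_le measurable_const
        ((measurable_pi_apply 0).comp ((psB_meas x).comp ps_snoc_meas))
  · have h1 : (fun q : (Fin n → ℝ) × ℝ =>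
        if (∀ k, x k ∈ V) ∧ psA x q.1 0 < z ∧
          z ≤ psB x (Fin.snoc (α := fun _ => ℝ) q.1 q.2) 0 then (1 : ℝ≥0∞) else 0) =
        fun _ => 0 := by
      funext t
      rw [if_neg]
      tauto
    rw [h1]
    exact measurable_const

theorem IsVRJP.alive_meas (h : IsVRJP w P X T) (V : Finset (Zd d)) (z : ℝ) (n : ℕ) :
    MeasurableSet (alive X T V z n) := by
  unfold alive
  rw [Set.setOf_and]
  refine MeasurableSet.inter ?_ ?_
  · have h1 : {ω | ∀ k ≤ n, X k ω ∈ V} = ⋂ k ∈ Finset.range (n + 1), X k ⁻¹' (V : Set (Zd d)) := by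
      ext ω
      simp [Nat.lt_succ_iff]
    rw [h1]
    exact Finset.measurableSet_biInter _ fun k _ => h.measX k (Set.to_countable _).measurableSet
  · refine measurableSet_lt ?_ measurable_const
    unfold locT
    refine measurable_const.add (Finset.measurable_sum _ fun m _ => ?_)
    refine Measurable.ite ?_ (h.measT m) measurable_const
    exact h.measX m (measurableSet_singleton (0 : Zd d))

theorem ps_exp_Ioi {r c : ℝ} (hr : 0 < r) :
    ∫⁻ t in Set.Ioi c, ENNReal.ofReal (r * exp (-(r * t))) = ENNReal.ofReal (exp (-(r * c))) := by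
  have h1 : IntegrableOn (fun t : ℝ => r * exp (-(r * t))) (Set.Ioi c) := by
    have h2 := (integrableOn_exp_mul_Ioi (a := -r) (by linarith) c).const_mul r
    simp only [neg_mul] at h2
    exact h2
  rw [← ofReal_integral_eq_lintegral_ofReal h1 (Filter.Eventually.of_forall fun t => by positivity)]
  congr 1
  rw [integral_const_mul]
  have h3 := integral_exp_mul_Ioi (a := -r) (by linarith) c
  simp only [neg_mul] at h3
  rw [h3]
  field_simp

/-- `r > 0` -/
theorem IsVRJP.dim_pos (h : IsVRJP w P X T) : 0 < d := by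
  by_contra hd
  have hd0 : d = 0 := by omega
  subst hd0
  have h1 := h.hold 0 (fun _ => 1) measurable_const
  have hnb : ∀ i : Zd 0, nb i = ∅ := by
    intro i
    ext j
    rw [ps_mem_nb]
    simp [Adj]
  have := h.prob
  simp [hnb] at h1

theorem nb_nonempty (hd : 0 < d) (i : Zd d) : (nb i).Nonempty := by
  let k : Fin d := ⟨0, hd⟩
  refine ⟨i + Pi.single k 1, ?_⟩
  rw [ps_mem_nb]
  unfold Adj
  rw [Finset.sum_eq_single k]
  · simp
  · intro b _ hb
    simp [Pi.single_eq_of_ne hb]
  · intro h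
    exact absurd (Finset.mem_univ _) h

/-- the jump sum, multiplied by the density of the holding time -/
theorem ps_sum {V : Finset (Zd d)} {z : ℝ} {g : Zd d → (Zd d → ℝ) → ℝ≥0∞} {n : ℕ}
    {x : Fin (n + 1) → Zd d} {t : Fin n → ℝ} {s : ℝ} (hx : ∀ k, x k ∈ V)
    (hr : 0 < w * ∑ k ∈ nb (x (Fin.last n)), psA x t k)
    (hz : psB x (Fin.snoc (α := fun _ => ℝ) t s) 0 < z) :
    ENNReal.ofReal ((w * ∑ k ∈ nb (x (Fin.last n)), psA x t k) *
        exp (-((w * ∑ k ∈ nb (x (Fin.last n)), psA x t k) * s))) * psG w V z g (x, t, s) =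
      ENNReal.ofReal (exp (-(w * (∑ k ∈ nb (x (Fin.last n)), psA x t k) * s))) *
        ∑ j ∈ V, ENNReal.ofReal (Wd w (x (Fin.last n)) j * psA x t j) *
          g j (Function.update (psA x t) (x (Fin.last n)) (psA x t (x (Fin.last n)) + s)) := by
  classical
  set i := x (Fin.last n) with hi
  set r := w * ∑ k ∈ nb i, psA x t k with hrdef
  unfold psG psF
  simp only
  rw [mul_comm r, ENNReal.ofReal_mul (by positivity), mul_assoc, Finset.mul_sum]
  congr 1
  rw [psB_snoc] at hz
  have h1 : ∀ j ∈ nb i, ENNReal.ofReal r * (ENNReal.ofReal (w * psA x t j / r) *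
      (if (∀ k, x k ∈ V) ∧ j ∈ V ∧ psB x (Fin.snoc (α := fun _ => ℝ) t s) 0 < z then
        g j (psB x (Fin.snoc (α := fun _ => ℝ) t s)) else 0)) =
      if j ∈ V then ENNReal.ofReal (w * psA x t j) *
        g j (Function.update (psA x t) i (psA x t i + s)) else 0 := by
    intro j _
    rw [psB_snoc, ← mul_assoc, ← ENNReal.ofReal_mul hr.le, mul_div_cancel₀ _ hr.ne']
    by_cases hj : j ∈ V
    · rw [if_pos ⟨hx, hj, hz⟩, if_pos hj]
    · rw [if_neg (fun h => hj h.2.1), if_neg hj, mul_zero]
  rw [Finset.sum_congr rfl h1, ← Finset.sum_filter]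
  have h2 : ∀ j ∈ V, ENNReal.ofReal (Wd w i j * psA x t j) *
      g j (Function.update (psA x t) i (psA x t i + s)) =
      if j ∈ nb i then ENNReal.ofReal (w * psA x t j) *
        g j (Function.update (psA x t) i (psA x t i + s)) else 0 := by
    intro j _
    unfold Wd
    by_cases hj : Adj i j
    · rw [if_pos hj, if_pos (ps_mem_nb.2 hj)]
    · rw [if_neg hj, if_neg (fun h => hj (ps_mem_nb.1 h)), zero_mul, ENNReal.ofReal_zero, zero_mul]
  rw [Finset.sum_congr rfl h2, ← Finset.sum_filter]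
  apply Finset.sum_congr _ fun _ _ => rfl
  ext j
  simp only [Finset.mem_filter]
  tauto

theorem IsVRJP.proc_step (hw : 0 < w) (h : IsVRJP w P X T) {V : Finset (Zd d)} (h0 : 0 ∈ V)
    {z : ℝ} (hz : 1 < z) {g : Zd d → (Zd d → ℝ) → ℝ≥0∞} (hgm : ∀ i, Measurable (g i))
    (hbd : ∀ L : Zd d → ℝ, (∀ j, 1 ≤ L j) → L 0 = z → g 0 L = 1)
    (hstep : ∀ i ∈ V, i ≠ 0 → ∀ L : Zd d → ℝ, (∀ j, 1 ≤ L j) → (∀ j, j ∉ V → L j = 1) →
      g i L = ∫⁻ t in Set.Ioi (0 : ℝ), ENNReal.ofReal (exp (-(w * (∑ k ∈ nb i, L k) * t))) *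
        ∑ j ∈ V, ENNReal.ofReal (Wd w i j * L j) * g j (Function.update L i (L i + t)))
    (hroot : ∀ L : Zd d → ℝ, (∀ j, 1 ≤ L j) → (∀ j, j ∉ V → L j = 1) → L 0 < z →
      g 0 L = ENNReal.ofReal (exp (-(w * (∑ k ∈ nb 0, L k) * (z - L 0)))) *
          g 0 (Function.update L 0 z) +
        ∫⁻ t in Set.Ioc (0 : ℝ) (z - L 0), ENNReal.ofReal (exp (-(w * (∑ k ∈ nb 0, L k) * t))) *
          ∑ j ∈ V, ENNReal.ofReal (Wd w 0 j * L j) * g j (Function.update L 0 (L 0 + t)))
    (n : ℕ) :
    ∫⁻ ω in alive X T V z n, g (X n ω) (locT (X · ω) (T · ω) n) ∂P ≤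
      P (alive X T V z n ∩ {ω | z ≤ locT (X · ω) (T · ω) (n + 1) 0}) +
      ∫⁻ ω in alive X T V z (n + 1), g (X (n + 1) ω) (locT (X · ω) (T · ω) (n + 1)) ∂P := by
  classical
  have hprob := h.prob
  have hd := h.dim_pos
  -- left-hand side and right-hand side as integrals of functions of the history
  have hA : ∀ m, MeasurableSet (alive X T V z m) := fun m => h.alive_meas V z m
  have hR1 : P (alive X T V z n ∩ {ω | z ≤ locT (X · ω) (T · ω) (n + 1) 0}) =
      ∫⁻ ω, psE V z (fun k : Fin (n + 1) => X k ω, fun k : Fin n => T k ω, T n ω) ∂P := by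
    have hm : MeasurableSet {ω | z ≤ locT (X · ω) (T · ω) (n + 1) 0} := by
      refine measurableSet_le measurable_const ?_
      unfold locT
      refine measurable_const.add (Finset.measurable_sum _ fun m _ => ?_)
      refine Measurable.ite ?_ (h.measT m) measurable_const
      exact h.measX m (measurableSet_singleton (0 : Zd d))
    rw [← lintegral_indicator_one ((hA n).inter hm)]
    apply lintegral_congr
    intro ω
    rw [Set.indicator_apply]
    unfold psE
    have hs : (Fin.snoc (α := fun _ => ℝ) (fun k : Fin n => T k ω) (T n ω) : Fin (n + 1) → ℝ) =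
        fun k : Fin (n + 1) => T k ω := by
      funext k
      refine Fin.lastCases ?_ (fun i => ?_) k
      · rw [Fin.snoc_last]; rfl
      · rw [Fin.snoc_castSucc]; rfl
    simp only [hs]
    rw [← ps_locT_succ (X · ω) (T · ω) n, ← ps_locT (X · ω) (T · ω) n]
    refine if_congr ?_ rfl rfl
    unfold alive
    simp only [Set.mem_inter_iff, Set.mem_setOf_eq]
    constructor
    · rintro ⟨⟨h1, h2⟩, h3⟩
      exact ⟨fun k => h1 k (Nat.lt_succ_iff.1 k.2), h2, h3⟩
    · rintro ⟨h1, h2, h3⟩
      exact ⟨⟨fun k hk => h1 ⟨k, Nat.lt_succ_iff.2 hk⟩, h2⟩, h3⟩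
  have hR2 : ∫⁻ ω in alive X T V z (n + 1), g (X (n + 1) ω) (locT (X · ω) (T · ω) (n + 1)) ∂P =
      ∫⁻ ω, psG w V z g (fun k : Fin (n + 1) => X k ω, fun k : Fin n => T k ω, T n ω) ∂P := by
    have h1 := h.jump n (psF V z g) (psF_meas hgm)
    rw [← lintegral_indicator (hA (n + 1))]
    have h2 : ∫⁻ ω, (alive X T V z (n + 1)).indicator
        (fun ω => g (X (n + 1) ω) (locT (X · ω) (T · ω) (n + 1))) ω ∂P =
        ∫⁻ ω, psF V z g (fun k : Fin (n + 1) => X k ω, fun k : Fin (n + 1) => T k ω,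
          X (n + 1) ω) ∂P := by
      apply lintegral_congr
      intro ω
      rw [Set.indicator_apply]
      unfold psF
      simp only
      rw [← ps_locT_succ (X · ω) (T · ω) n]
      refine if_congr ?_ rfl rfl
      unfold alive
      simp only [Set.mem_setOf_eq]
      constructor
      · rintro ⟨h1, h2⟩
        exact ⟨fun k => h1 k (by have := k.2; omega), h1 (n + 1) le_rfl, h2⟩
      · rintro ⟨h1, h2, h3⟩
        refine ⟨fun k hk => ?_, h3⟩
        rcases Nat.lt_or_ge k (n + 1) with hk' | hk'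
        · exact h1 ⟨k, hk'⟩
        · have : k = n + 1 := le_antisymm hk hk'
          rw [this]; exact h2
    rw [h2, h1]
    apply lintegral_congr
    intro ω
    unfold psG
    have hs : (Fin.snoc (α := fun _ => ℝ) (fun k : Fin n => T k ω) (T n ω) : Fin (n + 1) → ℝ) =
        fun k : Fin (n + 1) => T k ω := by
      funext k
      refine Fin.lastCases ?_ (fun i => ?_) k
      · rw [Fin.snoc_last]; rfl
      · rw [Fin.snoc_castSucc]; rfl
    simp only [hs]
    rw [← ps_locT (X · ω) (T · ω) n]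
    rfl
  rw [hR1, hR2, ← lintegral_add_left]
  swap
  · refine psE_meas.comp ?_
    exact (measurable_pi_lambda _ fun k : Fin (n + 1) => h.measX k).prodMk
      ((measurable_pi_lambda _ fun k : Fin n => h.measT k).prodMk (h.measT n))
  have hH := h.hold n (fun q => psE V z q + psG w V z g q) (psE_meas.add (psG_meas hgm))
  rw [hH, ← lintegral_indicator (hA n)]
  apply lintegral_mono_ae
  filter_upwards [h.T_pos hw] with ω hω
  rw [Set.indicator_apply]
  split_ifs with hal
  swap
  · exact zero_le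
  obtain ⟨hal1, hal2⟩ := hal
  set x : Fin (n + 1) → Zd d := fun k => X k ω with hx
  set t : Fin n → ℝ := fun k => T k ω with ht
  have hloc : locT (X · ω) (T · ω) n = psA x t := ps_locT (X · ω) (T · ω) n
  have hxi : x (Fin.last n) = X n ω := rfl
  have hxV : ∀ k, x k ∈ V := fun k => hal1 k (Nat.lt_succ_iff.1 k.2)
  have hL : ∀ j, 1 ≤ psA x t j := by
    intro j
    unfold psA
    have : 0 ≤ ∑ m : Fin n, if x m.castSucc = j then t m else 0 := by
      apply Finset.sum_nonneg
      intro m _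
      split_ifs
      · exact (hω m).le
      · exact le_rfl
    linarith
  have hL1 : ∀ j, j ∉ V → psA x t j = 1 := by
    intro j hj
    unfold psA
    rw [Finset.sum_eq_zero, add_zero]
    intro m _
    rw [if_neg]
    intro h1
    exact hj (h1 ▸ hxV _)
  have hr : 0 < w * ∑ k ∈ nb (x (Fin.last n)), psA x t k := by
    apply mul_pos hw
    apply Finset.sum_pos (fun j _ => lt_of_lt_of_le one_pos (hL j)) (nb_nonempty hd _)
  rw [hloc] at hal2 ⊢
  rw [← hxi]
  by_cases hi0 : x (Fin.last n) = 0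
  · -- at the root
    set r := w * ∑ k ∈ nb (x (Fin.last n)), psA x t k with hrdef
    have hroot' := hroot (psA x t) hL hL1 hal2
    have hg : g (x (Fin.last n)) (psA x t) = g 0 (psA x t) := by rw [hi0]
    rw [hg, hroot', hbd (Function.update (psA x t) 0 z) (fun j => by
      by_cases hj : j = 0
      · rw [hj, Function.update_self]; exact hz.le
      · rw [Function.update_of_ne hj]; exact hL j) (Function.update_self _ _ _), mul_one]
    have hr0 : w * ∑ k ∈ nb (0 : Zd d), psA x t k = r := by rw [hrdef, hi0]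
    set c := z - psA x t 0 with hc
    have hc0 : 0 < c := by rw [hc]; linarith
    have hupd : ∀ s, psB x (Fin.snoc (α := fun _ => ℝ) t s) 0 = psA x t 0 + s := by
      intro s
      rw [psB_snoc, hi0, Function.update_self]
    -- split the integral
    have hsplit : Set.Ioi (0 : ℝ) = Set.Ioo 0 c ∪ Set.Ici c := by
      ext s
      simp only [Set.mem_Ioi, Set.mem_union, Set.mem_Ioo, Set.mem_Ici]
      constructor
      · intro hs
        rcases lt_or_ge s c with h1 | h1
        · exact Or.inl ⟨hs, h1⟩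
        · exact Or.inr h1
      · rintro (h1 | h1)
        · exact h1.1
        · exact lt_of_lt_of_le hc0 h1
    have hdisj : Disjoint (Set.Ioo (0 : ℝ) c) (Set.Ici c) := by
      rw [Set.disjoint_left]
      intro s h1 h2
      exact absurd h1.2 (not_lt.2 h2)
    rw [hsplit, lintegral_union measurableSet_Ici hdisj, add_comm]
    refine add_le_add ?_ ?_
    · rw [← setLIntegral_congr (Ioo_ae_eq_Ioc (a := (0 : ℝ)) (b := c) (μ := volume))]
      refine lintegral_mono_ae ?_
      filter_upwards [ae_restrict_mem measurableSet_Ioo] with s hs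
      have hsz : psB x (Fin.snoc (α := fun _ => ℝ) t s) 0 < z := by
        rw [hupd]
        have := hs.2
        rw [hc] at this
        linarith
      have h1 := ps_sum (V := V) (g := g) hxV hr hsz
      rw [hi0] at h1
      rw [← h1]
      simp only [hx, ht] at *
      rw [show (w * ∑ k ∈ nb (0 : Zd d), psA (fun k : Fin (n + 1) => X k ω)
        (fun k : Fin n => T k ω) k) = r from hr0]
      exact mul_le_mul_right (le_add_self) _
    · rw [setLIntegral_congr (Ioi_ae_eq_Ici (a := c) (μ := volume)).symm]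
      have h2 := ps_exp_Ioi (c := c) hr
      rw [show w * (∑ k ∈ nb (0 : Zd d), psA x t k) * c = r * c by rw [hr0], ← h2]
      refine lintegral_mono_ae ?_
      filter_upwards [ae_restrict_mem measurableSet_Ioi] with s hs
      have hsz : z ≤ psB x (Fin.snoc (α := fun _ => ℝ) t s) 0 := by
        rw [hupd]
        have : c < s := hs
        rw [hc] at this
        linarith
      have h3 : psE V z (x, t, s) = 1 := by
        unfold psE
        exact if_pos ⟨hxV, hal2, hsz⟩
      have h4 : (1 : ℝ≥0∞) ≤ psE V z (x, t, s) + psG w V z g (x, t, s) := by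
        rw [h3]; exact le_self_add
      calc _ = ENNReal.ofReal (r * exp (-(r * s))) * 1 := (mul_one _).symm
        _ ≤ _ := mul_le_mul_right h4 _
  · -- off the root
    rw [hstep _ (hxV _) hi0 (psA x t) hL hL1]
    refine lintegral_mono_ae ?_
    filter_upwards [ae_restrict_mem measurableSet_Ioi] with s hs
    have hsz : psB x (Fin.snoc (α := fun _ => ℝ) t s) 0 < z := by
      rw [psB_snoc, Function.update_of_ne (Ne.symm hi0)]
      exact hal2
    rw [← ps_sum (V := V) (g := g) hxV hr hsz]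
    exact mul_le_mul_right (le_add_self) _

end VJ26
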