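import Pool.Agent.VJ26.ZDefs

/-!
# [VJ-PROCT] The process side: an abstract hitting estimate for the VRJP

This file: `IsVRJP.T_pos`, `IsVRJP.tau_small`

Notation: `L^n_j(ω) = locT (X · ω) (T · ω) n j`, `r = w ∑_{k∈nb i} L_k`.
A measurable functional `g i L` (`i ∈ V`, `L ≥ 1`, `L = 1` off `V`) satisfies the one-step
identities `hstep` (for `i ≠ 0`) and `hroot` (for `i = 0`, `L_0 < z`), is `≤ 1` for `L_0 ≤ z` and
`= 1` for `i = 0`, `L_0 = z`.
Let `A_n = {X_0,...,X_n ∈ V, L^n_0 < z}` and `a_n = E[g(X_n, L^n) 1_{A_n}]`.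
STEP: `a_n ≤ P(A_n, z ≤ L^{n+1}_0) + a_{n+1}`. Conditionally on `(X_0,T_0,...,X_n)` use
`hold` for `T_n` and `jump` for `X_{n+1}` (`L^{n+1} = update L^n X_n (L^n_{X_n} + T_n)`; the
neighbours `j` of `X_n` have `L^n_j` unaffected; off `V` all `L^n_j = 1` on `A_n`):
 `E[g(X_{n+1},L^{n+1}) 1{X_{n+1} ∈ V}| ..] = ∫_0^∞ r e^{-rt} ∑_{j∈V} (w 1{j∼X_n} L_j/r) g(j, L'_t) dt`,
 which for `X_n ≠ 0` is `g(X_n, L^n)` by `hstep`; for `X_n = 0` restrict to `T_n < z - L_0`
 (`P(T_n ≥ z - L_0 | ..) = e^{-r(z-L_0)}`) and use `hroot` with `g 0 (update L 0 z) = 1`.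
So `a_0 ≤ ∑_{k<n} P(A_k, L^k_0 < z ≤ L^{k+1}_0) + a_n ≤ P(∃ k, z ≤ L^k_0) + P(X_0..X_n ∈ V)`
(the events are disjoint as `L^k_0` is nondecreasing a.s.: `T ≥ 0` a.s. by `hold`), and
`a_0 = g 0 1` since `X_0 = 0`, `L^0 = 1`, `z > 1`. Finally `P(X_k ∈ V for all k ≤ n) → 0`: the
intersection of these events is null by transience (some vertex of the finite set `V` would be
visited infinitely often): `tendsto_measure_iInter_atTop` (antitone).

SUGGESTION: `proc_step` (the displayed step) is the main work: apply `hold` to the function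
`f(x, t', t)` = the `jump`-sum with `L' `, etc. History as `Fin`-tuples: `locT` for `n` only uses
the first `n` values of `X` and `T`; write `locT` of the extended sequences.
-/

open MeasureTheory Real
open scoped ENNReal

namespace VJ26

variable {d : ℕ} {w : ℝ} {Ω : Type*} [MeasurableSpace Ω] {P : Measure Ω}
  {X : ℕ → Ω → Zd d} {T : ℕ → Ω → ℝ}

omit [MeasurableSpace Ω] in
theorem locT_le {x : ℕ → Zd d} {t : ℕ → ℝ} (j : Zd d) (hfin : {n | x n = j}.Finite) (n : ℕ) :
    locT x t n j ≤ 1 + ∑ m ∈ hfin.toFinset, |t m| := by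
  unfold locT
  have h1 : ∑ m ∈ Finset.range n, (if x m = j then t m else 0) ≤
      ∑ m ∈ Finset.range n, (if x m = j then |t m| else 0) := by
    apply Finset.sum_le_sum
    intro m _
    split_ifs
    · exact le_abs_self _
    · exact le_rfl
  have h2 : ∑ m ∈ Finset.range n, (if x m = j then |t m| else 0) ≤
      ∑ m ∈ hfin.toFinset, |t m| := by
    rw [← Finset.sum_filter]
    apply Finset.sum_le_sum_of_subset_of_nonneg
    · intro m hm
      rw [Finset.mem_filter] at hm
      exact hfin.mem_toFinset.2 hm.2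
    · intro m _ _
      exact abs_nonneg _
  linarith

/-- holding times are positive a.s. -/
theorem IsVRJP.T_pos (hw : 0 < w) (h : IsVRJP w P X T) : ∀ᵐ ω ∂P, ∀ n, 0 < T n ω := by
  rw [ae_all_iff]
  intro n
  have hmeas : Measurable (fun q : (Fin (n + 1) → Zd d) × (Fin n → ℝ) × ℝ =>
      Set.indicator {q : (Fin (n + 1) → Zd d) × (Fin n → ℝ) × ℝ | q.2.2 ≤ 0}
        (fun _ => (1 : ℝ≥0∞)) q) := by
    apply Measurable.indicator measurable_const
    exact measurableSet_le (measurable_snd.comp measurable_snd) measurable_const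
  have h1 := h.hold n _ hmeas
  have h2 : ∀ ω, (∫⁻ t in Set.Ioi (0 : ℝ),
        ENNReal.ofReal ((w * ∑ j ∈ nb (X n ω), locT (X · ω) (T · ω) n j) *
          exp (-((w * ∑ j ∈ nb (X n ω), locT (X · ω) (T · ω) n j) * t))) *
        Set.indicator {q : (Fin (n + 1) → Zd d) × (Fin n → ℝ) × ℝ | q.2.2 ≤ 0}
          (fun _ => (1 : ℝ≥0∞)) (fun k => X k ω, fun k => T k ω, t)) = 0 := by
    intro ω
    rw [← lintegral_zero (μ := volume.restrict (Set.Ioi (0 : ℝ)))]
    apply setLIntegral_congr_fun measurableSet_Ioi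
    intro t ht
    have h3 : (((fun k : Fin (n + 1) => X k ω), (fun k : Fin n => T k ω), t) :
        (Fin (n + 1) → Zd d) × (Fin n → ℝ) × ℝ) ∉
        {q : (Fin (n + 1) → Zd d) × (Fin n → ℝ) × ℝ | q.2.2 ≤ 0} := by
      change ¬ t ≤ 0
      exact not_le.2 ht
    change _ * _ = (0 : ℝ≥0∞)
    rw [Set.indicator_of_notMem h3, mul_zero]
  rw [lintegral_congr h2, lintegral_zero] at h1
  have hm2 : Measurable (fun ω => Set.indicator
      {q : (Fin (n + 1) → Zd d) × (Fin n → ℝ) × ℝ | q.2.2 ≤ 0}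
        (fun _ => (1 : ℝ≥0∞)) (fun k => X k ω, fun k => T k ω, T n ω)) := by
    apply hmeas.comp
    refine Measurable.prodMk ?_ (Measurable.prodMk ?_ (h.measT n))
    · exact measurable_pi_iff.2 fun k => h.measX k
    · exact measurable_pi_iff.2 fun k => h.measT k
  rw [lintegral_eq_zero_iff hm2] at h1
  filter_upwards [h1] with ω hω
  by_contra hcon
  have h3 : (((fun k : Fin (n + 1) => X k ω), (fun k : Fin n => T k ω), T n ω) :
      (Fin (n + 1) → Zd d) × (Fin n → ℝ) × ℝ) ∈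
      {q : (Fin (n + 1) → Zd d) × (Fin n → ℝ) × ℝ | q.2.2 ≤ 0} := not_lt.1 hcon
  rw [Set.indicator_of_mem h3] at hω
  exact one_ne_zero hω

/-- by transience the total local time at `0` is finite -/
theorem IsVRJP.tau_small (hw : 0 < w) (h : IsVRJP w P X T) (htr : IsTransient P X)
    {ε : ℝ} (hε : 0 < ε) :
    ∃ z : ℝ, 1 < z ∧ P {ω | ∃ n, z ≤ locT (X · ω) (T · ω) n 0} ≤ ENNReal.ofReal ε := by
  have hprob := h.prob
  set E : ℕ → Set Ω := fun k => {ω | ∃ n, (k : ℝ) ≤ locT (X · ω) (T · ω) n 0} with hE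
  have hmeas : ∀ n, Measurable (fun ω => locT (X · ω) (T · ω) n (0 : Zd d)) := by
    intro n
    unfold locT
    apply Measurable.const_add
    apply Finset.measurable_sum
    intro m _
    exact Measurable.ite (h.measX m (measurableSet_singleton 0)) (h.measT m) measurable_const
  have hEm : ∀ k, MeasurableSet (E k) := by
    intro k
    have h1 : E k = ⋃ n, {ω | (k : ℝ) ≤ locT (X · ω) (T · ω) n 0} := by
      ext ω
      simp [hE]
    rw [h1]
    exact MeasurableSet.iUnion fun n => measurableSet_le measurable_const (hmeas n)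
  have hanti : Antitone E := by
    intro a b hab ω hω
    obtain ⟨n, hn⟩ := hω
    exact ⟨n, (Nat.cast_le.2 hab).trans hn⟩
  have hnull : P (⋂ k, E k) = 0 := by
    have h1 : ∀ᵐ ω ∂P, ω ∉ ⋂ k, E k := by
      filter_upwards [htr] with ω hω
      have hfin := hω 0
      obtain ⟨k, hk⟩ := exists_nat_gt (1 + ∑ m ∈ hfin.toFinset, |T m ω|)
      intro hmem
      obtain ⟨n, hn⟩ := Set.mem_iInter.1 hmem k
      have h2 := locT_le (t := (T · ω)) 0 hfin n
      exact absurd (hn.trans h2) (not_le.2 hk)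
    exact measure_eq_zero_iff_ae_notMem.2 h1
  have hlim := tendsto_measure_iInter_atTop (μ := P) (s := E)
    (fun k => (hEm k).nullMeasurableSet) hanti ⟨0, measure_ne_top P _⟩
  rw [hnull] at hlim
  have hev := hlim.eventually (gt_mem_nhds (ENNReal.ofReal_pos.2 hε))
  obtain ⟨k, hk1, hk2⟩ := (hev.and (Filter.eventually_ge_atTop 2)).exists
  refine ⟨k, ?_, hk1.le⟩
  have : (2 : ℝ) ≤ k := by exact_mod_cast hk2
  linarith

end VJ26
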