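import Pool.Agent.VJ26.Mean2

/-!
# [VJ-ROOT1] Change of root

This file: `phi_root`

`phi_root`: `p, q ∉ U`, `p ≠ q`, `W_pq > 0`. Apply `VR.mean_inv` with `m := p`, `θ := W q`:
`sfn W U (W q) p β = W q p + ⟨W_p, G W_q⟩ = cap W U β p q ≥ W_pq > 0`; the marginal of `μq` on
`U` is `VR .. U W (W q + W p)`, so the last integral may be taken under `μ`
(`VR.lintegral_eq`, `measurable_cap`, `dependsOn_cap`).

`root_change`: `q, j ∉ C`, `q ≠ j`, `p ∈ C`, `W_pq, W_pj > 0`. Base law on `C`: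
`VR μ₀ C W (W q + W j)` (both marginals; order of the sum: `add_comm`). Let
`u = psi W C β (W q) p`, `v = psi W C β (W j) p`, `s = W q j + ⟨W_j, G_C W_q⟩`; these are `> 0` on
good `β` (`psi_ge_term`, `bil_ge_term` with the vertex `p`). By `psi_insert`
 left: `ψ_p = u + v s T_j`; right: `ψ_q = s T_q`, `ψ_p = v + u s T_q` (`psi_insert_self`).
By `VR.disint'` for both sides: left `= ∫∫ ig(s,t) /(u + v s t)`,
right `= ∫∫ ig(s,t) (st)^2/(v + u s t)`, equal by `ig_swap` with `F(y) = 1/(u+vy)`: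
`y · 1/(u + v/y) = y^2/(u y + v)`.
-/

open MeasureTheory Real
open scoped ENNReal

namespace VJ26

variable {α : Type*} [DecidableEq α]
variable {W : α → α → ℝ} {U C : Finset α} {θ : α → ℝ} {μ μq μj : Measure (α → ℝ)}
variable {p q j : α}

theorem phi_root (hW : Wt W) (hp : p ∉ U) (hq : q ∉ U) (hpq : p ≠ q) (h0 : 0 < W p q)
    (hμq : VR μq (insert p U) W (W q)) (hμ : VR μ U W (W p + W q)) :
    ∫⁻ β, ENNReal.ofReal (1 / psi W (insert p U) β (W q) p) ∂μq =
      1 + ∫⁻ β, ENNReal.ofReal (1 / cap W U β p q) ∂μ := by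
  have hθ : ∀ i, 0 ≤ W q i := fun i => hW.nonneg q i
  have hcap : ∀ β, sfn W U (W q) p β = cap W U β p q := by
    intro β
    unfold sfn cap
    rw [hW.symm q p]
  have hm : VR μq U W (W q + W p) := hμq.marg hW hp
  have hg : ∀ᵐ β ∂μq, Good W U β :=
    hm.good hW (fun i => add_nonneg (hW.nonneg q i) (hW.nonneg p i))
  have hs : ∀ᵐ β ∂μq, 0 < sfn W U (W q) p β := by
    filter_upwards [hg] with β hβ
    rw [hcap β]
    exact lt_of_lt_of_le h0 (cap_ge hW hβ p q)
  rw [hμq.mean_inv hW hθ hp hs]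
  congr 1
  simp only [hcap]
  have hm' : VR μq U W (W p + W q) := by
    rw [add_comm]
    exact hm
  refine hm'.lintegral_eq hμ ?_ ?_
  · exact ((measurable_const.div (measurable_cap W U p q))).ennreal_ofReal
  · intro β β' h
    have h1 := dependsOn_cap W U p q h
    change ENNReal.ofReal (1 / cap W U β p q) = ENNReal.ofReal (1 / cap W U β' p q)
    have h2 : cap W U β p q = cap W U β' p q := h1
    rw [h2]

end VJ26
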