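import Pool.Agent.VJ26.StarA

/-!
# [VJ-STAR] The inequality `E[e^{-h}/h] ≤ 2 E[e^{-h}] E[1/h]`, general form

This file: `starstar`

`h(β) = b + ⟨a, G_U η⟩`, law `VR μ U W (a + η)`, `b > 0`, `a, η ≥ 0`.

`starstar_ap` (`a > 0` on `U`): choose `p ≠ q` outside `U` (`Infinite α`:
`Infinite.exists_notMem_finset`) and the weights `W'` equal to `W` on `U × U`, `W' p k = W' k p = a_k`,
`W' q k = W' k q = η_k` (`k ∈ U`), `W' p q = W' q p = b`, zero otherwise; `VR.congr`, `bil_congr`
and `starstar_pos`.

`starstar`: apply the former to `a + ε` (`ε = 1/(n+1)`), `με` any law with killing `a + η + ε`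
(`exists_VR`); `VR.lintegral_rn` with `y = ε` (constant): for bounded measurable `F`
 `∫ F(b + ⟨a+ε, Gη⟩) dμε = ∫ rnd W U (a+η) ε β · F(b + ⟨a + ε, Gη⟩) dμ`,
`0 ≤ rnd ≤ exp(ε |U|)` (a.s., good `β`) and `rnd → 1`, `⟨a+ε,Gη⟩ → ⟨a,Gη⟩` pointwise as `ε → 0`.
The three functions `e^{-h}/h`, `e^{-h}`, `1/h` of `h ≥ b > 0` are continuous and bounded
(`1/b`, `1`, `1/b`), so dominated convergence (`tendsto_lintegral_of_dominated_convergence`)
passes to the limit on both sides (all limits finite: `ENNReal.Tendsto.mul`).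
-/

open MeasureTheory Real
open scoped ENNReal

namespace VJ26

variable {α : Type*} [DecidableEq α]
variable {W : α → α → ℝ} {U : Finset α} {μ : Measure (α → ℝ)} {a η : α → ℝ} {b : ℝ}

open Filter Topology

omit [DecidableEq α] in
private lemma const_eq (e : ℝ) : (fun _ : α => e) = fun i => e * (1 : α → ℝ) i := by
  funext i; simp

private lemma bil_add_const (a η : α → ℝ) (β : α → ℝ) (e : ℝ) :
    bil W U β (a + fun _ => e) η = bil W U β a η + e * bil W U β 1 η := by
  rw [bil_add_left, const_eq e, bil_smul_left]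

private lemma star_lim {μs : ℕ → Measure (α → ℝ)} {e : ℕ → ℝ}
    (he0 : ∀ n, 0 ≤ e n) (he1 : ∀ n, e n ≤ 1) (he : Tendsto e atTop (𝓝 0))
    (hW : Wt W) (ha : ∀ i, 0 ≤ a i) (hη : ∀ i, 0 ≤ η i) (hb : 0 < b) (h : VR μ U W (a + η))
    (hs : ∀ n, VR (μs n) U W ((a + fun _ => e n) + η))
    {Φ : ℝ → ℝ} (hΦm : Measurable Φ) (hΦc : ∀ x, 0 < x → ContinuousAt Φ x) {C : ℝ}
    (hΦ : ∀ x, b ≤ x → Φ x ≤ C) :
    Tendsto (fun n => ∫⁻ β, ENNReal.ofReal (Φ (b + bil W U β (a + fun _ => e n) η)) ∂(μs n))
      atTop (𝓝 (∫⁻ β, ENNReal.ofReal (Φ (b + bil W U β a η)) ∂μ)) := by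
  have hprob := h.prob
  have haη : ∀ i, 0 ≤ (a + η) i := fun i => add_nonneg (ha i) (hη i)
  have hgood := VR.good hW haη h
  have hF : ∀ n, Measurable
      (fun β : α → ℝ => ENNReal.ofReal (Φ (b + bil W U β (a + fun _ => e n) η))) := fun n =>
    (hΦm.comp (measurable_const.add (measurable_bil W U _ _))).ennreal_ofReal
  have hrew : ∀ n, ∫⁻ β, ENNReal.ofReal (Φ (b + bil W U β (a + fun _ => e n) η)) ∂(μs n) =
      ∫⁻ β, ENNReal.ofReal (rnd W U (a + η) (fun _ => e n) β) *
        ENNReal.ofReal (Φ (b + bil W U β (a + fun _ => e n) η)) ∂μ := by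
    intro n
    have h' : VR (μs n) U W ((a + η) + fun _ => e n) := by
      have := hs n
      rwa [add_right_comm] at this
    refine VR.lintegral_rn hW haη (fun _ => he0 n) h h' (hF n) ?_
    intro β β' hββ
    have := dependsOn_bil W U (a + fun _ => e n) η hββ
    simp only at this ⊢
    rw [this]
  simp_rw [hrew]
  refine tendsto_lintegral_of_dominated_convergence
    (fun _ => ENNReal.ofReal (exp (U.card)) * ENNReal.ofReal C) ?_ ?_ ?_ ?_
  · intro n
    refine Measurable.mul ?_ (hF n)
    refine Measurable.ennreal_ofReal ?_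
    unfold rnd
    refine measurable_exp.comp ?_
    exact (((measurable_const.mul (measurable_bil W U _ _)).neg).sub
      (measurable_bil W U _ _)).add measurable_const
  · intro n
    filter_upwards [hgood] with β hβ
    have h1 : 0 ≤ bil W U β (fun _ => e n) (fun _ => e n) :=
      bil_nonneg hβ (fun _ _ => he0 n) (fun _ _ => he0 n)
    have h2 : 0 ≤ bil W U β (fun _ => e n) (a + η) :=
      bil_nonneg hβ (fun _ _ => he0 n) (fun i _ => haη i)
    have h3 : 0 ≤ bil W U β (a + fun _ => e n) η :=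
      bil_nonneg hβ (fun i _ => add_nonneg (ha i) (he0 n)) (fun i _ => hη i)
    refine mul_le_mul' (ENNReal.ofReal_le_ofReal ?_) (ENNReal.ofReal_le_ofReal (hΦ _ (by linarith)))
    unfold rnd
    refine exp_le_exp.2 ?_
    have h4 : ∑ i ∈ U, e n ≤ U.card := by
      rw [Finset.sum_const, nsmul_eq_mul]
      have : (0 : ℝ) ≤ U.card := Nat.cast_nonneg _
      nlinarith [he1 n, he0 n]
    linarith
  · rw [lintegral_const, measure_univ, mul_one]
    exact ENNReal.mul_ne_top ENNReal.ofReal_ne_top ENNReal.ofReal_ne_top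
  · filter_upwards [hgood] with β hβ
    have hr : Tendsto (fun n => rnd W U (a + η) (fun _ => e n) β) atTop (𝓝 1) := by
      have hform : ∀ n, rnd W U (a + η) (fun _ => e n) β =
          exp (-(1 / 2 * (e n * (e n * bil W U β 1 1))) - e n * bil W U β 1 (a + η) +
            U.card * e n) := by
        intro n
        unfold rnd
        have e1 : bil W U β (fun _ => e n) (fun _ => e n) =
            e n * (e n * bil W U β 1 1) := by
          rw [const_eq (e n), bil_smul_left, bil_smul_right]
        have e2 : bil W U β (fun _ => e n) (a + η) = e n * bil W U β 1 (a + η) := by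
          rw [const_eq (e n), bil_smul_left]
        rw [e1, e2, Finset.sum_const, nsmul_eq_mul]
      simp_rw [hform]
      have hlim : Tendsto (fun n => -(1 / 2 * (e n * (e n * bil W U β 1 1))) -
          e n * bil W U β 1 (a + η) + U.card * e n) atTop
          (𝓝 (-(1 / 2 * (0 * (0 * bil W U β 1 1))) - 0 * bil W U β 1 (a + η) + U.card * 0)) := by
        refine Tendsto.add (Tendsto.sub (Tendsto.neg (Tendsto.const_mul _ ?_)) ?_) ?_
        · exact he.mul (he.mul_const _)
        · exact he.mul_const _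
        · exact he.const_mul _
      have := (continuous_exp.tendsto _).comp hlim
      simpa [Function.comp_def] using this
    have hbil : 0 ≤ bil W U β a η := bil_nonneg hβ (fun i _ => ha i) (fun i _ => hη i)
    have hx : Tendsto (fun n => b + bil W U β (a + fun _ => e n) η) atTop
        (𝓝 (b + bil W U β a η)) := by
      simp_rw [bil_add_const]
      have : Tendsto (fun n => b + (bil W U β a η + e n * bil W U β 1 η)) atTop
          (𝓝 (b + (bil W U β a η + 0 * bil W U β 1 η))) :=
        Tendsto.const_add _ (Tendsto.const_add _ (he.mul_const _))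
      simpa using this
    have hΦx : Tendsto (fun n => Φ (b + bil W U β (a + fun _ => e n) η)) atTop
        (𝓝 (Φ (b + bil W U β a η))) := (hΦc _ (by linarith)).tendsto.comp hx
    have t1 := ENNReal.tendsto_ofReal hr
    have t2 := ENNReal.tendsto_ofReal hΦx
    have := ENNReal.Tendsto.mul t1 (Or.inr ENNReal.ofReal_ne_top) t2
      (Or.inr ENNReal.ofReal_ne_top)
    simpa using this

theorem starstar [Infinite α] (hW : Wt W) (ha : ∀ i, 0 ≤ a i)
    (hη : ∀ i, 0 ≤ η i) (hb : 0 < b) (h : VR μ U W (a + η)) :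
    ∫⁻ β, ENNReal.ofReal (exp (-(b + bil W U β a η)) / (b + bil W U β a η)) ∂μ ≤
      2 * (∫⁻ β, ENNReal.ofReal (exp (-(b + bil W U β a η))) ∂μ) *
        ∫⁻ β, ENNReal.ofReal (1 / (b + bil W U β a η)) ∂μ := by
  have hprob := h.prob
  have haη : ∀ i, 0 ≤ (a + η) i := fun i => add_nonneg (ha i) (hη i)
  have hgood := VR.good hW haη h
  set e : ℕ → ℝ := fun n => 1 / ((n : ℝ) + 1) with he_def
  have hepos : ∀ n, 0 < e n := fun n => by positivity
  have he0 : ∀ n, 0 ≤ e n := fun n => (hepos n).le
  have he1 : ∀ n, e n ≤ 1 := by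
    intro n
    rw [he_def]
    have : (0 : ℝ) ≤ n := Nat.cast_nonneg _
    exact (div_le_one (by positivity)).2 (by linarith)
  have he : Tendsto e atTop (𝓝 0) := tendsto_one_div_add_atTop_nhds_zero_nat
  have hex : ∀ n, ∃ ν : Measure (α → ℝ), VR ν U W ((a + fun _ => e n) + η) := fun n =>
    exists_VR hW U _ (fun i => add_nonneg (add_nonneg (ha i) (he0 n)) (hη i))
  choose μs hs using hex
  have key : ∀ n, ∫⁻ β, ENNReal.ofReal (exp (-(b + bil W U β (a + fun _ => e n) η)) /
        (b + bil W U β (a + fun _ => e n) η)) ∂(μs n) ≤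
      2 * (∫⁻ β, ENNReal.ofReal (exp (-(b + bil W U β (a + fun _ => e n) η))) ∂(μs n)) *
        ∫⁻ β, ENNReal.ofReal (1 / (b + bil W U β (a + fun _ => e n) η)) ∂(μs n) := fun n =>
    starstar_ap hW (fun i => add_nonneg (ha i) (he0 n))
      (fun i _ => add_pos_of_nonneg_of_pos (ha i) (hepos n)) hη hb (hs n)
  have l1 := star_lim (Φ := fun x => exp (-x) / x) (C := 1 / b) he0 he1 he hW ha hη hb h hs
    ((measurable_exp.comp measurable_neg).div measurable_id)
    (fun x hx => by
      have : x ≠ 0 := hx.ne'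
      fun_prop (disch := assumption))
    (fun x hx => by
      have hx0 : 0 < x := lt_of_lt_of_le hb hx
      calc exp (-x) / x ≤ 1 / x := by
            gcongr
            exact exp_le_one_iff.2 (by linarith)
        _ ≤ 1 / b := one_div_le_one_div_of_le hb hx)
  have l2 := star_lim (Φ := fun x => exp (-x)) (C := 1) he0 he1 he hW ha hη hb h hs
    (measurable_exp.comp measurable_neg)
    (fun x hx => by fun_prop)
    (fun x hx => exp_le_one_iff.2 (by linarith))
  have l3 := star_lim (Φ := fun x => 1 / x) (C := 1 / b) he0 he1 he hW ha hη hb h hs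
    (measurable_const.div measurable_id)
    (fun x hx => by
      have : x ≠ 0 := hx.ne'
      fun_prop (disch := assumption))
    (fun x hx => one_div_le_one_div_of_le hb hx)
  have f2 : ∫⁻ β, ENNReal.ofReal (exp (-(b + bil W U β a η))) ∂μ ≠ ∞ := by
    have : ∫⁻ β, ENNReal.ofReal (exp (-(b + bil W U β a η))) ∂μ ≤ ∫⁻ _, 1 ∂μ := by
      refine lintegral_mono_ae ?_
      filter_upwards [hgood] with β hβ
      have hbil : 0 ≤ bil W U β a η := bil_nonneg hβ (fun i _ => ha i) (fun i _ => hη i)
      rw [← ENNReal.ofReal_one]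
      exact ENNReal.ofReal_le_ofReal (exp_le_one_iff.2 (by linarith))
    rw [lintegral_const, measure_univ, mul_one] at this
    exact ne_top_of_le_ne_top ENNReal.one_ne_top this
  have f3 : ∫⁻ β, ENNReal.ofReal (1 / (b + bil W U β a η)) ∂μ ≠ ∞ := by
    have : ∫⁻ β, ENNReal.ofReal (1 / (b + bil W U β a η)) ∂μ ≤
        ∫⁻ _, ENNReal.ofReal (1 / b) ∂μ := by
      refine lintegral_mono_ae ?_
      filter_upwards [hgood] with β hβ
      have hbil : 0 ≤ bil W U β a η := bil_nonneg hβ (fun i _ => ha i) (fun i _ => hη i)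
      exact ENNReal.ofReal_le_ofReal (one_div_le_one_div_of_le hb (by linarith))
    rw [lintegral_const, measure_univ, mul_one] at this
    exact ne_top_of_le_ne_top ENNReal.ofReal_ne_top this
  refine le_of_tendsto_of_tendsto l1 ?_ (Eventually.of_forall key)
  refine ENNReal.Tendsto.mul (ENNReal.Tendsto.const_mul l2 (Or.inr (by norm_num))) ?_ l3 ?_
  · exact Or.inr f3
  · exact Or.inr (ENNReal.mul_ne_top (by norm_num) f2)

end VJ26
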