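import Pool.Agent.VJ26.StarPos

/-!
# [VJ-STARA] The inequality `E[e^{-h}/h] ≤ 2 E[e^{-h}] E[1/h]`, general form

This file: `starstar_ap`

`h(β) = b + ⟨a, G_U η⟩`, law `VR μ U W (a + η)`, `b > 0`, `a, η ≥ 0`.

`starstar_ap` (`a > 0` on `U`): choose `p ≠ q` outside `U` (`Infinite α`:
`Infinite.exists_notMem_finset`) and the weights `W'` equal to `W` on `U × U`, `W' p k = W' k p = a_k`,
`W' q k = W' k q = η_k` (`k ∈ U`), `W' p q = W' q p = b`, zero otherwise; `VR.congr`, `bil_congr`
and `starstar_pos`.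

`starstar`: apply the former to `a + ε` (`ε = 1/(n+1)`), `με` any law with killing `a + η + ε`
(`exists_VR`); `VR.lintegral_rn` with `y = ε` (constant): for bounded measurable `F`
 `∫ F(b + ⟨a+ε, Gη⟩) dμε = ∫ rnd W U (a+η) ε β · F(b + ⟨a + ε, Gη⟩) dμ`,
`0 ≤ rnd ≤ exp(ε |U|)` (a.s., good `β`) and `rnd → 1`, `⟨a+ε,Gη⟩ → ⟨a,Gη⟩` pointwise as `ε → 0`.
The three functions `e^{-h}/h`, `e^{-h}`, `1/h` of `h ≥ b > 0` are continuous and bounded
(`1/b`, `1`, `1/b`), so dominated convergence (`tendsto_lintegral_of_dominated_convergence`)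
passes to the limit on both sides (all limits finite: `ENNReal.Tendsto.mul`).
-/

open MeasureTheory Real
open scoped ENNReal

namespace VJ26

variable {α : Type*} [DecidableEq α]
variable {W : α → α → ℝ} {U : Finset α} {μ : Measure (α → ℝ)} {a η : α → ℝ} {b : ℝ}

/-- The weights with two additional vertices. -/
private noncomputable def W3 (W : α → α → ℝ) (U : Finset α) (a η : α → ℝ) (b : ℝ) (p q c d : α) :
    ℝ :=
  if c ∈ U ∧ d ∈ U then W c d
  else if c = p ∧ d ∈ U then a d
  else if d = p ∧ c ∈ U then a c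
  else if c = q ∧ d ∈ U then η d
  else if d = q ∧ c ∈ U then η c
  else if (c = p ∧ d = q) ∨ (c = q ∧ d = p) then b
  else 0

theorem starstar_ap [Infinite α] (hW : Wt W) (ha : ∀ i, 0 ≤ a i) (ha' : ∀ i ∈ U, 0 < a i)
    (hη : ∀ i, 0 ≤ η i) (hb : 0 < b) (h : VR μ U W (a + η)) :
    ∫⁻ β, ENNReal.ofReal (exp (-(b + bil W U β a η)) / (b + bil W U β a η)) ∂μ ≤
      2 * (∫⁻ β, ENNReal.ofReal (exp (-(b + bil W U β a η))) ∂μ) *
        ∫⁻ β, ENNReal.ofReal (1 / (b + bil W U β a η)) ∂μ := by
  obtain ⟨p, hp⟩ := Infinite.exists_notMem_finset U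
  obtain ⟨q, hq'⟩ := Infinite.exists_notMem_finset (insert p U)
  have hq : q ∉ U := fun h' => hq' (Finset.mem_insert_of_mem h')
  have hpq : p ≠ q := fun h' => hq' (h' ▸ Finset.mem_insert_self p U)
  have hUp : ∀ i ∈ U, i ≠ p := fun i hi h' => hp (h' ▸ hi)
  have hUq : ∀ i ∈ U, i ≠ q := fun i hi h' => hq (h' ▸ hi)
  set W' : α → α → ℝ := W3 W U a η b p q with hW'
  have e1 : ∀ i ∈ U, ∀ j ∈ U, W i j = W' i j := by
    intro i hi j hj
    simp [hW', W3, hi, hj]
  have e2 : ∀ i ∈ U, W' p i = a i := by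
    intro i hi
    simp [hW', W3, hi, hp]
  have e3 : ∀ i ∈ U, W' q i = η i := by
    intro i hi
    simp [hW', W3, hi, hq, hpq.symm, hUp i hi]
  have e4 : W' p q = b := by
    simp [hW', W3, hp, hq, hpq, hpq.symm]
  have hWt : Wt W' := by
    refine ⟨fun i j => ?_, fun i j => ?_, fun i => ?_⟩
    · simp only [hW', W3]
      by_cases hi : i ∈ U <;> by_cases hj : j ∈ U
      · simp only [hi, hj, and_self, if_true]
        exact hW.symm i j
      · have h1 := hUp i hi
        have h2 := hUq i hi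
        simp only [hi, hj, h1, h2, and_true, and_false, false_and, true_and, if_false, or_self]
      · have h1 := hUp j hj
        have h2 := hUq j hj
        simp only [hi, hj, h1, h2, and_true, and_false, false_and, true_and, if_false, or_self]
      · simp only [hi, hj, and_false, false_and, if_false]
        by_cases h1 : (i = p ∧ j = q) ∨ (i = q ∧ j = p)
        · rw [if_pos h1, if_pos]
          rcases h1 with ⟨h1, h2⟩ | ⟨h1, h2⟩
          · exact Or.inr ⟨h2, h1⟩
          · exact Or.inl ⟨h2, h1⟩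
        · rw [if_neg h1, if_neg]
          rintro (⟨h2, h3⟩ | ⟨h2, h3⟩)
          · exact h1 (Or.inr ⟨h3, h2⟩)
          · exact h1 (Or.inl ⟨h3, h2⟩)
    · simp only [hW', W3]
      split_ifs
      · exact hW.nonneg i j
      · exact ha j
      · exact ha i
      · exact hη j
      · exact hη i
      · exact hb.le
      · exact le_refl _
    · simp only [hW', W3]
      by_cases hi : i ∈ U
      · simp only [hi, and_self, if_true]
        exact hW.diag i
      · simp only [hi, and_false, if_false]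
        rw [if_neg]
        rintro (⟨h1, h2⟩ | ⟨h1, h2⟩)
        · exact hpq (h1.symm.trans h2)
        · exact hpq (h2.symm.trans h1)
  have hVR : VR μ U W' (W' p + W' q) := h.congr e1 fun i hi => by
    simp only [Pi.add_apply]
    rw [e2 i hi, e3 i hi]
  have hcap : ∀ β, cap W' U β p q = b + bil W U β a η := by
    intro β
    unfold cap
    rw [e4]
    congr 1
    symm
    exact bil_congr e1 (fun _ _ => rfl) (fun i hi => (e2 i hi).symm) (fun i hi => (e3 i hi).symm)
  have hmain := starstar_pos hWt hp hq hpq (by rw [e4]; exact hb)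
    (fun k hk => by rw [hWt.symm, e2 k hk]; exact ha' k hk) hVR
  simp only [hcap] at hmain
  exact hmain

end VJ26
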