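import Pool.Agent.VJ26.Neg
import Pool.Agent.VJ26.CMc
import Pool.Agent.VJ26.RN

/-!
# [VJ-STARPOS] The inequality `E[e^{-h}/h] ≤ 2 E[e^{-h}] E[1/h]`, positive weights

`h = cap W U β p q = b + ⟨a, G η⟩`, `b = W_pq`, `a = W p`, `η = W q`, `VR μ U W (a + η)`.
Let `W₂` be `W` with all weights at `p` doubled (`W₂ c d = if c = p ∨ d = p then 2 W c d else
W c d`), `VR μ₂ U W₂ (W₂ p + W₂ q)` (`exists_VR`), i.e. killing `a + η + a` on `U` (`VR.congr`).
`VR.lintegral_rn` (`θ = a + η`, `y = a`): `rnd = exp(-(3/2)⟨a,Ga⟩ - ⟨a,Gη⟩ + ∑_U a)`, so for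
measurable `K ≥ 0` depending on `U`
 `∫ exp((3/2)⟨a,Ga⟩) K dμ₂ = e^{b + ∑_U a} ∫ e^{-h} K dμ`.                        (1)
`cap W₂ U β p q = 2 h`. With `f` from `cm_expBil` (`c = 3/2`, `x = a`; `VR.allGood` for `μ₂`),
`neg_corr` for `W₂` and `mono_thm` (`W ≤ W₂`):
 `∫ f/(2h) dμ₂ ≤ (∫ f dμ₂) (∫ 1/h dμ)`. Insert (1) with `K = 1/(2h)` and `K = 1` and cancel the
positive finite factor `e^{b+∑a}`.
-/

open MeasureTheory Real
open scoped ENNReal

namespace VJ26

variable {α : Type*} [DecidableEq α]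
variable {W : α → α → ℝ} {U : Finset α} {μ : Measure (α → ℝ)} {p q : α}

/-- All weights at `p` doubled. -/
private noncomputable def W2 (W : α → α → ℝ) (p c d : α) : ℝ :=
  if c = p ∨ d = p then 2 * W c d else W c d

private lemma W2_wt (hW : Wt W) (p : α) : Wt (W2 W p) where
  symm i j := by
    unfold W2
    rw [hW.symm i j]
    simp only [or_comm]
  nonneg i j := by
    unfold W2
    have := hW.nonneg i j
    split_ifs <;> linarith
  diag i := by
    unfold W2
    rw [hW.diag i]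
    simp

private lemma W2_le (hW : Wt W) (p i j : α) : W i j ≤ W2 W p i j := by
  unfold W2
  have := hW.nonneg i j
  split_ifs <;> linarith

private lemma W2_left (W : α → α → ℝ) (p j : α) : W2 W p p j = 2 * W p j := by
  simp [W2]

private lemma W2_off {i j : α} (W : α → α → ℝ) (hi : i ≠ p) (hj : j ≠ p) :
    W2 W p i j = W i j := by
  simp [W2, hi, hj]

private lemma cap_W2 (hp : p ∉ U) (hpq : p ≠ q) (β : α → ℝ) :
    cap (W2 W p) U β p q = 2 * cap W U β p q := by
  have hne : ∀ i ∈ U, i ≠ p := fun i hi h => hp (h ▸ hi)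
  have h1 : bil (W2 W p) U β (W2 W p p) (W2 W p q) = bil W U β (fun i => 2 * W p i) (W q) :=
    bil_congr (fun i hi j hj => W2_off W (hne i hi) (hne j hj)) (fun _ _ => rfl)
      (fun i _ => W2_left W p i) (fun i hi => W2_off W hpq.symm (hne i hi))
  unfold cap
  rw [h1, W2_left, bil_smul_left]
  ring

theorem starstar_pos (hW : Wt W) (hp : p ∉ U) (hq : q ∉ U) (hpq : p ≠ q)
    (h0 : 0 < W p q) (hpU : ∀ k ∈ U, 0 < W k p) (h : VR μ U W (W p + W q)) :
    ∫⁻ β, ENNReal.ofReal (exp (-cap W U β p q) / cap W U β p q) ∂μ ≤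
      2 * (∫⁻ β, ENNReal.ofReal (exp (-cap W U β p q)) ∂μ) *
        ∫⁻ β, ENNReal.ofReal (1 / cap W U β p q) ∂μ := by
  have hne : ∀ i ∈ U, i ≠ p := fun i hi h => hp (h ▸ hi)
  have hW2 := W2_wt hW p
  have hp0 : ∀ i, 0 ≤ W p i := fun i => hW.nonneg p i
  have hpq0 : ∀ i, 0 ≤ (W p + W q) i := fun i => add_nonneg (hW.nonneg p i) (hW.nonneg q i)
  have hpq2 : ∀ i, 0 ≤ (W2 W p p + W2 W p q) i := fun i =>
    add_nonneg (hW2.nonneg p i) (hW2.nonneg q i)
  obtain ⟨μ2, h2⟩ := exists_VR hW2 U (W2 W p p + W2 W p q) hpq2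
  have h2' : VR μ2 U W ((W p + W q) + W p) := by
    refine h2.congr (fun i hi j hj => W2_off W (hne i hi) (hne j hj)) (fun i hi => ?_)
    simp only [Pi.add_apply]
    rw [W2_left, W2_off W hpq.symm (hne i hi)]
    ring
  obtain ⟨f, hf, hfe⟩ := cm_expBil (U := U) hW2 hp0 (c := 3 / 2) (by norm_num)
  have hgood2 := VR.allGood hW2 hpq2 h2
  have hbil2 : ∀ β, bil (W2 W p) U β (W p) (W p) = bil W U β (W p) (W p) := fun β =>
    bil_congr (fun i hi j hj => W2_off W (hne i hi) (hne j hj)) (fun _ _ => rfl)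
      (fun _ _ => rfl) (fun _ _ => rfl)
  have hfae : ∀ᵐ β ∂μ2, f β = ENNReal.ofReal (exp (3 / 2 * bil W U β (W p) (W p))) := by
    filter_upwards [hgood2] with β hβ
    rw [hfe β hβ, hbil2]
  -- the key identity
  set c : ℝ := W p q + ∑ i ∈ U, W p i with hc
  have key : ∀ K : (α → ℝ) → ℝ≥0∞, Measurable K → DependsOn K (U : Set α) →
      ∫⁻ β, f β * K β ∂μ2 =
        ENNReal.ofReal (exp c) * ∫⁻ β, ENNReal.ofReal (exp (-cap W U β p q)) * K β ∂μ := by
    intro K hK hdK
    have e1 : ∫⁻ β, f β * K β ∂μ2 =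
        ∫⁻ β, ENNReal.ofReal (exp (3 / 2 * bil W U β (W p) (W p))) * K β ∂μ2 := by
      refine lintegral_congr_ae ?_
      filter_upwards [hfae] with β hβ
      rw [hβ]
    have hmE : Measurable
        (fun β : α → ℝ => ENNReal.ofReal (exp (3 / 2 * bil W U β (W p) (W p)))) :=
      (measurable_exp.comp (measurable_const.mul (measurable_bil W U _ _))).ennreal_ofReal
    have hd : DependsOn (fun β : α → ℝ =>
        ENNReal.ofReal (exp (3 / 2 * bil W U β (W p) (W p))) * K β) (U : Set α) := by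
      intro β β' hββ
      have t1 := dependsOn_bil W U (W p) (W p) hββ
      have t2 := hdK hββ
      simp only at t1 t2 ⊢
      rw [t1, t2]
    have hmm : Measurable (fun β : α → ℝ =>
        ENNReal.ofReal (exp (3 / 2 * bil W U β (W p) (W p))) * K β) := hmE.mul hK
    rw [e1, VR.lintegral_rn hW hpq0 hp0 h h2' hmm hd,
      ← lintegral_const_mul' _ _ ENNReal.ofReal_ne_top]
    refine lintegral_congr fun β => ?_
    rw [← mul_assoc, ← mul_assoc]
    congr 1
    unfold rnd
    rw [← ENNReal.ofReal_mul (exp_nonneg _), ← ENNReal.ofReal_mul (exp_nonneg _)]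
    congr 1
    rw [← Real.exp_add, ← Real.exp_add, bil_add_right, hc]
    congr 1
    unfold cap
    ring
  have hcap := measurable_cap W U p q
  have k1 := key (fun β => ENNReal.ofReal (1 / cap (W2 W p) U β p q))
    (measurable_const.div (measurable_cap (W2 W p) U p q)).ennreal_ofReal (by
      intro β β' hββ
      have t1 := dependsOn_cap (W2 W p) U p q hββ
      simp only at t1 ⊢
      rw [t1])
  have k2 := key (fun _ => 1) measurable_const (by intro β β' _; rfl)
  simp only [mul_one] at k2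
  have hneg := neg_corr hW2 hp hq hpq (by rw [W2_left]; linarith)
    (fun k hk => by rw [hW2.symm, W2_left, hW.symm]; have := hpU k hk; linarith) h2 hf
  have hmono := mono_thm hW hW2 hp hq hpq h0 hpU (W2_le hW p) h h2
  have hmain : ENNReal.ofReal (exp c) *
      ∫⁻ β, ENNReal.ofReal (exp (-cap W U β p q)) *
        ENNReal.ofReal (1 / cap (W2 W p) U β p q) ∂μ ≤
      ENNReal.ofReal (exp c) * ((∫⁻ β, ENNReal.ofReal (exp (-cap W U β p q)) ∂μ) *
        ∫⁻ β, ENNReal.ofReal (1 / cap W U β p q) ∂μ) := by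
    rw [← k1, ← mul_assoc, ← k2]
    exact hneg.trans (mul_le_mul' le_rfl hmono)
  have hcpos : ENNReal.ofReal (exp c) ≠ 0 := by
    rw [Ne, ENNReal.ofReal_eq_zero, not_le]
    exact exp_pos c
  have hmain2 := (ENNReal.mul_le_mul_iff_right hcpos ENNReal.ofReal_ne_top).1 hmain
  have hhalf : ∫⁻ β, ENNReal.ofReal (exp (-cap W U β p q) / cap W U β p q) ∂μ =
      2 * ∫⁻ β, ENNReal.ofReal (exp (-cap W U β p q)) *
        ENNReal.ofReal (1 / cap (W2 W p) U β p q) ∂μ := by
    rw [← lintegral_const_mul' _ _ (by norm_num)]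
    refine lintegral_congr fun β => ?_
    rw [← ENNReal.ofReal_mul (exp_nonneg _), cap_W2 hp hpq,
      show (2 : ℝ≥0∞) = ENNReal.ofReal 2 by simp, ← ENNReal.ofReal_mul (by norm_num)]
    congr 1
    by_cases hz : cap W U β p q = 0
    · simp [hz]
    · field_simp
  rw [hhalf, mul_assoc]
  exact mul_le_mul' le_rfl hmain2

end VJ26
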