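import Pool.Agent.VJ26.StepM

/-!
# [VJ-STEPA] The one-vertex extension has the right law

This file: `stepM_VR`

Base: `μ` has `VR μ U W (θ + W m)`, almost surely `Good W U β`, and (P4) holds on `U` for every
law `VR μ' U W' θ'` (hypothesis `hP4`: this is the induction hypothesis of the main induction).
Write `w = W m`, `G = gr W U β`, `s = sfn W U θ m β = θ_m + ⟨w, G θ⟩`, `β_m = (1/t + ⟨w,Gw⟩)/2`.

`lintegral_stepM`: `lintegral_map`, `lintegral_withDensity_eq_lintegral_mul`, `lintegral_prod`.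

`stepM_VR`: for `L ≥ 1`, by `lintegral_stepM` and (I2) `ig_inv_laplace`
 `E exp(-∑_{U∪m}(L_i^2-1)β_i)`
 `= E_μ[ exp(-∑_U (L_i^2-1)β_i) exp(-(L_m^2-1)⟨w,Gw⟩/2) L_m⁻¹ exp(-s (L_m-1)) ]`.
By `VR.tilt` (with the scaling rules `bil_scale`: `⟨w,Gw⟩ = ⟨Lw, G' Lw⟩`,
`⟨w,Gθ⟩ = ⟨Lw, G' Lθ⟩`, `G' = gr (WL W L) U (L^2 β)`) this equals
 `L_m⁻¹ e^{-θ_m (L_m-1)} Lam(U,W,θ+w,L) E^L[ exp(-(L_m^2-1)/2 ⟨Lw,G'Lw⟩ - (L_m-1)⟨Lw,G'Lθ⟩) ]`
and with `y = (L_m-1) L w` and the killing `L(θ+w)` of the tilted law: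
 `(1/2)⟨y,G'y⟩ + ⟨y, G' L(θ+w)⟩ = (L_m^2-1)/2 ⟨Lw,G'Lw⟩ + (L_m-1)⟨Lw,G'Lθ⟩`
[`(L_m-1)^2/2 + (L_m-1) = (L_m^2-1)/2`], so (P4) gives `exp(-(L_m-1)∑_U L_i w_i)`. Finally
 `Lam(U∪m,W,θ,L) = L_m⁻¹ e^{-θ_m(L_m-1)} Lam(U,W,θ+w,L) exp(-(L_m-1)∑_U L_i w_i)` because
 `w_i (L_i - 1) + w_i L_i (L_m - 1) = w_i (L_m L_i - 1)`.
-/

open MeasureTheory Real
open scoped ENNReal

namespace VJ26

variable {α : Type*} [DecidableEq α]
variable {W : α → α → ℝ} {U : Finset α} {θ : α → ℝ} {μ : Measure (α → ℝ)} {m : α}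

theorem ae_sfn_nonneg (hW : Wt W) (hθ : ∀ i, 0 ≤ θ i)
    (h : VR μ U W (θ + W m)) (hAG : AG U) :
    ∀ᵐ β ∂μ, Good W U β ∧ 0 ≤ sfn W U θ m β ∧ 0 ≤ bil W U β (W m) (W m) := by
  have hg := hAG μ W (θ + W m) hW (fun i => add_nonneg (hθ i) (hW.nonneg m i)) h
  filter_upwards [hg] with β hβ
  refine ⟨hβ, ?_, ?_⟩
  · unfold sfn
    exact add_nonneg (hθ m) (bil_nonneg hβ (fun i _ => hW.nonneg m i) (fun i _ => hθ i))
  · exact bil_nonneg hβ (fun i _ => hW.nonneg m i) (fun i _ => hW.nonneg m i)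

theorem ae_stepM [SFinite μ] {S : Set (α → ℝ)} (hS : MeasurableSet S)
    (h : ∀ᵐ β ∂μ, ∀ t : ℝ, 0 < t → addv W U m (β, t) ∈ S) :
    ∀ᵐ β ∂(stepM μ W U θ m), β ∈ S := by
  rw [ae_iff]
  have h1 : (stepM μ W U θ m) Sᶜ = ∫⁻ β, Sᶜ.indicator 1 β ∂(stepM μ W U θ m) := by
    rw [lintegral_indicator_one hS.compl]
  change (stepM μ W U θ m) Sᶜ = 0
  rw [h1, lintegral_stepM (measurable_one.indicator hS.compl)]
  have h2 : (fun β : α → ℝ => (∫⁻ t in Set.Ioi (0 : ℝ), ENNReal.ofReal (ig (sfn W U θ m β) t) *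
        Sᶜ.indicator 1 (addv W U m (β, t)))) =ᵐ[μ] fun _ => 0 := by
    filter_upwards [h] with β hβ
    have h3 : ∫⁻ t in Set.Ioi (0 : ℝ), ENNReal.ofReal (ig (sfn W U θ m β) t) *
        Sᶜ.indicator 1 (addv W U m (β, t)) = ∫⁻ t in Set.Ioi (0 : ℝ), (0 : ℝ≥0∞) := by
      refine setLIntegral_congr_fun measurableSet_Ioi ?_
      intro t ht
      have h4 := hβ t ht
      have h5 : Sᶜ.indicator (1 : (α → ℝ) → ℝ≥0∞) (addv W U m (β, t)) = 0 := by
        rw [Set.indicator_of_notMem]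
        simpa using h4
      simp only [h5, mul_zero]
    rw [h3]
    simp
  rw [lintegral_congr_ae h2]
  simp

theorem Lam_insert (hW : Wt W) (hm : m ∉ U) {L : α → ℝ} :
    Lam (insert m U) W θ L = Lam U W (θ + W m) L *
      ((L m)⁻¹ * exp (-(θ m * (L m - 1))) *
        exp (-∑ i ∈ U, (L m - 1) * (L i * W m i))) := by
  unfold Lam
  rw [Finset.prod_insert hm, Finset.sum_insert hm, Finset.sum_insert hm, Finset.sum_insert hm]
  have h1 : ∑ i ∈ U, ∑ j ∈ insert m U, W i j * (L i * L j - 1) =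
      ∑ i ∈ U, W m i * (L m * L i - 1) + ∑ i ∈ U, ∑ j ∈ U, W i j * (L i * L j - 1) := by
    rw [← Finset.sum_add_distrib]
    refine Finset.sum_congr rfl fun i _ => ?_
    rw [Finset.sum_insert hm, hW.symm i m, mul_comm (L i) (L m)]
  rw [h1, hW.diag m]
  have h2 : ∑ i ∈ U, (θ + W m) i * (L i - 1) =
      ∑ i ∈ U, θ i * (L i - 1) + ∑ i ∈ U, W m i * (L i - 1) := by
    rw [← Finset.sum_add_distrib]
    refine Finset.sum_congr rfl fun i _ => ?_
    simp only [Pi.add_apply]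
    ring
  rw [h2]
  have h3 : ∑ i ∈ U, W m i * (L m * L i - 1) =
      ∑ i ∈ U, W m i * (L i - 1) + ∑ i ∈ U, (L m - 1) * (L i * W m i) := by
    rw [← Finset.sum_add_distrib]
    refine Finset.sum_congr rfl fun i _ => ?_
    ring
  rw [h3]
  have h4 : exp (-(1 / 2) * (0 * (L m * L m - 1) + (∑ i ∈ U, W m i * (L i - 1) +
      ∑ i ∈ U, (L m - 1) * (L i * W m i)) + ((∑ i ∈ U, W m i * (L i - 1) +
      ∑ i ∈ U, (L m - 1) * (L i * W m i)) + ∑ i ∈ U, ∑ j ∈ U, W i j * (L i * L j - 1))) -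
      (θ m * (L m - 1) + ∑ i ∈ U, θ i * (L i - 1))) =
      exp (-(1 / 2) * ∑ i ∈ U, ∑ j ∈ U, W i j * (L i * L j - 1) -
        (∑ i ∈ U, θ i * (L i - 1) + ∑ i ∈ U, W m i * (L i - 1))) *
      exp (-(θ m * (L m - 1))) * exp (-∑ i ∈ U, (L m - 1) * (L i * W m i)) := by
    rw [← Real.exp_add, ← Real.exp_add]
    congr 1
    ring
  rw [h4]
  ring

theorem stepM_VR (hW : Wt W) (hθ : ∀ i, 0 ≤ θ i) (hm : m ∉ U)
    (h : VR μ U W (θ + W m)) (hP4 : P4 U) (hAG : AG U) :
    VR (stepM μ W U θ m) (insert m U) W θ := by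
  have hprob := h.prob
  have hgood := ae_sfn_nonneg hW hθ h hAG
  refine ⟨?_, ?_, ?_⟩
  · constructor
    have h1 : (stepM μ W U θ m) Set.univ = ∫⁻ β, 1 ∂(stepM μ W U θ m) := by simp
    rw [h1, lintegral_stepM measurable_const]
    have h2 : (fun β : α → ℝ => (∫⁻ t in Set.Ioi (0 : ℝ),
        ENNReal.ofReal (ig (sfn W U θ m β) t) * 1)) =ᵐ[μ] fun _ => 1 := by
      filter_upwards [hgood] with β hβ
      simp only [mul_one]
      exact ig_mass hβ.2.1
    rw [lintegral_congr_ae h2]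
    simp
  · intro i hi
    have hS : MeasurableSet {β : α → ℝ | 0 < β i} :=
      measurableSet_lt measurable_const (measurable_pi_apply i)
    have := ae_stepM (W := W) (U := U) (θ := θ) (m := m) (μ := μ) hS ?_
    · exact this
    · rcases Finset.mem_insert.1 hi with rfl | hiU
      · filter_upwards [hgood] with β hβ t ht
        simp only [addv, Function.update_self]
        have h1 : 0 < 1 / t := by positivity
        linarith [hβ.2.2]
      · filter_upwards [h.pos i hiU] with β hβ t ht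
        have hne : i ≠ m := fun h' => hm (h' ▸ hiU)
        simp only [addv, Function.update_of_ne hne]
        exact hβ
  · intro L hL
    have hL0 : ∀ i, 0 < L i := fun i => lt_of_lt_of_le one_pos (hL i)
    set W' : α → α → ℝ := WL W L with hW'
    have hW'W : Wt W' := Wt.WL hW hL0
    set w' : α → ℝ := fun i => L i * W m i with hw'
    set y : α → ℝ := fun i => (L m - 1) * w' i with hy
    set c : ℝ := (L m)⁻¹ * exp (-(θ m * (L m - 1))) with hc
    have hc0 : 0 ≤ c := by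
      rw [hc]
      have := hL0 m
      positivity
    set F : (α → ℝ) → ℝ≥0∞ := fun β => ENNReal.ofReal (exp (-(1 / 2 * bil W' U β y y) -
      bil W' U β y (fun i => L i * (θ + W m) i))) with hF
    have hFm : Measurable F := by
      refine Measurable.ennreal_ofReal (Real.measurable_exp.comp ?_)
      exact ((((measurable_bil W' U y y).const_mul (1 / 2)).neg).sub
        (measurable_bil W' U y _))
    have hFd : DependsOn F (U : Set α) := by
      intro β β' hββ
      simp only [hF]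
      have e1 := dependsOn_bil W' U y y hββ
      have e2 := dependsOn_bil W' U y (fun i => L i * (θ + W m) i) hββ
      simp only at e1 e2
      rw [e1, e2]
    obtain ⟨μL, hμL, htilt⟩ := h.tilt hL
    have hm1 : Measurable (fun β : α → ℝ =>
        ENNReal.ofReal (exp (-∑ i ∈ insert m U, (L i ^ 2 - 1) * β i))) := by
      refine Measurable.ennreal_ofReal (Real.measurable_exp.comp (Measurable.neg ?_))
      exact Finset.measurable_sum _ fun i _ => (measurable_pi_apply i).const_mul _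
    rw [lintegral_stepM hm1]
    have h2 : (fun β : α → ℝ => (∫⁻ t in Set.Ioi (0 : ℝ),
        ENNReal.ofReal (ig (sfn W U θ m β) t) *
          ENNReal.ofReal (exp (-∑ i ∈ insert m U, (L i ^ 2 - 1) * (addv W U m (β, t)) i)))) =ᵐ[μ]
        fun β => ENNReal.ofReal c * (ENNReal.ofReal (exp (-∑ i ∈ U, ((L i) ^ 2 - 1) * β i)) *
            F (fun i => L i ^ 2 * β i)) := by
      filter_upwards [hgood] with β hβ
      obtain ⟨hG, hs, hq⟩ := hβ
      set q : ℝ := bil W U β (W m) (W m) with hqdef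
      set s : ℝ := sfn W U θ m β with hsdef
      have e1 : ∀ t ∈ Set.Ioi (0 : ℝ), ENNReal.ofReal (ig s t) *
          ENNReal.ofReal (exp (-∑ i ∈ insert m U, (L i ^ 2 - 1) * (addv W U m (β, t)) i)) =
          ENNReal.ofReal (exp (-∑ i ∈ U, (L i ^ 2 - 1) * β i) *
            exp (-((L m ^ 2 - 1) * q / 2))) *
          ENNReal.ofReal (ig s t * exp (-((L m ^ 2 - 1) * (1 / t / 2)))) := by
        intro t ht
        rw [← ENNReal.ofReal_mul (ig_nonneg s t), ← ENNReal.ofReal_mul (by positivity)]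
        congr 1
        have e2 : ∑ i ∈ insert m U, (L i ^ 2 - 1) * (addv W U m (β, t)) i =
            (L m ^ 2 - 1) * ((1 / t + q) / 2) + ∑ i ∈ U, (L i ^ 2 - 1) * β i := by
          rw [Finset.sum_insert hm]
          congr 1
          · simp [addv, hqdef]
          · refine Finset.sum_congr rfl fun i hi => ?_
            have hne : i ≠ m := fun h' => hm (h' ▸ hi)
            simp only [addv, Function.update_of_ne hne]
        rw [e2]
        have e3 : exp (-((L m ^ 2 - 1) * ((1 / t + q) / 2) + ∑ i ∈ U, (L i ^ 2 - 1) * β i)) =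
            exp (-∑ i ∈ U, (L i ^ 2 - 1) * β i) * exp (-((L m ^ 2 - 1) * q / 2)) *
            exp (-((L m ^ 2 - 1) * (1 / t / 2))) := by
          rw [← Real.exp_add, ← Real.exp_add]
          congr 1
          ring
        rw [e3]
        ring
      rw [setLIntegral_congr_fun measurableSet_Ioi e1]
      rw [lintegral_const_mul _ (Measurable.ennreal_ofReal (by unfold ig; fun_prop))]
      rw [ig_inv_laplace hs (hL m)]
      simp only [hF]
      rw [← ENNReal.ofReal_mul (by positivity), ← ENNReal.ofReal_mul (by positivity),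
        ← ENNReal.ofReal_mul hc0]
      congr 1
      have e4 : q = bil W' U (fun i => L i ^ 2 * β i) w' w' := bil_scale hL0 hG (W m) (W m)
      have e5 : bil W U β (W m) θ = bil W' U (fun i => L i ^ 2 * β i) w' (fun i => L i * θ i) :=
        bil_scale hL0 hG (W m) θ
      have e6 : s = θ m + bil W' U (fun i => L i ^ 2 * β i) w' (fun i => L i * θ i) := by
        rw [hsdef, sfn, e5]
      have e7 : bil W' U (fun i => L i ^ 2 * β i) y y =
          (L m - 1) * ((L m - 1) * q) := by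
        rw [hy, bil_smul_left, bil_smul_right, e4]
      have e8 : bil W' U (fun i => L i ^ 2 * β i) y (fun i => L i * (θ + W m) i) =
          (L m - 1) * (bil W' U (fun i => L i ^ 2 * β i) w' (fun i => L i * θ i) + q) := by
        have e9 : (fun i => L i * (θ + W m) i) = (fun i => L i * θ i) + w' := by
          funext i
          simp only [Pi.add_apply, hw']
          ring
        rw [e9, hy, bil_smul_left, bil_add_right, e4]
      rw [e7, e8, e6, hc]
      set r : ℝ := bil W' U (fun i => L i ^ 2 * β i) w' (fun i => L i * θ i)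
      have e10 : exp (-∑ i ∈ U, (L i ^ 2 - 1) * β i) * exp (-((L m ^ 2 - 1) * q / 2)) *
          ((L m)⁻¹ * exp (-((θ m + r) * (L m - 1)))) =
          (L m)⁻¹ * (exp (-∑ i ∈ U, (L i ^ 2 - 1) * β i) * exp (-((L m ^ 2 - 1) * q / 2)) *
            exp (-((θ m + r) * (L m - 1)))) := by ring
      have e11 : (L m)⁻¹ * exp (-(θ m * (L m - 1))) *
          (exp (-∑ i ∈ U, (L i ^ 2 - 1) * β i) *
            exp (-(1 / 2 * ((L m - 1) * ((L m - 1) * q))) - (L m - 1) * (r + q))) =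
          (L m)⁻¹ * (exp (-(θ m * (L m - 1))) * exp (-∑ i ∈ U, (L i ^ 2 - 1) * β i) *
            exp (-(1 / 2 * ((L m - 1) * ((L m - 1) * q))) - (L m - 1) * (r + q))) := by ring
      rw [e10, e11, ← Real.exp_add, ← Real.exp_add, ← Real.exp_add, ← Real.exp_add]
      congr 2
      ring
    rw [lintegral_congr_ae h2]
    rw [lintegral_const_mul' _ _ ENNReal.ofReal_ne_top]
    rw [htilt F hFm hFd]
    have hy0 : ∀ i, 0 ≤ y i := fun i => by
      simp only [hy, hw']
      exact mul_nonneg (by linarith [hL m]) (mul_nonneg (hL0 i).le (hW.nonneg m i))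
    have hP := hP4 μL W' (fun i => L i * (θ + W m) i) hW'W
      (fun i => mul_nonneg (hL0 i).le (add_nonneg (hθ i) (hW.nonneg m i))) hμL y hy0
    rw [hP]
    rw [← ENNReal.ofReal_mul (Lam_pos hL).le, ← ENNReal.ofReal_mul hc0]
    congr 1
    rw [Lam_insert hW hm, hc]
    simp only [hy, hw']
    ring

end VJ26
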