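import Pool.Agent.VJ26.StepA

/-!
# [VJ-STEPB] Goodness and (P4) for `insert m U`

This file: `gr_addv`, `good_addv`, `AG_insert`

`AG_insert`: let `VR μ (insert m U) W θ`. Its marginal (`VR.marg`) is `VR μ U W (θ + W m)`, so
`Good W U β` a.s. By `stepM_VR`, `stepM μ₀ W U θ m` (with `μ₀ := μ`) has the same law on
`insert m U`, and under it `2β_m - ⟨w, G_U w⟩ = 1/t > 0` a.s. (for `β' = addv W U m (β,t)`:
`gr W U β' = gr W U β` because `m ∉ U`). The set `{0 < 2β_m - bil W U β (W m) (W m)}` is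
measurable and depends on `insert m U` only, so by `VR.ae_of_ae` it has full `μ`-measure; on it
`schur_good` applies with `t = 1/(2β_m - bil ..)`.

`P4_insert`: by uniqueness (`VR.lintegral_eq`) it is enough to compute under
`stepM μ W U θ m`. With `G⁺ = G + t κ κᵀ`, `Δ = y_m + ⟨w, G y⟩ ≥ 0`:
 `⟨y, G⁺ y⟩ = ⟨y, G y⟩_U + t Δ^2`, `⟨y, G⁺ θ⟩ = ⟨y, Gθ⟩_U + t Δ s`  (`bil_insert`)
and by (I1) with `c = Δ^2/2 + Δ s`: `∫ ig(s,t) exp(-c t) dt = exp(s - sqrt((s+Δ)^2)) = exp(-Δ)`.
So the integral is `e^{-y_m} E_μ[exp(-⟨y,Gy⟩/2 - ⟨y, G(θ + w)⟩)] = e^{-y_m} e^{-∑_U y}` by (P4)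
for `U` and the marginal law.
-/

open MeasureTheory Real
open scoped ENNReal

namespace VJ26

variable {α : Type*} [DecidableEq α]
variable {W : α → α → ℝ} {U : Finset α} {θ : α → ℝ} {μ : Measure (α → ℝ)} {m : α}

private theorem addv_of_mem (hm : m ∉ U) (β : α → ℝ) (t : ℝ) :
    ∀ i ∈ U, addv W U m (β, t) i = β i := by
  intro i hi
  have him : i ≠ m := fun h => hm (h ▸ hi)
  unfold addv
  exact Function.update_of_ne him _ _

private theorem addv_self (β : α → ℝ) (t : ℝ) :
    addv W U m (β, t) m = (1 / t + bil W U β (W m) (W m)) / 2 := by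
  unfold addv
  exact Function.update_self _ _ _

/-- the Green function of `U` does not see the new vertex -/
theorem gr_addv (hm : m ∉ U) (β : α → ℝ) (t : ℝ) :
    gr W U (addv W U m (β, t)) = gr W U β :=
  gr_congr (fun _ _ _ _ => rfl) (addv_of_mem hm β t)

private theorem bil_addv (hm : m ∉ U) (β : α → ℝ) (t : ℝ) (x y : α → ℝ) :
    bil W U (addv W U m (β, t)) x y = bil W U β x y := by
  unfold bil
  rw [gr_addv hm]

/-- on good `β` the extended potential is good and its last Green entry is `t` -/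
theorem good_addv (hW : Wt W) (hm : m ∉ U) {β : α → ℝ} (hG : Good W U β) {t : ℝ} (ht : 0 < t) :
    Good W (insert m U) (addv W U m (β, t)) ∧
      gr W (insert m U) (addv W U m (β, t)) m m = t := by
  have hG' : Good W U (addv W U m (β, t)) :=
    good_congr (fun _ _ _ _ => rfl) (fun i hi => (addv_of_mem hm β t i hi).symm) hG
  refine schur_good hW hG' hm ht ?_
  rw [addv_self, bil_addv hm]
  ring

theorem AG_insert (hm : m ∉ U) (hP4 : P4 U) (hAG : AG U) : AG (insert m U) := by
  intro μ W θ hW hθ h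
  have : IsProbabilityMeasure μ := h.prob
  have hmarg : VR μ U W (θ + W m) := VR.marg hW hm h
  have hgood : ∀ᵐ β ∂μ, Good W U β :=
    hAG μ W (θ + W m) hW (fun i => add_nonneg (hθ i) (hW.nonneg m i)) hmarg
  have hstep : VR (stepM μ W U θ m) (insert m U) W θ := stepM_VR hW hθ hm hmarg hP4 hAG
  set S : Set (α → ℝ) := {β | 0 < 2 * β m - bil W U β (W m) (W m)} with hS
  have hSm : MeasurableSet S :=
    measurableSet_lt measurable_const
      (((measurable_pi_apply m).const_mul 2).sub (measurable_bil W U (W m) (W m)))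
  have hSd : ∀ β β' : α → ℝ, (∀ i ∈ insert m U, β i = β' i) → β ∈ S → β' ∈ S := by
    intro β β' hββ hβ
    have h1 : bil W U β (W m) (W m) = bil W U β' (W m) (W m) := by
      unfold bil
      rw [gr_congr (fun _ _ _ _ => rfl) (fun i hi => hββ i (Finset.mem_insert_of_mem hi))]
    have h2 : β m = β' m := hββ m (Finset.mem_insert_self m U)
    show 0 < 2 * β' m - bil W U β' (W m) (W m)
    rw [← h1, ← h2]
    exact hβ
  have hae : ∀ᵐ β ∂(stepM μ W U θ m), β ∈ S := by
    rw [ae_iff]
    have hc : {a | ¬a ∈ S} = Sᶜ := rfl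
    rw [hc, ← lintegral_indicator_one hSm.compl, lintegral_stepM
      (F := Sᶜ.indicator 1) (measurable_one.indicator hSm.compl)]
    have hz : ∀ β : α → ℝ, (∫⁻ t in Set.Ioi (0 : ℝ), ENNReal.ofReal (ig (sfn W U θ m β) t) *
        Sᶜ.indicator (1 : (α → ℝ) → ℝ≥0∞) (addv W U m (β, t))) = 0 := by
      intro β
      rw [← lintegral_zero (μ := volume.restrict (Set.Ioi (0 : ℝ)))]
      refine setLIntegral_congr_fun measurableSet_Ioi ?_
      intro t ht
      have hin : addv W U m (β, t) ∈ S := by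
        show 0 < 2 * addv W U m (β, t) m - bil W U (addv W U m (β, t)) (W m) (W m)
        rw [addv_self, bil_addv hm]
        have : 0 < 1 / t := one_div_pos.2 ht
        linarith
      have h0 : Sᶜ.indicator (1 : (α → ℝ) → ℝ≥0∞) (addv W U m (β, t)) = 0 :=
        Set.indicator_of_notMem (Set.notMem_compl_iff.2 hin) _
      simp only [h0, mul_zero]
    simp only [hz, lintegral_zero]
  have hae' : ∀ᵐ β ∂μ, β ∈ S := VR.ae_of_ae hstep h hSm hSd hae
  filter_upwards [hgood, hae'] with β hG hβ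
  have hpos : 0 < 2 * β m - bil W U β (W m) (W m) := hβ
  refine (schur_good (t := 1 / (2 * β m - bil W U β (W m) (W m))) hW hG hm
    (one_div_pos.2 hpos) ?_).1
  rw [one_div_one_div]
  ring

end VJ26
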