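import Pool.Agent.VJ26.StepB

/-!
# [VJ-STEPC] Goodness and (P4) for `insert m U`

This file: `P4_insert`

`AG_insert`: let `VR μ (insert m U) W θ`. Its marginal (`VR.marg`) is `VR μ U W (θ + W m)`, so
`Good W U β` a.s. By `stepM_VR`, `stepM μ₀ W U θ m` (with `μ₀ := μ`) has the same law on
`insert m U`, and under it `2β_m - ⟨w, G_U w⟩ = 1/t > 0` a.s. (for `β' = addv W U m (β,t)`:
`gr W U β' = gr W U β` because `m ∉ U`). The set `{0 < 2β_m - bil W U β (W m) (W m)}` is
measurable and depends on `insert m U` only, so by `VR.ae_of_ae` it has full `μ`-measure; on it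
`schur_good` applies with `t = 1/(2β_m - bil ..)`.

`P4_insert`: by uniqueness (`VR.lintegral_eq`) it is enough to compute under
`stepM μ W U θ m`. With `G⁺ = G + t κ κᵀ`, `Δ = y_m + ⟨w, G y⟩ ≥ 0`:
 `⟨y, G⁺ y⟩ = ⟨y, G y⟩_U + t Δ^2`, `⟨y, G⁺ θ⟩ = ⟨y, Gθ⟩_U + t Δ s`  (`bil_insert`)
and by (I1) with `c = Δ^2/2 + Δ s`: `∫ ig(s,t) exp(-c t) dt = exp(s - sqrt((s+Δ)^2)) = exp(-Δ)`.
So the integral is `e^{-y_m} E_μ[exp(-⟨y,Gy⟩/2 - ⟨y, G(θ + w)⟩)] = e^{-y_m} e^{-∑_U y}` by (P4)
for `U` and the marginal law.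
-/

open MeasureTheory Real
open scoped ENNReal

namespace VJ26

variable {α : Type*} [DecidableEq α]
variable {W : α → α → ℝ} {U : Finset α} {θ : α → ℝ} {μ : Measure (α → ℝ)} {m : α}

theorem P4_insert (hm : m ∉ U) (hP4 : P4 U) (hAG : AG U) : P4 (insert m U) := by
  intro μ W θ hW hθ h y hy
  have hprob := h.prob
  have h0 : VR μ U W (θ + W m) := VR.marg hW hm h
  have h1 : VR (stepM μ W U θ m) (insert m U) W θ := stepM_VR hW hθ hm h0 hP4 hAG
  have hgood := ae_sfn_nonneg hW hθ h0 hAG
  have hF : Measurable (fun β : α → ℝ => ENNReal.ofReal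
      (exp (-(1 / 2 * bil W (insert m U) β y y) - bil W (insert m U) β y θ))) := by
    refine Measurable.ennreal_ofReal (Real.measurable_exp.comp ?_)
    exact (((measurable_bil W (insert m U) y y).const_mul (1 / 2)).neg).sub
      (measurable_bil W (insert m U) y θ)
  have hd : DependsOn (fun β : α → ℝ => ENNReal.ofReal
      (exp (-(1 / 2 * bil W (insert m U) β y y) - bil W (insert m U) β y θ)))
      ((insert m U : Finset α) : Set α) := by
    intro β β' hββ
    have e1 := dependsOn_bil W (insert m U) y y hββ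
    have e2 := dependsOn_bil W (insert m U) y θ hββ
    simp only at e1 e2
    simp only [e1, e2]
  rw [h.lintegral_eq h1 hF hd, lintegral_stepM hF]
  have h2 : (fun β : α → ℝ => (∫⁻ t in Set.Ioi (0 : ℝ), ENNReal.ofReal (ig (sfn W U θ m β) t) *
        ENNReal.ofReal (exp (-(1 / 2 * bil W (insert m U) (addv W U m (β, t)) y y) -
          bil W (insert m U) (addv W U m (β, t)) y θ)))) =ᵐ[μ]
      fun β => ENNReal.ofReal (exp (-y m)) * ENNReal.ofReal
        (exp (-(1 / 2 * bil W U β y y) - bil W U β y (θ + W m))) := by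
    filter_upwards [hgood] with β hβ
    obtain ⟨hG, hs, hq⟩ := hβ
    have hWy : 0 ≤ bil W U β (W m) y := bil_nonneg hG (fun i _ => hW.nonneg m i) (fun i _ => hy i)
    set r : ℝ := bil W U β (W m) y with hr
    set s : ℝ := sfn W U θ m β with hsdef
    have hD : 0 ≤ y m + r := add_nonneg (hy m) hWy
    set D : ℝ := y m + r with hDdef
    have e1 : ∀ t ∈ Set.Ioi (0 : ℝ), ENNReal.ofReal (ig s t) *
        ENNReal.ofReal (exp (-(1 / 2 * bil W (insert m U) (addv W U m (β, t)) y y) -
          bil W (insert m U) (addv W U m (β, t)) y θ)) =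
        ENNReal.ofReal (exp (-(1 / 2 * bil W U β y y) - bil W U β y θ)) *
        ENNReal.ofReal (ig s t * exp (-((D ^ 2 / 2 + D * s) * t))) := by
      intro t ht
      have ht' : 0 < t := ht
      obtain ⟨hG', hgt⟩ := good_addv hW hm hG ht'
      have hbe : ∀ i ∈ U, β i = addv W U m (β, t) i := by
        intro i hi
        have hne : i ≠ m := fun h' => hm (h' ▸ hi)
        simp only [addv, Function.update_of_ne hne]
      have hGU : Good W U (addv W U m (β, t)) := good_congr (fun _ _ _ _ => rfl) hbe hG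
      have hb : ∀ x z : α → ℝ, bil W U (addv W U m (β, t)) x z = bil W U β x z := by
        intro x z
        unfold bil
        rw [gr_addv hm]
      have e2 : bil W (insert m U) (addv W U m (β, t)) y y = bil W U β y y + t * D * D := by
        rw [bil_insert hW hGU hG' hm, hgt, hb, hb, hb, bil_symm hG y (W m), ← hr, ← hDdef]
      have e3 : bil W (insert m U) (addv W U m (β, t)) y θ = bil W U β y θ + t * D * s := by
        rw [bil_insert hW hGU hG' hm, hgt, hb, hb, hb, bil_symm hG y (W m), ← hr, ← hDdef]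
        rfl
      rw [e2, e3, ← ENNReal.ofReal_mul (ig_nonneg s t), ← ENNReal.ofReal_mul (exp_pos _).le]
      congr 1
      have e4 : exp (-(1 / 2 * (bil W U β y y + t * D * D)) - (bil W U β y θ + t * D * s)) =
          exp (-(1 / 2 * bil W U β y y) - bil W U β y θ) *
            exp (-((D ^ 2 / 2 + D * s) * t)) := by
        rw [← Real.exp_add]
        congr 1
        ring
      rw [e4]
      ring
    rw [setLIntegral_congr_fun measurableSet_Ioi e1]
    rw [lintegral_const_mul _ (Measurable.ennreal_ofReal (by unfold ig; fun_prop))]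
    rw [ig_laplace hs (by positivity)]
    have e5 : Real.sqrt (s ^ 2 + 2 * (D ^ 2 / 2 + D * s)) = s + D := by
      rw [show s ^ 2 + 2 * (D ^ 2 / 2 + D * s) = (s + D) ^ 2 by ring]
      exact Real.sqrt_sq (add_nonneg hs hD)
    rw [e5, ← ENNReal.ofReal_mul (exp_pos _).le, ← ENNReal.ofReal_mul (exp_pos _).le,
      ← Real.exp_add, ← Real.exp_add, bil_add_right, bil_symm hG y (W m), ← hr]
    congr 2
    rw [hDdef]
    ring
  rw [lintegral_congr_ae h2, lintegral_const_mul' _ _ ENNReal.ofReal_ne_top,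
    hP4 μ W (θ + W m) hW (fun i => add_nonneg (hθ i) (hW.nonneg m i)) h0 y hy,
    ← ENNReal.ofReal_mul (exp_pos _).le, ← Real.exp_add, Finset.sum_insert hm]
  congr 2
  ring

end VJ26
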