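import Pool.Agent.VJ26.TiltL
import Pool.Agent.VJ26.Green2b
import Pool.Agent.VJ26.IG1

/-!
# [VJ-STEPM] The one-vertex extension has the right law

This file: `P4`, `AG`, `measurable_addv`, `lintegral_stepM`

Base: `μ` has `VR μ U W (θ + W m)`, almost surely `Good W U β`, and (P4) holds on `U` for every
law `VR μ' U W' θ'` (hypothesis `hP4`: this is the induction hypothesis of the main induction).
Write `w = W m`, `G = gr W U β`, `s = sfn W U θ m β = θ_m + ⟨w, G θ⟩`, `β_m = (1/t + ⟨w,Gw⟩)/2`.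

`lintegral_stepM`: `lintegral_map`, `lintegral_withDensity_eq_lintegral_mul`, `lintegral_prod`.

`stepM_VR`: for `L ≥ 1`, by `lintegral_stepM` and (I2) `ig_inv_laplace`
 `E exp(-∑_{U∪m}(L_i^2-1)β_i)`
 `= E_μ[ exp(-∑_U (L_i^2-1)β_i) exp(-(L_m^2-1)⟨w,Gw⟩/2) L_m⁻¹ exp(-s (L_m-1)) ]`.
By `VR.tilt` (with the scaling rules `bil_scale`: `⟨w,Gw⟩ = ⟨Lw, G' Lw⟩`,
`⟨w,Gθ⟩ = ⟨Lw, G' Lθ⟩`, `G' = gr (WL W L) U (L^2 β)`) this equals
 `L_m⁻¹ e^{-θ_m (L_m-1)} Lam(U,W,θ+w,L) E^L[ exp(-(L_m^2-1)/2 ⟨Lw,G'Lw⟩ - (L_m-1)⟨Lw,G'Lθ⟩) ]`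
and with `y = (L_m-1) L w` and the killing `L(θ+w)` of the tilted law:
 `(1/2)⟨y,G'y⟩ + ⟨y, G' L(θ+w)⟩ = (L_m^2-1)/2 ⟨Lw,G'Lw⟩ + (L_m-1)⟨Lw,G'Lθ⟩`
[`(L_m-1)^2/2 + (L_m-1) = (L_m^2-1)/2`], so (P4) gives `exp(-(L_m-1)∑_U L_i w_i)`. Finally
 `Lam(U∪m,W,θ,L) = L_m⁻¹ e^{-θ_m(L_m-1)} Lam(U,W,θ+w,L) exp(-(L_m-1)∑_U L_i w_i)` because
 `w_i (L_i - 1) + w_i L_i (L_m - 1) = w_i (L_m L_i - 1)`.
-/

open MeasureTheory Real
open scoped ENNReal

namespace VJ26

variable {α : Type*} [DecidableEq α]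
variable {W : α → α → ℝ} {U : Finset α} {θ : α → ℝ} {μ : Measure (α → ℝ)} {m : α}

/-- Statement (P4) for the finite set `U` (all weights, all killings, all laws). -/
def P4 (U : Finset α) : Prop :=
  ∀ (μ : Measure (α → ℝ)) (W : α → α → ℝ) (θ : α → ℝ), Wt W → (∀ i, 0 ≤ θ i) → VR μ U W θ →
    ∀ y : α → ℝ, (∀ i, 0 ≤ y i) →
      ∫⁻ β, ENNReal.ofReal (exp (-(1 / 2 * bil W U β y y) - bil W U β y θ)) ∂μ =
        ENNReal.ofReal (exp (-∑ i ∈ U, y i))

/-- Almost sure goodness on `U` (all weights, all killings, all laws). -/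
def AG (U : Finset α) : Prop :=
  ∀ (μ : Measure (α → ℝ)) (W : α → α → ℝ) (θ : α → ℝ), Wt W → (∀ i, 0 ≤ θ i) → VR μ U W θ →
    ∀ᵐ β ∂μ, Good W U β

theorem measurable_addv (W : α → α → ℝ) (U : Finset α) (m : α) :
    Measurable (addv W U m) := by
  rw [measurable_pi_iff]
  intro i
  by_cases hi : i = m
  · subst hi
    simp only [addv, Function.update_self]
    have h1 : Measurable (fun p : (α → ℝ) × ℝ => bil W U p.1 (W i) (W i)) :=
      (measurable_bil W U (W i) (W i)).comp measurable_fst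
    exact ((measurable_const.div measurable_snd).add h1).div_const 2
  · simp only [addv, Function.update_of_ne hi]
    exact (measurable_pi_apply i).comp measurable_fst

theorem lintegral_stepM [SFinite μ] {F : (α → ℝ) → ℝ≥0∞} (hF : Measurable F) :
    ∫⁻ β, F β ∂(stepM μ W U θ m) =
      ∫⁻ β, (∫⁻ t in Set.Ioi (0 : ℝ), ENNReal.ofReal (ig (sfn W U θ m β) t) *
        F (addv W U m (β, t))) ∂μ := by
  have hadd := measurable_addv W U m
  have hd : Measurable (fun p : (α → ℝ) × ℝ => ENNReal.ofReal (ig (sfn W U θ m p.1) p.2)) := by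
    refine Measurable.ennreal_ofReal ?_
    exact measurable_ig.comp
      (((measurable_sfn W U θ m).comp measurable_fst).prodMk measurable_snd)
  have hFa : Measurable (fun p : (α → ℝ) × ℝ => F (addv W U m p)) := hF.comp hadd
  rw [stepM, lintegral_map hF hadd, lintegral_withDensity_eq_lintegral_mul _ hd hFa,
    lintegral_prod _ (hd.mul hFa).aemeasurable]
  rfl

end VJ26
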