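import Pool.Agent.VJ26.Defs

/-!
# [VJ-UQ] Uniqueness of the law of `β` on `U`

`VR.map_eq`: push both laws to `E = (U → ℝ≥0)` by `β ↦ (Real.toNNReal (β i))_{i∈U}` (nothing is
lost since `β_i > 0` a.s. on `U`), a Polish space. Both images have the same integrals of all
`x ↦ exp(-∑ c_i x_i)`, `c_i ≥ 0` (take `L_i = sqrt(1 + c_i)` on `U`, `1` off `U`). The real span of
these bounded continuous functions is a subalgebra (products add the exponents; `c = 0` gives `1`)
which separates points, so the two measures agree by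
`MeasureTheory.ext_of_forall_mem_subalgebra_integral_eq_of_polish`
(Mathlib/MeasureTheory/Measure/FiniteMeasureExt.lean; the star subalgebra can be
`StarSubalgebra` over `ℝ` or `ℂ` built from the `AddMonoidAlgebra`/span; membership induction:
`Submodule.span_induction` or `Algebra.adjoin` with the fact that the set of exponentials is
closed under multiplication, `Algebra.adjoin_eq_span`).
Alternative: push forward by `β ↦ exp(-β_i)` to the cube and use moments/Stone-Weierstrass.

`VR.lintegral_eq`: `F` measurable and `DependsOn F U`: `F β = F (extend (β|_U))` where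
`extend` puts `0` off `U`, a measurable function of the restriction.
-/

open MeasureTheory Real
open scoped ENNReal NNReal

namespace VJ26

variable {α : Type*} [DecidableEq α]
variable {W : α → α → ℝ} {U : Finset α} {θ : α → ℝ} {μ μ' : Measure (α → ℝ)}

section aux

variable {ι : Type*} [Fintype ι]

/-- the exponential with exponents `c` -/
noncomputable def exq (c : ι → ℝ≥0) : BoundedContinuousFunction (ι → ℝ≥0) ℝ :=
  BoundedContinuousFunction.ofNormedAddCommGroup
    (fun x => Real.exp (-∑ i, (c i : ℝ) * (x i : ℝ))) (by fun_prop) 1 (by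
    intro x
    rw [Real.norm_eq_abs, abs_of_pos (Real.exp_pos _), Real.exp_le_one_iff, neg_nonpos]
    exact Finset.sum_nonneg fun i _ => mul_nonneg (c i).2 (x i).2)

theorem exq_apply (c : ι → ℝ≥0) (x : ι → ℝ≥0) :
    exq c x = Real.exp (-∑ i, (c i : ℝ) * (x i : ℝ)) := rfl

theorem exq_mul (c d : ι → ℝ≥0) : exq c * exq d = exq (c + d) := by
  ext x
  rw [BoundedContinuousFunction.mul_apply, exq_apply, exq_apply, exq_apply, ← Real.exp_add]
  congr 1
  rw [← neg_add, ← Finset.sum_add_distrib]
  congr 1
  refine Finset.sum_congr rfl fun i _ => ?_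
  rw [Pi.add_apply, NNReal.coe_add]
  ring

theorem exq_zero : exq (0 : ι → ℝ≥0) = 1 := by
  ext x
  rw [exq_apply]
  simp

/-- the submonoid of exponentials -/
noncomputable def exM (ι : Type*) [Fintype ι] :
    Submonoid (BoundedContinuousFunction (ι → ℝ≥0) ℝ) where
  carrier := Set.range exq
  one_mem' := ⟨0, exq_zero⟩
  mul_mem' := by
    rintro _ _ ⟨c, rfl⟩ ⟨d, rfl⟩
    exact ⟨c + d, (exq_mul c d).symm⟩

/-- the algebra of exponentials -/
noncomputable def exA (ι : Type*) [Fintype ι] :
    StarSubalgebra ℝ (BoundedContinuousFunction (ι → ℝ≥0) ℝ) where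
  toSubalgebra := Algebra.adjoin ℝ (exM ι : Set (BoundedContinuousFunction (ι → ℝ≥0) ℝ))
  star_mem' := by
    intro a ha
    have : star a = a := by
      ext x
      simp
    rw [this]
    exact ha

theorem mem_exA {ι : Type*} [Fintype ι] {a : BoundedContinuousFunction (ι → ℝ≥0) ℝ} :
    a ∈ exA ι ↔ a ∈ Submodule.span ℝ
      (exM ι : Set (BoundedContinuousFunction (ι → ℝ≥0) ℝ)) := by
  have h : a ∈ exA ι ↔ a ∈ Subalgebra.toSubmodule
      (Algebra.adjoin ℝ (exM ι : Set (BoundedContinuousFunction (ι → ℝ≥0) ℝ))) := Iff.rfl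
  rw [h, Algebra.adjoin_eq_span, Submonoid.closure_eq]

theorem exA_sep {ι : Type*} [Fintype ι] :
    ((exA ι).map (BoundedContinuousFunction.toContinuousMapStarₐ ℝ)).SeparatesPoints := by
  classical
  intro x y hxy
  obtain ⟨i, hi⟩ := Function.ne_iff.1 hxy
  refine ⟨fun z => exq (Pi.single i 1) z, ?_, ?_⟩
  · refine ⟨BoundedContinuousFunction.toContinuousMapStarₐ ℝ (exq (Pi.single i 1)), ?_, rfl⟩
    refine ⟨exq (Pi.single i 1), ?_, rfl⟩
    exact Algebra.subset_adjoin ⟨_, rfl⟩
  · have h : ∀ z : ι → ℝ≥0, exq (Pi.single i 1) z = Real.exp (-(z i : ℝ)) := by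
      intro z
      rw [exq_apply]
      congr 2
      rw [Finset.sum_eq_single i]
      · simp
      · intro j _ hj
        rw [Pi.single_eq_of_ne hj]
        simp
      · intro h
        exact absurd (Finset.mem_univ i) h
    change exq (Pi.single i 1) x ≠ exq (Pi.single i 1) y
    rw [h, h]
    intro h1
    apply hi
    have h2 := Real.exp_injective h1
    exact NNReal.coe_injective (neg_injective h2)

theorem exq_ext {P P' : Measure (ι → ℝ≥0)} [IsFiniteMeasure P] [IsFiniteMeasure P']
    (h : ∀ c : ι → ℝ≥0, ∫ x, exq c x ∂P = ∫ x, exq c x ∂P') : P = P' := by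
  refine ext_of_forall_mem_subalgebra_integral_eq_of_polish (𝕜 := ℝ) exA_sep ?_
  intro g hg
  rw [mem_exA] at hg
  induction hg using Submodule.span_induction with
  | mem g hg =>
    obtain ⟨c, rfl⟩ := hg
    exact h c
  | zero => simp
  | add f g _ _ hf hg =>
    have e : ∀ x, (f + g) x = f x + g x := fun x => rfl
    simp only [e]
    rw [integral_add (f.integrable _) (g.integrable _),
      integral_add (f.integrable _) (g.integrable _), hf, hg]
  | smul a f _ hf =>
    have e : ∀ x, (a • f) x = a * f x := fun x => rfl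
    simp only [e]
    rw [integral_const_mul, integral_const_mul, hf]

end aux

/-- the projection to the nonnegative coordinates in `U` -/
noncomputable def prq (U : Finset α) (β : α → ℝ) (i : U) : ℝ≥0 := Real.toNNReal (β i)

omit [DecidableEq α] in
theorem prq_meas (U : Finset α) : Measurable (prq U) :=
  measurable_pi_lambda _ fun i => (measurable_pi_apply (i : α)).real_toNNReal

omit [DecidableEq α] in
theorem VR.ae_pos (h : VR μ U W θ) : ∀ᵐ β ∂μ, ∀ i ∈ U, 0 < β i :=
  (Filter.eventually_all_finset U).2 h.pos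

theorem VR.integral_exq (h : VR μ U W θ) (c : U → ℝ≥0) :
    ∫ x, exq c x ∂(μ.map (prq U)) = (ENNReal.ofReal (Lam U W θ
      (fun i => if hi : i ∈ U then Real.sqrt (1 + (c ⟨i, hi⟩ : ℝ)) else 1))).toReal := by
  have hp := h.prob
  rw [integral_map (prq_meas U).aemeasurable (exq c).continuous.aestronglyMeasurable,
    integral_eq_lintegral_of_nonneg_ae]
  · congr 1
    rw [← h.lap]
    · refine lintegral_congr_ae ?_
      filter_upwards [h.ae_pos] with β hβ
      rw [exq_apply]
      congr 2
      rw [← Finset.sum_coe_sort U (fun i => (((if hi : i ∈ U then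
        Real.sqrt (1 + (c ⟨i, hi⟩ : ℝ)) else 1)) ^ 2 - 1) * β i)]
      congr 1
      refine Finset.sum_congr rfl fun i _ => ?_
      have h1 : (0 : ℝ) ≤ 1 + (c i : ℝ) := add_nonneg zero_le_one (c i).2
      rw [dif_pos i.2, Real.sq_sqrt h1]
      have h2 : ((prq U β i : ℝ≥0) : ℝ) = β i := Real.coe_toNNReal _ (hβ i i.2).le
      rw [h2]
      ring
    · intro i
      by_cases hi : i ∈ U
      · rw [dif_pos hi]
        refine Real.one_le_sqrt.2 ?_
        linarith [(c ⟨i, hi⟩).2]
      · rw [dif_neg hi]
  · exact Filter.Eventually.of_forall fun β => (Real.exp_pos _).le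
  · exact ((exq c).continuous.measurable.comp (prq_meas U)).aestronglyMeasurable

theorem VR.map_prq_eq (h : VR μ U W θ) (h' : VR μ' U W θ) :
    μ.map (prq U) = μ'.map (prq U) := by
  have hp := h.prob
  have hp' := h'.prob
  have h1 : IsProbabilityMeasure (μ.map (prq U)) :=
    Measure.isProbabilityMeasure_map (prq_meas U).aemeasurable
  have h2 : IsProbabilityMeasure (μ'.map (prq U)) :=
    Measure.isProbabilityMeasure_map (prq_meas U).aemeasurable
  refine exq_ext fun c => ?_
  rw [h.integral_exq, h'.integral_exq]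

theorem VR.map_res_eq (h : VR μ U W θ) :
    μ.map (fun (β : α → ℝ) (i : U) => β i) =
      (μ.map (prq U)).map (fun (x : U → ℝ≥0) (i : U) => (x i : ℝ)) := by
  rw [Measure.map_map _ (prq_meas U)]
  · refine Measure.map_congr ?_
    filter_upwards [h.ae_pos] with β hβ
    funext i
    exact (Real.coe_toNNReal _ (hβ i i.2).le).symm
  · exact measurable_pi_lambda _ fun i => (measurable_pi_apply i).coe_nnreal_real

theorem VR.map_eq (h : VR μ U W θ) (h' : VR μ' U W θ) :
    μ.map (fun (β : α → ℝ) (i : U) => β i) = μ'.map (fun (β : α → ℝ) (i : U) => β i) := by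
  rw [h.map_res_eq, h'.map_res_eq, h.map_prq_eq h']

theorem VR.lintegral_eq (h : VR μ U W θ) (h' : VR μ' U W θ) {F : (α → ℝ) → ℝ≥0∞}
    (hF : Measurable F) (hd : DependsOn F (U : Set α)) : ∫⁻ β, F β ∂μ = ∫⁻ β, F β ∂μ' := by
  let e : (U → ℝ) → (α → ℝ) := fun x i => if hi : i ∈ U then x ⟨i, hi⟩ else 0
  have he : Measurable e := by
    refine measurable_pi_lambda _ fun i => ?_
    by_cases hi : i ∈ U
    · have : (fun x : U → ℝ => e x i) = fun x => x ⟨i, hi⟩ := by
        funext x
        exact dif_pos hi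
      rw [this]
      exact measurable_pi_apply _
    · have : (fun x : U → ℝ => e x i) = fun _ => 0 := by
        funext x
        exact dif_neg hi
      rw [this]
      exact measurable_const
  have hr : Measurable (fun (β : α → ℝ) (i : U) => β i) :=
    measurable_pi_lambda _ fun i => measurable_pi_apply _
  have h1 : ∀ β : α → ℝ, F β = F (e (fun i : U => β i)) := by
    intro β
    apply hd
    intro i hi
    have hi' : i ∈ U := hi
    have h3 : e (fun i : U => β i) i = β i := dif_pos hi'
    exact h3.symm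
  have h2 : ∀ ν : Measure (α → ℝ), ∫⁻ β, F β ∂ν =
      ∫⁻ x, F (e x) ∂(ν.map (fun (β : α → ℝ) (i : U) => β i)) := by
    intro ν
    have h4 := lintegral_map (μ := ν) (hF.comp he) hr
    exact (lintegral_congr h1).trans h4.symm
  rw [h2, h2, h.map_eq h']

theorem VR.ae_of_ae (h : VR μ U W θ) (h' : VR μ' U W θ) {S : Set (α → ℝ)}
    (hS : MeasurableSet S) (hd : ∀ β β' : α → ℝ, (∀ i ∈ U, β i = β' i) → β ∈ S → β' ∈ S)
    (h1 : ∀ᵐ β ∂μ, β ∈ S) : ∀ᵐ β ∂μ', β ∈ S := by
  have h2 := h.lintegral_eq h' (F := Sᶜ.indicator 1) (measurable_one.indicator hS.compl) (by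
    intro β β' hb
    have h3 : β ∈ S ↔ β' ∈ S :=
      ⟨hd β β' fun i hi => hb i hi, hd β' β fun i hi => (hb i hi).symm⟩
    by_cases h4 : β ∈ S
    · rw [Set.indicator_of_notMem (show β ∉ Sᶜ from fun h5 => h5 h4),
        Set.indicator_of_notMem (show β' ∉ Sᶜ from fun h5 => h5 (h3.1 h4))]
    · rw [Set.indicator_of_mem (show β ∈ Sᶜ from h4),
        Set.indicator_of_mem (show β' ∈ Sᶜ from fun h5 => h4 (h3.2 h5))]
      rfl)
  rw [lintegral_indicator_one hS.compl, lintegral_indicator_one hS.compl] at h2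
  have h5 : μ Sᶜ = 0 := h1
  rw [h5] at h2
  exact h2.symm

end VJ26
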