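import Pool.Agent.VJ26.GreenS
import Pool.Agent.VJ26.UQ

/-!
# [VJ-TILT] Congruence, marginals and tilting of the law

This file: `Lam_pos`, `VR.congr`, `VR.marg`, `VR.marg_sdiff`

`VR.congr`: `Lam U W θ L` uses only `W` on `U × U` and `θ` on `U`.

`VR.marg`: put `L_m = 1` in the Laplace functional of `insert m U`: the term of the sum with
`i = m` vanishes (`L_m^2 - 1 = 0`), and
`-(1/2)∑∑_{insert m U} W_ij (L_i L_j - 1) - ∑ θ_i (L_i - 1)`
`= -(1/2)∑∑_U W_ij(L_i L_j - 1) - ∑_U (θ_i + W_mi)(L_i - 1)` (`W_mm = 0`, symmetry). The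
general `L` (with arbitrary `L_m`) is reduced to `L_m = 1` by `Function.update` since the
statement for `U` does not see `L_m`.

`VR.marg_sdiff`: induction on `B` (Finset.induction): `V \ insert j B = (V \ B) \ {j}`, i.e.
`V \ B = insert j (V \ insert j B)`.

`VR.tilt`: `μL := (Lam U W θ L)⁻¹ • (μ.withDensity exp(-∑_U (L_i^2-1)β_i)).map (L^2 β)`; its
Laplace functional at `M` is `Lam(U,W,θ, M L)/Lam(U,W,θ,L) = Lam(U, WL W L, L θ, M)`.
(`(M_i^2-1) L_i^2 + (L_i^2 - 1) = (M_i L_i)^2 - 1`.)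
-/

open MeasureTheory Real
open scoped ENNReal

namespace VJ26

variable {α : Type*} [DecidableEq α]
variable {W W' : α → α → ℝ} {U V B : Finset α} {θ θ' : α → ℝ} {μ μ' : Measure (α → ℝ)} {m : α}

theorem Lam_pos {L : α → ℝ} (hL : ∀ i, 1 ≤ L i) : 0 < Lam U W θ L :=
  mul_pos (exp_pos _) (Finset.prod_pos fun i _ => inv_pos.2 (one_pos.trans_le (hL i)))

theorem Lam_congr {L L' : α → ℝ} (hW : ∀ i ∈ U, ∀ j ∈ U, W i j = W' i j)
    (hθ : ∀ i ∈ U, θ i = θ' i) (hL : ∀ i ∈ U, L i = L' i) :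
    Lam U W θ L = Lam U W' θ' L' := by
  unfold Lam
  congr 1
  · congr 1
    congr 1
    · congr 1
      exact Finset.sum_congr rfl fun i hi => Finset.sum_congr rfl fun j hj => by
        rw [hW i hi j hj, hL i hi, hL j hj]
    · exact Finset.sum_congr rfl fun i hi => by rw [hθ i hi, hL i hi]
  · exact Finset.prod_congr rfl fun i hi => by rw [hL i hi]

theorem VR.congr (h : VR μ U W θ) (hW : ∀ i ∈ U, ∀ j ∈ U, W i j = W' i j)
    (hθ : ∀ i ∈ U, θ i = θ' i) : VR μ U W' θ' where
  prob := h.prob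
  pos := h.pos
  lap L hL := by
    rw [h.lap L hL, Lam_congr hW hθ fun _ _ => rfl]

/-- the Laplace functional of `insert m U` at a point with `L m = 1` -/
theorem Lam_insert_one (hW : Wt W) (hm : m ∉ U) {L : α → ℝ} (hL : L m = 1) :
    Lam (insert m U) W θ L = Lam U W (θ + W m) L := by
  unfold Lam
  have h1 : ∏ i ∈ insert m U, (L i)⁻¹ = ∏ i ∈ U, (L i)⁻¹ := by
    rw [Finset.prod_insert hm, hL, inv_one, one_mul]
  have h2 : ∑ i ∈ insert m U, θ i * (L i - 1) = ∑ i ∈ U, θ i * (L i - 1) := by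
    rw [Finset.sum_insert hm, hL, sub_self, mul_zero, zero_add]
  have h3 : ∑ i ∈ insert m U, ∑ j ∈ insert m U, W i j * (L i * L j - 1) =
      2 * ∑ i ∈ U, W m i * (L i - 1) + ∑ i ∈ U, ∑ j ∈ U, W i j * (L i * L j - 1) := by
    rw [Finset.sum_insert hm, Finset.sum_insert hm, hW.diag m, zero_mul, zero_add]
    have h4 : ∀ i ∈ U, ∑ j ∈ insert m U, W i j * (L i * L j - 1) =
        W m i * (L i - 1) + ∑ j ∈ U, W i j * (L i * L j - 1) := by
      intro i _
      rw [Finset.sum_insert hm, hL, mul_one, hW.symm i m]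
    rw [Finset.sum_congr rfl h4, Finset.sum_add_distrib, hL]
    simp only [one_mul]
    ring
  rw [h1, h2, h3]
  congr 2
  have h5 : ∑ i ∈ U, (θ + W m) i * (L i - 1) =
      ∑ i ∈ U, θ i * (L i - 1) + ∑ i ∈ U, W m i * (L i - 1) := by
    rw [← Finset.sum_add_distrib]
    exact Finset.sum_congr rfl fun i _ => by rw [Pi.add_apply, add_mul]
  rw [h5]
  ring

theorem VR.marg (hW : Wt W) (hm : m ∉ U) (h : VR μ (insert m U) W θ) :
    VR μ U W (θ + W m) where
  prob := h.prob
  pos i hi := h.pos i (Finset.mem_insert_of_mem hi)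
  lap L hL := by
    set L' : α → ℝ := Function.update L m 1 with hL'
    have hm1 : L' m = 1 := by rw [hL', Function.update_self]
    have hne : ∀ i ∈ U, L' i = L i := fun i hi => by
      rw [hL', Function.update_of_ne]
      rintro rfl
      exact hm hi
    have hL1 : ∀ i, 1 ≤ L' i := by
      intro i
      by_cases hi : i = m
      · rw [hi, hm1]
      · rw [hL', Function.update_of_ne hi]
        exact hL i
    have h1 := h.lap L' hL1
    rw [Lam_insert_one hW hm hm1] at h1
    rw [Lam_congr (W' := W) (θ' := θ + W m) (L' := L) (fun _ _ _ _ => rfl) (fun _ _ => rfl)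
      hne] at h1
    rw [← h1]
    congr 1
    funext β
    rw [Finset.sum_insert hm, hm1]
    simp only [one_pow, sub_self, zero_mul, zero_add]
    have h2 : ∑ i ∈ U, (L' i ^ 2 - 1) * β i = ∑ i ∈ U, (L i ^ 2 - 1) * β i :=
      Finset.sum_congr rfl fun i hi => by rw [hne i hi]
    rw [h2]

theorem VR.marg_sdiff (hW : Wt W) (hB : B ⊆ V) (h : VR μ V W θ) :
    VR μ (V \ B) W (θ + WB W B) := by
  induction B using Finset.induction_on with
  | empty =>
    rw [Finset.sdiff_empty]
    refine h.congr (fun _ _ _ _ => rfl) fun i _ => ?_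
    rw [Pi.add_apply, WB, Finset.sum_empty, add_zero]
  | insert j B hj ih =>
    have hB' : B ⊆ V := fun x hx => hB (Finset.mem_insert_of_mem hx)
    have h1 := ih hB'
    have hjV : j ∈ V := hB (Finset.mem_insert_self j B)
    have h2 : V \ B = insert j (V \ insert j B) := by
      ext x
      simp only [Finset.mem_sdiff, Finset.mem_insert, not_or]
      constructor
      · rintro ⟨h3, h4⟩
        by_cases hx : x = j
        · exact Or.inl hx
        · exact Or.inr ⟨h3, hx, h4⟩
      · rintro (rfl | ⟨h3, _, h4⟩)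
        · exact ⟨hjV, hj⟩
        · exact ⟨h3, h4⟩
    have h3 : j ∉ V \ insert j B := by
      simp
    rw [h2] at h1
    refine (VR.marg hW h3 h1).congr (fun _ _ _ _ => rfl) fun i _ => ?_
    rw [Pi.add_apply, Pi.add_apply, Pi.add_apply, WB, WB, Finset.sum_insert hj]
    ring

end VJ26
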