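import Pool.Agent.VJ26.Tilt

/-!
# [VJ-TILTL] Congruence, marginals and tilting of the law

This file: `VR.tilt`

`VR.congr`: `Lam U W θ L` uses only `W` on `U × U` and `θ` on `U`.

`VR.marg`: put `L_m = 1` in the Laplace functional of `insert m U`: the term of the sum with
`i = m` vanishes (`L_m^2 - 1 = 0`), and
`-(1/2)∑∑_{insert m U} W_ij (L_i L_j - 1) - ∑ θ_i (L_i - 1)`
`= -(1/2)∑∑_U W_ij(L_i L_j - 1) - ∑_U (θ_i + W_mi)(L_i - 1)` (`W_mm = 0`, symmetry). The
general `L` (with arbitrary `L_m`) is reduced to `L_m = 1` by `Function.update` since the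
statement for `U` does not see `L_m`.

`VR.marg_sdiff`: induction on `B` (Finset.induction): `V \ insert j B = (V \ B) \ {j}`, i.e.
`V \ B = insert j (V \ insert j B)`.

`VR.tilt`: `μL := (Lam U W θ L)⁻¹ • (μ.withDensity exp(-∑_U (L_i^2-1)β_i)).map (L^2 β)`; its
Laplace functional at `M` is `Lam(U,W,θ, M L)/Lam(U,W,θ,L) = Lam(U, WL W L, L θ, M)`.
(`(M_i^2-1) L_i^2 + (L_i^2 - 1) = (M_i L_i)^2 - 1`.)
-/

open MeasureTheory Real
open scoped ENNReal

namespace VJ26

variable {α : Type*} [DecidableEq α]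
variable {W W' : α → α → ℝ} {U V B : Finset α} {θ θ' : α → ℝ} {μ μ' : Measure (α → ℝ)} {m : α}

/-- multiplicativity of the Laplace functional under tilting -/
theorem Lam_tilt (L M : α → ℝ) :
    Lam U W θ (fun i => M i * L i) =
      Lam U W θ L * Lam U (WL W L) (fun i => L i * θ i) M := by
  unfold Lam
  have hp : ∏ i ∈ U, (M i * L i)⁻¹ = (∏ i ∈ U, (L i)⁻¹) * ∏ i ∈ U, (M i)⁻¹ := by
    rw [← Finset.prod_mul_distrib]
    exact Finset.prod_congr rfl fun i _ => by rw [mul_inv, mul_comm]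
  have h1 : ∑ i ∈ U, ∑ j ∈ U, W i j * (M i * L i * (M j * L j) - 1) =
      ∑ i ∈ U, ∑ j ∈ U, W i j * (L i * L j - 1) +
        ∑ i ∈ U, ∑ j ∈ U, WL W L i j * (M i * M j - 1) := by
    rw [← Finset.sum_add_distrib]
    refine Finset.sum_congr rfl fun i _ => ?_
    rw [← Finset.sum_add_distrib]
    refine Finset.sum_congr rfl fun j _ => ?_
    simp only [WL]
    ring
  have h2 : ∑ i ∈ U, θ i * (M i * L i - 1) =
      ∑ i ∈ U, θ i * (L i - 1) + ∑ i ∈ U, L i * θ i * (M i - 1) := by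
    rw [← Finset.sum_add_distrib]
    refine Finset.sum_congr rfl fun i _ => ?_
    ring
  rw [hp, h1, h2]
  have h3 : -(1 / 2) * (∑ i ∈ U, ∑ j ∈ U, W i j * (L i * L j - 1) +
        ∑ i ∈ U, ∑ j ∈ U, WL W L i j * (M i * M j - 1)) -
      (∑ i ∈ U, θ i * (L i - 1) + ∑ i ∈ U, L i * θ i * (M i - 1)) =
      (-(1 / 2) * ∑ i ∈ U, ∑ j ∈ U, W i j * (L i * L j - 1) - ∑ i ∈ U, θ i * (L i - 1)) +
      (-(1 / 2) * ∑ i ∈ U, ∑ j ∈ U, WL W L i j * (M i * M j - 1) -
        ∑ i ∈ U, L i * θ i * (M i - 1)) := by ring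
  rw [h3, Real.exp_add]
  ring

theorem VR.tilt (h : VR μ U W θ) {L : α → ℝ} (hL : ∀ i, 1 ≤ L i) :
    ∃ μL : Measure (α → ℝ), VR μL U (WL W L) (fun i => L i * θ i) ∧
      ∀ F : (α → ℝ) → ℝ≥0∞, Measurable F → DependsOn F (U : Set α) →
        ∫⁻ β, ENNReal.ofReal (exp (-∑ i ∈ U, ((L i) ^ 2 - 1) * β i)) *
            F (fun i => L i ^ 2 * β i) ∂μ =
          ENNReal.ofReal (Lam U W θ L) * ∫⁻ β, F β ∂μL := by
  have hprob := h.prob
  set c : ℝ≥0∞ := ENNReal.ofReal (Lam U W θ L) with hc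
  have hc0 : c ≠ 0 := by
    rw [hc]
    exact (ENNReal.ofReal_pos.2 (Lam_pos hL)).ne'
  have hctop : c ≠ ∞ := ENNReal.ofReal_ne_top
  set g : (α → ℝ) → ℝ≥0∞ :=
    fun β => ENNReal.ofReal (exp (-∑ i ∈ U, ((L i) ^ 2 - 1) * β i)) with hg
  have hgm : Measurable g := by
    refine Measurable.ennreal_ofReal (Real.measurable_exp.comp (Measurable.neg ?_))
    exact Finset.measurable_sum _ fun i _ => (measurable_pi_apply i).const_mul _
  set T : (α → ℝ) → (α → ℝ) := fun β i => L i ^ 2 * β i with hT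
  have hTm : Measurable T := by
    rw [measurable_pi_iff]
    intro i
    exact (measurable_pi_apply i).const_mul _
  set μL : Measure (α → ℝ) := c⁻¹ • ((μ.withDensity g).map T) with hμL
  have key : ∀ F : (α → ℝ) → ℝ≥0∞, Measurable F →
      ∫⁻ β, F β ∂μL = c⁻¹ * ∫⁻ β, g β * F (T β) ∂μ := by
    intro F hF
    have hFT : Measurable (fun β => F (T β)) := hF.comp hTm
    rw [hμL, lintegral_smul_measure, lintegral_map hF hTm,
      lintegral_withDensity_eq_lintegral_mul _ hgm hFT, smul_eq_mul]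
    rfl
  have hlapM : ∀ M : α → ℝ, (∀ i, 1 ≤ M i) →
      ∫⁻ β, ENNReal.ofReal (exp (-∑ i ∈ U, ((M i) ^ 2 - 1) * β i)) ∂μL =
        ENNReal.ofReal (Lam U (WL W L) (fun i => L i * θ i) M) := by
    intro M hM
    have hFm : Measurable (fun β : α → ℝ =>
        ENNReal.ofReal (exp (-∑ i ∈ U, ((M i) ^ 2 - 1) * β i))) := by
      refine Measurable.ennreal_ofReal (Real.measurable_exp.comp (Measurable.neg ?_))
      exact Finset.measurable_sum _ fun i _ => (measurable_pi_apply i).const_mul _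
    rw [key _ hFm]
    have h1 : ∀ β : α → ℝ, g β *
        ENNReal.ofReal (exp (-∑ i ∈ U, ((M i) ^ 2 - 1) * (T β) i)) =
        ENNReal.ofReal (exp (-∑ i ∈ U, ((M i * L i) ^ 2 - 1) * β i)) := by
      intro β
      rw [hg]
      simp only
      rw [← ENNReal.ofReal_mul (exp_pos _).le, ← Real.exp_add]
      congr 2
      rw [← neg_add, ← Finset.sum_add_distrib]
      congr 1
      refine Finset.sum_congr rfl fun i _ => ?_
      simp only [hT]
      ring
    rw [lintegral_congr h1]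
    have hML : ∀ i, 1 ≤ M i * L i := fun i => one_le_mul_of_one_le_of_one_le (hM i) (hL i)
    rw [h.lap (fun i => M i * L i) hML, Lam_tilt L M, ENNReal.ofReal_mul (Lam_pos hL).le,
      ← hc, ← mul_assoc, ENNReal.inv_mul_cancel hc0 hctop, one_mul]
  refine ⟨μL, ⟨?_, ?_, hlapM⟩, ?_⟩
  · constructor
    have h1 : μL Set.univ = ∫⁻ β, 1 ∂μL := by simp
    rw [h1, key _ measurable_const]
    have h2 : ∫⁻ β, g β * 1 ∂μ = c := by
      simp only [mul_one]
      exact h.lap L hL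
    rw [h2, ENNReal.inv_mul_cancel hc0 hctop]
  · intro i hi
    have hS : MeasurableSet {β : α → ℝ | 0 < β i} :=
      measurableSet_lt measurable_const (measurable_pi_apply i)
    have h1 : ∀ᵐ β ∂((μ.withDensity g).map T), 0 < β i := by
      rw [ae_map_iff hTm.aemeasurable hS]
      have h2 : ∀ᵐ β ∂μ, 0 < T β i := by
        filter_upwards [h.pos i hi] with β hβ
        have h3 : 0 < L i := lt_of_lt_of_le one_pos (hL i)
        simp only [hT]
        positivity
      exact (withDensity_absolutelyContinuous μ g).ae_le h2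
    rw [hμL]
    exact Measure.ae_smul_measure h1 _
  · intro F hF _
    rw [key F hF, ← mul_assoc, ENNReal.mul_inv_cancel hc0 hctop, one_mul]

end VJ26
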