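import Pool.Agent.VJ26.Star

/-!
# [VJ-UBOUND] Uniform bound of `E[1/h]`

If `P(h ≤ 6) ≤ 1/6` then `E[1/h] ≤ 1`.
PROOF. For `ε > 0` let `h_ε = h + ε` (that is `b + ε` in place of `b`), `F = E[1/h_ε] ≤ 1/ε < ∞`,
`κ = E[(1-e^{-h_ε})/h_ε]`. As `(1-e^{-x})/x ≤ 1` and `≤ 1/6` for `x > 6`,
`κ ≤ P(h ≤ 6) + 1/6 ≤ 1/3`. As `e^{-x} ≤ (1-e^{-x})/x` for `x > 0`, `E[e^{-h_ε}] ≤ κ ≤ 1/3`; by
`starstar`, `F = κ + E[e^{-h_ε}/h_ε] ≤ 1/3 + (2/3) F`, so `F ≤ 1`. Now let `ε = 1/(n+1) → 0`:
`(ofReal (h + ε))⁻¹` increases to `(ofReal h)⁻¹` (monotone convergence,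
`lintegral_iSup`/Fatou `lintegral_liminf_le`; `h ≥ 0` almost surely).
-/

open MeasureTheory Real
open scoped ENNReal

namespace VJ26

variable {α : Type*} [DecidableEq α]
variable {W : α → α → ℝ} {U : Finset α} {μ : Measure (α → ℝ)} {a η : α → ℝ} {b : ℝ}

private lemma exp_le_frac {x : ℝ} (hx : 0 < x) : exp (-x) ≤ (1 - exp (-x)) / x := by
  rw [le_div_iff₀ hx]
  have h1 : 1 + x ≤ exp x := by linarith [add_one_le_exp x]
  have h2 : exp (-x) * exp x = 1 := by rw [← exp_add]; simp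
  have h3 : exp (-x) * (1 + x) ≤ exp (-x) * exp x :=
    mul_le_mul_of_nonneg_left h1 (exp_pos _).le
  nlinarith

private lemma frac_le_one {x : ℝ} (hx : 0 < x) : (1 - exp (-x)) / x ≤ 1 := by
  rw [div_le_one hx]
  have h1 : -x + 1 ≤ exp (-x) := add_one_le_exp (-x)
  linarith

private lemma frac_le_sixth {x : ℝ} (hx : 6 < x) : (1 - exp (-x)) / x ≤ 1 / 6 := by
  rw [div_le_div_iff₀ (by linarith) (by norm_num)]
  have := exp_pos (-x)
  nlinarith

private lemma frac_nonneg {x : ℝ} (hx : 0 < x) : 0 ≤ (1 - exp (-x)) / x := by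
  apply div_nonneg _ hx.le
  have : exp (-x) ≤ 1 := exp_le_one_iff.2 (by linarith)
  linarith

/-- The bound for `b + ε`. -/
private lemma u_bound_eps [Infinite α] (hW : Wt W) (ha : ∀ i, 0 ≤ a i)
    (hη : ∀ i, 0 ≤ η i) (hb : 0 ≤ b) (h : VR μ U W (a + η))
    (hP : μ {β | b + bil W U β a η ≤ 6} ≤ ENNReal.ofReal (1 / 6)) {ε : ℝ} (hε : 0 < ε) :
    ∫⁻ β, ENNReal.ofReal (1 / (b + ε + bil W U β a η)) ∂μ ≤ 1 := by
  have hprob := h.prob
  have haη : ∀ i, 0 ≤ (a + η) i := fun i => add_nonneg (ha i) (hη i)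
  have hgood := VR.good hW haη h
  have hbε : 0 < b + ε := by linarith
  have hmb : Measurable fun β : α → ℝ => bil W U β a η := measurable_bil W U a η
  have hmx : Measurable fun β : α → ℝ => b + ε + bil W U β a η := measurable_const.add hmb
  set F := ∫⁻ β, ENNReal.ofReal (1 / (b + ε + bil W U β a η)) ∂μ with hF
  set κ := ∫⁻ β, ENNReal.ofReal ((1 - exp (-(b + ε + bil W U β a η))) /
    (b + ε + bil W U β a η)) ∂μ with hκ
  have hpos : ∀ᵐ β ∂μ, 0 < b + ε + bil W U β a η ∧ 0 ≤ bil W U β a η := by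
    filter_upwards [hgood] with β hβ
    have h3 : 0 ≤ bil W U β a η := bil_nonneg hβ (fun i _ => ha i) (fun i _ => hη i)
    exact ⟨by linarith, h3⟩
  -- finiteness
  have hFfin : F ≠ ∞ := by
    have h1 : F ≤ ∫⁻ _, ENNReal.ofReal (1 / (b + ε)) ∂μ := by
      refine lintegral_mono_ae ?_
      filter_upwards [hpos] with β hβ
      exact ENNReal.ofReal_le_ofReal (one_div_le_one_div_of_le hbε (by linarith [hβ.2]))
    rw [lintegral_const, measure_univ, mul_one] at h1
    exact ne_top_of_le_ne_top ENNReal.ofReal_ne_top h1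
  -- the bound of kappa
  have hκ3 : κ ≤ ENNReal.ofReal (1 / 3) := by
    have hmS : MeasurableSet {β : α → ℝ | b + bil W U β a η ≤ 6} :=
      measurableSet_le (measurable_const.add hmb) measurable_const
    have h1 : κ ≤ ∫⁻ β, (({β : α → ℝ | b + bil W U β a η ≤ 6}.indicator 1 β : ℝ≥0∞) +
        ENNReal.ofReal (1 / 6)) ∂μ := by
      refine lintegral_mono_ae ?_
      filter_upwards [hpos] with β hβ
      by_cases hS : b + bil W U β a η ≤ 6
      · have h2 : ({β : α → ℝ | b + bil W U β a η ≤ 6}.indicator 1 β : ℝ≥0∞) = 1 :=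
          Set.indicator_of_mem (s := {β : α → ℝ | b + bil W U β a η ≤ 6}) hS 1
        rw [h2]
        refine le_trans ?_ (self_le_add_right _ _)
        rw [← ENNReal.ofReal_one]
        exact ENNReal.ofReal_le_ofReal (frac_le_one hβ.1)
      · refine le_trans ?_ (self_le_add_left _ _)
        exact ENNReal.ofReal_le_ofReal (frac_le_sixth (by push Not at hS; linarith))
    rw [lintegral_add_right _ measurable_const, lintegral_indicator_one hmS, lintegral_const,
      measure_univ, mul_one] at h1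
    refine le_trans h1 (le_trans (add_le_add_left hP _) ?_)
    rw [← ENNReal.ofReal_add (by norm_num) (by norm_num)]
    exact ENNReal.ofReal_le_ofReal (by norm_num)
  -- the splitting
  have hsplit : F = κ + ∫⁻ β, ENNReal.ofReal (exp (-(b + ε + bil W U β a η)) /
      (b + ε + bil W U β a η)) ∂μ := by
    rw [hκ, ← lintegral_add_right]
    · refine lintegral_congr_ae ?_
      filter_upwards [hpos] with β hβ
      rw [← ENNReal.ofReal_add (frac_nonneg hβ.1) (div_nonneg (exp_pos _).le hβ.1.le)]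
      congr 1
      rw [← add_div]
      ring
    · exact ((measurable_exp.comp hmx.neg).div hmx).ennreal_ofReal
  have hE : ∫⁻ β, ENNReal.ofReal (exp (-(b + ε + bil W U β a η))) ∂μ ≤ κ := by
    refine lintegral_mono_ae ?_
    filter_upwards [hpos] with β hβ
    exact ENNReal.ofReal_le_ofReal (exp_le_frac hβ.1)
  have hss := starstar hW ha hη hbε h
  have hmain : F ≤ ENNReal.ofReal (1 / 3) + 2 * ENNReal.ofReal (1 / 3) * F := by
    conv_lhs => rw [hsplit]
    refine add_le_add hκ3 (le_trans hss ?_)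
    exact mul_le_mul' (mul_le_mul' le_rfl (le_trans hE hκ3)) le_rfl
  obtain ⟨f, hf⟩ : ∃ f : ℝ, f = F.toReal := ⟨_, rfl⟩
  have hf0 : 0 ≤ f := by rw [hf]; exact ENNReal.toReal_nonneg
  have hFf : F = ENNReal.ofReal f := by rw [hf, ENNReal.ofReal_toReal hFfin]
  have h2 : (2 : ℝ≥0∞) = ENNReal.ofReal 2 := by simp
  rw [hFf, h2, ← ENNReal.ofReal_mul (by norm_num), ← ENNReal.ofReal_mul (by norm_num),
    ← ENNReal.ofReal_add (by norm_num) (by positivity),
    ENNReal.ofReal_le_ofReal_iff (by positivity)] at hmain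
  rw [hFf, ← ENNReal.ofReal_one]
  exact ENNReal.ofReal_le_ofReal (by linarith)

theorem u_bound [Infinite α] (hW : Wt W) (ha : ∀ i, 0 ≤ a i)
    (hη : ∀ i, 0 ≤ η i) (hb : 0 ≤ b) (h : VR μ U W (a + η))
    (hP : μ {β | b + bil W U β a η ≤ 6} ≤ ENNReal.ofReal (1 / 6)) :
    ∫⁻ β, (ENNReal.ofReal (b + bil W U β a η))⁻¹ ∂μ ≤ 1 := by
  have haη : ∀ i, 0 ≤ (a + η) i := fun i => add_nonneg (ha i) (hη i)
  have hgood := VR.good hW haη h
  have hmb : Measurable fun β : α → ℝ => bil W U β a η := measurable_bil W U a η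
  set e : ℕ → ℝ := fun n => 1 / ((n : ℝ) + 1) with he_def
  have hepos : ∀ n, 0 < e n := fun n => by positivity
  have he : Filter.Tendsto e Filter.atTop (nhds 0) := tendsto_one_div_add_atTop_nhds_zero_nat
  have hlim : ∀ β : α → ℝ, Filter.Tendsto
      (fun n => (ENNReal.ofReal (b + e n + bil W U β a η))⁻¹) Filter.atTop
      (nhds (ENNReal.ofReal (b + bil W U β a η))⁻¹) := by
    intro β
    rw [ENNReal.tendsto_inv_iff]
    apply ENNReal.tendsto_ofReal
    have : Filter.Tendsto (fun n => b + e n + bil W U β a η) Filter.atTop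
        (nhds (b + 0 + bil W U β a η)) :=
      (Filter.Tendsto.const_add _ he).add_const _
    simpa using this
  have h1 : ∫⁻ β, (ENNReal.ofReal (b + bil W U β a η))⁻¹ ∂μ =
      ∫⁻ β, Filter.liminf (fun n => (ENNReal.ofReal (b + e n + bil W U β a η))⁻¹)
        Filter.atTop ∂μ := by
    refine lintegral_congr fun β => ?_
    exact (hlim β).liminf_eq.symm
  rw [h1]
  refine le_trans (lintegral_liminf_le ?_) ?_
  · intro n
    exact (measurable_const.add hmb).ennreal_ofReal.inv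
  · refine Filter.liminf_le_of_frequently_le' (Filter.Frequently.of_forall fun n => ?_)
    refine le_trans (le_of_eq ?_) (u_bound_eps hW ha hη hb h hP (hepos n))
    refine lintegral_congr_ae ?_
    filter_upwards [hgood] with β hβ
    have h3 : 0 ≤ bil W U β a η := bil_nonneg hβ (fun i _ => ha i) (fun i _ => hη i)
    have h4 : 0 < b + e n + bil W U β a η := by linarith [hepos n]
    rw [one_div, ENNReal.ofReal_inv_of_pos h4]

end VJ26
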