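import Pool.Agent.VJ26.ZFin
import Pool.Agent.VJ26.IG3

/-!
# [VJ-UI] Uniform integrability of `ψ_V(0)`

Let `s = sfn (Wd w) (V.erase 0) (etaV w V) 0 β = hB (Wd w) V {0} (etaV w V) β` (`hB_zero`).
Given `ε`, `SmallH` yields `x > 0` with `E e^{-x s} ≤ ε/(2e)` for all `V ∋ 0`; let `δ = 1/x`:
`P(s < δ) ≤ e E e^{-x s} ≤ ε/2`, and by `VR.mean_le` with `F = 1{s < δ}`,
`E[ψ 1{s<δ}] ≤ ε/2`. By `VR.mean_tail` with `F = 1{s ≥ δ}` and (M0) `exp_sub_sqrt_anti`:
`E[ψ 1{ψ > K} 1{s ≥ δ}] ≤ e exp(δ - sqrt(δ^2 + 2Kδ)) ≤ ε/2` for large `K`.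
-/

open MeasureTheory Real
open scoped ENNReal

namespace VJ26

variable {d : ℕ} {w : ℝ} {μ : Measure (Zd d → ℝ)}

/-- The choice of the truncation level. -/
theorem ui_level {δ ε : ℝ} (hδ : 0 < δ) (hε : 0 < ε) :
    ∃ K : ℝ, 0 < K ∧ exp 1 * exp (δ - Real.sqrt (δ ^ 2 + 2 * (K * δ))) ≤ ε / 2 := by
  set M : ℝ := δ + 1 + |log (ε / 2)| with hM
  have hMpos : 0 < M := by positivity
  refine ⟨M ^ 2 / (2 * δ), by positivity, ?_⟩
  have h1 : 2 * (M ^ 2 / (2 * δ) * δ) = M ^ 2 := by
    field_simp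
  have h2 : M ≤ Real.sqrt (δ ^ 2 + 2 * (M ^ 2 / (2 * δ) * δ)) := by
    rw [h1]
    apply Real.le_sqrt_of_sq_le
    nlinarith [sq_nonneg δ]
  rw [← exp_add]
  calc exp (1 + (δ - Real.sqrt (δ ^ 2 + 2 * (M ^ 2 / (2 * δ) * δ))))
      ≤ exp (log (ε / 2)) := by
        apply exp_le_exp.2
        have := neg_abs_le (log (ε / 2))
        linarith
    _ = ε / 2 := exp_log (by positivity)

theorem RF.ui [NeZero d] (hw : 0 < w) (h : RF w μ) (hS : SmallH w μ) {ε : ℝ} (hε : 0 < ε) :
    ∃ K : ℝ, 0 < K ∧ ∀ V : Finset (Zd d), 0 ∈ V →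
      ∫⁻ β, (if K < psiV w V β 0 then ENNReal.ofReal (psiV w V β 0) else 0) ∂μ ≤
        ENNReal.ofReal ε := by
  classical
  obtain ⟨x, hx, hxV⟩ := hS (ε / (2 * exp 1)) (by positivity)
  have hδ : (0 : ℝ) < 1 / x := by positivity
  obtain ⟨K, hK, hKe⟩ := ui_level hδ hε
  refine ⟨K, hK, fun V h0 => ?_⟩
  set δ : ℝ := 1 / x with hδdef
  set U : Finset (Zd d) := V.erase 0 with hU
  have hm : (0 : Zd d) ∉ U := Finset.notMem_erase 0 V
  have hins : insert (0 : Zd d) U = V := Finset.insert_erase h0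
  have hWt := wt_Wd (d := d) hw.le
  have hη := etaV_nonneg (d := d) hw.le V
  have hVR : VR μ (insert (0 : Zd d) U) (Wd w) (etaV w V) := by
    rw [hins]; exact h.vr V
  have hprob : IsProbabilityMeasure μ := hVR.prob
  set s : (Zd d → ℝ) → ℝ := fun β => sfn (Wd w) U (etaV w V) 0 β with hs
  have hsm : Measurable s := measurable_sfn _ _ _ _
  have hsd : DependsOn s (U : Set (Zd d)) := dependsOn_sfn _ _ _ _
  have hgood := h.allGood hw.le V
  have hspos : ∀ᵐ β ∂μ, 0 < sfn (Wd w) U (etaV w V) 0 β := by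
    filter_upwards [hgood] with β hβ
    have := sfn_pos (V := U) (m := (0 : Zd d)) (β := β) hw hm
      (hβ.1 U (Finset.erase_subset _ _)) (by rw [hins]; exact hβ.1 V (Finset.Subset.refl _))
    rwa [hins] at this
  -- the two weights
  set F₁ : (Zd d → ℝ) → ℝ≥0∞ := fun β => if s β < δ then 1 else 0 with hF₁
  set F₂ : (Zd d → ℝ) → ℝ≥0∞ := fun β => if s β < δ then 0 else 1 with hF₂
  have hset : MeasurableSet {β : Zd d → ℝ | s β < δ} := measurableSet_lt hsm measurable_const
  have hF₁m : Measurable F₁ := Measurable.ite hset measurable_const measurable_const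
  have hF₂m : Measurable F₂ := Measurable.ite hset measurable_const measurable_const
  have hF₁d : DependsOn F₁ (U : Set (Zd d)) := fun a b hab => by
    have := hsd hab
    simp only [hF₁, this]
  have hF₂d : DependsOn F₂ (U : Set (Zd d)) := fun a b hab => by
    have := hsd hab
    simp only [hF₂, this]
  have e1 := VR.mean_le hWt hη hm hVR hF₁m hF₁d
  have e2 := VR.mean_tail hWt hη hm hVR hspos hK hF₂m hF₂d
  rw [hins] at e1 e2
  -- the first part
  have b1 : ∫⁻ β, F₁ β ∂μ ≤ ENNReal.ofReal (ε / 2) := by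
    calc ∫⁻ β, F₁ β ∂μ
        ≤ ∫⁻ β, ENNReal.ofReal (exp 1) *
            ENNReal.ofReal (exp (-(x * hB (Wd w) V {0} (etaV w V) β))) ∂μ := by
          apply lintegral_mono
          intro β
          simp only [hF₁]
          split_ifs with hc
          · rw [← ENNReal.ofReal_mul (exp_pos _).le, ← exp_add, ← ENNReal.ofReal_one]
            apply ENNReal.ofReal_le_ofReal
            rw [hB_zero h0]
            apply one_le_exp
            have h3 : s β * x < 1 := by
              rw [hδdef, lt_div_iff₀ hx] at hc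
              exact hc
            have h4 : s β = sfn (Wd w) (V.erase 0) (etaV w V) 0 β := rfl
            rw [← h4]
            linarith [mul_comm (s β) x]
          · exact bot_le
      _ = ENNReal.ofReal (exp 1) *
            ∫⁻ β, ENNReal.ofReal (exp (-(x * hB (Wd w) V {0} (etaV w V) β))) ∂μ :=
          lintegral_const_mul' _ _ ENNReal.ofReal_ne_top
      _ ≤ ENNReal.ofReal (exp 1) * ENNReal.ofReal (ε / (2 * exp 1)) := by
          gcongr
          exact hxV V h0
      _ = ENNReal.ofReal (ε / 2) := by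
          rw [← ENNReal.ofReal_mul (exp_pos _).le]
          congr 1
          have := exp_pos 1
          field_simp
  -- the second part
  have b2 : ∫⁻ β, ENNReal.ofReal (exp 1 * exp (sfn (Wd w) U (etaV w V) 0 β -
        Real.sqrt (sfn (Wd w) U (etaV w V) 0 β ^ 2 +
          2 * (K * sfn (Wd w) U (etaV w V) 0 β)))) * F₂ β ∂μ ≤ ENNReal.ofReal (ε / 2) := by
    calc _ ≤ ∫⁻ _ : Zd d → ℝ, ENNReal.ofReal (ε / 2) ∂μ := by
          apply lintegral_mono
          intro β
          simp only [hF₂]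
          split_ifs with hc
          · simp
          · rw [mul_one]
            apply ENNReal.ofReal_le_ofReal
            refine le_trans ?_ hKe
            apply mul_le_mul_of_nonneg_left _ (exp_pos _).le
            exact exp_sub_sqrt_anti hK.le hδ.le (not_lt.1 hc)
      _ = ENNReal.ofReal (ε / 2) := by
          rw [lintegral_const, measure_univ, mul_one]
  have e3 : ∫⁻ β, (if K < psiV w V β 0 then ENNReal.ofReal (psiV w V β 0) else 0) ∂μ ≤
      (∫⁻ β, ENNReal.ofReal (psi (Wd w) V β (etaV w V) 0) * F₁ β ∂μ) +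
      ∫⁻ β, (if K < psi (Wd w) V β (etaV w V) 0 then
        ENNReal.ofReal (psi (Wd w) V β (etaV w V) 0) else 0) * F₂ β ∂μ := by
    have hpm : Measurable fun β : Zd d → ℝ => psi (Wd w) V β (etaV w V) 0 :=
      measurable_psi _ _ _ _
    have hpF : Measurable fun β : Zd d → ℝ =>
        ENNReal.ofReal (psi (Wd w) V β (etaV w V) 0) * F₁ β := hpm.ennreal_ofReal.mul hF₁m
    rw [← lintegral_add_left hpF]
    apply lintegral_mono
    intro β
    simp only [hF₁, hF₂, psiV]
    split_ifs <;> simp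
  calc _ ≤ _ := e3
    _ ≤ ENNReal.ofReal (ε / 2) + ENNReal.ofReal (ε / 2) :=
        add_le_add (e1.trans b1) (e2.trans b2)
    _ = ENNReal.ofReal ε := by
        rw [← ENNReal.ofReal_add (by positivity) (by positivity)]
        congr 1
        ring

end VJ26
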