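import Pool.Agent.VJ26.UI

/-!
# [VJ-ZCAUCHY] `ψ_{box m}(0)` is Cauchy in `L¹`

`Y_m(β) = psiV w (box m) β 0` is a martingale for `F_m = σ(β_i : i ∈ box m)` (`RF.mart` with
indicators of `F_m`-measurable sets; such an indicator depends on `box m`), uniformly integrable
(`RF.ui`), so it converges in `L¹` (`Submartingale.tendsto_eLpNorm_one_limitProcess`,
`UnifIntegrable` from `unifIntegrable_of` ...), hence is Cauchy in `L¹`.
Mathlib: `MeasureTheory.Filtration`, `martingale_of_setIntegral_eq_succ` / `martingale_nat`,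
`ae_eq_condExp_of_forall_setIntegral_eq`.

ELEMENTARY ALTERNATIVE (no filtrations). Let `g(y) = sqrt(1 + y^2) - y` style strictly convex
bounded-below functions; e.g. with `φ(y) = y^2/(1+y)` one has `0 ≤ φ(y) ≤ y` and
`φ(b) - φ(a) - φ'(a)(b-a) = (b-a)^2/((1+b)(1+a)^2)`. `E φ(Y_m) ≤ 1` is increasing in `m`
(tested against `F = φ'(Y_m)`, bounded, `RF.mart`), so for `m` large and all `M ≥ m`,
`E (Y_M - Y_m)^2/((1+Y_M)(1+Y_m)^2) ≤ δ`. On `{Y_m ≤ K, Y_M ≤ K}`, Cauchy-Schwarz:
`E|Y_M - Y_m| 1 ≤ (δ (1+K)^3)^{1/2}`, and the rest is bounded by uniform integrability: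
`|Y_M - Y_m| 1{Y_m > K or Y_M > K} ≤ 2 (Y_m 1{Y_m > K} + Y_M 1{Y_M > K})`
(if both are `> K` or exactly one: `|a-b| ≤ max(a,b)`). So
`E|Y_M - Y_m| ≤ sqrt(δ(1+K)^3) + 2ε`.
-/

open MeasureTheory Real
open scoped ENNReal

namespace VJ26

variable {d : ℕ} {w : ℝ} {μ : Measure (Zd d → ℝ)}

theorem h69_cauchy_abs {Ω : Type*} [MeasurableSpace Ω] {P : Measure Ω} [IsProbabilityMeasure P]
    {Y : ℕ → Ω → ℝ} (hm : ∀ m, Measurable (Y m)) (h0 : ∀ m, ∀ᵐ ω ∂P, 0 ≤ Y m ω)
    (h1 : ∀ m, ∫⁻ ω, ENNReal.ofReal (Y m ω) ∂P = 1)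
    (hmart : ∀ m M, m ≤ M →
      ∫⁻ ω, ENNReal.ofReal (Y M ω) * ENNReal.ofReal (1 / (1 + |Y m ω|) ^ 2) ∂P =
        ∫⁻ ω, ENNReal.ofReal (Y m ω) * ENNReal.ofReal (1 / (1 + |Y m ω|) ^ 2) ∂P)
    (hui : ∀ ε : ℝ, 0 < ε → ∃ K : ℝ, 0 < K ∧ ∀ m,
      ∫⁻ ω, (if K < Y m ω then ENNReal.ofReal (Y m ω) else 0) ∂P ≤ ENNReal.ofReal ε)
    {ε : ℝ} (hε : 0 < ε) :
    ∃ m : ℕ, ∀ M, m ≤ M →
      ∫⁻ ω, ENNReal.ofReal |Y M ω - Y m ω| ∂P ≤ ENNReal.ofReal ε := by
  have hint : ∀ m, Integrable (Y m) P := fun m =>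
    ⟨(hm m).aestronglyMeasurable, by
      rw [hasFiniteIntegral_iff_ofReal (h0 m), h1 m]; exact ENNReal.one_lt_top⟩
  set u : ℕ → Ω → ℝ := fun m ω => 1 / (1 + |Y m ω|) with hu
  have hum : ∀ m, Measurable (u m) := fun m =>
    measurable_const.div (measurable_const.add (measurable_norm.comp (hm m)))
  have hu0 : ∀ m ω, 0 ≤ u m ω := fun m ω => by simp only [hu]; positivity
  have hu1 : ∀ m ω, u m ω ≤ 1 := fun m ω => by
    simp only [hu]
    rw [div_le_one (by positivity)]
    linarith [abs_nonneg (Y m ω)]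
  have huint : ∀ m, Integrable (u m) P := fun m =>
    Integrable.of_bound (hum m).aestronglyMeasurable 1
      (Filter.Eventually.of_forall fun ω => by
        rw [Real.norm_eq_abs, abs_of_nonneg (hu0 m ω)]; exact hu1 m ω)
  set g : ℕ → Ω → ℝ := fun m ω => 1 / (1 + |Y m ω|) ^ 2 with hg
  have hgu : ∀ m ω, g m ω = (u m ω) ^ 2 := fun m ω => by
    simp only [hg, hu]; rw [div_pow, one_pow]
  have hgm : ∀ m, Measurable (g m) := fun m => by
    have : g m = fun ω => (u m ω) ^ 2 := funext (hgu m)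
    rw [this]; exact (hum m).pow_const 2
  have hg0 : ∀ m ω, 0 ≤ g m ω := fun m ω => by rw [hgu]; positivity
  have hg1 : ∀ m ω, g m ω ≤ 1 := fun m ω => by
    rw [hgu]; exact pow_le_one₀ (hu0 m ω) (hu1 m ω)
  have hYg : ∀ M m, Integrable (fun ω => Y M ω * g m ω) P := fun M m => by
    refine Integrable.mul_bdd (c := 1) (hint M) (hgm m).aestronglyMeasurable
      (Filter.Eventually.of_forall fun ω => ?_)
    rw [Real.norm_eq_abs, abs_of_nonneg (hg0 m ω)]; exact hg1 m ω
  have hmr : ∀ m M, m ≤ M → ∫ ω, Y M ω * g m ω ∂P = ∫ ω, Y m ω * g m ω ∂P := by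
    intro m M hmM
    rw [integral_eq_lintegral_of_nonneg_ae _ (hYg M m).aestronglyMeasurable,
      integral_eq_lintegral_of_nonneg_ae _ (hYg m m).aestronglyMeasurable]
    · congr 1
      have e1 : ∫⁻ ω, ENNReal.ofReal (Y M ω * g m ω) ∂P =
          ∫⁻ ω, ENNReal.ofReal (Y M ω) * ENNReal.ofReal (1 / (1 + |Y m ω|) ^ 2) ∂P :=
        lintegral_congr fun ω => by rw [ENNReal.ofReal_mul' (hg0 m ω)]
      have e2 : ∫⁻ ω, ENNReal.ofReal (Y m ω * g m ω) ∂P =
          ∫⁻ ω, ENNReal.ofReal (Y m ω) * ENNReal.ofReal (1 / (1 + |Y m ω|) ^ 2) ∂P :=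
        lintegral_congr fun ω => by rw [ENNReal.ofReal_mul' (hg0 m ω)]
      rw [e1, e2, hmart m M hmM]
    · filter_upwards [h0 m] with ω hω using mul_nonneg hω (hg0 m ω)
    · filter_upwards [h0 M] with ω hω using mul_nonneg hω (hg0 m ω)
  set D : ℕ → ℕ → Ω → ℝ := fun m M ω => (Y M ω - Y m ω) ^ 2 * (u M ω * g m ω) with hD
  have hD0 : ∀ m M ω, 0 ≤ D m M ω := fun m M ω =>
    mul_nonneg (sq_nonneg _) (mul_nonneg (hu0 M ω) (hg0 m ω))
  have hDe : ∀ m M, ∀ᵐ ω ∂P, u M ω - u m ω + (Y M ω * g m ω - Y m ω * g m ω) = D m M ω := by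
    intro m M
    filter_upwards [h0 m, h0 M] with ω ha hb
    simp only [hD, hu, hg, abs_of_nonneg ha, abs_of_nonneg hb]
    have h1a : (1 + Y m ω) ≠ 0 := by positivity
    have h1b : (1 + Y M ω) ≠ 0 := by positivity
    field_simp
    ring
  have hDint : ∀ m M, Integrable (D m M) P := fun m M =>
    (((huint M).sub (huint m)).add ((hYg M m).sub (hYg m m))).congr (hDe m M)
  have hDI : ∀ m M, m ≤ M → ∫ ω, D m M ω ∂P = ∫ ω, u M ω ∂P - ∫ ω, u m ω ∂P := by
    intro m M hmM
    have e1 : ∫ ω, (u M ω - u m ω + (Y M ω * g m ω - Y m ω * g m ω)) ∂P =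
        (∫ ω, (u M ω - u m ω) ∂P) + ∫ ω, (Y M ω * g m ω - Y m ω * g m ω) ∂P :=
      integral_add ((huint M).sub (huint m)) ((hYg M m).sub (hYg m m))
    have e2 : ∫ ω, (u M ω - u m ω) ∂P = ∫ ω, u M ω ∂P - ∫ ω, u m ω ∂P :=
      integral_sub (huint M) (huint m)
    have e3 : ∫ ω, (Y M ω * g m ω - Y m ω * g m ω) ∂P =
        ∫ ω, Y M ω * g m ω ∂P - ∫ ω, Y m ω * g m ω ∂P :=
      integral_sub (hYg M m) (hYg m m)
    rw [← integral_congr_ae (hDe m M), e1, e2, e3, hmr m M hmM]
    ring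
  -- the truncation level
  obtain ⟨K, hK, hKm⟩ := hui (ε / 4) (by positivity)
  set C : ℝ := (1 + K) ^ 3 with hC
  have hCpos : 0 < C := by positivity
  set η : ℝ := ε / 4 with hη
  have hηpos : 0 < η := by positivity
  set δ : ℝ := η * (ε / 4) / C with hδ
  have hδpos : 0 < δ := by positivity
  have hbd : BddAbove (Set.range fun m => ∫ ω, u m ω ∂P) := by
    refine ⟨1, ?_⟩
    rintro _ ⟨m, rfl⟩
    calc ∫ ω, u m ω ∂P ≤ ∫ _ : Ω, (1 : ℝ) ∂P :=
          integral_mono (huint m) (integrable_const 1) (hu1 m)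
      _ = 1 := by simp
  obtain ⟨m, hmδ⟩ := exists_lt_of_lt_ciSup
    (show (⨆ m, ∫ ω, u m ω ∂P) - δ < ⨆ m, ∫ ω, u m ω ∂P by linarith)
  refine ⟨m, fun M hmM => ?_⟩
  have hDδ : ∫⁻ ω, ENNReal.ofReal (D m M ω) ∂P ≤ ENNReal.ofReal δ := by
    rw [← ofReal_integral_eq_lintegral_ofReal (hDint m M)
      (Filter.Eventually.of_forall fun ω => hD0 m M ω), hDI m M hmM]
    apply ENNReal.ofReal_le_ofReal
    have := le_ciSup hbd M
    linarith
  have hpt : ∀ᵐ ω ∂P, ENNReal.ofReal |Y M ω - Y m ω| ≤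
      ENNReal.ofReal η + (ENNReal.ofReal (C / η) * ENNReal.ofReal (D m M ω) +
        ((if K < Y m ω then ENNReal.ofReal (Y m ω) else 0) +
          (if K < Y M ω then ENNReal.ofReal (Y M ω) else 0))) := by
    filter_upwards [h0 m, h0 M] with ω ha hb
    by_cases hA : K < Y m ω
    · by_cases hB : K < Y M ω
      · rw [if_pos hA, if_pos hB]
        calc ENNReal.ofReal |Y M ω - Y m ω| ≤ ENNReal.ofReal (Y m ω + Y M ω) := by
              apply ENNReal.ofReal_le_ofReal
              rw [abs_le]; constructor <;> linarith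
          _ ≤ ENNReal.ofReal (Y m ω) + ENNReal.ofReal (Y M ω) := ENNReal.ofReal_add_le
          _ ≤ _ := le_add_self.trans le_add_self
      · rw [if_pos hA, if_neg hB]
        calc ENNReal.ofReal |Y M ω - Y m ω| ≤ ENNReal.ofReal (Y m ω) := by
              apply ENNReal.ofReal_le_ofReal
              rw [abs_le]; constructor <;> linarith [not_lt.1 hB]
          _ ≤ ENNReal.ofReal (Y m ω) + 0 := by rw [add_zero]
          _ ≤ _ := le_add_self.trans le_add_self
    · by_cases hB : K < Y M ω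
      · rw [if_neg hA, if_pos hB]
        calc ENNReal.ofReal |Y M ω - Y m ω| ≤ ENNReal.ofReal (Y M ω) := by
              apply ENNReal.ofReal_le_ofReal
              rw [abs_le]; constructor <;> linarith [not_lt.1 hA]
          _ ≤ 0 + ENNReal.ofReal (Y M ω) := by rw [zero_add]
          _ ≤ _ := le_add_self.trans le_add_self
      · rw [if_neg hA, if_neg hB, add_zero, add_zero,
          ← ENNReal.ofReal_mul (by positivity), ← ENNReal.ofReal_add hηpos.le
            (mul_nonneg (by positivity) (hD0 m M ω))]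
        apply ENNReal.ofReal_le_ofReal
        have hK1 := not_lt.1 hA
        have hK2 := not_lt.1 hB
        set z : ℝ := Y M ω - Y m ω with hz
        have h3 : z ^ 2 ≤ C * D m M ω := by
          have h4 : 1 ≤ C * (u M ω * g m ω) := by
            simp only [hu, hg, hC, abs_of_nonneg ha, abs_of_nonneg hb]
            rw [div_mul_div_comm, one_mul, ← mul_div_assoc, mul_one, le_div_iff₀ (by positivity),
              one_mul]
            calc (1 + Y M ω) * (1 + Y m ω) ^ 2 ≤ (1 + K) * (1 + K) ^ 2 := by gcongr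
              _ = (1 + K) ^ 3 := by ring
          calc z ^ 2 = z ^ 2 * 1 := by ring
            _ ≤ z ^ 2 * (C * (u M ω * g m ω)) := by gcongr
            _ = C * D m M ω := by simp only [hD]; ring
        have h5 : |z| ≤ η + z ^ 2 / η := by
          rcases le_total |z| η with h | h
          · have : 0 ≤ z ^ 2 / η := by positivity
            linarith
          · have : |z| ≤ z ^ 2 / η := by
              rw [le_div_iff₀ hηpos, ← sq_abs z, sq]
              exact mul_le_mul_of_nonneg_left h (abs_nonneg z)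
            linarith
        calc |z| ≤ η + z ^ 2 / η := h5
          _ ≤ η + C * D m M ω / η := by gcongr
          _ = η + C / η * D m M ω := by ring
  have hTm : ∀ k, Measurable fun ω => (if K < Y k ω then ENNReal.ofReal (Y k ω) else 0) :=
    fun k => Measurable.ite (measurableSet_lt measurable_const (hm k)) (hm k).ennreal_ofReal
      measurable_const
  have hDm : Measurable (D m M) := (((hm M).sub (hm m)).pow_const 2).mul ((hum M).mul (hgm m))
  calc ∫⁻ ω, ENNReal.ofReal |Y M ω - Y m ω| ∂P ≤ ∫⁻ ω, _ ∂P := lintegral_mono_ae hpt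
    _ = ENNReal.ofReal η + (ENNReal.ofReal (C / η) * ∫⁻ ω, ENNReal.ofReal (D m M ω) ∂P +
        (∫⁻ ω, (if K < Y m ω then ENNReal.ofReal (Y m ω) else 0) ∂P +
          ∫⁻ ω, (if K < Y M ω then ENNReal.ofReal (Y M ω) else 0) ∂P)) := by
        rw [lintegral_add_left measurable_const, lintegral_const, measure_univ, mul_one,
          lintegral_add_left (hDm.ennreal_ofReal.const_mul _), lintegral_const_mul' _ _
            ENNReal.ofReal_ne_top, lintegral_add_left (hTm m)]
    _ ≤ ENNReal.ofReal η + (ENNReal.ofReal (C / η) * ENNReal.ofReal δ +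
        (ENNReal.ofReal (ε / 4) + ENNReal.ofReal (ε / 4))) := by
        gcongr
        · exact hKm m
        · exact hKm M
    _ = ENNReal.ofReal ε := by
        rw [← ENNReal.ofReal_mul (by positivity), ← ENNReal.ofReal_add (by positivity)
          (by positivity), ← ENNReal.ofReal_add (by positivity) (by positivity),
          ← ENNReal.ofReal_add (by positivity) (by positivity)]
        congr 1
        simp only [hδ, hη]
        field_simp
        norm_num

theorem RF.cauchy [NeZero d] (hw : 0 < w) (h : RF w μ) (hS : SmallH w μ) {ε : ℝ}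
    (hε : 0 < ε) :
    ∃ m : ℕ, ∀ M, m ≤ M →
      ∫⁻ β, ENNReal.ofReal |psiV w (box M) β 0 - psiV w (box m) β 0| ∂μ ≤
        ENNReal.ofReal ε := by
  have hprob : IsProbabilityMeasure μ := (h.vr ∅).prob
  have h00 : ∀ m : ℕ, (0 : Zd d) ∈ box (d := d) m := fun m => by
    rw [box, Finset.mem_Icc]
    constructor
    · intro k; simp
    · intro k; simp
  have hsub : ∀ {m M : ℕ}, m ≤ M → box (d := d) m ⊆ box (d := d) M := fun {m M} hmM => by
    apply Finset.Icc_subset_Icc
    · intro k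
      have : (m : ℤ) ≤ M := by exact_mod_cast hmM
      simpa using this
    · intro k
      have : (m : ℤ) ≤ M := by exact_mod_cast hmM
      simpa using this
  refine h69_cauchy_abs (P := μ) (Y := fun m β => psiV w (box m) β 0)
    (fun m => measurable_psiV w (box m) 0) (fun m => ?_)
    (fun m => RF.mean_one hw h (h00 m)) (fun m M hmM => ?_) (fun e he => ?_) hε
  · filter_upwards [h.allGood hw.le (box m)] with β hβ
    exact psiV_nonneg hw.le (hβ.1 _ (Finset.Subset.refl _)) 0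
  · refine RF.mart hw h (hsub hmM) (h00 m)
      (F := fun β => ENNReal.ofReal (1 / (1 + |psiV w (box m) β 0|) ^ 2)) ?_ ?_
    · exact (measurable_const.div ((measurable_const.add (measurable_norm.comp
        (measurable_psiV w (box m) 0))).pow_const 2)).ennreal_ofReal
    · intro a b hab
      have := dependsOn_psiV w (box (d := d) m) 0 hab
      simp only at this
      simp only [this]
  · obtain ⟨K, hK, hKV⟩ := RF.ui hw h hS he
    exact ⟨K, hK, fun m => hKV (box m) (h00 m)⟩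

end VJ26
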