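import Pool.Agent.VJ26.ZVar
import Pool.Agent.VJ26.ZCauchy

/-!
# [VJ-ZAVG] The average of `ψ_V` over a long segment is close to one, for all large domains

Choose `m` by `RF.cauchy` with `ε/2`, then `n` by `RF.lln` with `ε/2`, and
`V₀ = seg n ∪ ⋃_{x∈seg n} trans (box m) x` (`Finset.biUnion`). For `V ⊇ V₀`:
`|A - 1| ≤ (1/n) ∑_x |ψ_V(x) - Y_x| + |(∑ Y_x)/n - 1|`, `Y_x = psiV w (trans (box m) x) β x`.
For `x ∈ seg n` choose `M ≥ m` with `V ⊆ trans (box M) x` (finite set in a large box). By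
`RF.l1_contr` (`V' = trans (box M) x`, `Y = Y_x` depends on `trans (box m) x ⊆ V`), `psiV_shift`
(`i = 0`) and `RF.lintegral_shift`:
`E|ψ_V(x) - Y_x| ≤ E|psiV (trans (box M) x) x - Y_x| = E|psiV (box M) 0 - psiV (box m) 0| ≤ ε/2`.
-/

open MeasureTheory Real
open scoped ENNReal

namespace VJ26

variable {d : ℕ} {w : ℝ} {μ : Measure (Zd d → ℝ)}

theorem za_box_mono {m M : ℕ} (hm : m ≤ M) : (box m : Finset (Zd d)) ⊆ box M := by
  intro y hy
  rw [zv_mem_box] at hy ⊢
  intro k
  have hm' : (m : ℤ) ≤ M := by exact_mod_cast hm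
  exact ⟨by linarith [(hy k).1], by linarith [(hy k).2]⟩

theorem za_self (m : ℕ) (x : Zd d) : x ∈ trans (box m) x := by
  rw [zv_mem_trans, zv_mem_box]
  intro k
  simp

theorem za_exists_box (m : ℕ) (V : Finset (Zd d)) (x : Zd d) :
    ∃ M : ℕ, m ≤ M ∧ V ⊆ trans (box M) x := by
  refine ⟨m + ∑ y ∈ V, ∑ k, (y k - x k).natAbs, Nat.le_add_right _ _, ?_⟩
  intro y hy
  rw [zv_mem_trans, zv_mem_box]
  intro k
  have h1 : (y k - x k).natAbs ≤ ∑ k, (y k - x k).natAbs :=
    Finset.single_le_sum (f := fun k => (y k - x k).natAbs) (fun _ _ => Nat.zero_le _)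
      (Finset.mem_univ k)
  have h2 : ∑ k, (y k - x k).natAbs ≤ ∑ y ∈ V, ∑ k, (y k - x k).natAbs :=
    Finset.single_le_sum (f := fun y : Zd d => ∑ k, (y k - x k).natAbs)
      (fun _ _ => Nat.zero_le _) hy
  have h3 : (y k - x k).natAbs ≤ m + ∑ y ∈ V, ∑ k, (y k - x k).natAbs := by omega
  rw [Pi.sub_apply]
  have h4 : |y k - x k| ≤ ((m + ∑ y ∈ V, ∑ k, (y k - x k).natAbs : ℕ) : ℤ) := by
    rw [Int.abs_eq_natAbs]
    exact_mod_cast h3
  exact abs_le.1 h4

theorem za_card_seg [NeZero d] (n : ℕ) : (seg n : Finset (Zd d)).card = n := by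
  unfold seg
  rw [Finset.card_image_of_injective, Finset.card_range]
  intro a b hab
  have h1 := congrFun hab 0
  simpa using h1

theorem za_one [NeZero d] (hw : 0 < w) (h : RF w μ) {m : ℕ} {ε : ℝ}
    (hm : ∀ M, m ≤ M →
      ∫⁻ β, ENNReal.ofReal |psiV w (box M) β 0 - psiV w (box m) β 0| ∂μ ≤ ENNReal.ofReal ε)
    {V : Finset (Zd d)} {x : Zd d} (hV : trans (box m) x ⊆ V) :
    ∫⁻ β, ENNReal.ofReal |psiV w V β x - psiV w (trans (box m) x) β x| ∂μ ≤
      ENNReal.ofReal ε := by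
  obtain ⟨M, hmM, hVM⟩ := za_exists_box m V x
  have hxV : x ∈ V := hV (za_self m x)
  have hd : DependsOn (fun β => psiV w (trans (box m) x) β x) (V : Set (Zd d)) := by
    intro β β' hβ
    exact dependsOn_psiV w (trans (box m) x) x fun i hi => hβ i (hV hi)
  have hi : ∫⁻ β, ENNReal.ofReal |psiV w (trans (box m) x) β x| ∂μ < ∞ := by
    have h1 : ∫⁻ β, ENNReal.ofReal |psiV w (trans (box m) x) β x| ∂μ =
        ∫⁻ β, ENNReal.ofReal (psiV w (trans (box m) x) β x) ∂μ := by
      apply lintegral_congr_ae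
      filter_upwards [RF.psiV_nonneg_ae hw h (trans (box m) x) x] with β hβ
      rw [abs_of_nonneg hβ]
    rw [h1, RF.mean_one hw h (za_self m x)]
    exact ENNReal.one_lt_top
  refine le_trans (RF.l1_contr hw h hVM hxV (measurable_psiV w _ x) hd hi) ?_
  refine le_trans (le_of_eq ?_) (hm M hmM)
  have hmeas : Measurable fun β : Zd d → ℝ =>
      ENNReal.ofReal |psiV w (box M) β 0 - psiV w (box m) β 0| :=
    (continuous_abs.measurable.comp
      ((measurable_psiV w (box M) 0).sub (measurable_psiV w (box m) 0))).ennreal_ofReal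
  have hdep : DependsOn (fun β : Zd d → ℝ =>
      ENNReal.ofReal |psiV w (box M) β 0 - psiV w (box m) β 0|)
      ((box M : Finset (Zd d)) : Set (Zd d)) := by
    intro β β' hβ
    have h1 : psiV w (box M) β 0 = psiV w (box M) β' 0 := dependsOn_psiV w (box M) 0 hβ
    have h2 : psiV w (box m) β 0 = psiV w (box m) β' 0 :=
      dependsOn_psiV w (box m) 0 fun i hi => hβ i (za_box_mono hmM hi)
    change ENNReal.ofReal |psiV w (box M) β 0 - psiV w (box m) β 0| =
      ENNReal.ofReal |psiV w (box M) β' 0 - psiV w (box m) β' 0|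
    rw [h1, h2]
  rw [← RF.lintegral_shift h x hmeas hdep]
  apply lintegral_congr_ae
  filter_upwards [zv_good hw h (trans (box M) x), zv_good hw h (trans (box m) x)] with β h1 h2
  have e1 := psiV_shift (V := box M) (x := x) h1 0
  have e2 := psiV_shift (V := box m) (x := x) h2 0
  rw [zero_add] at e1 e2
  rw [e1, e2]

theorem RF.avg_small [NeZero d] (hw : 0 < w) (h : RF w μ) (hS : SmallH w μ) {ε : ℝ}
    (hε : 0 < ε) :
    ∃ n : ℕ, 1 ≤ n ∧ ∃ V₀ : Finset (Zd d), seg n ⊆ V₀ ∧ ∀ V : Finset (Zd d), V₀ ⊆ V →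
      ∫⁻ β, ENNReal.ofReal |(∑ x ∈ seg n, psiV w V β x) / n - 1| ∂μ ≤
        ENNReal.ofReal ε := by
  classical
  obtain ⟨m, hm⟩ := RF.cauchy hw h hS (half_pos hε)
  obtain ⟨n, hn1, hn⟩ := RF.lln hw h m (half_pos hε)
  have hn0 : (0 : ℝ) < n := by exact_mod_cast hn1
  refine ⟨n, hn1, seg n ∪ (seg n).biUnion (fun x => trans (box m) x),
    Finset.subset_union_left, ?_⟩
  intro V hV
  have hVx : ∀ x ∈ (seg n : Finset (Zd d)), trans (box m) x ⊆ V := fun x hx =>
    (Finset.subset_biUnion_of_mem (fun x => trans (box m) x) hx).trans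
      (Finset.subset_union_right.trans hV)
  have hmx : ∀ x : Zd d, Measurable fun β : Zd d → ℝ =>
      ENNReal.ofReal |psiV w V β x - psiV w (trans (box m) x) β x| := fun x =>
    (continuous_abs.measurable.comp
      ((measurable_psiV w V x).sub (measurable_psiV w (trans (box m) x) x))).ennreal_ofReal
  have hpt : ∀ β : Zd d → ℝ, ENNReal.ofReal |(∑ x ∈ seg n, psiV w V β x) / n - 1| ≤
      ENNReal.ofReal (1 / n) * ∑ x ∈ seg n,
        ENNReal.ofReal |psiV w V β x - psiV w (trans (box m) x) β x| +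
      ENNReal.ofReal |(∑ x ∈ seg n, psiV w (trans (box m) x) β x) / n - 1| := by
    intro β
    rw [← ENNReal.ofReal_sum_of_nonneg fun x _ => abs_nonneg _,
      ← ENNReal.ofReal_mul (by positivity), ← ENNReal.ofReal_add (by positivity) (abs_nonneg _)]
    apply ENNReal.ofReal_le_ofReal
    have h1 : (∑ x ∈ seg n, psiV w V β x) / n - 1 =
        1 / n * ∑ x ∈ seg n, (psiV w V β x - psiV w (trans (box m) x) β x) +
        ((∑ x ∈ seg n, psiV w (trans (box m) x) β x) / n - 1) := by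
      rw [Finset.sum_sub_distrib]
      ring
    rw [h1]
    refine (abs_add_le _ _).trans (add_le_add_left ?_ _)
    rw [abs_mul, abs_of_pos (by positivity : (0 : ℝ) < 1 / n)]
    exact mul_le_mul_of_nonneg_left (Finset.abs_sum_le_sum_abs _ _) (by positivity)
  calc ∫⁻ β, ENNReal.ofReal |(∑ x ∈ seg n, psiV w V β x) / n - 1| ∂μ
      ≤ ∫⁻ β, (ENNReal.ofReal (1 / n) * ∑ x ∈ seg n,
        ENNReal.ofReal |psiV w V β x - psiV w (trans (box m) x) β x| +
        ENNReal.ofReal |(∑ x ∈ seg n, psiV w (trans (box m) x) β x) / n - 1|) ∂μ :=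
        lintegral_mono hpt
    _ = ENNReal.ofReal (1 / n) * ∑ x ∈ seg n,
        ∫⁻ β, ENNReal.ofReal |psiV w V β x - psiV w (trans (box m) x) β x| ∂μ +
        ∫⁻ β, ENNReal.ofReal |(∑ x ∈ seg n, psiV w (trans (box m) x) β x) / n - 1| ∂μ := by
        rw [lintegral_add_left
          ((Finset.measurable_sum _ fun x _ => hmx x).const_mul _),
          lintegral_const_mul _ (Finset.measurable_sum _ fun x _ => hmx x),
          lintegral_finsetSum _ fun x _ => hmx x]
    _ ≤ ENNReal.ofReal (1 / n) * ∑ x ∈ (seg n : Finset (Zd d)), ENNReal.ofReal (ε / 2) +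
        ENNReal.ofReal (ε / 2) := by
        gcongr with x hx
        · exact za_one hw h hm (hVx x hx)
        · exact hn n le_rfl
    _ = ENNReal.ofReal ε := by
        rw [Finset.sum_const, za_card_seg, nsmul_eq_mul, ← mul_assoc,
          ← ENNReal.ofReal_natCast n, ← ENNReal.ofReal_mul (by positivity),
          one_div_mul_cancel hn0.ne', ENNReal.ofReal_one, one_mul,
          ← ENNReal.ofReal_add (by positivity) (by positivity), add_halves]

end VJ26
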