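import Pool.Agent.VJ26.ZDefs
import Pool.Agent.VJ26.Exist

/-!
# [VJ-ZBASIC] Basic facts on `Z^d`

This file: `mem_nb`, `adj_symm`, `wt_Wd`, `etaV_nonneg`, `etaV_eq_rate`, `etaV_insert`, `etaV_sdiff`, `RF.allGood`, `measurable_psiV`, `dependsOn_psiV`, `psiV_nonneg`

`mem_nb`: if `∑ |i k - j k| = 1` then every `|i k - j k| ≤ 1`.
`etaV_eq_rate`: the rate formula: `∑_{j∈V} Wd i j L_j + etaV V i = w ∑_{j∈nb i} L_j` if `L = 1`
off `V`. `etaV_insert`: for `i ∈ V`, `m ∉ V`, `i ≠ m`: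
`etaV V i = etaV (insert m V) i + Wd w m i`.
`RF.lintegral_shift`: the translated field has the same finite-dimensional laws:
`VR (μ.map (shiftB x)) U (Wd w) (etaV w U)` for finite `U` (Laplace functional of `μ` for
`trans U x` and `L (· - x)`; `Wd`, `etaV` are translation invariant), then `VR.lintegral_eq`.
`psiV_shift`: `gr_relabel` with `e = Equiv.addRight x` (or `IsGreen.eq_gr`).
`RF.allGood`: `VR.allGood`.
-/

open MeasureTheory Real
open scoped ENNReal

namespace VJ26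

variable {d : ℕ} {w : ℝ} {μ : Measure (Zd d → ℝ)} {V U : Finset (Zd d)} {i j m x : Zd d}
  {β L : Zd d → ℝ}

theorem mem_nb : j ∈ nb i ↔ Adj i j := by
  unfold nb
  rw [Finset.mem_filter, and_iff_right_iff_imp]
  intro h
  have hk : ∀ k, |i k - j k| ≤ 1 := by
    intro k
    have h1 : |i k - j k| ≤ ∑ k, |i k - j k| :=
      Finset.single_le_sum (f := fun k => |i k - j k|) (fun k _ => abs_nonneg _)
        (Finset.mem_univ k)
    unfold Adj at h
    omega
  rw [Finset.mem_Icc]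
  constructor
  · intro k
    have := abs_le.1 (hk k)
    simp only [Pi.sub_apply, Pi.one_apply]
    omega
  · intro k
    have := abs_le.1 (hk k)
    simp only [Pi.add_apply, Pi.one_apply]
    omega

theorem adj_symm : Adj i j ↔ Adj j i := by
  unfold Adj
  simp_rw [abs_sub_comm]

theorem wt_Wd (hw : 0 ≤ w) : Wt (Wd (d := d) w) := by
  refine ⟨?_, ?_, ?_⟩
  · intro i j
    unfold Wd
    simp only [adj_symm (i := i) (j := j)]
  · intro i j
    unfold Wd
    split_ifs
    · exact hw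
    · exact le_rfl
  · intro i
    unfold Wd
    rw [if_neg]
    unfold Adj
    simp

theorem etaV_nonneg (hw : 0 ≤ w) (V : Finset (Zd d)) (i : Zd d) : 0 ≤ etaV w V i := by
  unfold etaV
  refine Finset.sum_nonneg fun j _ => ?_
  split_ifs
  · exact le_rfl
  · exact hw

theorem zb_sum_Wd_nb (f : Zd d → ℝ) :
    ∑ j ∈ V, Wd w i j * f j = ∑ j ∈ nb i, if j ∈ V then w * f j else 0 := by
  have h1 : ∑ j ∈ V, Wd w i j * f j = ∑ j ∈ V.filter (fun j => j ∈ nb i), w * f j := by
    rw [Finset.sum_filter]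
    refine Finset.sum_congr rfl fun j _ => ?_
    unfold Wd
    by_cases h : Adj i j
    · rw [if_pos h, if_pos (mem_nb.2 h)]
    · rw [if_neg h, if_neg (fun h' => h (mem_nb.1 h')), zero_mul]
  have h2 : ∑ j ∈ nb i, (if j ∈ V then w * f j else 0) =
      ∑ j ∈ (nb i).filter (fun j => j ∈ V), w * f j := by
    rw [Finset.sum_filter]
  rw [h1, h2]
  refine Finset.sum_congr ?_ fun _ _ => rfl
  ext j
  simp only [Finset.mem_filter]
  tauto

theorem etaV_eq_rate (hL : ∀ j, j ∉ V → L j = 1) :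
    ∑ j ∈ V, Wd w i j * L j + etaV w V i = w * ∑ j ∈ nb i, L j := by
  rw [zb_sum_Wd_nb, etaV, ← Finset.sum_add_distrib, Finset.mul_sum]
  refine Finset.sum_congr rfl fun j _ => ?_
  by_cases h : j ∈ V
  · rw [if_pos h, if_pos h, add_zero]
  · rw [if_neg h, if_neg h, hL j h, zero_add, mul_one]

theorem zb_etaV_eq_sub (V : Finset (Zd d)) (i : Zd d) :
    etaV w V i = w * (nb i).card - ∑ j ∈ V, Wd w i j := by
  have h := etaV_eq_rate (w := w) (V := V) (i := i) (L := fun _ => 1) (fun _ _ => rfl)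
  simp only [mul_one, Finset.sum_const, nsmul_eq_mul] at h
  linarith

theorem etaV_insert (hm : m ∉ V) (hi : i ∈ V) :
    etaV w V i = etaV w (insert m V) i + Wd w m i := by
  rw [zb_etaV_eq_sub, zb_etaV_eq_sub, Finset.sum_insert hm]
  have : Wd w m i = Wd w i m := by
    unfold Wd
    simp only [adj_symm (i := m) (j := i)]
  rw [this]
  ring

theorem etaV_sdiff {B : Finset (Zd d)} (hB : B ⊆ V) (hi : i ∈ V \ B) :
    etaV w (V \ B) i = etaV w V i + WB (Wd w) B i := by
  rw [zb_etaV_eq_sub, zb_etaV_eq_sub, WB]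
  have h1 : ∑ j ∈ B, Wd w j i = ∑ j ∈ B, Wd w i j := by
    refine Finset.sum_congr rfl fun j _ => ?_
    unfold Wd
    simp only [adj_symm (i := j) (j := i)]
  have h2 := Finset.sum_sdiff (f := fun j => Wd w i j) hB
  rw [h1]
  linarith

theorem RF.allGood (hw : 0 ≤ w) (h : RF w μ) (V : Finset (Zd d)) :
    ∀ᵐ β ∂μ, AllGood (Wd w) V β := VR.allGood (wt_Wd hw) (etaV_nonneg hw V) (h.vr V)

theorem measurable_psiV (w : ℝ) (V : Finset (Zd d)) (i : Zd d) :
    Measurable (fun β : Zd d → ℝ => psiV w V β i) := measurable_psi _ _ _ _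

theorem dependsOn_psiV (w : ℝ) (V : Finset (Zd d)) (i : Zd d) :
    DependsOn (fun β : Zd d → ℝ => psiV w V β i) (V : Set (Zd d)) := dependsOn_psi _ _ _ _

theorem psiV_nonneg (hw : 0 ≤ w) (hG : Good (Wd w) V β) (i : Zd d) : 0 ≤ psiV w V β i :=
  psi_nonneg hG (fun j _ => etaV_nonneg hw V j) i

end VJ26
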