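import Pool.Agent.VJ26.ZMart

/-!
# [VJ-ZCONTR] Positivity and the martingale property on `Z^d`

This file: `RF.sq_mono`, `RF.l1_contr`

`psiV_pos`: `ψ = psiV w V β ≥ 0`; if `ψ_i = 0`, `i ∈ V`, then `psi_eq` gives
`∑_{k∈V} W_ik ψ_k + etaV V i = 0`, all terms vanish: every neighbour of `i` is in `V` and has
`ψ = 0`. So `i + k e₀ ∈ V` for all `k : ℕ`, impossible (`V` finite).
`sfn_pos`: `psi_insert_self`: `0 < psiV (insert m V) m = s T`, `T > 0`.
`mart`: induction on `V' \ V` (or `Finset.induction` on the added set, `Finset.le_induction`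
type argument) with `VR.mean_step` (`m` the new vertex, `θ = etaV w (insert m V)`,
`psi W V β (θ + W m) x = psiV w V β x` by `psi_congr` and `etaV_insert`).
`mean_one`: `VR.mean_eq` with `U = ∅` for `V = {x}` and then `mart` with `F = 1`.
`sq_mono`: for `K > 0` let `F = min(ψ_V(x), K)`: `E[ψ_V F] = E[ψ_{V'} F] ≤ (E ψ_{V'}^2)^{1/2}
(E F^2)^{1/2} ≤ (E ψ_{V'}^2)^{1/2} (E[ψ_V F])^{1/2}`, so `E[ψ_V F] ≤ E ψ_{V'}^2`, `K → ∞`. (Or
integrate `2 a b ≤ a^2 + b^2`: `2E[ψ_V F] ≤ E ψ_{V'}^2 + E F^2 ≤ E ψ_{V'}^2 + E[ψ_V F]` and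
`E[ψ_V F] ≤ K < ∞`.)
`l1_contr`: `Y ≥ 0` measurable, depends on `V`, `E Y < ∞`. With `S = {ψ_V ≥ Y}` (depends on `V`):
`E|ψ_V - Y| = E[(ψ_V - Y)1_S] + E[(Y - ψ_V)1_{S^c}] = E[(ψ_{V'} - Y)1_S] + E[(Y - ψ_{V'})1_{S^c}]`
`≤ E|ψ_{V'} - Y|` (real integrals, everything is integrable).
-/

open MeasureTheory Real
open scoped ENNReal

namespace VJ26

variable {d : ℕ} {w : ℝ} {μ : Measure (Zd d → ℝ)} {V V' U : Finset (Zd d)} {i j m x : Zd d}
  {β : Zd d → ℝ}

theorem RF.psiV_nonneg_ae (hw : 0 < w) (h : RF w μ) (V : Finset (Zd d)) (x : Zd d) :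
    ∀ᵐ β ∂μ, 0 ≤ psiV w V β x := by
  filter_upwards [RF.allGood hw.le h V] with β hβ
  exact psiV_nonneg hw.le (hβ.1 V (Finset.Subset.refl V)) x

theorem RF.sq_mono [NeZero d] (hw : 0 < w) (h : RF w μ) (hV : V ⊆ V') (hx : x ∈ V) :
    ∫⁻ β, ENNReal.ofReal (psiV w V β x ^ 2) ∂μ ≤
      ∫⁻ β, ENNReal.ofReal (psiV w V' β x ^ 2) ∂μ := by
  set a : (Zd d → ℝ) → ℝ≥0∞ := fun β => ENNReal.ofReal (psiV w V β x) with ha
  set a' : (Zd d → ℝ) → ℝ≥0∞ := fun β => ENNReal.ofReal (psiV w V' β x) with ha'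
  have hma : Measurable a := (measurable_psiV w V x).ennreal_ofReal
  have hma' : Measurable a' := (measurable_psiV w V' x).ennreal_ofReal
  have hda : DependsOn a (V : Set (Zd d)) := by
    intro β β' hβ
    have h0 : psiV w V β x = psiV w V β' x := dependsOn_psiV w V x hβ
    simp only [ha]
    rw [h0]
  have h1 : ∫⁻ β, ENNReal.ofReal (psiV w V β x ^ 2) ∂μ = ∫⁻ β, a β * a β ∂μ := by
    apply lintegral_congr_ae
    filter_upwards [RF.psiV_nonneg_ae hw h V x] with β hβ
    rw [sq, ENNReal.ofReal_mul hβ]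
  have h2 : ∫⁻ β, a' β * a' β ∂μ ≤ ∫⁻ β, ENNReal.ofReal (psiV w V' β x ^ 2) ∂μ := by
    apply lintegral_mono_ae
    filter_upwards [RF.psiV_nonneg_ae hw h V' x] with β hβ
    rw [sq, ENNReal.ofReal_mul hβ]
  rw [h1]
  refine le_trans ?_ h2
  have h3 : ∀ β, a β * a β = ⨆ K : ℕ, a β * min (a β) (K : ℝ≥0∞) := by
    intro β
    rw [← ENNReal.mul_iSup]
    congr 1
    have h4 : (⨆ K : ℕ, a β ⊓ (K : ℝ≥0∞)) = a β ⊓ ⨆ K : ℕ, (K : ℝ≥0∞) := inf_iSup_eq _ _ |>.symm
    rw [ENNReal.iSup_natCast, inf_top_eq] at h4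
    exact h4.symm
  simp only [h3]
  rw [lintegral_iSup]
  · apply iSup_le
    intro K
    set F : (Zd d → ℝ) → ℝ≥0∞ := fun β => min (a β) (K : ℝ≥0∞) with hF
    have hmF : Measurable F := hma.min measurable_const
    have hdF : DependsOn F (V : Set (Zd d)) := by
      intro β β' hβ
      simp only [hF]
      rw [hda hβ]
    have h5 := RF.mart hw h hV hx hmF hdF
    have h6 : ∫⁻ β, a β * F β ∂μ ≠ ∞ := by
      have h7 : ∫⁻ β, a β * F β ∂μ ≤ ∫⁻ β, a β * (K : ℝ≥0∞) ∂μ :=
        lintegral_mono fun β => mul_le_mul_right (min_le_right _ _) _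
      rw [lintegral_mul_const _ hma] at h7
      have h8 : ∫⁻ β, a β ∂μ = 1 := RF.mean_one hw h hx
      rw [h8, one_mul] at h7
      exact ne_top_of_le_ne_top (ENNReal.natCast_ne_top K) h7
    have h9 : ∫⁻ β, a β * F β ∂μ + ∫⁻ β, a β * F β ∂μ ≤
        ∫⁻ β, a' β * a' β ∂μ + ∫⁻ β, a β * F β ∂μ := by
      calc ∫⁻ β, a β * F β ∂μ + ∫⁻ β, a β * F β ∂μ
          = ∫⁻ β, a' β * F β ∂μ + ∫⁻ β, a' β * F β ∂μ := by rw [h5]
        _ = ∫⁻ β, (a' β * F β + a' β * F β) ∂μ :=
            (lintegral_add_left (hma'.mul hmF) _).symm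
        _ ≤ ∫⁻ β, (a' β * a' β + a β * F β) ∂μ := by
            apply lintegral_mono
            intro β
            change a' β * F β + a' β * F β ≤ a' β * a' β + a β * F β
            have h10 : F β * F β ≤ a β * F β := mul_le_mul_left (min_le_left _ _) _
            refine le_trans ?_ (add_le_add_right h10 _)
            rcases le_total (a' β) (F β) with h11 | h11
            · obtain ⟨c, hc⟩ := exists_add_of_le h11
              rw [hc]
              have : a' β * (a' β + c) + a' β * (a' β + c) ≤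
                  a' β * a' β + (a' β + c) * (a' β + c) := by
                have e1 : a' β * a' β + (a' β + c) * (a' β + c) =
                    a' β * (a' β + c) + a' β * (a' β + c) + c * c := by ring
                rw [e1]
                exact le_self_add
              exact this
            · obtain ⟨c, hc⟩ := exists_add_of_le h11
              rw [hc]
              have e1 : (F β + c) * (F β + c) + F β * F β =
                  (F β + c) * F β + (F β + c) * F β + c * c := by ring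
              rw [e1]
              exact le_self_add
        _ = ∫⁻ β, a' β * a' β ∂μ + ∫⁻ β, a β * F β ∂μ :=
            lintegral_add_left (hma'.mul hma') _
    exact (ENNReal.add_le_add_iff_right h6).1 h9
  · intro K
    exact hma.mul (hma.min measurable_const)
  · intro K L hKL β
    change a β * min (a β) (K : ℝ≥0∞) ≤ a β * min (a β) (L : ℝ≥0∞)
    gcongr

theorem RF.integrable_psiV [NeZero d] (hw : 0 < w) (h : RF w μ) (hx : x ∈ V) :
    Integrable (fun β => psiV w V β x) μ := by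
  refine ⟨(measurable_psiV w V x).aestronglyMeasurable, ?_⟩
  rw [hasFiniteIntegral_iff_ofReal (RF.psiV_nonneg_ae hw h V x), RF.mean_one hw h hx]
  exact ENNReal.one_lt_top

theorem RF.mart_real [NeZero d] (hw : 0 < w) (h : RF w μ) (hV : V ⊆ V') (hx : x ∈ V)
    {S : Set (Zd d → ℝ)} (hS : MeasurableSet S)
    (hd : DependsOn (fun β => S.indicator (fun _ => (1 : ℝ≥0∞)) β) (V : Set (Zd d))) :
    ∫ β in S, psiV w V' β x ∂μ = ∫ β in S, psiV w V β x ∂μ := by
  rw [integral_eq_lintegral_of_nonneg_ae (ae_restrict_of_ae (RF.psiV_nonneg_ae hw h V' x))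
      (measurable_psiV w V' x).aestronglyMeasurable,
    integral_eq_lintegral_of_nonneg_ae (ae_restrict_of_ae (RF.psiV_nonneg_ae hw h V x))
      (measurable_psiV w V x).aestronglyMeasurable]
  congr 1
  have h1 := RF.mart hw h hV hx (F := fun β => S.indicator (fun _ => (1 : ℝ≥0∞)) β)
    (measurable_const.indicator hS) hd
  have h2 : ∀ U : Finset (Zd d), ∫⁻ β in S, ENNReal.ofReal (psiV w U β x) ∂μ =
      ∫⁻ β, ENNReal.ofReal (psiV w U β x) * S.indicator (fun _ => (1 : ℝ≥0∞)) β ∂μ := by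
    intro U
    rw [← lintegral_indicator hS]
    apply lintegral_congr
    intro β
    by_cases hβ : β ∈ S
    · rw [Set.indicator_of_mem hβ, Set.indicator_of_mem hβ, mul_one]
    · rw [Set.indicator_of_notMem hβ, Set.indicator_of_notMem hβ, mul_zero]
  rw [h2, h2, h1]

theorem RF.l1_contr [NeZero d] (hw : 0 < w) (h : RF w μ) (hV : V ⊆ V') (hx : x ∈ V)
    {Y : (Zd d → ℝ) → ℝ} (hY : Measurable Y) (hd : DependsOn Y (V : Set (Zd d)))
    (hYi : ∫⁻ β, ENNReal.ofReal |Y β| ∂μ < ∞) :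
    ∫⁻ β, ENNReal.ofReal |psiV w V β x - Y β| ∂μ ≤
      ∫⁻ β, ENNReal.ofReal |psiV w V' β x - Y β| ∂μ := by
  have hYint : Integrable Y μ := by
    refine ⟨hY.aestronglyMeasurable, ?_⟩
    rw [hasFiniteIntegral_iff_norm]
    exact hYi
  have hp := RF.integrable_psiV hw h hx
  have hp' := RF.integrable_psiV hw h (hV hx)
  set S : Set (Zd d → ℝ) := {β | Y β ≤ psiV w V β x} with hS
  have hSm : MeasurableSet S := measurableSet_le hY (measurable_psiV w V x)
  have hmem : ∀ β β' : Zd d → ℝ, (∀ i ∈ (V : Set (Zd d)), β i = β' i) → (β ∈ S ↔ β' ∈ S) := by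
    intro β β' hβ
    have h0 : psiV w V β x = psiV w V β' x := dependsOn_psiV w V x hβ
    change Y β ≤ psiV w V β x ↔ Y β' ≤ psiV w V β' x
    rw [hd hβ, h0]
  have hdS : DependsOn (fun β => S.indicator (fun _ => (1 : ℝ≥0∞)) β) (V : Set (Zd d)) := by
    intro β β' hβ
    change S.indicator (fun _ => (1 : ℝ≥0∞)) β = S.indicator (fun _ => (1 : ℝ≥0∞)) β'
    by_cases h1 : β ∈ S
    · rw [Set.indicator_of_mem h1, Set.indicator_of_mem ((hmem β β' hβ).1 h1)]
    · rw [Set.indicator_of_notMem h1, Set.indicator_of_notMem (fun h2 => h1 ((hmem β β' hβ).2 h2))]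
  have hdSc : DependsOn (fun β => Sᶜ.indicator (fun _ => (1 : ℝ≥0∞)) β) (V : Set (Zd d)) := by
    intro β β' hβ
    change Sᶜ.indicator (fun _ => (1 : ℝ≥0∞)) β = Sᶜ.indicator (fun _ => (1 : ℝ≥0∞)) β'
    by_cases h1 : β ∈ S
    · have h2 : β ∉ Sᶜ := fun h3 => h3 h1
      have h4 : β' ∉ Sᶜ := fun h3 => h3 ((hmem β β' hβ).1 h1)
      rw [Set.indicator_of_notMem h2, Set.indicator_of_notMem h4]
    · have h2 : β ∈ Sᶜ := h1
      have h4 : β' ∈ Sᶜ := fun h2 => h1 ((hmem β β' hβ).2 h2)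
      rw [Set.indicator_of_mem h2, Set.indicator_of_mem h4]
  have e1 := RF.mart_real hw h hV hx hSm hdS
  have e2 := RF.mart_real hw h hV hx hSm.compl hdSc
  have hi : Integrable (fun β => |psiV w V β x - Y β|) μ := (hp.sub hYint).abs
  have hi' : Integrable (fun β => |psiV w V' β x - Y β|) μ := (hp'.sub hYint).abs
  rw [← ofReal_integral_eq_lintegral_ofReal hi (Filter.Eventually.of_forall fun _ => abs_nonneg _),
    ← ofReal_integral_eq_lintegral_ofReal hi' (Filter.Eventually.of_forall fun _ => abs_nonneg _)]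
  apply ENNReal.ofReal_le_ofReal
  rw [← integral_add_compl hSm hi, ← integral_add_compl hSm hi']
  have f1 : ∫ β in S, |psiV w V β x - Y β| ∂μ = ∫ β in S, (psiV w V β x - Y β) ∂μ :=
    setIntegral_congr_fun hSm fun β hβ => abs_of_nonneg (sub_nonneg.2 hβ)
  have f2 : ∫ β in Sᶜ, |psiV w V β x - Y β| ∂μ = ∫ β in Sᶜ, (Y β - psiV w V β x) ∂μ := by
    refine setIntegral_congr_fun hSm.compl fun β hβ => ?_
    have hβ' : psiV w V β x < Y β := not_le.1 hβ
    change |psiV w V β x - Y β| = Y β - psiV w V β x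
    rw [abs_of_neg (sub_neg.2 hβ'), neg_sub]
  have g1 : ∫ β in S, (psiV w V' β x - Y β) ∂μ ≤ ∫ β in S, |psiV w V' β x - Y β| ∂μ :=
    integral_mono (hp'.sub hYint).integrableOn hi'.integrableOn fun β => le_abs_self _
  have g2 : ∫ β in Sᶜ, (Y β - psiV w V' β x) ∂μ ≤ ∫ β in Sᶜ, |psiV w V' β x - Y β| ∂μ := by
    refine integral_mono (hYint.sub hp').integrableOn hi'.integrableOn fun β => ?_
    change Y β - psiV w V' β x ≤ |psiV w V' β x - Y β|
    rw [abs_sub_comm]
    exact le_abs_self _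
  rw [f1, f2]
  rw [integral_sub hp.integrableOn hYint.integrableOn,
    integral_sub hYint.integrableOn hp.integrableOn]
  rw [integral_sub hp'.integrableOn hYint.integrableOn] at g1
  rw [integral_sub hYint.integrableOn hp'.integrableOn] at g2
  linarith

end VJ26
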