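import Pool.Agent.VJ26.Defs

/-!
# VJ26: definitions on `Z^d`
-/

open MeasureTheory Real
open scoped ENNReal

namespace VJ26

/-- The vertex set `Z^d`. -/
abbrev Zd (d : ℕ) := Fin d → ℤ

variable {d : ℕ}

/-- Nearest neighbours in `Z^d`: `ℓ¹` distance one. -/
def Adj (i j : Zd d) : Prop := ∑ k, |i k - j k| = 1

instance : DecidableRel (Adj (d := d)) :=
  fun i j => inferInstanceAs (Decidable (∑ k, |i k - j k| = 1))

/-- The finite set of nearest neighbours of `i`. -/
noncomputable def nb (i : Zd d) : Finset (Zd d) := (Finset.Icc (i - 1) (i + 1)).filter fun j => Adj i j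

/-- Constant conductance `w` on the nearest neighbour edges. -/
noncomputable def Wd (w : ℝ) (i j : Zd d) : ℝ := if Adj i j then w else 0

/-- `η_V(i) = ∑_{j ∼ i, j ∉ V} w`. -/
noncomputable def etaV (w : ℝ) (V : Finset (Zd d)) (i : Zd d) : ℝ := ∑ j ∈ nb i, if j ∈ V then 0 else w

/-- `ψ_V(i) = ∑_{k∈V} G_V(i,k) η_V(k)`. -/
noncomputable def psiV (w : ℝ) (V : Finset (Zd d)) (β : Zd d → ℝ) (i : Zd d) : ℝ :=
  psi (Wd w) V β (etaV w V) i

/-- The law of the potential on `Z^d`: every finite restriction has the right law. -/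
structure RF (w : ℝ) (μ : Measure (Zd d → ℝ)) : Prop where
  vr : ∀ U : Finset (Zd d), VR μ U (Wd w) (etaV w U)

/-- translation of the potential -/
def shiftB (x : Zd d) (β : Zd d → ℝ) : Zd d → ℝ := fun i => β (i + x)

/-- translate of a finite set -/
noncomputable def trans (V : Finset (Zd d)) (x : Zd d) : Finset (Zd d) :=
  V.map (Equiv.addRight x).toEmbedding

/-- the box of radius `m` -/
noncomputable def box (m : ℕ) : Finset (Zd d) := Finset.Icc (fun _ => -(m : ℤ)) (fun _ => (m : ℤ))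

/-- the segment `{0, e, 2 e, ..., (n-1) e}` in the first coordinate direction -/
noncomputable def seg [NeZero d] (n : ℕ) : Finset (Zd d) :=
  (Finset.range n).image fun k : ℕ => Pi.single (0 : Fin d) (k : ℤ)

/-- The conductance from `0` to the outside is not small, uniformly in the domain: its Laplace
transform tends to zero uniformly. -/
def SmallH (w : ℝ) (μ : Measure (Zd d → ℝ)) : Prop :=
  ∀ ε : ℝ, 0 < ε → ∃ x : ℝ, 0 < x ∧ ∀ V : Finset (Zd d), 0 ∈ V →
    ∫⁻ β, ENNReal.ofReal (exp (-(x * hB (Wd w) V {0} (etaV w V) β))) ∂μ ≤ ENNReal.ofReal ε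

/-- `1 +` the local time at `j` accumulated during the first `n` holding periods. -/
noncomputable def locT (x : ℕ → Zd d) (t : ℕ → ℝ) (n : ℕ) (j : Zd d) : ℝ :=
  1 + ∑ m ∈ Finset.range n, if x m = j then t m else 0

/-- The vertex reinforced jump process on `Z^d` with constant conductances `w`, started at `0`,
given by its jump chain `X 0, X 1, ...` and its holding times `T 0, T 1, ...`.
With `L_j = locT X T n j` (`1 +` the local time at `j` when the process arrives at `X n`):
* given `(X 0, T 0, ..., T (n-1), X n)`, the holding time `T n` is exponential with rate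
  `∑_{j ∼ X n} w L_j` (field `hold`);
* given `(X 0, T 0, ..., X n, T n)`, the next vertex `X (n+1)` is `j ∼ X n` with probability
  `w L_j / ∑_{k ∼ X n} w L_k` (field `jump`). -/
structure IsVRJP (w : ℝ) {Ω : Type*} [MeasurableSpace Ω] (P : Measure Ω)
    (X : ℕ → Ω → Zd d) (T : ℕ → Ω → ℝ) : Prop where
  prob : IsProbabilityMeasure P
  measX : ∀ n, Measurable (X n)
  measT : ∀ n, Measurable (T n)
  start : ∀ᵐ ω ∂P, X 0 ω = 0
  hold : ∀ (n : ℕ) (f : (Fin (n + 1) → Zd d) × (Fin n → ℝ) × ℝ → ℝ≥0∞), Measurable f →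
    ∫⁻ ω, f (fun k => X k ω, fun k => T k ω, T n ω) ∂P =
      ∫⁻ ω, (∫⁻ t in Set.Ioi (0 : ℝ),
        ENNReal.ofReal ((w * ∑ j ∈ nb (X n ω), locT (X · ω) (T · ω) n j) *
          exp (-((w * ∑ j ∈ nb (X n ω), locT (X · ω) (T · ω) n j) * t))) *
        f (fun k => X k ω, fun k => T k ω, t)) ∂P
  jump : ∀ (n : ℕ) (f : (Fin (n + 1) → Zd d) × (Fin (n + 1) → ℝ) × Zd d → ℝ≥0∞), Measurable f →
    ∫⁻ ω, f (fun k => X k ω, fun k => T k ω, X (n + 1) ω) ∂P =
      ∫⁻ ω, (∑ j ∈ nb (X n ω),
        ENNReal.ofReal (w * locT (X · ω) (T · ω) n j /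
          (w * ∑ k ∈ nb (X n ω), locT (X · ω) (T · ω) n k)) *
        f (fun k => X k ω, fun k => T k ω, j)) ∂P

/-- Transience: almost surely every vertex is visited finitely often. -/
def IsTransient {Ω : Type*} [MeasurableSpace Ω] (P : Measure Ω) (X : ℕ → Ω → Zd d) : Prop :=
  ∀ᵐ ω ∂P, ∀ v : Zd d, {n | X n ω = v}.Finite

end VJ26
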