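import Pool.Agent.VJ26.ZAvg
import Pool.Agent.VJ26.Large
import Pool.Agent.VJ26.UBound

/-!
# VJ26: the uniform second moment bound under `SmallH`
-/

open MeasureTheory Real
open scoped ENNReal

namespace VJ26

variable {d : ℕ} {w : ℝ} {μ : Measure (Zd d → ℝ)}

theorem RF.main_bound [NeZero d] (hw : 0 < w) (h : RF w μ) (hS : SmallH w μ) :
    ∃ C : ℝ, ∀ V : Finset (Zd d), 0 ∈ V →
      ∫⁻ β, ENNReal.ofReal (psiV w V β 0 ^ 2) ∂μ ≤ ENNReal.ofReal C := by
  classical
  obtain ⟨n, hn, V₀, hsV₀, hV₀⟩ := h.avg_small hw hS (ε := 1 / 100000) (by norm_num)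
  have hinf : Infinite (Zd d) := inferInstance
  refine ⟨(1 + 1 / w) ^ n * 2, fun V h0 => ?_⟩
  -- first for large domains
  have key : ∀ V : Finset (Zd d), V₀ ⊆ V → 0 ∈ V →
      ∫⁻ β, ENNReal.ofReal (psiV w V β 0 ^ 2) ∂μ ≤ ENNReal.ofReal ((1 + 1 / w) ^ n * 2) := by
    intro V hV h0
    have hWt := wt_Wd (d := d) hw.le
    have hη := etaV_nonneg (d := d) hw.le V
    have hBV : seg n ⊆ V := hsV₀.trans hV
    have hne : (seg (d := d) n).Nonempty := by
      rw [← Finset.card_pos, card_seg]; omega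
    have hVR := h.vr V
    have hA := hV₀ V hV
    have hlarge := large_h hWt hη hVR hBV hne (by
      have : ((seg (d := d) n).card : ℝ) = (n : ℝ) := by rw [card_seg]
      simpa only [this, psiV] using hA)
    have hmarg : VR μ (V \ seg n) (Wd w) (WB (Wd w) (seg n) + etaV w V) := by
      rw [add_comm]; exact VR.marg_sdiff hWt hBV hVR
    have hub := u_bound (b := ∑ j ∈ seg n, etaV w V j) hWt
      (fun i => Finset.sum_nonneg fun j _ => hWt.nonneg j i) hη
      (Finset.sum_nonneg fun j _ => hη j) hmarg hlarge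
    have hch := remove_chain hWt hη hVR hw (grow_seg hw hn) hBV
    have hbd : ∫⁻ β, (ENNReal.ofReal (hB (Wd w) V (seg n) (etaV w V) β))⁻¹ ∂μ ≤ 1 := hub
    rw [h.sq_formula hw h0, add_comm]
    calc _ ≤ _ := hch
      _ ≤ ENNReal.ofReal ((1 + 1 / w) ^ (seg (d := d) n).card) * (1 + 1) := by
          gcongr
      _ = ENNReal.ofReal ((1 + 1 / w) ^ n * 2) := by
          rw [card_seg, ENNReal.ofReal_mul (by positivity)]
          norm_num
  calc _ ≤ ∫⁻ β, ENNReal.ofReal (psiV w (V ∪ V₀) β 0 ^ 2) ∂μ :=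
        h.sq_mono hw Finset.subset_union_left h0
    _ ≤ _ := key _ Finset.subset_union_right (Finset.mem_union_left _ h0)

/-- the same bound at every vertex -/
theorem RF.main_bound' [NeZero d] (hw : 0 < w) (h : RF w μ) (hS : SmallH w μ) :
    ∃ C : ℝ, ∀ (V : Finset (Zd d)) (i : Zd d), i ∈ V →
      ∫⁻ β, ENNReal.ofReal (psiV w V β i ^ 2) ∂μ ≤ ENNReal.ofReal C := by
  obtain ⟨C, hC⟩ := h.main_bound hw hS
  refine ⟨C, fun V i hi => ?_⟩
  have hV : trans (trans V (-i)) i = V := by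
    ext x
    simp [trans, Equiv.addRight]
  have h0 : (0 : Zd d) ∈ trans V (-i) := by
    simp only [trans, Finset.mem_map, Equiv.coe_toEmbedding, Equiv.coe_addRight]
    exact ⟨i, hi, by simp⟩
  have hsh := h.lintegral_shift (U := trans V (-i)) i
    (F := fun β => ENNReal.ofReal (psiV w (trans V (-i)) β 0 ^ 2))
    (((measurable_psiV w _ 0).pow_const 2).ennreal_ofReal)
    (fun x y hxy => by
      have := dependsOn_psiV w (trans V (-i)) 0 hxy
      simp only at this ⊢
      rw [this])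
  have hgood := h.allGood hw.le V
  have heq : ∫⁻ β, ENNReal.ofReal (psiV w V β i ^ 2) ∂μ =
      ∫⁻ β, ENNReal.ofReal (psiV w (trans V (-i)) (shiftB i β) 0 ^ 2) ∂μ := by
    apply lintegral_congr_ae
    filter_upwards [hgood] with β hβ
    have hG : Good (Wd w) (trans (trans V (-i)) i) β := by
      rw [hV]; exact hβ.1 V (Finset.Subset.refl _)
    have := psiV_shift hG 0
    rw [hV, zero_add] at this
    rw [this]
  rw [heq, hsh]
  exact hC _ h0

end VJ26
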