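import Pool.Agent.VJ26.ZPos

/-!
# [VJ-ZMART] Positivity and the martingale property on `Z^d`

This file: `RF.mart`, `RF.mean_one`

`psiV_pos`: `ψ = psiV w V β ≥ 0`; if `ψ_i = 0`, `i ∈ V`, then `psi_eq` gives
`∑_{k∈V} W_ik ψ_k + etaV V i = 0`, all terms vanish: every neighbour of `i` is in `V` and has
`ψ = 0`. So `i + k e₀ ∈ V` for all `k : ℕ`, impossible (`V` finite).
`sfn_pos`: `psi_insert_self`: `0 < psiV (insert m V) m = s T`, `T > 0`.
`mart`: induction on `V' \ V` (or `Finset.induction` on the added set, `Finset.le_induction`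
type argument) with `VR.mean_step` (`m` the new vertex, `θ = etaV w (insert m V)`,
`psi W V β (θ + W m) x = psiV w V β x` by `psi_congr` and `etaV_insert`).
`mean_one`: `VR.mean_eq` with `U = ∅` for `V = {x}` and then `mart` with `F = 1`.
`sq_mono`: for `K > 0` let `F = min(ψ_V(x), K)`: `E[ψ_V F] = E[ψ_{V'} F] ≤ (E ψ_{V'}^2)^{1/2}
(E F^2)^{1/2} ≤ (E ψ_{V'}^2)^{1/2} (E[ψ_V F])^{1/2}`, so `E[ψ_V F] ≤ E ψ_{V'}^2`, `K → ∞`. (Or
integrate `2 a b ≤ a^2 + b^2`: `2E[ψ_V F] ≤ E ψ_{V'}^2 + E F^2 ≤ E ψ_{V'}^2 + E[ψ_V F]` and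
`E[ψ_V F] ≤ K < ∞`.)
`l1_contr`: `Y ≥ 0` measurable, depends on `V`, `E Y < ∞`. With `S = {ψ_V ≥ Y}` (depends on `V`):
`E|ψ_V - Y| = E[(ψ_V - Y)1_S] + E[(Y - ψ_V)1_{S^c}] = E[(ψ_{V'} - Y)1_S] + E[(Y - ψ_{V'})1_{S^c}]`
`≤ E|ψ_{V'} - Y|` (real integrals, everything is integrable).
-/

open MeasureTheory Real
open scoped ENNReal

namespace VJ26

variable {d : ℕ} {w : ℝ} {μ : Measure (Zd d → ℝ)} {V V' U : Finset (Zd d)} {i j m x : Zd d}
  {β : Zd d → ℝ}

theorem h77_ae_sfn_pos [NeZero d] (hw : 0 < w) (h : RF w μ) (hm : m ∉ U) :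
    ∀ᵐ β ∂μ, 0 < sfn (Wd w) U (etaV w (insert m U)) m β := by
  filter_upwards [h38_good (wt_Wd hw.le) (etaV_nonneg hw.le (insert m U)) hm
    (h.vr (insert m U))] with β hβ
  exact sfn_pos hw hm hβ.1 hβ.2

theorem h77_step [NeZero d] (hw : 0 < w) (h : RF w μ) (hm : m ∉ U) (hx : x ∈ U)
    {F : (Zd d → ℝ) → ℝ≥0∞} (hF : Measurable F) (hd : DependsOn F (U : Set (Zd d))) :
    ∫⁻ β, ENNReal.ofReal (psiV w (insert m U) β x) * F β ∂μ =
      ∫⁻ β, ENNReal.ofReal (psiV w U β x) * F β ∂μ := by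
  have h1 := VR.mean_step (wt_Wd hw.le) (etaV_nonneg hw.le (insert m U)) hm
    (h.vr (insert m U)) (h77_ae_sfn_pos hw h hm) hx hF hd
  have h2 : ∀ β : Zd d → ℝ, psi (Wd w) U β (etaV w (insert m U) + Wd w m) x =
      psiV w U β x := by
    intro β
    unfold psiV psi
    refine Finset.sum_congr rfl fun j hj => ?_
    rw [etaV_insert hm hj]
    rfl
  simp only [h2] at h1
  exact h1

theorem RF.mart [NeZero d] (hw : 0 < w) (h : RF w μ) (hV : V ⊆ V') (hx : x ∈ V)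
    {F : (Zd d → ℝ) → ℝ≥0∞} (hF : Measurable F) (hd : DependsOn F (V : Set (Zd d))) :
    ∫⁻ β, ENNReal.ofReal (psiV w V' β x) * F β ∂μ =
      ∫⁻ β, ENNReal.ofReal (psiV w V β x) * F β ∂μ := by
  have key : ∀ S : Finset (Zd d), ∫⁻ β, ENNReal.ofReal (psiV w (V ∪ S) β x) * F β ∂μ =
      ∫⁻ β, ENNReal.ofReal (psiV w V β x) * F β ∂μ := by
    intro S
    induction S using Finset.induction_on with
    | empty => rw [Finset.union_empty]
    | insert m S hmS ih =>
      rw [Finset.union_insert]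
      by_cases hm : m ∈ V ∪ S
      · rw [Finset.insert_eq_of_mem hm, ih]
      · have hd' : DependsOn F ((V ∪ S : Finset (Zd d)) : Set (Zd d)) := by
          intro β β' hb
          exact hd fun i hi => hb i (by
            rw [Finset.coe_union]
            exact Or.inl hi)
        rw [h77_step hw h hm (Finset.mem_union_left S hx) hF hd', ih]
  have := key V'
  rwa [Finset.union_eq_right.2 hV] at this

theorem RF.mean_one [NeZero d] (hw : 0 < w) (h : RF w μ) (hx : x ∈ V) :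
    ∫⁻ β, ENNReal.ofReal (psiV w V β x) ∂μ = 1 := by
  have hprob := (h.vr ∅).prob
  have h0 : x ∉ (∅ : Finset (Zd d)) := Finset.notMem_empty x
  have h1 := RF.mart hw h (Finset.singleton_subset_iff.2 hx) (Finset.mem_singleton_self x)
    (F := fun _ => 1) measurable_const (fun _ _ _ => rfl)
  have h2 := VR.mean_eq (wt_Wd hw.le) (etaV_nonneg hw.le (insert x ∅)) h0
    (h.vr (insert x ∅)) (h77_ae_sfn_pos hw h h0) (F := fun _ => 1) measurable_const
    (fun _ _ _ => rfl)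
  simp only [mul_one] at h1 h2
  rw [h1, ← insert_empty_eq x]
  refine h2.trans ?_
  rw [lintegral_one, measure_univ]

end VJ26
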