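import Pool.Agent.VJ26.ZShift
import Pool.Agent.VJ26.Mean2

/-!
# [VJ-ZPOS] Positivity and the martingale property on `Z^d`

This file: `psiV_pos`, `sfn_pos`

`psiV_pos`: `ψ = psiV w V β ≥ 0`; if `ψ_i = 0`, `i ∈ V`, then `psi_eq` gives
`∑_{k∈V} W_ik ψ_k + etaV V i = 0`, all terms vanish: every neighbour of `i` is in `V` and has
`ψ = 0`. So `i + k e₀ ∈ V` for all `k : ℕ`, impossible (`V` finite).
`sfn_pos`: `psi_insert_self`: `0 < psiV (insert m V) m = s T`, `T > 0`.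
`mart`: induction on `V' \ V` (or `Finset.induction` on the added set, `Finset.le_induction`
type argument) with `VR.mean_step` (`m` the new vertex, `θ = etaV w (insert m V)`,
`psi W V β (θ + W m) x = psiV w V β x` by `psi_congr` and `etaV_insert`).
`mean_one`: `VR.mean_eq` with `U = ∅` for `V = {x}` and then `mart` with `F = 1`.
`sq_mono`: for `K > 0` let `F = min(ψ_V(x), K)`: `E[ψ_V F] = E[ψ_{V'} F] ≤ (E ψ_{V'}^2)^{1/2}
(E F^2)^{1/2} ≤ (E ψ_{V'}^2)^{1/2} (E[ψ_V F])^{1/2}`, so `E[ψ_V F] ≤ E ψ_{V'}^2`, `K → ∞`. (Or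
integrate `2 a b ≤ a^2 + b^2`: `2E[ψ_V F] ≤ E ψ_{V'}^2 + E F^2 ≤ E ψ_{V'}^2 + E[ψ_V F]` and
`E[ψ_V F] ≤ K < ∞`.)
`l1_contr`: `Y ≥ 0` measurable, depends on `V`, `E Y < ∞`. With `S = {ψ_V ≥ Y}` (depends on `V`):
`E|ψ_V - Y| = E[(ψ_V - Y)1_S] + E[(Y - ψ_V)1_{S^c}] = E[(ψ_{V'} - Y)1_S] + E[(Y - ψ_{V'})1_{S^c}]`
`≤ E|ψ_{V'} - Y|` (real integrals, everything is integrable).
-/

open MeasureTheory Real
open scoped ENNReal

namespace VJ26

variable {d : ℕ} {w : ℝ} {μ : Measure (Zd d → ℝ)} {V V' U : Finset (Zd d)} {i j m x : Zd d}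
  {β : Zd d → ℝ}

private theorem zpos_step (hw : 0 < w) (hG : Good (Wd w) V β) (hx : x ∈ V)
    (h0 : psiV w V β x = 0) (hxy : Adj x j) : j ∈ V ∧ psiV w V β j = 0 := by
  have h1 := psi_eq hG (etaV w V) hx
  have hW : ∀ k ∈ V, 0 ≤ Wd w x k * psiV w V β k := fun k _ =>
    mul_nonneg ((wt_Wd hw.le).nonneg x k) (psiV_nonneg hw.le hG k)
  have hS : 0 ≤ ∑ k ∈ V, Wd w x k * psiV w V β k := Finset.sum_nonneg hW
  have hE := etaV_nonneg hw.le V x
  have h2 : psi (Wd w) V β (etaV w V) x = 0 := h0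
  rw [h2, mul_zero, zero_sub] at h1
  have hS' : ∑ k ∈ V, Wd w x k * psiV w V β k = 0 := by
    unfold psiV at hS ⊢
    linarith
  have hE' : etaV w V x = 0 := by
    unfold psiV at hS
    linarith
  have hjV : j ∈ V := by
    by_contra hj
    have h3 : ∀ k ∈ nb x, 0 ≤ (if k ∈ V then 0 else w) := fun k _ => by
      split_ifs
      · exact le_rfl
      · exact hw.le
    have h4 := (Finset.sum_eq_zero_iff_of_nonneg h3).1 hE' j (mem_nb.2 hxy)
    rw [if_neg hj] at h4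
    exact hw.ne' h4
  refine ⟨hjV, ?_⟩
  have h5 := (Finset.sum_eq_zero_iff_of_nonneg hW).1 hS' j hjV
  have h6 : Wd w x j = w := by
    unfold Wd
    rw [if_pos hxy]
  rw [h6] at h5
  rcases mul_eq_zero.1 h5 with h | h
  · exact absurd h hw.ne'
  · exact h

private theorem zpos_adj [NeZero d] (x : Zd d) (k : ℕ) :
    Adj (x + Pi.single (0 : Fin d) (k : ℤ)) (x + Pi.single (0 : Fin d) ((k + 1 : ℕ) : ℤ)) := by
  unfold Adj
  rw [Finset.sum_eq_single (0 : Fin d)]
  · simp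
  · intro l _ hl
    simp [hl]
  · intro h
    exact absurd (Finset.mem_univ _) h

theorem psiV_pos [NeZero d] (hw : 0 < w) (hG : Good (Wd w) V β) (hi : i ∈ V) :
    0 < psiV w V β i := by
  by_contra hcon
  have h0 : psiV w V β i = 0 := le_antisymm (not_lt.1 hcon) (psiV_nonneg hw.le hG i)
  have hall : ∀ k : ℕ, i + Pi.single (0 : Fin d) (k : ℤ) ∈ V ∧
      psiV w V β (i + Pi.single (0 : Fin d) (k : ℤ)) = 0 := by
    intro k
    induction k with
    | zero =>
      have h : i + Pi.single (0 : Fin d) ((0 : ℕ) : ℤ) = i := by simp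
      rw [h]
      exact ⟨hi, h0⟩
    | succ k ih => exact zpos_step hw hG ih.1 ih.2 (zpos_adj i k)
  have hinj : Function.Injective fun k : ℕ => i + Pi.single (0 : Fin d) (k : ℤ) := by
    intro a b hab
    have h := congrFun hab (0 : Fin d)
    simpa using h
  exact Set.infinite_of_injective_forall_mem hinj (fun k => (hall k).1) V.finite_toSet

theorem sfn_pos [NeZero d] (hw : 0 < w) (hm : m ∉ V) (hG : Good (Wd w) V β)
    (hG' : Good (Wd w) (insert m V) β) :
    0 < sfn (Wd w) V (etaV w (insert m V)) m β := by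
  have h1 := psi_insert_self (wt_Wd hw.le) hG hG' hm (etaV w (insert m V))
  have h2 : 0 < psiV w (insert m V) β m := psiV_pos hw hG' (Finset.mem_insert_self m V)
  unfold psiV at h2
  rw [h1] at h2
  have h3 := hG'.pos m (Finset.mem_insert_self m V)
  exact pos_of_mul_pos_left h2 h3.le

end VJ26
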