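import Pool.Agent.VJ26.ZBasic

/-!
# [VJ-ZSHIFT] Basic facts on `Z^d`

This file: `RF.lintegral_shift`, `psiV_shift`

`mem_nb`: if `∑ |i k - j k| = 1` then every `|i k - j k| ≤ 1`.
`etaV_eq_rate`: the rate formula: `∑_{j∈V} Wd i j L_j + etaV V i = w ∑_{j∈nb i} L_j` if `L = 1`
off `V`. `etaV_insert`: for `i ∈ V`, `m ∉ V`, `i ≠ m`:
`etaV V i = etaV (insert m V) i + Wd w m i`.
`RF.lintegral_shift`: the translated field has the same finite-dimensional laws:
`VR (μ.map (shiftB x)) U (Wd w) (etaV w U)` for finite `U` (Laplace functional of `μ` for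
`trans U x` and `L (· - x)`; `Wd`, `etaV` are translation invariant), then `VR.lintegral_eq`.
`psiV_shift`: `gr_relabel` with `e = Equiv.addRight x` (or `IsGreen.eq_gr`).
`RF.allGood`: `VR.allGood`.
-/

open MeasureTheory Real
open scoped ENNReal

namespace VJ26

variable {d : ℕ} {w : ℝ} {μ : Measure (Zd d → ℝ)} {V U : Finset (Zd d)} {i j m x : Zd d}
  {β L : Zd d → ℝ}

theorem adj_shift : Adj (i + x) (j + x) ↔ Adj i j := by
  simp [Adj]

theorem Wd_shift (w : ℝ) (i j x : Zd d) : Wd w (i + x) (j + x) = Wd w i j := by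
  unfold Wd
  simp only [adj_shift]

theorem add_mem_trans : j + x ∈ trans V x ↔ j ∈ V := by
  simp [trans]

theorem nb_shift (i x : Zd d) : nb (i + x) = (nb i).map (Equiv.addRight x).toEmbedding := by
  ext j
  rw [mem_nb, Finset.mem_map]
  constructor
  · intro h
    refine ⟨j - x, ?_, by simp⟩
    rw [mem_nb, ← adj_shift (x := x)]
    simpa using h
  · rintro ⟨k, hk, rfl⟩
    rw [mem_nb] at hk
    simpa using adj_shift.mpr hk

theorem etaV_shift (w : ℝ) (V : Finset (Zd d)) (i x : Zd d) :
    etaV w (trans V x) (i + x) = etaV w V i := by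
  unfold etaV
  rw [nb_shift, Finset.sum_map]
  refine Finset.sum_congr rfl fun j _ => ?_
  simp only [Equiv.coe_toEmbedding, Equiv.coe_addRight, add_mem_trans]

theorem sum_trans (V : Finset (Zd d)) (x : Zd d) (f : Zd d → ℝ) :
    ∑ i ∈ trans V x, f i = ∑ i ∈ V, f (i + x) := by
  unfold trans
  rw [Finset.sum_map]
  rfl

theorem prod_trans (V : Finset (Zd d)) (x : Zd d) (f : Zd d → ℝ) :
    ∏ i ∈ trans V x, f i = ∏ i ∈ V, f (i + x) := by
  unfold trans
  rw [Finset.prod_map]
  rfl

theorem Lam_shift (w : ℝ) (U : Finset (Zd d)) (x : Zd d) (L : Zd d → ℝ) :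
    Lam (trans U x) (Wd w) (etaV w (trans U x)) (fun j => L (j - x)) =
      Lam U (Wd w) (etaV w U) L := by
  unfold Lam
  rw [sum_trans, sum_trans, prod_trans]
  have h1 : ∀ i, ∑ j ∈ trans U x, Wd w (i + x) j * (L i * L (j - x) - 1) =
      ∑ j ∈ U, Wd w i j * (L i * L j - 1) := by
    intro i
    rw [sum_trans]
    refine Finset.sum_congr rfl fun j _ => ?_
    rw [Wd_shift, add_sub_cancel_right]
  simp only [h1, etaV_shift, add_sub_cancel_right]

theorem measurable_shiftB (x : Zd d) : Measurable (shiftB x) :=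
  measurable_pi_lambda _ fun i => measurable_pi_apply (i + x)

theorem RF.vr_shift (h : RF w μ) (x : Zd d) (U : Finset (Zd d)) :
    VR (μ.map (shiftB x)) U (Wd w) (etaV w U) := by
  have hp := (h.vr (trans U x)).prob
  refine ⟨Measure.isProbabilityMeasure_map (measurable_shiftB x).aemeasurable, ?_, ?_⟩
  · intro i hi
    have hmeas : MeasurableSet {β : Zd d → ℝ | 0 < β i} :=
      measurableSet_lt measurable_const (measurable_pi_apply i)
    rw [ae_map_iff (measurable_shiftB x).aemeasurable hmeas]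
    exact (h.vr (trans U x)).pos (i + x) (add_mem_trans.mpr hi)
  · intro L hL
    have hm : Measurable fun β : Zd d → ℝ =>
        ENNReal.ofReal (exp (-∑ i ∈ U, ((L i) ^ 2 - 1) * β i)) := by
      refine (Real.measurable_exp.comp (Measurable.neg ?_)).ennreal_ofReal
      exact Finset.measurable_sum _ fun i _ => (measurable_pi_apply i).const_mul _
    rw [lintegral_map hm (measurable_shiftB x), ← Lam_shift w U x L,
      ← (h.vr (trans U x)).lap (fun j => L (j - x)) (fun j => hL (j - x))]
    refine lintegral_congr fun β => ?_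
    rw [sum_trans]
    simp only [add_sub_cancel_right, shiftB]

theorem RF.lintegral_shift (h : RF w μ) (x : Zd d) {F : (Zd d → ℝ) → ℝ≥0∞}
    (hF : Measurable F) (hd : DependsOn F (U : Set (Zd d))) :
    ∫⁻ β, F (shiftB x β) ∂μ = ∫⁻ β, F β ∂μ := by
  rw [← lintegral_map hF (measurable_shiftB x)]
  exact VR.lintegral_eq (h.vr_shift x U) (h.vr U) hF hd

theorem psiV_shift (hG : Good (Wd w) (trans V x) β) (i : Zd d) :
    psiV w (trans V x) β (i + x) = psiV w V (shiftB x β) i := by
  unfold psiV psi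
  rw [sum_trans]
  refine Finset.sum_congr rfl fun j _ => ?_
  rw [etaV_shift]
  congr 1
  exact gr_relabel (W := Wd w) (U := V) (Equiv.addRight x)
    (fun i j => Wd_shift w i j x) hG i j

end VJ26
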