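import Pool.Agent.VJ26.ZFin
import Pool.Agent.VJ26.Indep

/-!
# [VJ-ZVAR] Law of large numbers for the local approximations along the segment

`Y_x(β) = psiV w (trans (box m) x) β x` (`x ∈ seg n`), so `Y_x(β) = Y_0(shiftB x β)`
(`psiV_shift` with `i = 0`, a.s. good), `E Y_x = 1` (`RF.mean_one`), `E Y_x^2 = σ < ∞`
(`RF.sq_fin`, `RF.lintegral_shift`). If `x = a e₀`, `x' = b e₀`, `|a-b| ≥ 2m+2` then
`trans (box m) x` and `trans (box m) x'` are disjoint and not adjacent, so
`E Y_x Y_{x'} = 1` (`VR.indep`; the law on the union is `(h.vr _)`), otherwise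
`E Y_x Y_{x'} ≤ σ` (`2ab ≤ a^2+b^2`). Hence
`E (∑_{x∈seg n} Y_x / n - 1)^2 ≤ (number of pairs with |a-b| < 2m+2) σ / n^2 ≤ (4m+4) σ/n`
and `E|·| ≤ (E (·)^2)^{1/2}` (or `|y| ≤ δ/2 + y^2/(2δ)`).
-/

open MeasureTheory Real
open scoped ENNReal

namespace VJ26

variable {d : ℕ} {w : ℝ} {μ : Measure (Zd d → ℝ)}

theorem zv_mem_trans {V : Finset (Zd d)} {x y : Zd d} : y ∈ trans V x ↔ y - x ∈ V := by
  unfold trans
  rw [Finset.mem_map]
  constructor
  · rintro ⟨a, ha, rfl⟩
    simpa using ha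
  · intro h
    exact ⟨y - x, h, by simp⟩

theorem zv_mem_box {m : ℕ} {y : Zd d} : y ∈ box m ↔ ∀ k, -(m : ℤ) ≤ y k ∧ y k ≤ m := by
  unfold box
  rw [Finset.mem_Icc]
  constructor
  · rintro ⟨h1, h2⟩ k
    exact ⟨h1 k, h2 k⟩
  · intro h
    exact ⟨fun k => (h k).1, fun k => (h k).2⟩

theorem zv_far [NeZero d] {m : ℕ} {a b : ℤ} (hab : 2 * (m : ℤ) + 2 ≤ |a - b|) {i j : Zd d}
    (hi : i ∈ trans (box m) (Pi.single (0 : Fin d) a))
    (hj : j ∈ trans (box m) (Pi.single (0 : Fin d) b)) :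
    i ≠ j ∧ ¬ Adj i j := by
  rw [zv_mem_trans, zv_mem_box] at hi hj
  have h1 := hi 0
  have h2 := hj 0
  simp only [Pi.sub_apply, Pi.single_eq_same] at h1 h2
  have h3 : 2 ≤ |i 0 - j 0| := by
    rcases abs_cases (a - b) with h | h <;> rcases abs_cases (i 0 - j 0) with h' | h' <;> omega
  constructor
  · rintro rfl
    simp at h3
  · intro hadj
    unfold Adj at hadj
    have h4 : |i 0 - j 0| ≤ ∑ k, |i k - j k| :=
      Finset.single_le_sum (f := fun k => |i k - j k|) (fun k _ => abs_nonneg _)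
        (Finset.mem_univ 0)
    omega

/-- the local approximation at `a e₀` -/
noncomputable def zvY [NeZero d] (w : ℝ) (m : ℕ) (a : ℕ) (β : Zd d → ℝ) : ℝ :=
  psiV w (trans (box m) (Pi.single (0 : Fin d) (a : ℤ))) β (Pi.single (0 : Fin d) (a : ℤ))

theorem zv_self [NeZero d] (m a : ℕ) :
    (Pi.single (0 : Fin d) (a : ℤ) : Zd d) ∈ trans (box m) (Pi.single (0 : Fin d) (a : ℤ)) := by
  rw [zv_mem_trans, zv_mem_box]
  intro k
  simp

theorem zv_meas [NeZero d] (w : ℝ) (m a : ℕ) : Measurable (zvY (d := d) w m a) :=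
  measurable_psiV _ _ _

theorem zv_good (hw : 0 < w) (h : RF w μ) (V : Finset (Zd d)) : ∀ᵐ β ∂μ, Good (Wd w) V β :=
  (h.allGood hw.le V).mono fun _ hβ => hβ.1 V (Finset.Subset.refl V)

theorem zv_nonneg [NeZero d] (hw : 0 < w) (h : RF w μ) (m a : ℕ) :
    ∀ᵐ β ∂μ, 0 ≤ zvY w m a β :=
  (zv_good hw h (trans (box m) (Pi.single (0 : Fin d) (a : ℤ)))).mono fun _ hβ =>
    psiV_nonneg hw.le hβ _

theorem zv_sq [NeZero d] (hw : 0 < w) (h : RF w μ) (m a : ℕ) :
    ∫⁻ β, ENNReal.ofReal (zvY w m a β ^ 2) ∂μ =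
      ∫⁻ β, ENNReal.ofReal (psiV w (box m) β 0 ^ 2) ∂μ := by
  have hm : Measurable fun β : Zd d → ℝ => ENNReal.ofReal (psiV w (box m) β 0 ^ 2) :=
    ((measurable_psiV w (box m) 0).pow_const 2).ennreal_ofReal
  have hdep : DependsOn (fun β : Zd d → ℝ => ENNReal.ofReal (psiV w (box m) β 0 ^ 2))
      ((box m : Finset (Zd d)) : Set (Zd d)) := by
    intro β β' hβ
    have : psiV w (box m) β 0 = psiV w (box m) β' 0 := dependsOn_psiV w (box m) 0 hβ
    simp only [this]
  rw [← h.lintegral_shift (Pi.single (0 : Fin d) (a : ℤ)) hm hdep]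
  refine lintegral_congr_ae ?_
  filter_upwards [zv_good hw h (trans (box m) (Pi.single (0 : Fin d) (a : ℤ)))] with β hβ
  have h1 := psiV_shift hβ 0
  rw [zero_add] at h1
  unfold zvY
  rw [h1]

theorem zv_memLp [NeZero d] (hw : 0 < w) (h : RF w μ) (m a : ℕ) : MemLp (zvY w m a) 2 μ := by
  rw [memLp_two_iff_integrable_sq (zv_meas w m a).aestronglyMeasurable]
  rw [← lintegral_ofReal_ne_top_iff_integrable
    ((zv_meas w m a).pow_const 2).aestronglyMeasurable
    (Filter.Eventually.of_forall fun β => sq_nonneg _)]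
  rw [zv_sq hw h]
  exact (RF.sq_fin hw h m).ne

theorem zv_mean [NeZero d] (hw : 0 < w) (h : RF w μ) (m a : ℕ) : ∫ β, zvY w m a β ∂μ = 1 := by
  rw [integral_eq_lintegral_of_nonneg_ae (zv_nonneg hw h m a)
    (zv_meas w m a).aestronglyMeasurable]
  have h1 := RF.mean_one hw h (zv_self (d := d) m a)
  unfold zvY
  rw [h1]
  rfl

theorem zv_sq_int [NeZero d] (hw : 0 < w) (h : RF w μ) (m a : ℕ) :
    ∫ β, zvY w m a β ^ 2 ∂μ =
      (∫⁻ β, ENNReal.ofReal (psiV w (box m) β 0 ^ 2) ∂μ).toReal := by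
  rw [integral_eq_lintegral_of_nonneg_ae (Filter.Eventually.of_forall fun β => sq_nonneg _)
    ((zv_meas w m a).pow_const 2).aestronglyMeasurable, zv_sq hw h]

theorem zv_near [NeZero d] (hw : 0 < w) (h : RF w μ) (m a b : ℕ) :
    ∫ β, zvY w m a β * zvY w m b β ∂μ ≤
      (∫⁻ β, ENNReal.ofReal (psiV w (box m) β 0 ^ 2) ∂μ).toReal := by
  have ha := zv_memLp hw h m a
  have hb := zv_memLp hw h m b
  have hia : Integrable (fun β => zvY w m a β ^ 2) μ := ha.integrable_sq
  have hib : Integrable (fun β => zvY w m b β ^ 2) μ := hb.integrable_sq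
  have hab : Integrable (fun β => zvY w m a β * zvY w m b β) μ := ha.integrable_mul hb
  have h1 : ∫ β, zvY w m a β * zvY w m b β ∂μ ≤
      ∫ β, (zvY w m a β ^ 2 / 2 + zvY w m b β ^ 2 / 2) ∂μ := by
    apply integral_mono hab ((hia.div_const 2).add (hib.div_const 2))
    intro β
    show zvY w m a β * zvY w m b β ≤ zvY w m a β ^ 2 / 2 + zvY w m b β ^ 2 / 2
    nlinarith [sq_nonneg (zvY w m a β - zvY w m b β)]
  rw [integral_add (hia.div_const 2) (hib.div_const 2), integral_div, integral_div,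
    zv_sq_int hw h, zv_sq_int hw h] at h1
  linarith

theorem zv_far_int [NeZero d] (hw : 0 < w) (h : RF w μ) (m : ℕ) {a b : ℕ}
    (hab : 2 * (m : ℤ) + 2 ≤ |(a : ℤ) - b|) :
    ∫ β, zvY w m a β * zvY w m b β ∂μ = 1 := by
  have hna := zv_nonneg hw h m a
  have hnb := zv_nonneg hw h m b
  have h0 : 0 ≤ᵐ[μ] fun β => zvY w m a β * zvY w m b β := by
    filter_upwards [hna, hnb] with β h1 h2
    exact mul_nonneg h1 h2
  have hms : Measurable fun β => zvY (d := d) w m a β * zvY w m b β :=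
    (zv_meas w m a).mul (zv_meas w m b)
  rw [integral_eq_lintegral_of_nonneg_ae h0 hms.aestronglyMeasurable]
  have h1 : ∫⁻ β, ENNReal.ofReal (zvY w m a β * zvY w m b β) ∂μ =
      ∫⁻ β, ENNReal.ofReal (zvY w m a β) * ENNReal.ofReal (zvY w m b β) ∂μ := by
    refine lintegral_congr_ae ?_
    filter_upwards [hna] with β h1
    exact ENNReal.ofReal_mul h1
  rw [h1]
  have hdisj : Disjoint (trans (box m) (Pi.single (0 : Fin d) (a : ℤ)))
      (trans (box m) (Pi.single (0 : Fin d) (b : ℤ))) := by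
    rw [Finset.disjoint_left]
    intro i hi hj
    exact (zv_far hab hi hj).1 rfl
  have h2 := VR.indep (μ := μ) (W := Wd w) hdisj (by
      intro i hi j hj
      have h3 := (zv_far hab hi hj).2
      unfold Wd
      rw [if_neg h3, if_neg (fun h4 => h3 (adj_symm.1 h4))]
      exact ⟨rfl, rfl⟩) (h.vr _)
    (F := fun β => ENNReal.ofReal (zvY w m a β)) (F' := fun β => ENNReal.ofReal (zvY w m b β))
    (zv_meas w m a).ennreal_ofReal (zv_meas w m b).ennreal_ofReal
    (by
      intro β β' hβ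
      have : zvY w m a β = zvY w m a β' := dependsOn_psiV w _ _ hβ
      simp only [this])
    (by
      intro β β' hβ
      have : zvY w m b β = zvY w m b β' := dependsOn_psiV w _ _ hβ
      simp only [this])
  rw [h2]
  have h3 : ∫⁻ β, ENNReal.ofReal (zvY w m a β) ∂μ = 1 := RF.mean_one hw h (zv_self (d := d) m a)
  have h4 : ∫⁻ β, ENNReal.ofReal (zvY w m b β) ∂μ = 1 := RF.mean_one hw h (zv_self (d := d) m b)
  rw [h3, h4]
  simp

theorem zv_count (m n : ℕ) {s : ℝ} (hs : 0 ≤ s) :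
    ∑ a ∈ Finset.range n, ∑ b ∈ Finset.range n,
      (if 2 * (m : ℤ) + 2 ≤ |(a : ℤ) - b| then (0 : ℝ) else s) ≤ n * ((4 * m + 3) * s) := by
  have h1 : ∀ a ∈ Finset.range n, ∑ b ∈ Finset.range n,
      (if 2 * (m : ℤ) + 2 ≤ |(a : ℤ) - b| then (0 : ℝ) else s) ≤ (4 * m + 3) * s := by
    intro a _
    calc ∑ b ∈ Finset.range n, (if 2 * (m : ℤ) + 2 ≤ |(a : ℤ) - b| then (0 : ℝ) else s)
        = ∑ b ∈ (Finset.range n).filter (fun b : ℕ => ¬ 2 * (m : ℤ) + 2 ≤ |(a : ℤ) - b|), s := by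
          rw [Finset.sum_filter]
          refine Finset.sum_congr rfl fun b _ => ?_
          by_cases hb : 2 * (m : ℤ) + 2 ≤ |(a : ℤ) - b|
          · rw [if_pos hb, if_neg (fun h => h hb)]
          · rw [if_neg hb, if_pos hb]
      _ ≤ ∑ b ∈ Finset.Icc (a - (2 * m + 1)) (a + (2 * m + 1)), s := by
          apply Finset.sum_le_sum_of_subset_of_nonneg
          · intro b hb
            rw [Finset.mem_filter] at hb
            rw [Finset.mem_Icc]
            have h2 := hb.2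
            rcases abs_cases ((a : ℤ) - b) with h | h <;> omega
          · intro _ _ _
            exact hs
      _ ≤ (4 * m + 3) * s := by
          rw [Finset.sum_const, nsmul_eq_mul, Nat.card_Icc]
          apply mul_le_mul_of_nonneg_right _ hs
          have : a + (2 * m + 1) + 1 - (a - (2 * m + 1)) ≤ 4 * m + 3 := by omega
          exact_mod_cast this
  calc ∑ a ∈ Finset.range n, ∑ b ∈ Finset.range n,
      (if 2 * (m : ℤ) + 2 ≤ |(a : ℤ) - b| then (0 : ℝ) else s)
      ≤ ∑ a ∈ Finset.range n, (4 * m + 3) * s := Finset.sum_le_sum h1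
    _ = n * ((4 * m + 3) * s) := by
      rw [Finset.sum_const, Finset.card_range, nsmul_eq_mul]

theorem zv_var [NeZero d] (hw : 0 < w) (h : RF w μ) (m n : ℕ) :
    ∫ β, (∑ a ∈ Finset.range n, (zvY w m a β - 1)) ^ 2 ∂μ ≤
      n * ((4 * m + 3) *
        (∫⁻ β, ENNReal.ofReal (psiV w (box m) β 0 ^ 2) ∂μ).toReal) := by
  have hprob : IsProbabilityMeasure μ := (h.vr ∅).prob
  set s : ℝ := (∫⁻ β, ENNReal.ofReal (psiV w (box m) β 0 ^ 2) ∂μ).toReal with hs
  have hs0 : 0 ≤ s := ENNReal.toReal_nonneg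
  have hZ : ∀ a, MemLp (fun β => zvY w m a β - 1) 2 μ := fun a =>
    (zv_memLp hw h m a).sub (memLp_const 1)
  have hI : ∀ a, Integrable (zvY w m a) μ := fun a =>
    (zv_memLp hw h m a).integrable one_le_two
  have hZZ : ∀ a b, Integrable (fun β => (zvY w m a β - 1) * (zvY w m b β - 1)) μ :=
    fun a b => (hZ a).integrable_mul (hZ b)
  have hYY : ∀ a b, Integrable (fun β => zvY w m a β * zvY w m b β) μ :=
    fun a b => (zv_memLp hw h m a).integrable_mul (zv_memLp hw h m b)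
  have h1 : ∫ β, (∑ a ∈ Finset.range n, (zvY w m a β - 1)) ^ 2 ∂μ =
      ∑ a ∈ Finset.range n, ∑ b ∈ Finset.range n,
        ∫ β, (zvY w m a β - 1) * (zvY w m b β - 1) ∂μ := by
    have h2 : ∀ β : Zd d → ℝ, (∑ a ∈ Finset.range n, (zvY w m a β - 1)) ^ 2 =
        ∑ a ∈ Finset.range n, ∑ b ∈ Finset.range n,
          (zvY w m a β - 1) * (zvY w m b β - 1) := by
      intro β
      rw [sq, Finset.sum_mul_sum]
    simp_rw [h2]
    rw [integral_finsetSum _ fun a _ => integrable_finsetSum _ fun b _ => hZZ a b]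
    refine Finset.sum_congr rfl fun a _ => ?_
    rw [integral_finsetSum _ fun b _ => hZZ a b]
  have h3 : ∀ a b, ∫ β, (zvY w m a β - 1) * (zvY w m b β - 1) ∂μ =
      ∫ β, zvY w m a β * zvY w m b β ∂μ - 1 := by
    intro a b
    have h4 : ∀ β : Zd d → ℝ, (zvY w m a β - 1) * (zvY w m b β - 1) =
        zvY w m a β * zvY w m b β - (zvY w m a β + zvY w m b β - 1) := by
      intro β; ring
    have h5 : Integrable (fun β => zvY w m a β + zvY w m b β) μ := (hI a).add (hI b)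
    have h6 : Integrable (fun β => zvY w m a β + zvY w m b β - 1) μ :=
      h5.sub (integrable_const 1)
    have h7 : ∫ (_ : Zd d → ℝ), (1 : ℝ) ∂μ = 1 := by simp
    simp_rw [h4]
    rw [integral_sub (hYY a b) h6, integral_sub h5 (integrable_const 1),
      integral_add (hI a) (hI b), zv_mean hw h, zv_mean hw h, h7]
    norm_num
  rw [h1]
  refine le_trans ?_ (zv_count m n hs0)
  refine Finset.sum_le_sum fun a _ => Finset.sum_le_sum fun b _ => ?_
  rw [h3]
  split_ifs with hab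
  · rw [zv_far_int hw h m hab, sub_self]
  · have := zv_near hw h m a b
    linarith

theorem RF.lln [NeZero d] (hw : 0 < w) (h : RF w μ) (m : ℕ) {ε : ℝ} (hε : 0 < ε) :
    ∃ N : ℕ, 1 ≤ N ∧ ∀ n, N ≤ n →
      ∫⁻ β, ENNReal.ofReal
        |(∑ x ∈ seg n, psiV w (trans (box m) x) β x) / n - 1| ∂μ ≤ ENNReal.ofReal ε := by
  have hprob : IsProbabilityMeasure μ := (h.vr ∅).prob
  set s : ℝ := (∫⁻ β, ENNReal.ofReal (psiV w (box m) β 0 ^ 2) ∂μ).toReal with hs
  have hs0 : 0 ≤ s := ENNReal.toReal_nonneg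
  refine ⟨max 1 ⌈(4 * m + 3) * s / ε ^ 2⌉₊, le_max_left _ _, ?_⟩
  intro n hn
  have hn1 : 1 ≤ n := le_trans (le_max_left _ _) hn
  have hn2 : (4 * m + 3) * s / ε ^ 2 ≤ n :=
    le_trans (Nat.le_ceil _) (by exact_mod_cast le_trans (le_max_right _ _) hn)
  have hnpos : (0 : ℝ) < n := by exact_mod_cast hn1
  have hn3 : (4 * m + 3) * s ≤ ε ^ 2 * n := by
    rw [div_le_iff₀ (by positivity)] at hn2
    linarith
  have hsum : ∀ β : Zd d → ℝ, ∑ x ∈ seg n, psiV w (trans (box m) x) β x =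
      ∑ a ∈ Finset.range n, zvY w m a β := by
    intro β
    unfold seg zvY
    rw [Finset.sum_image]
    intro a _ b _ hab
    have := congrFun hab 0
    simpa using this
  have hkey : ∀ β : Zd d → ℝ, (∑ x ∈ seg n, psiV w (trans (box m) x) β x) / n - 1 =
      (∑ a ∈ Finset.range n, (zvY w m a β - 1)) / n := by
    intro β
    rw [hsum, Finset.sum_sub_distrib]
    simp only [Finset.sum_const, Finset.card_range, nsmul_eq_mul, mul_one]
    field_simp
  have hSm : MemLp (fun β => ∑ a ∈ Finset.range n, (zvY w m a β - 1)) 2 μ :=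
    memLp_finsetSum _ fun a _ => (zv_memLp hw h m a).sub (memLp_const 1)
  have hSi : Integrable (fun β => (∑ a ∈ Finset.range n, (zvY w m a β - 1)) ^ 2) μ :=
    hSm.integrable_sq
  have hfi : Integrable (fun β => ε / 2 +
      (∑ a ∈ Finset.range n, (zvY w m a β - 1)) ^ 2 * (1 / (2 * ε * (n : ℝ) ^ 2))) μ :=
    (integrable_const _).add (hSi.mul_const _)
  calc ∫⁻ β, ENNReal.ofReal |(∑ x ∈ seg n, psiV w (trans (box m) x) β x) / n - 1| ∂μ
      ≤ ∫⁻ β, ENNReal.ofReal (ε / 2 +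
        (∑ a ∈ Finset.range n, (zvY w m a β - 1)) ^ 2 * (1 / (2 * ε * (n : ℝ) ^ 2))) ∂μ := by
        refine lintegral_mono fun β => ENNReal.ofReal_le_ofReal ?_
        rw [hkey]
        have h1 : (∑ a ∈ Finset.range n, (zvY w m a β - 1)) ^ 2 * (1 / (2 * ε * (n : ℝ) ^ 2)) =
            ((∑ a ∈ Finset.range n, (zvY w m a β - 1)) / n) ^ 2 / (2 * ε) := by
          field_simp
        rw [h1]
        set y : ℝ := (∑ a ∈ Finset.range n, (zvY w m a β - 1)) / n
        have h2 : 0 ≤ (|y| - ε) ^ 2 / (2 * ε) := by positivity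
        have h3 : (|y| - ε) ^ 2 / (2 * ε) = ε / 2 + y ^ 2 / (2 * ε) - |y| := by
          rw [← sq_abs y]
          field_simp
          ring
        linarith
    _ = ENNReal.ofReal (∫ β, (ε / 2 +
        (∑ a ∈ Finset.range n, (zvY w m a β - 1)) ^ 2 * (1 / (2 * ε * (n : ℝ) ^ 2))) ∂μ) := by
        rw [ofReal_integral_eq_lintegral_ofReal hfi]
        refine Filter.Eventually.of_forall fun β => ?_
        simp only [Pi.zero_apply]
        positivity
    _ ≤ ENNReal.ofReal ε := by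
        apply ENNReal.ofReal_le_ofReal
        rw [integral_add (integrable_const _) (hSi.mul_const _), integral_mul_const]
        have h1 := zv_var hw h m n
        rw [← hs] at h1
        have h2 : (∫ β, (∑ a ∈ Finset.range n, (zvY w m a β - 1)) ^ 2 ∂μ) *
            (1 / (2 * ε * (n : ℝ) ^ 2)) ≤ (n * ((4 * m + 3) * s)) * (1 / (2 * ε * (n : ℝ) ^ 2)) :=
          mul_le_mul_of_nonneg_right h1 (by positivity)
        have h3 : (n * ((4 * m + 3) * s)) * (1 / (2 * ε * (n : ℝ) ^ 2)) =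
            ((4 * m + 3) * s) / (2 * ε * n) := by
          field_simp
        have h4 : ((4 * m + 3) * s) / (2 * ε * n) ≤ ε / 2 := by
          rw [div_le_iff₀ (by positivity)]
          nlinarith
        have h5 : ∫ (_ : Zd d → ℝ), ε / 2 ∂μ = ε / 2 := by simp
        rw [h5]
        linarith

end VJ26
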